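import Pool.Agent.Work.AV081200.Interface

/-!
# Block CLS: normal form of the conductors in the class
-/

set_option autoImplicit false

open Finset

namespace Pool.Agent.Work.AV

namespace CLSaux

theorem exists_ge {a : ℝ} (ha : 0 < a) (M : ℝ) : ∃ Q0 : ℝ, ∀ Q : ℝ, Q0 ≤ Q → M ≤ Q ^ a :=
  Filter.eventually_atTop.1 ((tendsto_rpow_atTop ha).eventually_ge_atTop M)

theorem coprime_prod {A : Finset ℕ} (hA : ∀ q ∈ A, q.Prime) {p : ℕ} (hp : p.Prime) (hpA : p ∉ A) :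
    p.Coprime (∏ q ∈ A, q) :=
  Nat.Coprime.prod_right fun q hq => (Nat.coprime_primes hp (hA q hq)).2 fun h => hpA (h ▸ hq)

theorem mem_of_dvd_prod {A : Finset ℕ} (hA : ∀ q ∈ A, q.Prime) {p : ℕ} (hp : p.Prime)
    (h : p ∣ ∏ q ∈ A, q) : p ∈ A := by
  obtain ⟨q, hq, hpq⟩ := (hp.prime.dvd_finset_prod_iff _).1 h
  rw [(Nat.prime_dvd_prime_iff_eq hp (hA q hq)).1 hpq]
  exact hq

open Classical in
/-- the splitting of `f` by the primes `> Y` -/
theorem split {f g h r : ℕ} {Y : ℝ} (hf : 1 ≤ f) (hY : 5 ≤ Y) (hfe : f = g * h * r)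
    (hh : h = 1 ∨ h.Prime) (hr : ∀ p : ℕ, p.Prime → p ∣ r → (p : ℝ) ≤ Y)
    (hsq : ∀ p : ℕ, p.Prime → 5 ≤ p → ¬ p ^ 2 ∣ f) :
    ∃ (h' r' : ℕ) (T : Finset ℕ), (∀ q ∈ T, q.Prime) ∧ f = h' * (∏ q ∈ T, q) * r' ∧
      (h' = 1 ∨ (h'.Prime ∧ h' = h)) ∧ h' ∉ T ∧ (∏ q ∈ T, q) ∣ g ∧ (∀ q ∈ T, Y < (q : ℝ)) ∧
      (∀ p : ℕ, p.Prime → p ∣ r' → (p : ℝ) ≤ Y) ∧ (h' * ∏ q ∈ T, q).Coprime r' := by
  set T0 := f.primeFactors.filter (fun q : ℕ => Y < (q : ℝ)) with hT0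
  have hT0p : ∀ q ∈ T0, q.Prime ∧ q ∣ f ∧ Y < (q : ℝ) := by
    intro q hq
    rw [hT0, mem_filter] at hq
    exact ⟨Nat.prime_of_mem_primeFactors hq.1, Nat.dvd_of_mem_primeFactors hq.1, hq.2⟩
  have hd : (∏ q ∈ T0, q) ∣ f :=
    (prod_dvd_prod_of_subset _ _ _ (filter_subset _ _)).trans (Nat.prod_primeFactors_dvd f)
  obtain ⟨r', hr'⟩ := hd
  have hf0 : f ≠ 0 := by omega
  have hr'small : ∀ p : ℕ, p.Prime → p ∣ r' → (p : ℝ) ≤ Y := by
    intro p hp hpr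
    by_contra hcon
    rw [not_le] at hcon
    have hpf : p ∣ f := hr' ▸ hpr.mul_left _
    have hpT : p ∈ T0 := by
      rw [hT0, mem_filter]
      exact ⟨Nat.mem_primeFactors.2 ⟨hp, hpf, hf0⟩, hcon⟩
    have h5 : 5 ≤ p := by
      have : (5 : ℝ) < p := lt_of_le_of_lt hY hcon
      exact_mod_cast this.le
    refine hsq p hp h5 ?_
    rw [hr', pow_two]
    exact mul_dvd_mul (dvd_prod_of_mem _ hpT) hpr
  have hcop : (∏ q ∈ T0, q).Coprime r' := by
    refine Nat.Coprime.prod_left fun q hq => ?_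
    rw [(hT0p q hq).1.coprime_iff_not_dvd]
    intro hqr
    have := hr'small q (hT0p q hq).1 hqr
    exact absurd (hT0p q hq).2.2 (not_lt.2 this)
  have hg : ∀ q ∈ T0, q ≠ h → q ∣ g := by
    intro q hq hqh
    obtain ⟨hp, hdf, hqY⟩ := hT0p q hq
    rw [hfe] at hdf
    rcases (hp.dvd_mul).1 hdf with h1 | h1
    · rcases (hp.dvd_mul).1 h1 with h2 | h2
      · exact h2
      · rcases hh with rfl | hh
        · exact absurd (Nat.dvd_one.1 h2) hp.one_lt.ne'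
        · exact absurd ((Nat.prime_dvd_prime_iff_eq hp hh).1 h2) hqh
    · exact absurd hqY (not_lt.2 (hr q hp h1))
  by_cases hmem : h ∈ T0
  · refine ⟨h, r', T0.erase h, fun q hq => (hT0p q (mem_of_mem_erase hq)).1, ?_,
      Or.inr ⟨(hT0p h hmem).1, rfl⟩, notMem_erase _ _, ?_, fun q hq =>
        (hT0p q (mem_of_mem_erase hq)).2.2, hr'small, ?_⟩
    · rw [mul_prod_erase T0 (fun q => q) hmem]
      exact hr'
    · exact prod_primes_dvd g (fun q hq => (hT0p q (mem_of_mem_erase hq)).1.prime)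
        fun q hq => hg q (mem_of_mem_erase hq) (ne_of_mem_erase hq)
    · rw [mul_prod_erase T0 (fun q => q) hmem]
      exact hcop
  · refine ⟨1, r', T0, fun q hq => (hT0p q hq).1, ?_, Or.inl rfl, ?_, ?_, fun q hq =>
        (hT0p q hq).2.2, hr'small, ?_⟩
    · rw [one_mul]
      exact hr'
    · intro h1
      exact (hT0p 1 h1).1.one_lt.ne' rfl
    · exact prod_primes_dvd g (fun q hq => (hT0p q hq).1.prime)
        fun q hq => hg q hq fun h1 => hmem (h1 ▸ hq)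
    · rw [one_mul]
      exact hcop

theorem two_log {x : ℕ} (hx : 1 ≤ x) : 2 ^ Nat.log 2 x ≤ x ∧ x < 2 * 2 ^ Nat.log 2 x := by
  constructor
  · exact Nat.pow_log_le_self 2 (by omega)
  · have := Nat.lt_pow_succ_log_self (b := 2) (by norm_num) x
    rwa [pow_succ, mul_comm] at this

end CLSaux

open CLSaux

theorem stmt_CLS : Stmt_CLS := by
  classical
  intro n hn ε hε
  have hnR : (3 : ℝ) ≤ n := by exact_mod_cast hn
  have hn0 : (0 : ℝ) < n := by linarith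
  have hn1 : 1 / (n : ℝ) ≤ 1 := by
    rw [div_le_one hn0]
    linarith
  by_cases hε2 : ε ≤ 1 / 2
  swap
  · refine ⟨1 / 2, by norm_num, by norm_num, 0, 2, fun Q hQ => ⟨∅, by simp, by simp, ?_⟩⟩
    rintro f - - - - - ⟨g, h, r, B, -, -, h1, h2, -⟩
    exfalso
    have h3 : Q ^ ε ≤ Q ^ (1 / (n : ℝ) - ε) := h1.trans h2
    rw [Real.rpow_le_rpow_left_iff (by linarith)] at h3
    have h4 : 1 / (n : ℝ) ≤ 1 / 3 := one_div_le_one_div_of_le (by norm_num) hnR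
    linarith
  set ε' : ℝ := ε / 2 with hε'
  set τ : ℝ := ε / 4 with hτ
  have hε'0 : 0 < ε' := by positivity
  have hτ0 : 0 < τ := by positivity
  obtain ⟨Q1, hQ1⟩ := exists_ge hτ0 2
  obtain ⟨Q2, hQ2⟩ := exists_ge (by positivity : 0 < ε * (ε / 2)) 2
  obtain ⟨Q3, hQ3⟩ := exists_ge (by positivity : 0 < ε * (3 / 4)) 5
  refine ⟨ε', hε'0, by linarith, ⌈1 / τ⌉₊ + 2, max (max Q1 Q2) (max Q3 2), fun Q hQ => ?_⟩
  have hQa := hQ1 Q (((le_max_left _ _).trans (le_max_left _ _)).trans hQ)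
  have hQb := hQ2 Q (((le_max_right _ _).trans (le_max_left _ _)).trans hQ)
  have hQc := hQ3 Q (((le_max_left _ _).trans (le_max_right _ _)).trans hQ)
  have hQd : 2 ≤ Q := ((le_max_right _ _).trans (le_max_right _ _)).trans hQ
  have hQ0 : 0 < Q := by linarith
  have hQ1' : 1 ≤ Q := by linarith
  have hlogQ : 0 < Real.log Q := Real.log_pos (by linarith)
  refine ⟨((range (⌈1 / τ⌉₊ + 2)).image fun i : ℕ => ⌈Q ^ ((i : ℝ) * τ)⌉₊).filter fun B =>
    Q ^ ε' ≤ (B : ℝ) ∧ (B : ℝ) ≤ Q ^ (1 / (n : ℝ) - ε'), ?_, ?_, ?_⟩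
  · refine (card_filter_le _ _).trans (card_image_le.trans ?_)
    rw [card_range]
  · intro B hB
    exact (mem_filter.1 hB).2
  intro f hf1 hfQ hsq h27 h4 ⟨g, h, r, B0, hfe, hh, hB1, hB2, hr, hhB, hgB⟩
  -- the grid point
  have hB0 : 0 < B0 := lt_of_lt_of_le (Real.rpow_pos_of_pos hQ0 _) hB1
  set x : ℝ := Real.log B0 / Real.log Q with hx
  have hxB : Q ^ x = B0 := by
    rw [Real.rpow_def_of_pos hQ0, hx, mul_div_cancel₀ _ hlogQ.ne', Real.exp_log hB0]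
  have hxε : ε ≤ x := by
    rw [← hxB, Real.rpow_le_rpow_left_iff (by linarith)] at hB1
    exact hB1
  have hxn : x ≤ 1 / (n : ℝ) - ε := by
    rw [← hxB, Real.rpow_le_rpow_left_iff (by linarith)] at hB2
    exact hB2
  set i : ℕ := ⌈x / τ⌉₊ with hi
  have hxτ : 0 ≤ x / τ := div_nonneg (by linarith) hτ0.le
  have hi1 : x ≤ i * τ := by
    have := Nat.le_ceil (x / τ)
    rwa [div_le_iff₀ hτ0] at this
  have hi2 : (i : ℝ) * τ ≤ x + τ := by
    have h1 := (Nat.ceil_lt_add_one hxτ).le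
    have h2 := mul_le_mul_of_nonneg_right h1 hτ0.le
    rwa [add_mul, div_mul_cancel₀ _ hτ0.ne', one_mul] at h2
  have hiK : i < ⌈1 / τ⌉₊ + 2 := by
    have : i ≤ ⌈1 / τ⌉₊ := Nat.ceil_le_ceil (div_le_div_of_nonneg_right (by linarith) hτ0.le)
    omega
  set B : ℕ := ⌈Q ^ ((i : ℝ) * τ)⌉₊ with hB
  have hQi1 : 1 ≤ Q ^ ((i : ℝ) * τ) := Real.one_le_rpow hQ1' (by positivity)
  have hB0B : B0 ≤ B := by
    rw [← hxB]
    exact (Real.rpow_le_rpow_of_exponent_le hQ1' hi1).trans (Nat.le_ceil _)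
  have hBup : (B : ℝ) ≤ 2 * (B0 * Q ^ τ) := by
    have h1 : (B : ℝ) < Q ^ ((i : ℝ) * τ) + 1 := Nat.ceil_lt_add_one (by positivity)
    have h2 : Q ^ ((i : ℝ) * τ) ≤ B0 * Q ^ τ := by
      rw [← hxB, ← Real.rpow_add hQ0]
      exact Real.rpow_le_rpow_of_exponent_le hQ1' hi2
    linarith
  have hBup2 : (B : ℝ) ≤ Q ^ (2 * τ) * B0 := by
    have h1 : Q ^ (2 * τ) = Q ^ τ * Q ^ τ := by
      rw [← Real.rpow_add hQ0]
      congr 1
      ring
    have h2 : 0 < Q ^ τ := Real.rpow_pos_of_pos hQ0 _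
    rw [h1]
    nlinarith [mul_pos hB0 h2]
  have h2τ : 2 * τ = ε' := by rw [hτ, hε']; ring
  rw [h2τ] at hBup2
  have hBQ : (B : ℝ) ≤ Q ^ (1 / (n : ℝ) - ε') := by
    calc (B : ℝ) ≤ Q ^ ε' * B0 := hBup2
      _ ≤ Q ^ ε' * Q ^ (1 / (n : ℝ) - ε) := mul_le_mul_of_nonneg_left hB2 (by positivity)
      _ = Q ^ (1 / (n : ℝ) - ε') := by
        rw [← Real.rpow_add hQ0]
        congr 1
        rw [hε']
        ring
  have hQεB : Q ^ ε ≤ (B : ℝ) := hB1.trans hB0B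
  have hQB : Q ^ ε' ≤ (B : ℝ) :=
    (Real.rpow_le_rpow_of_exponent_le hQ1' (by rw [hε']; linarith)).trans hQεB
  have hBone : (1 : ℝ) ≤ B := (Real.one_le_rpow hQ1' hε.le).trans hQεB
  have hBpos : (0 : ℝ) < B := by linarith
  -- `Y`
  set Y : ℝ := (B : ℝ) ^ (1 - ε') with hY
  have hY5 : 5 ≤ Y := by
    calc (5 : ℝ) ≤ Q ^ (ε * (3 / 4)) := hQc
      _ = (Q ^ ε) ^ (3 / 4 : ℝ) := Real.rpow_mul hQ0.le _ _
      _ ≤ (B : ℝ) ^ (3 / 4 : ℝ) :=
        Real.rpow_le_rpow (Real.rpow_nonneg hQ0.le _) hQεB (by norm_num)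
      _ ≤ Y := Real.rpow_le_rpow_of_exponent_le hBone (by rw [hε']; linarith)
  have hrY : ∀ p : ℕ, p.Prime → p ∣ r → (p : ℝ) ≤ Y := by
    intro p hp hpr
    refine (hr p hp hpr).trans ?_
    calc B0 ^ (1 - ε) ≤ (B : ℝ) ^ (1 - ε) := Real.rpow_le_rpow hB0.le hB0B (by linarith)
      _ ≤ Y := Real.rpow_le_rpow_of_exponent_le hBone (by rw [hε']; linarith)
  obtain ⟨h', r', T, hTp, hfe', hh', hh'T, hTg, hTY, hr', hcop⟩ := split hf1 hY5 hfe hh hrY hsq
  have hfpos : 0 < f := hf1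
  have hg0 : 0 < g := by
    rcases Nat.eq_zero_or_pos g with h0 | h0
    · rw [h0, zero_mul, zero_mul] at hfe; omega
    · exact h0
  have hTpos : 0 < ∏ q ∈ T, q := prod_pos fun q hq => (hTp q hq).pos
  have hh'pos : 0 < h' := by
    rcases hh' with h1 | h1
    · rw [h1]; exact one_pos
    · exact h1.1.pos
  have hr'pos : 0 < r' := by
    rcases Nat.eq_zero_or_pos r' with h0 | h0
    · rw [h0, mul_zero] at hfe'; omega
    · exact h0
  have hBε : 2 ≤ (B : ℝ) ^ (ε / 2) := by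
    calc (2 : ℝ) ≤ Q ^ (ε * (ε / 2)) := hQb
      _ = (Q ^ ε) ^ (ε / 2) := Real.rpow_mul hQ0.le _ _
      _ ≤ (B : ℝ) ^ (ε / 2) :=
        Real.rpow_le_rpow (Real.rpow_nonneg hQ0.le _) hQεB (by positivity)
  have hh'B : (h' : ℝ) ≤ (B : ℝ) ^ (2 - ε) := by
    rcases hh' with h1 | h1
    · rw [h1, Nat.cast_one]
      exact Real.one_le_rpow hBone (by linarith)
    · rw [h1.2]
      exact hhB.trans (Real.rpow_le_rpow hB0.le hB0B (by linarith))
  rcases T.eq_empty_or_nonempty with hTe | ⟨p, hpT⟩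
  · -- no large prime factor
    left
    rw [hTe, prod_empty, mul_one] at hfe' hcop
    refine ⟨h', r', Y, hfe', hcop, by linarith, ?_, hr', ?_⟩
    · refine le_trans ?_ hBQ
      calc Y ≤ (B : ℝ) ^ (1 : ℝ) := Real.rpow_le_rpow_of_exponent_le hBone (by linarith)
        _ = B := Real.rpow_one _
    · have h1 : Y ^ 2 * (h' : ℝ) ≤ (B : ℝ) ^ (4 : ℝ) := by
        calc Y ^ 2 * (h' : ℝ) ≤ (B : ℝ) ^ (2 : ℝ) * (B : ℝ) ^ (2 - ε) := by
              refine mul_le_mul ?_ hh'B (Nat.cast_nonneg _) (by positivity)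
              rw [hY, ← Real.rpow_natCast, ← Real.rpow_mul hBpos.le]
              refine Real.rpow_le_rpow_of_exponent_le hBone ?_
              push_cast
              linarith
          _ = (B : ℝ) ^ (4 - ε) := by
            rw [← Real.rpow_add hBpos]
            congr 1
            ring
          _ ≤ (B : ℝ) ^ (4 : ℝ) := Real.rpow_le_rpow_of_exponent_le hBone (by linarith)
      calc Y ^ 2 * (h' : ℝ) ≤ (B : ℝ) ^ (4 : ℝ) := h1
        _ ≤ (Q ^ (1 / (n : ℝ) - ε')) ^ (4 : ℝ) := Real.rpow_le_rpow hBpos.le hBQ (by norm_num)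
        _ = Q ^ ((1 / (n : ℝ) - ε') * 4) := (Real.rpow_mul hQ0.le _ _).symm
        _ ≤ Q ^ (4 / (n : ℝ) - ε') := by
          refine Real.rpow_le_rpow_of_exponent_le hQ1' ?_
          have : (1 / (n : ℝ) - ε') * 4 = 4 / (n : ℝ) - 4 * ε' := by ring
          rw [this]
          linarith
  · -- a large prime factor
    right
    set m : ℕ := ∏ q ∈ T.erase p, q with hm
    have hpm : p * m = ∏ q ∈ T, q := mul_prod_erase T (fun q => q) hpT
    have hpp := hTp p hpT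
    have hmpos : 0 < m := prod_pos fun q hq => (hTp q (mem_of_mem_erase hq)).pos
    have hTep : ∀ q ∈ T.erase p, q.Prime := fun q hq => hTp q (mem_of_mem_erase hq)
    have hcop2 : (h' * (p * m)).Coprime r' := by rw [hpm]; exact hcop
    have hph' : p.Coprime h' := by
      rcases hh' with h1 | h1
      · rw [h1]; exact Nat.coprime_one_right p
      · exact (Nat.coprime_primes hpp h1.1).2 fun h2 => hh'T (h2 ▸ hpT)
    have hh'm : h'.Coprime m := by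
      rcases hh' with h1 | h1
      · rw [h1]; exact Nat.coprime_one_left m
      · exact coprime_prod hTep h1.1 fun h2 => hh'T (mem_of_mem_erase h2)
    have hpm' : p.Coprime m := coprime_prod hTep hpp (notMem_erase _ _)
    have hmr : m.Coprime r' := Nat.Coprime.coprime_dvd_left ⟨h' * p, by ring⟩ hcop2
    refine ⟨B, ?_, Nat.log 2 p, Nat.log 2 h', Nat.log 2 r', Nat.log 2 m,
      ⟨p, h', r', m, ?_, hph', ?_, ?_, ?_, hTY p hpT, ?_, ?_, ?_⟩, ?_, ?_⟩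
    · rw [mem_filter, mem_image]
      exact ⟨⟨i, mem_range.2 hiK, rfl⟩, hQB, hBQ⟩
    · rw [hfe', ← hpm]
      ring
    · exact Nat.Coprime.coprime_dvd_left ⟨m, by ring⟩ hcop2
    · exact Nat.Coprime.mul_left (Nat.Coprime.mul_left hpm' hh'm) hmr.symm
    · obtain ⟨a1, a2⟩ := two_log hpp.pos
      exact ⟨a1, a2, hpp⟩
    · obtain ⟨a1, a2⟩ := two_log hh'pos
      refine ⟨a1, a2, ?_⟩
      rcases hh' with h1 | h1
      · exact Or.inl h1
      · exact Or.inr h1.1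
    · obtain ⟨a1, a2⟩ := two_log hr'pos
      exact ⟨a1, a2, hr'⟩
    · obtain ⟨a1, a2⟩ := two_log hmpos
      refine ⟨a1, a2, fun q hq hqm => ?_⟩
      exact hTY q (mem_of_mem_erase (mem_of_dvd_prod hTep hq hqm))
    · have h1 : ((2 ^ Nat.log 2 h' : ℕ) : ℝ) ≤ (B : ℝ) ^ (2 - ε) :=
        le_trans (by exact_mod_cast (two_log hh'pos).1) hh'B
      calc 2 * ((2 ^ Nat.log 2 h' : ℕ) : ℝ) ≤ (B : ℝ) ^ (ε / 2) * (B : ℝ) ^ (2 - ε) :=
            mul_le_mul hBε h1 (Nat.cast_nonneg _) (by positivity)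
        _ = (B : ℝ) ^ (2 - ε') := by
          rw [← Real.rpow_add hBpos]
          congr 1
          rw [hε']
          ring
    · have h1 : ((2 ^ Nat.log 2 p : ℕ) : ℝ) * ((2 ^ Nat.log 2 m : ℕ) : ℝ) ≤ g := by
        have h2 : 2 ^ Nat.log 2 p * 2 ^ Nat.log 2 m ≤ g := by
          calc 2 ^ Nat.log 2 p * 2 ^ Nat.log 2 m ≤ p * m :=
                Nat.mul_le_mul (two_log hpp.pos).1 (two_log hmpos).1
            _ = ∏ q ∈ T, q := hpm
            _ ≤ g := Nat.le_of_dvd hg0 hTg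
        exact_mod_cast h2
      calc ((2 ^ Nat.log 2 p : ℕ) : ℝ) * ((2 ^ Nat.log 2 m : ℕ) : ℝ) * B ≤ g * (Q ^ ε' * B0) :=
            mul_le_mul h1 hBup2 hBpos.le (Nat.cast_nonneg _)
        _ = Q ^ ε' * (g * B0) := by ring
        _ ≤ Q ^ ε' * Q ^ (4 / (n : ℝ) - ε) := mul_le_mul_of_nonneg_left hgB (by positivity)
        _ = Q ^ (4 / (n : ℝ) - ε') := by
          rw [← Real.rpow_add hQ0]
          congr 1
          rw [hε']
          ring

end Pool.Agent.Work.AV
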