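import Pool.Agent.Work.AV081200.Interface

/-!
# MP_081200_nt, block COUNT: few tuples of data have a small non-trivial part.

Rankin's trick: the weighted count is bounded by a product over the local moduli of local sums.
-/

set_option autoImplicit false

namespace Pool.Agent.Work.AV

open Finset Pool.Agent.Work.LV Pool.Agent.Work.LV.M Pool.Agent.Work.SC

namespace COUNTB

/-- non-triviality of a local vector -/
def NTl (j p : ℕ) (v : Ix j → ℕ) : Prop :=
  p.Prime ∧ ∃ t : ZMod p,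
    (∑ i : Fin j, mk p (v (Sum.inl i)) t) - ∑ i : Fin j, mk p (v (Sum.inr i)) t ≠ 0

/-- admissible local vectors -/
def Gd (j p : ℕ) (v : Ix j → ℕ) : Prop := ∀ i, v i ≠ 0 → LM p ∧ v i ≤ 2 * p

/-- the local weight of a non-zero coordinate -/
noncomputable def zz (η : ℝ) (p : ℕ) : ℝ := (p : ℝ) ^ (-(1 + η))

/-- weight of the coordinates -/
noncomputable def w1 (j : ℕ) (η : ℝ) (p : ℕ) (v : Ix j → ℕ) : ℝ :=
  ∏ i, (if v i = 0 then (1 : ℝ) else zz η p)

open Classical in
/-- weight of the non-triviality -/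
noncomputable def w2 (j : ℕ) (p : ℕ) (v : Ix j → ℕ) : ℝ :=
  if NTl j p v then ((p : ℝ) ^ 2)⁻¹ else 1

open Classical in
/-- local weight -/
noncomputable def w (j : ℕ) (η : ℝ) (p : ℕ) (v : Ix j → ℕ) : ℝ :=
  if Gd j p v then w1 j η p v * w2 j p v else 0

lemma zz_nonneg (η : ℝ) (p : ℕ) : 0 ≤ zz η p := Real.rpow_nonneg (by positivity) _

lemma zz_le_one (η : ℝ) (hη : 0 < η) (p : ℕ) : zz η p ≤ 1 := by
  unfold zz
  rcases Nat.eq_zero_or_pos p with h | h
  · subst h
    rw [Nat.cast_zero, Real.zero_rpow (by linarith)]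
    norm_num
  · exact Real.rpow_le_one_of_one_le_of_nonpos (by exact_mod_cast h) (by linarith)

lemma p_zz (η : ℝ) (hη : 0 < η) (p : ℕ) : (p : ℝ) * zz η p ≤ 1 := by
  unfold zz
  rcases Nat.eq_zero_or_pos p with h | h
  · subst h
    simp
  · have hp : (0 : ℝ) < p := by exact_mod_cast h
    have h1 : (p : ℝ) * (p : ℝ) ^ (-(1 + η)) = (p : ℝ) ^ (-η) := by
      nth_rewrite 1 [← Real.rpow_one (p : ℝ)]
      rw [← Real.rpow_add hp]
      congr 1
      ring
    rw [h1]
    exact Real.rpow_le_one_of_one_le_of_nonpos (by exact_mod_cast h) (by linarith)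

lemma p_zz_sq (η : ℝ) (p : ℕ) (hp : 1 ≤ p) :
    (p : ℝ) * zz η p ^ 2 = (p : ℝ) ^ (-(1 + 2 * η)) := by
  have hp' : (0 : ℝ) < p := by exact_mod_cast hp
  unfold zz
  rw [← Real.rpow_natCast ((p : ℝ) ^ (-(1 + η))) 2, ← Real.rpow_mul hp'.le]
  nth_rewrite 1 [← Real.rpow_one (p : ℝ)]
  rw [← Real.rpow_add hp']
  congr 1
  push_cast
  ring

lemma w1_nonneg (j : ℕ) (η : ℝ) (p : ℕ) (v : Ix j → ℕ) : 0 ≤ w1 j η p v := by
  unfold w1
  refine Finset.prod_nonneg fun i _ => ?_
  split_ifs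
  · norm_num
  · exact zz_nonneg η p

lemma w1_le_one (j : ℕ) (η : ℝ) (hη : 0 < η) (p : ℕ) (v : Ix j → ℕ) : w1 j η p v ≤ 1 := by
  unfold w1
  refine Finset.prod_le_one (fun i _ => ?_) (fun i _ => ?_)
  · split_ifs
    · norm_num
    · exact zz_nonneg η p
  · split_ifs
    · norm_num
    · exact zz_le_one η hη p

lemma inv_sq_le_one (p : ℕ) : ((p : ℝ) ^ 2)⁻¹ ≤ 1 := by
  rcases Nat.eq_zero_or_pos p with h | h
  · subst h
    simp
  · have : (1 : ℝ) ≤ p := by exact_mod_cast h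
    exact inv_le_one_of_one_le₀ (by nlinarith)

lemma w2_nonneg (j p : ℕ) (v : Ix j → ℕ) : 0 ≤ w2 j p v := by
  unfold w2
  split_ifs
  · positivity
  · norm_num

lemma w2_le_one (j p : ℕ) (v : Ix j → ℕ) : w2 j p v ≤ 1 := by
  unfold w2
  split_ifs
  · exact inv_sq_le_one p
  · norm_num

lemma w_nonneg (j : ℕ) (η : ℝ) (p : ℕ) (v : Ix j → ℕ) : 0 ≤ w j η p v := by
  unfold w
  split_ifs
  · exact mul_nonneg (w1_nonneg j η p v) (w2_nonneg j p v)
  · norm_num

lemma card_Ix (j : ℕ) : Fintype.card (Ix j) = 2 * j := by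
  simp [Ix, two_mul]

/-- sum of the coordinate weights of the admissible vectors -/
lemma sum_w1 (j : ℕ) (η : ℝ) (p R : ℕ) (S : Finset (Ix j → ℕ))
    (hS : ∀ v ∈ S, v ∈ Fintype.piFinset (fun _ : Ix j => range R) ∧ ∀ i, v i ≠ 0 → v i ≤ 2 * p) :
    ∑ v ∈ S, w1 j η p v ≤ (1 + 2 * p * zz η p) ^ (2 * j) := by
  set g : ℕ → ℝ := fun x => if x = 0 then 1 else if x ≤ 2 * p then zz η p else 0 with hg
  have hg0 : ∀ x, 0 ≤ g x := by
    intro x
    simp only [hg]
    split_ifs
    · norm_num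
    · exact zz_nonneg η p
    · norm_num
  have h1 : ∀ v ∈ S, w1 j η p v = ∏ i, g (v i) := by
    intro v hv
    unfold w1
    refine Finset.prod_congr rfl fun i _ => ?_
    simp only [hg]
    by_cases h : v i = 0
    · simp [h]
    · simp [h, (hS v hv).2 i h]
  rw [Finset.sum_congr rfl h1]
  have h2 : ∑ v ∈ S, ∏ i, g (v i) ≤
      ∑ v ∈ Fintype.piFinset (fun _ : Ix j => range R), ∏ i, g (v i) :=
    Finset.sum_le_sum_of_subset_of_nonneg (fun v hv => (hS v hv).1)
      fun v _ _ => Finset.prod_nonneg fun i _ => hg0 _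
  refine h2.trans ?_
  have h3 : ∑ v ∈ Fintype.piFinset (fun _ : Ix j => range R), ∏ i, g (v i) =
      ∏ _i : Ix j, ∑ x ∈ range R, g x :=
    (Finset.prod_univ_sum (fun _ : Ix j => range R) fun _ x => g x).symm
  rw [h3, Finset.prod_const, Finset.card_univ, card_Ix]
  have h4 : ∑ x ∈ range R, g x ≤ 1 + 2 * p * zz η p := by
    have h5 : ∀ x ∈ range R, g x ≤ (if x = 0 then (1 : ℝ) else 0) +
        (if x ∈ Icc 1 (2 * p) then zz η p else 0) := by
      intro x _
      simp only [hg]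
      by_cases hx : x = 0
      · subst hx
        simp
      · by_cases hx2 : x ≤ 2 * p
        · have : x ∈ Icc 1 (2 * p) := Finset.mem_Icc.mpr ⟨Nat.one_le_iff_ne_zero.mpr hx, hx2⟩
          rw [if_neg hx, if_pos hx2, if_pos this]
          simp [hx]
        · rw [if_neg hx, if_neg hx2]
          refine add_nonneg ?_ ?_
          · split_ifs <;> norm_num
          · split_ifs
            · exact zz_nonneg η p
            · norm_num
    refine (Finset.sum_le_sum h5).trans ?_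
    rw [Finset.sum_add_distrib]
    refine add_le_add ?_ ?_
    · rw [Finset.sum_ite_eq']
      split_ifs <;> norm_num
    · rw [← Finset.sum_filter, Finset.sum_const, nsmul_eq_mul]
      refine mul_le_mul_of_nonneg_right ?_ (zz_nonneg η p)
      have : (Finset.filter (fun x => x ∈ Icc 1 (2 * p)) (range R)).card ≤ (Icc 1 (2 * p)).card :=
        Finset.card_le_card fun x hx => (Finset.mem_filter.mp hx).2
      rw [Nat.card_Icc] at this
      have h6 : (Finset.filter (fun x => x ∈ Icc 1 (2 * p)) (range R)).card ≤ 2 * p := by omega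
      exact_mod_cast h6
  exact pow_le_pow_left₀ (Finset.sum_nonneg fun x _ => hg0 x) h4 _

/-- the classes hit by a local vector -/
def cls (j p : ℕ) (v : Ix j → ℕ) : Finset ℕ :=
  ((univ : Finset (Ix j)).filter fun i => v i ≠ 0).image fun i => (v i - 1) % p

lemma cls_card_le (j p : ℕ) (v : Ix j → ℕ) : (cls j p v).card ≤ 2 * j := by
  unfold cls
  refine Finset.card_image_le.trans ?_
  refine (Finset.card_filter_le _ _).trans ?_
  rw [Finset.card_univ, card_Ix]

lemma ex_ne (p k : ℕ) (hp : 0 < p) (_hk : k ≠ 0) (hk2 : k ≤ 2 * p) : ex p k ≠ 0 := by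
  unfold ex
  have h1 : (k - 1) / p < 2 := by
    rw [Nat.div_lt_iff_lt_mul hp]
    omega
  have h2 : (k - 1) / p = 0 ∨ (k - 1) / p = 1 := by
    generalize (k - 1) / p = m at h1
    omega
  rcases h2 with h | h
  · rw [h]
    decide
  · rw [h]
    decide

/-- a class hit by a trivial vector is hit twice -/
lemma hit_twice (j p : ℕ) (hp : p.Prime) (v : Ix j → ℕ) (hv : ∀ i, v i ≠ 0 → v i ≤ 2 * p)
    (hNT : ¬ NTl j p v) (i : Ix j) (hi : v i ≠ 0) :
    ∃ i', i' ≠ i ∧ v i' ≠ 0 ∧ (v i' - 1) % p = (v i - 1) % p := by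
  by_contra hcon
  push Not at hcon
  apply hNT
  refine ⟨hp, (((v i - 1) % p : ℕ) : ZMod p), ?_⟩
  have hz : ∀ i', i' ≠ i → mk p (v i') (((v i - 1) % p : ℕ) : ZMod p) = 0 := by
    intro i' hi'
    unfold mk
    rw [if_neg]
    rintro ⟨h1, h2⟩
    apply hcon i' hi' h1
    rw [ZMod.natCast_eq_natCast_iff'] at h2
    rwa [Nat.mod_mod, Nat.mod_mod] at h2
  have hnz : mk p (v i) (((v i - 1) % p : ℕ) : ZMod p) ≠ 0 := by
    unfold mk
    rw [if_pos ⟨hi, rfl⟩]
    exact ex_ne p (v i) hp.pos hi (hv i hi)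
  rcases i with i | i
  · have h1 : ∑ i' : Fin j, mk p (v (Sum.inl i')) (((v (Sum.inl i) - 1) % p : ℕ) : ZMod p) =
        mk p (v (Sum.inl i)) (((v (Sum.inl i) - 1) % p : ℕ) : ZMod p) := by
      refine Finset.sum_eq_single i (fun b _ hb => hz _ ?_) (fun h => absurd (Finset.mem_univ _) h)
      intro h
      exact hb (Sum.inl_injective h)
    have h2 : ∑ i' : Fin j, mk p (v (Sum.inr i')) (((v (Sum.inl i) - 1) % p : ℕ) : ZMod p) = 0 :=
      Finset.sum_eq_zero fun b _ => hz _ (by simp)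
    rw [h1, h2, sub_zero]
    exact hnz
  · have h1 : ∑ i' : Fin j, mk p (v (Sum.inr i')) (((v (Sum.inr i) - 1) % p : ℕ) : ZMod p) =
        mk p (v (Sum.inr i)) (((v (Sum.inr i) - 1) % p : ℕ) : ZMod p) := by
      refine Finset.sum_eq_single i (fun b _ hb => hz _ ?_) (fun h => absurd (Finset.mem_univ _) h)
      intro h
      exact hb (Sum.inr_injective h)
    have h2 : ∑ i' : Fin j, mk p (v (Sum.inl i')) (((v (Sum.inr i) - 1) % p : ℕ) : ZMod p) = 0 :=
      Finset.sum_eq_zero fun b _ => hz _ (by simp)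
    rw [h1, h2, zero_sub, neg_ne_zero]
    exact hnz

lemma two_cls (j p : ℕ) (hp : p.Prime) (v : Ix j → ℕ) (hv : ∀ i, v i ≠ 0 → v i ≤ 2 * p)
    (hNT : ¬ NTl j p v) :
    2 * (cls j p v).card ≤ ((univ : Finset (Ix j)).filter fun i => v i ≠ 0).card := by
  unfold cls
  refine Finset.mul_card_image_le_card _ 2 ?_
  intro a ha
  obtain ⟨i, hi, rfl⟩ := Finset.mem_image.mp ha
  rw [Finset.mem_filter] at hi
  obtain ⟨i', h1, h2, h3⟩ := hit_twice j p hp v hv hNT i hi.2
  have : ({i, i'} : Finset (Ix j)) ⊆ Finset.filter (fun x => (v x - 1) % p = (v i - 1) % p)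
      ((univ : Finset (Ix j)).filter fun i => v i ≠ 0) := by
    intro x hx
    rw [Finset.mem_insert, Finset.mem_singleton] at hx
    rw [Finset.mem_filter, Finset.mem_filter]
    rcases hx with rfl | rfl
    · exact ⟨⟨Finset.mem_univ _, hi.2⟩, rfl⟩
    · exact ⟨⟨Finset.mem_univ _, h2⟩, h3⟩
  have h4 := Finset.card_le_card this
  rwa [Finset.card_pair h1.symm] at h4

lemma w1_eq (j : ℕ) (η : ℝ) (p : ℕ) (v : Ix j → ℕ) :
    w1 j η p v = zz η p ^ ((univ : Finset (Ix j)).filter fun i => v i ≠ 0).card := by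
  unfold w1
  rw [← Finset.prod_const, Finset.prod_filter]
  refine Finset.prod_congr rfl fun i _ => ?_
  by_cases h : v i = 0
  · simp [h]
  · simp [h]

/-- number of vectors with given classes -/
lemma card_cls (j p : ℕ) (hp : 0 < p) (U : Finset ℕ) (S : Finset (Ix j → ℕ))
    (hS : ∀ v ∈ S, (∀ i, v i ≠ 0 → v i ≤ 2 * p) ∧ cls j p v = U) :
    S.card ≤ (2 * U.card + 1) ^ (2 * j) := by
  set G : Finset ℕ := insert 0 ((U ×ˢ range 2).image fun x => 1 + x.1 + p * x.2) with hG
  have h1 : S ⊆ Fintype.piFinset fun _ : Ix j => G := by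
    intro v hv
    rw [Fintype.mem_piFinset]
    intro i
    rw [hG, Finset.mem_insert]
    by_cases hi : v i = 0
    · exact Or.inl hi
    · right
      rw [Finset.mem_image]
      refine ⟨((v i - 1) % p, (v i - 1) / p), ?_, ?_⟩
      · rw [Finset.mem_product]
        refine ⟨?_, ?_⟩
        · rw [← (hS v hv).2]
          unfold cls
          exact Finset.mem_image.mpr ⟨i, Finset.mem_filter.mpr ⟨Finset.mem_univ _, hi⟩, rfl⟩
        · rw [Finset.mem_range]
          change (v i - 1) / p < 2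
          rw [Nat.div_lt_iff_lt_mul hp]
          have := (hS v hv).1 i hi
          omega
      · have := Nat.mod_add_div (v i - 1) p
        simp only
        omega
  have h2 := Finset.card_le_card h1
  rw [Fintype.card_piFinset, Finset.prod_const, Finset.card_univ, card_Ix] at h2
  refine h2.trans (Nat.pow_le_pow_left ?_ _)
  rw [hG]
  refine (Finset.card_insert_le _ _).trans ?_
  have h3 : ((U ×ˢ range 2).image fun x => 1 + x.1 + p * x.2).card ≤ (U ×ˢ range 2).card :=
    Finset.card_image_le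
  rw [Finset.card_product, Finset.card_range] at h3
  omega

/-- sum over the trivial non-zero vectors -/
lemma sum_triv (j : ℕ) (η : ℝ) (hη : 0 < η) (p : ℕ) (hp : p.Prime) (S : Finset (Ix j → ℕ))
    (hS : ∀ v ∈ S, (∀ i, v i ≠ 0 → v i ≤ 2 * p) ∧ ¬ NTl j p v ∧ v ≠ 0) :
    ∑ v ∈ S, w1 j η p v ≤ (4 * j + 1) ^ (2 * j) * (2 * (p : ℝ) ^ (-(1 + 2 * η))) := by
  have hmaps : ∀ v ∈ S, cls j p v ∈ (range p).powerset.erase ∅ := by
    intro v hv
    rw [Finset.mem_erase]
    refine ⟨?_, ?_⟩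
    · obtain ⟨i, hi⟩ := Function.ne_iff.mp (hS v hv).2.2
      intro h
      have : (v i - 1) % p ∈ cls j p v :=
        Finset.mem_image.mpr ⟨i, Finset.mem_filter.mpr ⟨Finset.mem_univ _, hi⟩, rfl⟩
      rw [h] at this
      exact absurd this (Finset.notMem_empty _)
    · rw [Finset.mem_powerset]
      intro x hx
      obtain ⟨i, _, rfl⟩ := Finset.mem_image.mp hx
      exact Finset.mem_range.mpr (Nat.mod_lt _ hp.pos)
  rw [← Finset.sum_fiberwise_of_maps_to hmaps]
  have hz0 := zz_nonneg η p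
  have hz1 := zz_le_one η hη p
  have hb : ∀ U ∈ (range p).powerset.erase ∅,
      ∑ v ∈ S with cls j p v = U, w1 j η p v ≤
        (4 * j + 1) ^ (2 * j) * (zz η p ^ 2) ^ U.card := by
    intro U _
    by_cases hne : (S.filter fun v => cls j p v = U).Nonempty
    · have hU : U.card ≤ 2 * j := by
        obtain ⟨v, hv⟩ := hne
        rw [← (Finset.mem_filter.mp hv).2]
        exact cls_card_le j p v
      have h1 : ∀ v ∈ S.filter (fun v => cls j p v = U), w1 j η p v ≤ (zz η p ^ 2) ^ U.card := by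
        intro v hv
        rw [Finset.mem_filter] at hv
        rw [w1_eq, ← pow_mul]
        refine pow_le_pow_of_le_one hz0 hz1 ?_
        rw [← hv.2]
        exact two_cls j p hp v (hS v hv.1).1 (hS v hv.1).2.1
      refine (Finset.sum_le_sum h1).trans ?_
      rw [Finset.sum_const, nsmul_eq_mul]
      refine mul_le_mul_of_nonneg_right ?_ (by positivity)
      have h2 := card_cls j p hp.pos U (S.filter fun v => cls j p v = U) (by
        intro v hv
        rw [Finset.mem_filter] at hv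
        exact ⟨(hS v hv.1).1, hv.2⟩)
      have h3 : (2 * U.card + 1) ^ (2 * j) ≤ (4 * j + 1) ^ (2 * j) :=
        Nat.pow_le_pow_left (by omega) _
      exact_mod_cast h2.trans h3
    · rw [Finset.not_nonempty_iff_eq_empty] at hne
      rw [hne, Finset.sum_empty]
      positivity
  refine (Finset.sum_le_sum hb).trans ?_
  rw [← Finset.mul_sum]
  refine mul_le_mul_of_nonneg_left ?_ (by positivity)
  set y : ℝ := zz η p ^ 2 with hy
  have hy0 : 0 ≤ y := by positivity
  have hpy : (p : ℝ) * y = (p : ℝ) ^ (-(1 + 2 * η)) := p_zz_sq η p hp.one_lt.le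
  have hpy1 : (p : ℝ) * y ≤ 1 := by
    rw [hpy]
    exact Real.rpow_le_one_of_one_le_of_nonpos (by exact_mod_cast hp.one_lt.le) (by linarith)
  have h1 : ∑ U ∈ (range p).powerset, y ^ U.card = (1 + y) ^ p := by
    have := Finset.sum_pow_mul_eq_add_pow y (1 : ℝ) (range p)
    simp only [one_pow, mul_one, Finset.card_range] at this
    rw [this, add_comm]
  have h2 : ∑ U ∈ (range p).powerset.erase ∅, y ^ U.card = (1 + y) ^ p - 1 := by
    rw [← h1, ← Finset.sum_erase_add _ _ (Finset.empty_mem_powerset (range p))]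
    simp
  rw [h2, ← hpy]
  have h3 : (1 + y) ^ p ≤ Real.exp (p * y) := by
    rw [Real.exp_nat_mul]
    refine pow_le_pow_left₀ (by positivity) ?_ _
    rw [add_comm]
    exact Real.add_one_le_exp y
  have h4 : Real.exp (p * y) - 1 ≤ 2 * (p * y) := by
    have h5 : |(p : ℝ) * y| ≤ 1 := by
      rw [abs_of_nonneg (by positivity)]
      exact hpy1
    have h6 := Real.abs_exp_sub_one_le h5
    rw [abs_of_nonneg (by positivity : (0 : ℝ) ≤ (p : ℝ) * y)] at h6
    exact (le_abs_self _).trans h6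
  linarith

open Classical in
/-- bound for the local sums -/
lemma local_sum (j : ℕ) (η : ℝ) (hη : 0 < η) (hη2 : η ≤ 1 / 2) :
    ∃ C : ℝ, 0 ≤ C ∧ ∀ p R : ℕ,
      ∑ v ∈ Fintype.piFinset (fun _ : Ix j => range R), w j η p v ≤
        1 + C * (p : ℝ) ^ (-(1 + 2 * η)) := by
  refine ⟨(4 * j + 1) ^ (2 * j) * 2 + 3 ^ (2 * j) + 19 ^ (2 * j) * 81, by positivity, ?_⟩
  intro p R
  set S := Fintype.piFinset (fun _ : Ix j => range R) with hS
  have h0 : ∑ v ∈ S, w j η p v = ∑ v ∈ S.filter (fun v => Gd j p v), w1 j η p v * w2 j p v := by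
    rw [Finset.sum_filter]
    rfl
  rw [h0]
  have hp0 : 0 ≤ (p : ℝ) ^ (-(1 + 2 * η)) := Real.rpow_nonneg (by positivity) _
  have hw12 : ∀ v, w1 j η p v * w2 j p v ≤ w1 j η p v := fun v =>
    mul_le_of_le_one_right (w1_nonneg j η p v) (w2_le_one j p v)
  by_cases hL : LM p
  · rcases hL with ⟨hp, _⟩ | h9
    · -- primes
      set A := S.filter (fun v => Gd j p v) with hA
      have hAv : ∀ v ∈ A, ∀ i, v i ≠ 0 → v i ≤ 2 * p := by
        intro v hv i hi
        exact ((Finset.mem_filter.mp hv).2 i hi).2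
      rw [← Finset.sum_filter_add_sum_filter_not A (fun v => NTl j p v)]
      have h1 : ∑ v ∈ A.filter (fun v => NTl j p v), w1 j η p v * w2 j p v ≤
          3 ^ (2 * j) * (p : ℝ) ^ (-(1 + 2 * η)) := by
        have h2 : ∀ v ∈ A.filter (fun v => NTl j p v),
            w1 j η p v * w2 j p v = w1 j η p v * ((p : ℝ) ^ 2)⁻¹ := by
          intro v hv
          unfold w2
          rw [if_pos (Finset.mem_filter.mp hv).2]
        rw [Finset.sum_congr rfl h2, ← Finset.sum_mul]
        have h3 := sum_w1 j η p R (A.filter (fun v => NTl j p v)) (by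
          intro v hv
          rw [Finset.mem_filter] at hv
          exact ⟨(Finset.mem_filter.mp hv.1).1, hAv v hv.1⟩)
        have h4 : (1 + 2 * p * zz η p) ^ (2 * j) ≤ (3 : ℝ) ^ (2 * j) := by
          refine pow_le_pow_left₀ ?_ ?_ _
          · have := zz_nonneg η p
            positivity
          · have := p_zz η hη p
            nlinarith
        have h5 : ((p : ℝ) ^ 2)⁻¹ ≤ (p : ℝ) ^ (-(1 + 2 * η)) := by
          rw [← Real.rpow_natCast, ← Real.rpow_neg (by positivity)]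
          refine Real.rpow_le_rpow_of_exponent_le (by exact_mod_cast hp.one_lt.le) ?_
          push_cast
          linarith
        exact mul_le_mul (h3.trans h4) h5 (by positivity) (by positivity)
      have h6 : ∑ v ∈ A.filter (fun v => ¬ NTl j p v), w1 j η p v * w2 j p v ≤
          1 + (4 * j + 1) ^ (2 * j) * (2 * (p : ℝ) ^ (-(1 + 2 * η))) := by
        refine (Finset.sum_le_sum fun v _ => hw12 v).trans ?_
        rw [← Finset.sum_filter_add_sum_filter_not (A.filter (fun v => ¬ NTl j p v))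
          (fun v => v = 0)]
        refine add_le_add ?_ ?_
        · have h7 : (A.filter (fun v => ¬ NTl j p v)).filter (fun v => v = 0) ⊆ {0} := by
            intro v hv
            rw [Finset.mem_singleton]
            exact (Finset.mem_filter.mp hv).2
          refine (Finset.sum_le_sum_of_subset_of_nonneg h7
            fun v _ _ => w1_nonneg j η p v).trans ?_
          rw [Finset.sum_singleton]
          exact w1_le_one j η hη p 0
        · refine sum_triv j η hη p hp _ ?_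
          intro v hv
          rw [Finset.mem_filter, Finset.mem_filter] at hv
          exact ⟨hAv v hv.1.1, hv.1.2, hv.2⟩
      have h8 : (0 : ℝ) ≤ 19 ^ (2 * j) * 81 * (p : ℝ) ^ (-(1 + 2 * η)) := by positivity
      linarith
    · -- 9
      have h1 := sum_w1 j η p R (S.filter (fun v => Gd j p v)) (by
        intro v hv
        rw [Finset.mem_filter] at hv
        exact ⟨hv.1, fun i hi => (hv.2 i hi).2⟩)
      have h2 : ∑ v ∈ S.filter (fun v => Gd j p v), w1 j η p v * w2 j p v ≤ 19 ^ (2 * j) := by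
        refine (Finset.sum_le_sum fun v _ => hw12 v).trans (h1.trans ?_)
        refine pow_le_pow_left₀ ?_ ?_ _
        · have := zz_nonneg η p
          positivity
        · have h3 := zz_le_one η hη p
          have h4 : (p : ℝ) = 9 := by rw [h9]; norm_num
          rw [h4]
          linarith
      have h5 : (1 : ℝ) ≤ 81 * (p : ℝ) ^ (-(1 + 2 * η)) := by
        have h4 : (p : ℝ) = 9 := by rw [h9]; norm_num
        rw [h4]
        have h6 : (9 : ℝ) ^ (-(2 : ℝ)) ≤ (9 : ℝ) ^ (-(1 + 2 * η)) :=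
          Real.rpow_le_rpow_of_exponent_le (by norm_num) (by linarith)
        have h7 : (9 : ℝ) ^ (-(2 : ℝ)) = 1 / 81 := by
          rw [Real.rpow_neg (by norm_num)]
          norm_num
        rw [h7] at h6
        linarith
      have h8 : (19 : ℝ) ^ (2 * j) ≤ 19 ^ (2 * j) * (81 * (p : ℝ) ^ (-(1 + 2 * η))) :=
        le_mul_of_one_le_right (by positivity) h5
      have h9 : (0 : ℝ) ≤ ((4 * j + 1) ^ (2 * j) * 2 + 3 ^ (2 * j)) *
          (p : ℝ) ^ (-(1 + 2 * η)) := by positivity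
      linarith
  · have h1 : S.filter (fun v => Gd j p v) ⊆ {0} := by
      intro v hv
      rw [Finset.mem_filter] at hv
      rw [Finset.mem_singleton]
      funext i
      by_contra hi
      exact hL (hv.2 i hi).1
    have h2 : ∑ v ∈ S.filter (fun v => Gd j p v), w1 j η p v * w2 j p v ≤ 1 := by
      refine (Finset.sum_le_sum_of_subset_of_nonneg h1
        fun v _ _ => mul_nonneg (w1_nonneg j η p v) (w2_nonneg j p v)).trans ?_
      rw [Finset.sum_singleton]
      exact (hw12 0).trans (w1_le_one j η hη p 0)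
    have h3 : (0 : ℝ) ≤ ((4 * j + 1) ^ (2 * j) * 2 + 3 ^ (2 * j) + 19 ^ (2 * j) * 81) *
        (p : ℝ) ^ (-(1 + 2 * η)) := by positivity
    linarith

/-- bound for the product -/
lemma prod_bound (C s : ℝ) (hC : 0 ≤ C) (hs : 1 < s) (K : ℕ) :
    ∏ p ∈ range K, (1 + C * (p : ℝ) ^ (-s)) ≤ Real.exp (C * ∑' n : ℕ, (n : ℝ) ^ (-s)) := by
  have hsum : Summable fun n : ℕ => (n : ℝ) ^ (-s) := Real.summable_nat_rpow.mpr (by linarith)
  have hn : ∀ n : ℕ, 0 ≤ (n : ℝ) ^ (-s) := fun n => Real.rpow_nonneg (by positivity) _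
  have h1 : ∏ p ∈ range K, (1 + C * (p : ℝ) ^ (-s)) ≤
      ∏ p ∈ range K, Real.exp (C * (p : ℝ) ^ (-s)) := by
    refine Finset.prod_le_prod (fun p _ => ?_) (fun p _ => ?_)
    · have := hn p
      positivity
    · rw [add_comm]
      exact Real.add_one_le_exp _
  refine h1.trans ?_
  rw [← Real.exp_sum, ← Finset.mul_sum]
  refine Real.exp_le_exp.mpr (mul_le_mul_of_nonneg_left ?_ hC)
  exact hsum.sum_le_tsum _ fun n _ => hn n

lemma mem_Dt {K : ℕ} {C : ℕ → Prop} {d : ℕ →₀ ℕ} (hd : d ∈ Dt K C) :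
    d.support ⊆ range (K + 1) ∧ (∀ p ∈ range (K + 1), d p ∈ range (2 * K + 1)) ∧ Ok d ∧
      Nn d ≤ K := by
  simp only [Dt, Finset.mem_filter, Finset.mem_finsupp_iff] at hd
  exact ⟨hd.1.1, hd.1.2, hd.2.1, hd.2.2.1⟩

lemma LM_pos {p : ℕ} (h : LM p) : 1 ≤ p := by
  rcases h with h | h
  · exact h.1.one_lt.le
  · omega

lemma Nn_pos {d : ℕ →₀ ℕ} (h : Ok d) : 1 ≤ Nn d := by
  unfold Nn
  exact Nat.succ_le_of_lt (Finset.prod_pos fun p hp => LM_pos (h p hp).1)

/-- product of the coordinate weights -/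
lemma prod_w1 (j K : ℕ) (η : ℝ) (hη : 0 < η) (C : ℕ → Prop) (D : Ix j → ℕ →₀ ℕ)
    (hD : ∀ i, D i ∈ Dt K C) :
    ((K : ℝ) ^ (-(1 + η))) ^ (2 * j) ≤ ∏ p ∈ range (K + 1), w1 j η p (fun i => D i p) := by
  unfold w1
  rw [Finset.prod_comm, ← card_Ix, ← Finset.card_univ, ← Finset.prod_const]
  refine Finset.prod_le_prod (fun i _ => Real.rpow_nonneg (by positivity) _) (fun i _ => ?_)
  obtain ⟨h1, _, h3, h4⟩ := mem_Dt (hD i)
  have h5 : ∏ p ∈ range (K + 1), (if D i p = 0 then (1 : ℝ) else zz η p) =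
      ∏ p ∈ (D i).support, (p : ℝ) ^ (-(1 + η)) := by
    rw [← Finset.prod_subset h1]
    · refine Finset.prod_congr rfl fun p hp => ?_
      rw [if_neg (Finsupp.mem_support_iff.mp hp)]
      rfl
    · intro p _ hp
      rw [if_pos (Finsupp.notMem_support_iff.mp hp)]
  rw [h5, Real.finsetProd_rpow _ _ (fun p _ => by positivity)]
  have h6 : (∏ p ∈ (D i).support, (p : ℝ)) = (Nn (D i) : ℝ) := by
    unfold Nn
    push_cast
    rfl
  rw [h6]
  have h7 : (0 : ℝ) < Nn (D i) := by exact_mod_cast Nn_pos h3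
  exact Real.rpow_le_rpow_of_nonpos h7 (by exact_mod_cast h4) (by linarith)

open Classical in
/-- product of the weights of non-triviality -/
lemma prod_w2 (j K : ℕ) (C : ℕ → Prop) (D : Ix j → ℕ →₀ ℕ) (hD : ∀ i, D i ∈ Dt K C) :
    ∏ p ∈ range (K + 1), w2 j p (fun i => D i p) = ((Dn j D : ℝ) ^ 2)⁻¹ := by
  have h0 : ∀ p, NTl j p (fun i => D i p) ↔ NT j p D := fun p => Iff.rfl
  have h1 : ((univ : Finset (Ix j)).biUnion fun i => (D i).support).filter
      (fun p => NT j p D) = (range (K + 1)).filter (fun p => NT j p D) := by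
    ext p
    rw [Finset.mem_filter, Finset.mem_filter, Finset.mem_biUnion]
    constructor
    · rintro ⟨⟨i, _, hi⟩, h⟩
      exact ⟨(mem_Dt (hD i)).1 hi, h⟩
    · rintro ⟨_, h⟩
      refine ⟨?_, h⟩
      by_contra hcon
      push Not at hcon
      obtain ⟨_, t, ht⟩ := h
      apply ht
      have h2 : ∀ i, mk p (D i p) t = 0 := by
        intro i
        have h3 : D i p = 0 := Finsupp.notMem_support_iff.mp (hcon i (Finset.mem_univ _))
        unfold mk
        rw [if_neg]
        rintro ⟨h4, _⟩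
        exact h4 h3
      unfold mu
      rw [Finset.sum_eq_zero fun i _ => h2 _, Finset.sum_eq_zero fun i _ => h2 _, sub_zero]
  unfold Dn
  rw [h1]
  push_cast
  rw [← Finset.prod_pow, ← Finset.prod_inv_distrib, Finset.prod_filter]
  refine Finset.prod_congr rfl fun p _ => ?_
  unfold w2
  by_cases h : NT j p D
  · rw [if_pos ((h0 p).mpr h), if_pos h]
  · rw [if_neg (fun h' => h ((h0 p).mp h')), if_neg h]

lemma Dn_pos (j : ℕ) (D : Ix j → ℕ →₀ ℕ) : 1 ≤ Dn j D := by
  classical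
  unfold Dn
  refine Nat.succ_le_of_lt (Finset.prod_pos fun p hp => ?_)
  exact (Finset.mem_filter.mp hp).2.1.pos

end COUNTB

open Classical COUNTB in
theorem stmt_COUNT : Stmt_COUNT := by
  intro j e he
  set η : ℝ := min (1 / 2) (e / (8 * j + 8)) with hηd
  have hη : 0 < η := lt_min (by norm_num) (by positivity)
  have hη2 : η ≤ 1 / 2 := min_le_left _ _
  have hη3 : η * (2 * j) ≤ e / 4 := by
    have h1 : η ≤ e / (8 * j + 8) := min_le_right _ _
    have h2 : η * (2 * j) ≤ e / (8 * j + 8) * (2 * j) :=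
      mul_le_mul_of_nonneg_right h1 (by positivity)
    refine h2.trans ?_
    rw [div_mul_eq_mul_div, div_le_div_iff₀ (by positivity) (by norm_num)]
    nlinarith [he, (Nat.cast_nonneg j : (0 : ℝ) ≤ j)]
  obtain ⟨C0, hC0, hloc⟩ := local_sum j η hη hη2
  set E : ℝ := Real.exp (C0 * ∑' n : ℕ, (n : ℝ) ^ (-(1 + 2 * η))) with hE
  have hE0 : 0 < E := Real.exp_pos _
  refine ⟨e / 8, by positivity, max 1 ((4 ^ (2 * j) * E) ^ (2 / e)), ?_⟩
  intro Q hQ X C hX hXQ
  have hQ1 : 1 ≤ Q := (le_max_left _ _).trans hQ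
  have hQ0 : 0 < Q := by linarith
  have hQE : 4 ^ (2 * j) * E ≤ Q ^ (e / 2) := by
    have h1 : (4 ^ (2 * j) * E) ^ (2 / e) ≤ Q := (le_max_right _ _).trans hQ
    have h2 : ((4 ^ (2 * j) * E) ^ (2 / e)) ^ (e / 2) ≤ Q ^ (e / 2) :=
      Real.rpow_le_rpow (by positivity) h1 (by positivity)
    rwa [← Real.rpow_mul (by positivity), show 2 / e * (e / 2) = 1 by field_simp,
      Real.rpow_one] at h2
  set K : ℕ := 2 * X with hK
  set A := (Fintype.piFinset fun _ : Ix j => Dt K C).filter fun D =>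
    (Dn j D : ℝ) < Q ^ (e / 8) with hA
  have hAD : ∀ D ∈ A, ∀ i, D i ∈ Dt K C := fun D hD =>
    Fintype.mem_piFinset.mp (Finset.mem_filter.mp hD).1
  have hK1 : (1 : ℝ) ≤ K := by
    have : 1 ≤ K := by omega
    exact_mod_cast this
  have hK0 : (0 : ℝ) < K := by linarith
  -- pointwise
  have hpt : ∀ D ∈ A, 1 ≤ ((K : ℝ) ^ (1 + η)) ^ (2 * j) * (Q ^ (e / 8)) ^ 2 *
      ∏ p : Fin (K + 1), w j η p (fun i => D i p) := by
    intro D hD
    have h1 : ∏ p : Fin (K + 1), w j η p (fun i => D i p) =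
        (∏ p ∈ range (K + 1), w1 j η p (fun i => D i p)) *
          ∏ p ∈ range (K + 1), w2 j p (fun i => D i p) := by
      rw [← Finset.prod_mul_distrib, Finset.prod_range]
      refine Finset.prod_congr rfl fun p _ => ?_
      unfold w
      rw [if_pos]
      intro i hi
      exact (mem_Dt (hAD D hD i)).2.2.1 p (Finsupp.mem_support_iff.mpr hi)
    have h2 := prod_w1 j K η hη C D (hAD D hD)
    rw [h1, prod_w2 j K C D (hAD D hD)]
    have hDn : (1 : ℝ) ≤ Dn j D := by exact_mod_cast Dn_pos j D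
    have h3 : (Dn j D : ℝ) < Q ^ (e / 8) := (Finset.mem_filter.mp hD).2
    have h4 : ((Q ^ (e / 8)) ^ 2)⁻¹ ≤ ((Dn j D : ℝ) ^ 2)⁻¹ := by
      refine inv_anti₀ (by positivity) ?_
      exact pow_le_pow_left₀ (by linarith) h3.le 2
    have h5 : ((K : ℝ) ^ (-(1 + η))) ^ (2 * j) * ((Q ^ (e / 8)) ^ 2)⁻¹ ≤
        (∏ p ∈ range (K + 1), w1 j η p (fun i => D i p)) * ((Dn j D : ℝ) ^ 2)⁻¹ :=
      mul_le_mul h2 h4 (by positivity) ((by positivity : (0 : ℝ) ≤ _).trans h2)
    have h6 : ((K : ℝ) ^ (1 + η)) ^ (2 * j) * (Q ^ (e / 8)) ^ 2 *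
        (((K : ℝ) ^ (-(1 + η))) ^ (2 * j) * ((Q ^ (e / 8)) ^ 2)⁻¹) = 1 := by
      have h7 : (K : ℝ) ^ (1 + η) * (K : ℝ) ^ (-(1 + η)) = 1 := by
        rw [← Real.rpow_add hK0, add_neg_cancel, Real.rpow_zero]
      have h8 : 0 < (Q ^ (e / 8)) ^ 2 := by positivity
      calc ((K : ℝ) ^ (1 + η)) ^ (2 * j) * (Q ^ (e / 8)) ^ 2 *
        (((K : ℝ) ^ (-(1 + η))) ^ (2 * j) * ((Q ^ (e / 8)) ^ 2)⁻¹)
          = ((K : ℝ) ^ (1 + η) * (K : ℝ) ^ (-(1 + η))) ^ (2 * j) *
            ((Q ^ (e / 8)) ^ 2 * ((Q ^ (e / 8)) ^ 2)⁻¹) := by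
              rw [mul_pow]
              ring
        _ = 1 := by rw [h7, one_pow, mul_inv_cancel₀ h8.ne', one_mul]
    refine h6.symm.le.trans ?_
    exact mul_le_mul_of_nonneg_left h5 (by positivity)
  -- the sum
  have hsum : ∑ D ∈ A, ∏ p : Fin (K + 1), w j η p (fun i => D i p) ≤ E := by
    set t : Fin (K + 1) → Finset (Ix j → ℕ) := fun _ =>
      Fintype.piFinset fun _ : Ix j => range (2 * K + 1) with ht
    set F : (Ix j → ℕ →₀ ℕ) → (Fin (K + 1) → Ix j → ℕ) := fun D p i => D i p with hF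
    have hinj : Set.InjOn F (A : Set (Ix j → ℕ →₀ ℕ)) := by
      intro D hD D' hD' hEq
      funext i
      ext p
      by_cases hp : p < K + 1
      · have := congrFun (congrFun hEq ⟨p, hp⟩) i
        exact this
      · have h1 : D i p = 0 := by
          rw [← Finsupp.notMem_support_iff]
          intro h
          exact hp (Finset.mem_range.mp ((mem_Dt (hAD D hD i)).1 h))
        have h2 : D' i p = 0 := by
          rw [← Finsupp.notMem_support_iff]
          intro h
          exact hp (Finset.mem_range.mp ((mem_Dt (hAD D' hD' i)).1 h))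
        rw [h1, h2]
    have h1 : ∑ D ∈ A, ∏ p : Fin (K + 1), w j η p (fun i => D i p) =
        ∑ x ∈ A.image F, ∏ p : Fin (K + 1), w j η p (x p) := by
      rw [Finset.sum_image hinj]
    have h2 : A.image F ⊆ Fintype.piFinset t := by
      intro x hx
      obtain ⟨D, hD, rfl⟩ := Finset.mem_image.mp hx
      rw [Fintype.mem_piFinset]
      intro p
      rw [Fintype.mem_piFinset]
      intro i
      exact (mem_Dt (hAD D hD i)).2.1 p (Finset.mem_range.mpr p.2)
    rw [h1]
    refine (Finset.sum_le_sum_of_subset_of_nonneg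
      (f := fun x : Fin (K + 1) → Ix j → ℕ => ∏ p : Fin (K + 1), w j η p (x p)) h2
      fun x _ _ => Finset.prod_nonneg fun p _ => w_nonneg j η p _).trans ?_
    rw [← Finset.prod_univ_sum t fun p v => w j η p v]
    have h3 : ∏ p : Fin (K + 1), ∑ v ∈ t p, w j η p v ≤
        ∏ p : Fin (K + 1), (1 + C0 * ((p : ℕ) : ℝ) ^ (-(1 + 2 * η))) :=
      Finset.prod_le_prod (fun p _ => Finset.sum_nonneg fun v _ => w_nonneg j η p v)
        fun p _ => hloc p (2 * K + 1)
    refine h3.trans ?_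
    have h4 := prod_bound C0 (1 + 2 * η) hC0 (by linarith) (K + 1)
    rw [Finset.prod_range] at h4
    exact h4
  -- conclusion
  have hcard : (A.card : ℝ) ≤ ((K : ℝ) ^ (1 + η)) ^ (2 * j) * (Q ^ (e / 8)) ^ 2 * E := by
    have h1 : (A.card : ℝ) = ∑ _D ∈ A, (1 : ℝ) := by simp
    rw [h1]
    refine (Finset.sum_le_sum hpt).trans ?_
    rw [← Finset.mul_sum]
    exact mul_le_mul_of_nonneg_left hsum (by positivity)
  refine hcard.trans ?_
  have hX0 : (0 : ℝ) < X := by exact_mod_cast hX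
  have hKp : (K : ℝ) ^ (1 + η) ≤ 4 * X * Q ^ η := by
    have h1 : (K : ℝ) = 2 * X := by rw [hK]; push_cast; ring
    rw [h1, Real.mul_rpow (by norm_num) hX0.le, Real.rpow_add hX0, Real.rpow_one]
    have h2 : (2 : ℝ) ^ (1 + η) ≤ 4 := by
      have h3 : (2 : ℝ) ^ (1 + η) ≤ (2 : ℝ) ^ (2 : ℝ) :=
        Real.rpow_le_rpow_of_exponent_le (by norm_num) (by linarith)
      refine h3.trans ?_
      norm_num
    have h3 : (X : ℝ) ^ η ≤ Q ^ η := Real.rpow_le_rpow hX0.le hXQ hη.le
    calc (2 : ℝ) ^ (1 + η) * (X * (X : ℝ) ^ η) ≤ 4 * (X * Q ^ η) :=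
          mul_le_mul h2 (mul_le_mul_of_nonneg_left h3 hX0.le) (by positivity) (by norm_num)
      _ = 4 * X * Q ^ η := by ring
  have hKp2 : ((K : ℝ) ^ (1 + η)) ^ (2 * j) ≤ 4 ^ (2 * j) * (X : ℝ) ^ (2 * j) * Q ^ (e / 4) := by
    refine (pow_le_pow_left₀ (by positivity) hKp _).trans ?_
    rw [mul_pow, mul_pow]
    refine mul_le_mul_of_nonneg_left ?_ (by positivity)
    rw [← Real.rpow_natCast, ← Real.rpow_mul hQ0.le]
    refine Real.rpow_le_rpow_of_exponent_le hQ1 ?_
    push_cast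
    exact hη3
  have hQ8 : (Q ^ (e / 8)) ^ 2 = Q ^ (e / 4) := by
    rw [← Real.rpow_natCast, ← Real.rpow_mul hQ0.le]
    congr 1
    push_cast
    ring
  rw [hQ8]
  have hsplit : Q ^ e = Q ^ (e / 4) * Q ^ (e / 4) * Q ^ (e / 2) := by
    rw [← Real.rpow_add hQ0, ← Real.rpow_add hQ0]
    congr 1
    ring
  rw [hsplit]
  have hq4 : 0 < Q ^ (e / 4) := Real.rpow_pos_of_pos hQ0 _
  calc ((K : ℝ) ^ (1 + η)) ^ (2 * j) * Q ^ (e / 4) * E
      ≤ 4 ^ (2 * j) * (X : ℝ) ^ (2 * j) * Q ^ (e / 4) * Q ^ (e / 4) * E :=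
        mul_le_mul_of_nonneg_right (mul_le_mul_of_nonneg_right hKp2 hq4.le) hE0.le
    _ = (X : ℝ) ^ (2 * j) * (Q ^ (e / 4) * Q ^ (e / 4)) * (4 ^ (2 * j) * E) := by ring
    _ ≤ (X : ℝ) ^ (2 * j) * (Q ^ (e / 4) * Q ^ (e / 4)) * Q ^ (e / 2) :=
        mul_le_mul_of_nonneg_left hQE (by positivity)
    _ = (X : ℝ) ^ (2 * j) * (Q ^ (e / 4) * Q ^ (e / 4) * Q ^ (e / 2)) := by ring

end Pool.Agent.Work.AV
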