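import Mathlib
import Pool.Agent.Work.LV.Interface
import Pool.Agent.Work.LV.MCrt
import Pool.Agent.Work.SC081200.VdC

/-!
# MP_081200_nt: Burgess's method on average over a factor of the conductor. Interface.

See `BLUEPRINT.md`.  Every block is a `Prop` `Stmt_X`; the file `X.lean` proves
`theorem stmt_X : Stmt_X` or, when it uses other blocks, `theorem stmt_X (h : Stmt_Y) ... : Stmt_X`.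
-/

set_option autoImplicit false

namespace Pool.Agent.Work.AV

open Finset Pool.Agent.Work.LV Pool.Agent.Work.LV.M Pool.Agent.Work.SC

/-! ## Characters -/

/-- The primitive non-principal cubic characters of conductor at most `Q`. -/
def CubicChars (Q : ℝ) : Set ((f : ℕ) × DirichletCharacter ℂ f) :=
  {x | 1 ≤ x.1 ∧ (x.1 : ℝ) ≤ Q ∧ x.2.IsPrimitive ∧ x.2 ^ 3 = 1 ∧ x.2 ≠ 1}

/-- Those characters in `CubicChars Q` which induce, modulo some `q ≤ Q`, a character with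
`|S(M, N)| > c Q ^ ((1 - δ) / n)` for some integer `M` and some `1 ≤ N ≤ Q ^ (1 / n)`. -/
def Exceptional (n : ℕ) (δ c Q : ℝ) : Set ((f : ℕ) × DirichletCharacter ℂ f) :=
  {x | x ∈ CubicChars Q ∧ ∃ (q : ℕ) (h : x.1 ∣ q), 1 ≤ q ∧ (q : ℝ) ≤ Q ∧
    ∃ (M : ℤ) (N : ℕ), 1 ≤ N ∧ (N : ℝ) ≤ Q ^ (1 / (n : ℝ)) ∧
      c * Q ^ ((1 - δ) / n) <
        ‖∑ a ∈ Finset.Ioc M (M + N), DirichletCharacter.changeLevel h x.2 (a : ZMod q)‖}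

/-- the characters in `CubicChars Q` with a large short sum -/
def BadP (n : ℕ) (δ Q : ℝ) : Set ((f : ℕ) × DirichletCharacter ℂ f) :=
  {x | x ∈ CubicChars Q ∧ ∃ (M : ℤ) (N : ℕ), (N : ℝ) ≤ Q ^ (1 / (n : ℝ)) ∧
    Q ^ ((1 - δ) / n) < ‖shortSum x.2 M N‖}

/-- the class of conductors of the theorem -/
def Cls (n : ℕ) (ε Q : ℝ) (f : ℕ) : Prop :=
  ∃ (g h r : ℕ) (B : ℝ), f = g * h * r ∧ (h = 1 ∨ h.Prime) ∧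
    Q ^ ε ≤ B ∧ B ≤ Q ^ (1 / (n : ℝ) - ε) ∧
    (∀ p : ℕ, p.Prime → p ∣ r → (p : ℝ) ≤ B ^ (1 - ε)) ∧ (h : ℝ) ≤ B ^ (2 - ε) ∧
    (g : ℝ) * B ≤ Q ^ (4 / (n : ℝ) - ε)

/-! ## Data: a primitive cubic character with a position, prime by prime -/

/-- local moduli of primitive cubic characters -/
def LM (p : ℕ) : Prop := (p.Prime ∧ p % 3 = 1) ∨ p = 9

open Classical in
/-- a non-principal primitive cubic character modulo `p` (if there is one) -/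
noncomputable def om (p : ℕ) : DirichletCharacter ℂ p :=
  if h : ∃ χ : DirichletCharacter ℂ p, χ.IsPrimitive ∧ χ ^ 3 = 1 ∧ χ ≠ 1 then h.choose else 1

/-- local factor: `1` for `k = 0`; for `k = 1 + x + p * e`, `x < p`, `e < 2`, it is
`om p (x + a) ^ (e + 1)`. -/
noncomputable def vl (p k : ℕ) (a : ℤ) : ℂ :=
  if k = 0 then 1 else om p ((((k - 1) % p : ℕ) : ZMod p) + (a : ZMod p)) ^ ((k - 1) / p + 1)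

/-- the product of the local factors -/
noncomputable def V (d : ℕ →₀ ℕ) (a : ℤ) : ℂ := ∏ p ∈ d.support, vl p (d p) a

/-- the conductor -/
def Nn (d : ℕ →₀ ℕ) : ℕ := ∏ p ∈ d.support, p

/-- admissible data -/
def Ok (d : ℕ →₀ ℕ) : Prop := ∀ p ∈ d.support, LM p ∧ d p ≤ 2 * p

open Classical in
/-- all data with conductor `≤ K` satisfying `C` -/
noncomputable def Dt (K : ℕ) (C : ℕ → Prop) : Finset (ℕ →₀ ℕ) :=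
  ((range (K + 1)).finsupp fun _ => range (2 * K + 1)).filter fun d =>
    Ok d ∧ Nn d ≤ K ∧ C (Nn d)

/-- Block REP. A primitive cubic character with a position is given by its data. -/
def Stmt_REP : Prop :=
  ∀ (q : ℕ) [NeZero q],
    ∃ Φ : {χ : DirichletCharacter ℂ q // χ.IsPrimitive ∧ χ ^ 3 = 1} × ZMod q → (ℕ →₀ ℕ),
      Function.Injective Φ ∧ ∀ y, Ok (Φ y) ∧ Nn (Φ y) = q ∧
        ∀ a : ℤ, y.1.1 (y.2 + (a : ZMod q)) = V (Φ y) a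

/-! ## Moments -/

/-- index set of the moments -/
abbrev Ix (k : ℕ) := Fin k ⊕ Fin k

/-- `v(b_1) ... v(b_k) conj v(b_{k+1}) ... conj v(b_{2k})` -/
noncomputable def mono (k : ℕ) (v : ℤ → ℂ) (b : Ix k → ℕ) : ℂ :=
  (∏ i : Fin k, v (b (Sum.inl i))) * ∏ i : Fin k, (starRingEnd ℂ) (v (b (Sum.inr i)))

/-- the box `[1, B] ^ (2 k)` -/
def Bx (k B : ℕ) : Finset (Ix k → ℕ) := Fintype.piFinset fun _ => Icc 1 B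

/-- the sum over `1, ..., B` -/
noncomputable def SB (B : ℕ) (v : ℤ → ℂ) : ℂ := ∑ a ∈ Icc 1 B, v (a : ℤ)

/-- the family sum -/
noncomputable def T (k : ℕ) (F : Finset (ℕ →₀ ℕ)) (b : Ix k → ℕ) : ℂ :=
  ∑ d ∈ F, mono k (V d) b

/-- the family sum for one local modulus -/
noncomputable def ss (k p : ℕ) (b : Ix k → ℕ) : ℂ := ∑ x ∈ Icc 1 (2 * p), mono k (vl p x) b

/-- `b` is degenerate modulo `p` -/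
def Deg (k p : ℕ) (b : Ix k → ℕ) : Prop :=
  ∀ t : ZMod p,
    (((univ : Finset (Fin k)).filter fun i => ((b (Sum.inl i) : ℕ) : ZMod p) = t).card : ZMod 3) =
    (((univ : Finset (Fin k)).filter fun i => ((b (Sum.inr i) : ℕ) : ZMod p) = t).card : ZMod 3)

/-- Block WL. Weil bound for one prime. -/
def Stmt_WL : Prop :=
  ∀ k : ℕ, ∃ C : ℝ, 0 ≤ C ∧ ∀ p : ℕ, p.Prime → p % 3 = 1 → ∀ b : Ix k → ℕ, ¬ Deg k p b →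
    ‖ss k p b‖ ≤ C * Real.sqrt p

open Classical in
/-- Block DG. Few tuples are degenerate. -/
def Stmt_DG : Prop :=
  ∀ k : ℕ, ∃ C : ℝ, 0 ≤ C ∧ ∀ p B : ℕ, 1 ≤ p → 1 ≤ B →
    (((Bx k B).filter fun b => Deg k p b).card : ℝ) * (min p B : ℕ) ^ k ≤ C * (B : ℝ) ^ (2 * k)

/-- Block SP. Second moment for one prime. -/
def Stmt_SP : Prop :=
  ∀ ε : ℝ, 0 < ε → ∃ k0 : ℕ, ∀ k : ℕ, k0 ≤ k → ∃ C : ℝ, 0 ≤ C ∧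
    ∀ p B : ℕ, p.Prime → p % 3 = 1 → 1 ≤ B → (p : ℝ) ^ ε ≤ B →
      ∑ b ∈ Bx k B, ‖ss k p b‖ ^ 2 ≤ C * (B : ℝ) ^ (2 * k) * p

/-! ## The families -/

/-- primes in `[P, 2P)` -/
def CP (P p : ℕ) : Prop := P ≤ p ∧ p < 2 * P ∧ p.Prime

/-- `1` or primes in `[H, 2H)` -/
def CH (H h : ℕ) : Prop := H ≤ h ∧ h < 2 * H ∧ (h = 1 ∨ h.Prime)

/-- integers in `[X, 2X)` whose prime factors are at most `Y` -/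
def CX (Y : ℝ) (X r : ℕ) : Prop :=
  X ≤ r ∧ r < 2 * X ∧ ∀ p : ℕ, p.Prime → p ∣ r → (p : ℝ) ≤ Y

/-- integers in `[M, 2M)` whose prime factors are larger than `Y` -/
def CM (Y : ℝ) (M m : ℕ) : Prop :=
  M ≤ m ∧ m < 2 * M ∧ ∀ p : ℕ, p.Prime → p ∣ m → Y < (p : ℝ)

open Classical in
/-- Block ROUGH. Sup bound for a rough family. -/
def Stmt_ROUGH : Prop :=
  ∀ ε e : ℝ, 0 < ε → 0 < e → ∃ k0 : ℕ, ∀ k : ℕ, k0 ≤ k → ∃ Q0 : ℝ, ∀ Q : ℝ, Q0 ≤ Q →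
    ∀ (B M : ℕ) (Y : ℝ), Q ^ ε ≤ (B : ℝ) → Q ^ ε ≤ Y → 1 ≤ M → (M : ℝ) ≤ Q →
      (((Bx k B).filter fun b =>
          (M : ℝ) ^ (3 / 2 : ℝ) * Q ^ e < ‖T k (Dt (2 * M) (CM Y M)) b‖).card : ℝ) * Q ^ 20 ≤
        (B : ℝ) ^ (2 * k)

/-- Block PB. Burgess's bound for two primes. -/
def Stmt_PB : Prop :=
  ∀ ε : ℝ, 0 < ε → ∃ δ : ℝ, 0 < δ ∧ ∃ Q0 : ℝ, ∀ Q : ℝ, Q0 ≤ Q →
    ∀ B : ℕ, Q ^ ε ≤ (B : ℝ) → (B : ℝ) ≤ Q →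
    ∀ p p' : ℕ, p.Prime → p % 3 = 1 → p'.Prime → p' % 3 = 1 → p ≠ p' →
      (p : ℝ) * p' ≤ (B : ℝ) ^ (4 - ε) →
      ∀ x ∈ Icc 1 (2 * p), ∀ x' ∈ Icc 1 (2 * p'),
        ‖SB B fun a => vl p x a * (starRingEnd ℂ) (vl p' x' a)‖ ≤ B * Q ^ (-δ)

open Classical in
/-- Block PL. Large values for two primes. -/
def Stmt_PL : Prop :=
  ∀ ε e : ℝ, 0 < ε → 0 < e → ∃ δ : ℝ, 0 < δ ∧ ∃ Q0 : ℝ, ∀ Q : ℝ, Q0 ≤ Q →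
    ∀ B : ℕ, Q ^ ε ≤ (B : ℝ) → (B : ℝ) ≤ Q →
    ∀ p p' : ℕ, p.Prime → p % 3 = 1 → p'.Prime → p' % 3 = 1 → p ≠ p' →
      (p : ℝ) ≤ 2 * Q → (p' : ℝ) ≤ 2 * Q →
      ((((Icc 1 (2 * p)) ×ˢ (Icc 1 (2 * p'))).filter fun x =>
        (B : ℝ) * Q ^ (-δ) < ‖SB B fun a => vl p x.1 a * (starRingEnd ℂ) (vl p' x.2 a)‖).card : ℝ) ≤
        Q ^ e * ((p : ℝ) * p') ^ (1 / 2 : ℝ) / B

/-- Block L2H. -/
def Stmt_L2H : Prop :=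
  ∀ ε e : ℝ, 0 < ε → 0 < e → ∃ k0 : ℕ, ∀ k : ℕ, k0 ≤ k → ∃ Q0 : ℝ, ∀ Q : ℝ, Q0 ≤ Q →
    ∀ B H : ℕ, Q ^ ε ≤ (B : ℝ) → (B : ℝ) ≤ Q → 1 ≤ H → 2 * (H : ℝ) ≤ (B : ℝ) ^ (2 - ε) →
      ∑ b ∈ Bx k B, ‖T k (Dt (2 * H) (CH H)) b‖ ^ 2 ≤ (B : ℝ) ^ (2 * k) * (H : ℝ) ^ 2 * Q ^ e

/-- Block L2G. -/
def Stmt_L2G : Prop :=
  ∀ ε e : ℝ, 0 < ε → 0 < e → ∃ k0 : ℕ, ∀ k : ℕ, k0 ≤ k → ∃ Q0 : ℝ, ∀ Q : ℝ, Q0 ≤ Q →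
    ∀ B P : ℕ, Q ^ ε ≤ (B : ℝ) → (B : ℝ) ≤ Q → 1 ≤ P → (P : ℝ) ≤ Q →
      ∑ b ∈ Bx k B, ‖T k (Dt (2 * P) (CP P)) b‖ ^ 2 ≤
        (B : ℝ) ^ (2 * k) * ((P : ℝ) ^ 2 + (P : ℝ) ^ 3 / B) * Q ^ e

/-! ## The smooth family -/

/-- exponent of a local factor, modulo 3 -/
def ex (p k : ℕ) : ZMod 3 := (((k - 1) / p + 1 : ℕ) : ZMod 3)

/-- contribution of a local factor to the multiplicity at the residue `t` -/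
def mk (p k : ℕ) (t : ZMod p) : ZMod 3 :=
  if k ≠ 0 ∧ (((k - 1) % p : ℕ) : ZMod p) = t then ex p k else 0

/-- total multiplicity, modulo 3, at the residue `t` modulo `p` -/
def mu (j p : ℕ) (D : Ix j → ℕ →₀ ℕ) (t : ZMod p) : ZMod 3 :=
  (∑ i : Fin j, mk p (D (Sum.inl i) p) t) - ∑ i : Fin j, mk p (D (Sum.inr i) p) t

/-- the prime `p` is non-trivial for the tuple -/
def NT (j p : ℕ) (D : Ix j → ℕ →₀ ℕ) : Prop := p.Prime ∧ ∃ t : ZMod p, mu j p D t ≠ 0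

open Classical in
/-- the product of the non-trivial primes -/
noncomputable def Dn (j : ℕ) (D : Ix j → ℕ →₀ ℕ) : ℕ :=
  ∏ p ∈ ((univ : Finset (Ix j)).biUnion fun i => (D i).support).filter fun p => NT j p D, p

/-- the product of the values of a tuple -/
noncomputable def W (j : ℕ) (D : Ix j → ℕ →₀ ℕ) (a : ℤ) : ℂ :=
  (∏ i : Fin j, V (D (Sum.inl i)) a) * ∏ i : Fin j, (starRingEnd ℂ) (V (D (Sum.inr i)) a)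

/-- Block NG. Short sums of a character with several shifts times a smooth periodic function. -/
def Stmt_NG : Prop :=
  ∀ (s L : ℕ) (ε κ : ℝ), 0 < ε → 0 < κ → ∃ δ : ℝ, 0 < δ ∧ ∃ Q0 : ℝ, ∀ Q : ℝ, Q0 ≤ Q →
    ∀ B : ℕ, Q ^ ε ≤ (B : ℝ) → (B : ℝ) ≤ Q →
    ∀ (G : ℕ) [NeZero G] (ω : DirichletCharacter ℂ G), LocPrim ω → ω ^ 3 = 1 →
      Q ^ κ ≤ (G : ℝ) → G ≤ B → (∀ p : ℕ, p.Prime → p ∣ G → s < p ∧ p % 3 = 1) →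
      ∀ (y : Fin s → ℤ) (c : Fin s → ℕ),
        (∀ p : ℕ, p.Prime → p ∣ G → ∃ t : ZMod p,
          ∑ i, (if ((y i : ℤ) : ZMod p) = t then (c i : ZMod 3) else 0) ≠ 0) →
        ∀ (l : List ℕ) (A : ℤ → ℂ), l.length ≤ L →
          (∀ f ∈ l, 1 ≤ f ∧ (f : ℝ) ≤ (B : ℝ) ^ (1 - ε) ∧ f.Coprime G) →
          Per (l.map fun f => (f, 1)) A →
            ‖SB B fun a => A a * ∏ i, ω (((y i : ℤ) : ZMod G) + (a : ZMod G)) ^ c i‖ ≤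
              B * Q ^ (-δ)

/-- Block NEAR. Tuples with a large non-trivial part have small sums. -/
def Stmt_NEAR : Prop :=
  ∀ (j : ℕ) (ε κ : ℝ), 0 < ε → ε < 1 → 0 < κ → ∃ δ : ℝ, 0 < δ ∧ ∃ Q0 : ℝ, ∀ Q : ℝ, Q0 ≤ Q →
    ∀ B : ℕ, Q ^ ε ≤ (B : ℝ) → (B : ℝ) ≤ Q → ∀ D : Ix j → ℕ →₀ ℕ,
      (∀ i, Ok (D i) ∧ (Nn (D i) : ℝ) ≤ 2 * Q ∧
        ∀ p ∈ (D i).support, (p : ℝ) ≤ (B : ℝ) ^ (1 - ε)) →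
      Q ^ κ ≤ (Dn j D : ℝ) → ‖SB B (W j D)‖ ≤ B * Q ^ (-δ)

open Classical in
/-- Block COUNT. Few tuples have a small non-trivial part. -/
def Stmt_COUNT : Prop :=
  ∀ (j : ℕ) (e : ℝ), 0 < e → ∃ κ : ℝ, 0 < κ ∧ ∃ Q0 : ℝ, ∀ Q : ℝ, Q0 ≤ Q →
    ∀ (X : ℕ) (C : ℕ → Prop), 1 ≤ X → (X : ℝ) ≤ Q →
      (((Fintype.piFinset fun _ : Ix j => Dt (2 * X) C).filter fun D =>
        (Dn j D : ℝ) < Q ^ κ).card : ℝ) ≤ (X : ℝ) ^ (2 * j) * Q ^ e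

open Classical in
/-- Block SMOOTH. Sup bound for the smooth family. -/
def Stmt_SMOOTH : Prop :=
  ∀ ε e : ℝ, 0 < ε → ε < 1 → 0 < e → ∃ k0 : ℕ, ∀ k : ℕ, k0 ≤ k → ∃ Q0 : ℝ, ∀ Q : ℝ, Q0 ≤ Q →
    ∀ B X : ℕ, Q ^ ε ≤ (B : ℝ) → (B : ℝ) ≤ Q → 1 ≤ X → (X : ℝ) ≤ Q →
      (((Bx k B).filter fun b =>
          (X : ℝ) * Q ^ e < ‖T k (Dt (2 * X) (CX ((B : ℝ) ^ (1 - ε)) X)) b‖).card : ℝ) * Q ^ 20 ≤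
        (B : ℝ) ^ (2 * k)

/-! ## Assembly -/

/-- Block DIL. Burgess's shift: a character with a large sum has many bad residues. -/
def Stmt_DIL : Prop :=
  ∀ n : ℕ, 3 ≤ n → ∀ ε e : ℝ, 0 < ε → 0 < e → ∃ δ : ℝ, 0 < δ ∧ ∃ Q0 : ℝ, ∀ Q : ℝ, Q0 ≤ Q →
    ∀ (q : ℕ) [NeZero q] (χ : DirichletCharacter ℂ q), Q ^ (3 / 4 : ℝ) ≤ (q : ℝ) → (q : ℝ) ≤ Q →
      ∀ (M : ℤ) (N : ℕ), (N : ℝ) ≤ Q ^ (1 / (n : ℝ)) →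
        Q ^ ((1 - δ) / n) < ‖shortSum χ M N‖ →
        ∀ B : ℕ, 1 ≤ B → (B : ℝ) ≤ Q ^ (1 / (n : ℝ) - ε) →
          Q ^ (2 / (n : ℝ) - e) / B ≤
            (((univ : Finset (ZMod q)).filter fun z => (B : ℝ) * Q ^ (-e) ≤ TT χ B z).card : ℝ)

/-- the shape of the conductor, with dyadic sizes -/
def Pat (ε : ℝ) (B P H X M f : ℕ) : Prop :=
  ∃ p h r m : ℕ, f = p * h * r * m ∧ p.Coprime h ∧ (p * h).Coprime r ∧ (p * h * r).Coprime m ∧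
    CP P p ∧ (B : ℝ) ^ (1 - ε) < p ∧ CH H h ∧ CX ((B : ℝ) ^ (1 - ε)) X r ∧
    CM ((B : ℝ) ^ (1 - ε)) M m

/-- Block MI. The moment inequality. -/
def Stmt_MI : Prop :=
  ∀ (ε : ℝ) (k B P H X M : ℕ) (θ Y : ℝ) (S : Finset ((f : ℕ) × DirichletCharacter ℂ f)),
    0 ≤ θ → 0 ≤ Y →
    (∀ x ∈ S, x.1 ≠ 0 ∧ x.2.IsPrimitive ∧ x.2 ^ 3 = 1 ∧ Pat ε B P H X M x.1 ∧
      ∃ Z : Finset (ZMod x.1), Y ≤ (Z.card : ℝ) ∧ ∀ z ∈ Z, θ ≤ TT x.2 B z) →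
    (S.card : ℝ) * Y * θ ^ (2 * k) ≤
      ∑ b ∈ Bx k B, ‖T k (Dt (2 * P) (CP P)) b‖ * ‖T k (Dt (2 * H) (CH H)) b‖ *
        ‖T k (Dt (2 * X) (CX ((B : ℝ) ^ (1 - ε)) X)) b‖ *
        ‖T k (Dt (2 * M) (CM ((B : ℝ) ^ (1 - ε)) M)) b‖

/-- Block MAIN. -/
def Stmt_MAIN : Prop :=
  ∀ n : ℕ, 3 ≤ n → ∀ ε : ℝ, 0 < ε → ε < 1 → ∃ δ : ℝ, 0 < δ ∧ ∃ δ' : ℝ, 0 < δ' ∧ ∃ Q0 : ℝ,
    ∀ Q : ℝ, Q0 ≤ Q → ∀ B P H X M : ℕ,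
      Q ^ ε ≤ (B : ℝ) → (B : ℝ) ≤ Q ^ (1 / (n : ℝ) - ε) →
      2 * (H : ℝ) ≤ (B : ℝ) ^ (2 - ε) → (P : ℝ) * M * B ≤ Q ^ (4 / (n : ℝ) - ε) →
      (({x | x ∈ BadP n δ Q ∧ Q ^ (3 / 4 : ℝ) ≤ (x.1 : ℝ) ∧ Pat ε B P H X M x.1} :
        Set ((f : ℕ) × DirichletCharacter ℂ f)).ncard : ℝ) ≤ Q ^ (1 - δ')

/-- Block IND. Reduction to the primitive character. -/
def Stmt_IND : Prop :=
  ∀ n : ℕ, 1 ≤ n → ∀ δ : ℝ, 0 < δ → ∃ δ' : ℝ, 0 < δ' ∧ ∃ Q0 : ℝ, ∀ Q : ℝ, Q0 ≤ Q →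
    Exceptional n δ' 1 Q ⊆ BadP n δ Q

/-- the cases covered by the theorem for factored conductors -/
def Det (n : ℕ) (ε Q : ℝ) (f : ℕ) : Prop :=
  ∃ (g r : ℕ) (R : ℝ), f = g * r ∧ g.Coprime r ∧ 1 ≤ R ∧ R ≤ Q ^ (1 / (n : ℝ) - ε) ∧
    (∀ p : ℕ, p.Prime → p ∣ r → (p : ℝ) ≤ R) ∧ R ^ 2 * g ≤ Q ^ (4 / (n : ℝ) - ε)

/-- Block CLS. Normal form of the conductors in the class. -/
def Stmt_CLS : Prop :=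
  ∀ n : ℕ, 3 ≤ n → ∀ ε : ℝ, 0 < ε → ∃ ε' : ℝ, 0 < ε' ∧ ε' < 1 ∧ ∃ K : ℕ, ∃ Q0 : ℝ,
    ∀ Q : ℝ, Q0 ≤ Q → ∃ 𝓑 : Finset ℕ, 𝓑.card ≤ K ∧
      (∀ B ∈ 𝓑, Q ^ ε' ≤ (B : ℝ) ∧ (B : ℝ) ≤ Q ^ (1 / (n : ℝ) - ε')) ∧
      ∀ f : ℕ, 1 ≤ f → (f : ℝ) ≤ Q → (∀ p : ℕ, p.Prime → 5 ≤ p → ¬ p ^ 2 ∣ f) → ¬ 27 ∣ f →
        ¬ 4 ∣ f → Cls n ε Q f →
        Det n ε' Q f ∨ ∃ B ∈ 𝓑, ∃ i j k l : ℕ,
          Pat ε' B (2 ^ i) (2 ^ j) (2 ^ k) (2 ^ l) f ∧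
          2 * ((2 ^ j : ℕ) : ℝ) ≤ (B : ℝ) ^ (2 - ε') ∧
          ((2 ^ i : ℕ) : ℝ) * (2 ^ l : ℕ) * B ≤ Q ^ (4 / (n : ℝ) - ε')

/-- Block FN: the result. -/
def Stmt_FN : Prop :=
  ∀ n : ℕ, 3 ≤ n → ∀ ε : ℝ, 0 < ε → ∃ δ : ℝ, 0 < δ ∧ ∃ δ' : ℝ, 0 < δ' ∧ ∃ c : ℝ,
    ∀ Q : ℝ, 3 ≤ Q →
      ({x | x ∈ Exceptional n δ c Q ∧ Cls n ε Q x.1} :
        Set ((f : ℕ) × DirichletCharacter ℂ f)).Finite ∧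
      (({x | x ∈ Exceptional n δ c Q ∧ Cls n ε Q x.1} :
        Set ((f : ℕ) × DirichletCharacter ℂ f)).ncard : ℝ) ≤ c * Q ^ (1 - δ')

end Pool.Agent.Work.AV
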