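import Mathlib
import Pool.Agent.Work.AV081200.Interface

/-!
# MP_081200_nt, block DG: few tuples are degenerate
-/

set_option autoImplicit false

namespace Pool.Agent.Work.AV

open Finset Pool.Agent.Work.LV Pool.Agent.Work.LV.M Pool.Agent.Work.SC

namespace DGaux

/-- In a degenerate tuple every index has a partner. -/
lemma partner {k p : ℕ} {b : Ix k → ℕ} (h : Deg k p b) (i : Ix k) :
    ∃ j : Ix k, j ≠ i ∧ ((b j : ℕ) : ZMod p) = ((b i : ℕ) : ZMod p) := by
  classical
  by_contra hcon
  push Not at hcon
  have h10 : (1 : ZMod 3) ≠ 0 := by decide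
  cases i with
  | inl i0 =>
    have h1 := h ((b (Sum.inl i0) : ℕ) : ZMod p)
    have e1 : ((univ : Finset (Fin k)).filter fun i =>
        ((b (Sum.inl i) : ℕ) : ZMod p) = ((b (Sum.inl i0) : ℕ) : ZMod p)) = {i0} := by
      ext i
      simp only [mem_filter, mem_univ, true_and, mem_singleton]
      constructor
      · intro hi
        by_contra hne
        exact hcon (Sum.inl i) (fun hh => hne (Sum.inl.inj hh)) hi
      · rintro rfl
        rfl
    have e2 : ((univ : Finset (Fin k)).filter fun i =>
        ((b (Sum.inr i) : ℕ) : ZMod p) = ((b (Sum.inl i0) : ℕ) : ZMod p)) = ∅ := by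
      ext i
      simp only [mem_filter, mem_univ, true_and, notMem_empty, iff_false]
      intro hi
      exact hcon (Sum.inr i) (by simp) hi
    rw [e1, e2] at h1
    simp at h1
  | inr i0 =>
    have h1 := h ((b (Sum.inr i0) : ℕ) : ZMod p)
    have e1 : ((univ : Finset (Fin k)).filter fun i =>
        ((b (Sum.inr i) : ℕ) : ZMod p) = ((b (Sum.inr i0) : ℕ) : ZMod p)) = {i0} := by
      ext i
      simp only [mem_filter, mem_univ, true_and, mem_singleton]
      constructor
      · intro hi
        by_contra hne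
        exact hcon (Sum.inr i) (fun hh => hne (Sum.inr.inj hh)) hi
      · rintro rfl
        rfl
    have e2 : ((univ : Finset (Fin k)).filter fun i =>
        ((b (Sum.inl i) : ℕ) : ZMod p) = ((b (Sum.inr i0) : ℕ) : ZMod p)) = ∅ := by
      ext i
      simp only [mem_filter, mem_univ, true_and, notMem_empty, iff_false]
      intro hi
      exact hcon (Sum.inl i) (by simp) hi
    rw [e1, e2] at h1
    simp at h1

/-- The map sending an index to the representative of its class. -/
lemma exists_rep {k p : ℕ} {b : Ix k → ℕ} (h : Deg k p b) :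
    ∃ c : Ix k → Ix k, (∀ i, c (c i) = c i) ∧ ((univ : Finset (Ix k)).filter fun i => c i = i).card ≤ k ∧
      ∀ i, b (c i) ≡ b i [MOD p] := by
  classical
  set π : Ix k → ZMod p := fun i => ((b i : ℕ) : ZMod p) with hπ
  set c : Ix k → Ix k := fun i => Set.rangeSplitting π ⟨π i, Set.mem_range_self i⟩ with hc
  have hcπ : ∀ i, π (c i) = π i := fun i => Set.apply_rangeSplitting π ⟨π i, Set.mem_range_self i⟩
  have hcc : ∀ i j, π i = π j → c i = c j := by
    intro i j hij
    simp only [hc]
    congr 1
    exact Subtype.ext hij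
  refine ⟨c, fun i => hcc _ _ (hcπ i), ?_, fun i => (ZMod.natCast_eq_natCast_iff _ _ _).1 (hcπ i)⟩
  choose f hf1 hf2 using fun i => partner h i
  have hle : ((univ : Finset (Ix k)).filter fun i => c i = i).card ≤
      ((univ : Finset (Ix k)).filter fun i => ¬ c i = i).card := by
    refine card_le_card_of_injOn f ?_ ?_
    · intro i hi
      have hi' : c i = i := by simpa using hi
      have : c (f i) = i := (hcc _ _ (hf2 i)).trans hi'
      have hne : ¬ c (f i) = f i := by
        rw [this]
        exact fun hh => hf1 i hh.symm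
      simpa using hne
    · intro i hi j hj hij
      have hi' : c i = i := by simpa using hi
      have hj' : c j = j := by simpa using hj
      have h1 : c (f i) = i := (hcc _ _ (hf2 i)).trans hi'
      have h2 : c (f j) = j := (hcc _ _ (hf2 j)).trans hj'
      have h3 : f i = f j := hij
      rw [← h1, ← h2, h3]
  have hsum : ((univ : Finset (Ix k)).filter fun i => c i = i).card +
      ((univ : Finset (Ix k)).filter fun i => ¬ c i = i).card = 2 * k := by
    rw [card_filter_add_card_filter_not]
    simp [two_mul]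
  omega

/-- The tuples with a given representative map. -/
lemma card_le {k p B : ℕ} (c : Ix k → Ix k) (hcc : ∀ i, c (c i) = c i) :
    ((Bx k B).filter fun b => ∀ i, b (c i) ≡ b i [MOD p]).card ≤
      ∏ i : Ix k, (if c i = i then B else B / p + 1) := by
  classical
  have h1 : (Fintype.piFinset fun i : Ix k => if c i = i then Icc 1 B else range (B / p + 1)).card =
      ∏ i : Ix k, (if c i = i then B else B / p + 1) := by
    rw [Fintype.card_piFinset]
    refine prod_congr rfl fun i _ => ?_
    split_ifs <;> simp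
  rw [← h1]
  refine card_le_card_of_injOn (fun b i => if c i = i then b i else b i / p) ?_ ?_
  · intro b hb
    have hb' : b ∈ (Bx k B).filter fun b => ∀ i, b (c i) ≡ b i [MOD p] := hb
    rw [mem_filter, Bx, Fintype.mem_piFinset] at hb'
    rw [mem_coe, Fintype.mem_piFinset]
    intro i
    have hi := mem_Icc.1 (hb'.1 i)
    by_cases hci : c i = i
    · simp only [hci, if_true]
      exact hb'.1 i
    · simp only [hci, if_false]
      rw [mem_range]
      exact Nat.lt_succ_of_le (Nat.div_le_div_right hi.2)
  · intro b hb b' hb' hbb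
    have hb1 : b ∈ (Bx k B).filter fun b => ∀ i, b (c i) ≡ b i [MOD p] := hb
    have hb2 : b' ∈ (Bx k B).filter fun b => ∀ i, b (c i) ≡ b i [MOD p] := hb'
    rw [mem_filter] at hb1 hb2
    have hfix : ∀ i, c i = i → b i = b' i := by
      intro i hi
      have h2 := congrFun hbb i
      simpa only [hi, if_true] using h2
    funext i
    by_cases hi : c i = i
    · exact hfix i hi
    · have h2 := congrFun hbb i
      simp only [hi, if_false] at h2
      have h3 : b (c i) = b' (c i) := hfix (c i) (hcc i)
      have h4 : b i % p = b' i % p := by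
        have e1 := hb1.2 i
        have e2 := hb2.2 i
        unfold Nat.ModEq at e1 e2
        rw [← e1, ← e2, h3]
      rw [← Nat.div_add_mod (b i) p, ← Nat.div_add_mod (b' i) p, h2, h4]

lemma card_mul_le {k p B : ℕ} (hp : 1 ≤ p) (hB : 1 ≤ B) (c : Ix k → Ix k) (hcc : ∀ i, c (c i) = c i)
    (hck : ((univ : Finset (Ix k)).filter fun i => c i = i).card ≤ k) :
    ((Bx k B).filter fun b => ∀ i, b (c i) ≡ b i [MOD p]).card * (min p B) ^ k ≤
      4 ^ k * B ^ (2 * k) := by
  classical
  have hsum : ((univ : Finset (Ix k)).filter fun i => c i = i).card +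
      ((univ : Finset (Ix k)).filter fun i => ¬ c i = i).card = 2 * k := by
    rw [card_filter_add_card_filter_not]
    simp [two_mul]
  set m := ((univ : Finset (Ix k)).filter fun i => c i = i).card with hm
  set m' := ((univ : Finset (Ix k)).filter fun i => ¬ c i = i).card with hm'
  have hprod : ∏ i : Ix k, (if c i = i then B else B / p + 1) = B ^ m * (B / p + 1) ^ m' := by
    rw [prod_ite, prod_const, prod_const]
  have hμ1 : 1 ≤ min p B := le_min hp hB
  have hμ : (B / p + 1) * min p B ≤ 2 * B := by
    have h1 : (B / p) * min p B ≤ B :=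
      le_trans (Nat.mul_le_mul_left _ (min_le_left _ _)) (Nat.div_mul_le_self B p)
    have h2 : min p B ≤ B := min_le_right _ _
    calc (B / p + 1) * min p B = (B / p) * min p B + min p B := by ring
      _ ≤ 2 * B := by omega
  have hkm : k ≤ m' := by omega
  calc ((Bx k B).filter fun b => ∀ i, b (c i) ≡ b i [MOD p]).card * (min p B) ^ k
      ≤ (B ^ m * (B / p + 1) ^ m') * (min p B) ^ m' := by
        refine Nat.mul_le_mul ?_ (Nat.pow_le_pow_right hμ1 hkm)
        rw [← hprod]
        exact card_le c hcc
    _ = B ^ m * ((B / p + 1) * min p B) ^ m' := by rw [mul_pow]; ring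
    _ ≤ B ^ m * (2 * B) ^ m' := Nat.mul_le_mul_left _ (Nat.pow_le_pow_left hμ _)
    _ = 2 ^ m' * (B ^ (m + m')) := by rw [mul_pow, pow_add]; ring
    _ ≤ 4 ^ k * B ^ (2 * k) := by
        rw [hsum]
        refine Nat.mul_le_mul_right _ ?_
        calc 2 ^ m' ≤ 2 ^ (2 * k) := Nat.pow_le_pow_right (by norm_num) (by omega)
          _ = 4 ^ k := by rw [pow_mul]; norm_num

end DGaux

open DGaux in
/-- Block DG. -/
theorem stmt_DG : Stmt_DG := by
  classical
  intro k
  refine ⟨((Fintype.card (Ix k → Ix k) * 4 ^ k : ℕ) : ℝ), Nat.cast_nonneg _, ?_⟩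
  intro p B hp hB
  have key : ((Bx k B).filter fun b => Deg k p b).card * (min p B) ^ k ≤
      Fintype.card (Ix k → Ix k) * 4 ^ k * B ^ (2 * k) := by
    set 𝒞 : Finset (Ix k → Ix k) := (univ : Finset (Ix k → Ix k)).filter fun c =>
      (∀ i, c (c i) = c i) ∧ ((univ : Finset (Ix k)).filter fun i => c i = i).card ≤ k with h𝒞
    have hsub : ((Bx k B).filter fun b => Deg k p b) ⊆
        𝒞.biUnion fun c => (Bx k B).filter fun b => ∀ i, b (c i) ≡ b i [MOD p] := by
      intro b hb
      rw [mem_filter] at hb
      obtain ⟨c, h1, h2, h3⟩ := exists_rep hb.2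
      rw [mem_biUnion]
      refine ⟨c, ?_, ?_⟩
      · rw [h𝒞, mem_filter]
        exact ⟨mem_univ _, h1, h2⟩
      · rw [mem_filter]
        exact ⟨hb.1, h3⟩
    calc ((Bx k B).filter fun b => Deg k p b).card * (min p B) ^ k
        ≤ (∑ c ∈ 𝒞, ((Bx k B).filter fun b => ∀ i, b (c i) ≡ b i [MOD p]).card) * (min p B) ^ k :=
          Nat.mul_le_mul_right _ (le_trans (card_le_card hsub) card_biUnion_le)
      _ = ∑ c ∈ 𝒞, ((Bx k B).filter fun b => ∀ i, b (c i) ≡ b i [MOD p]).card * (min p B) ^ k := by
          rw [sum_mul]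
      _ ≤ ∑ _c ∈ 𝒞, 4 ^ k * B ^ (2 * k) := by
          refine sum_le_sum fun c hc => ?_
          rw [h𝒞, mem_filter] at hc
          exact card_mul_le hp hB c hc.2.1 hc.2.2
      _ = 𝒞.card * (4 ^ k * B ^ (2 * k)) := by rw [sum_const, smul_eq_mul]
      _ ≤ Fintype.card (Ix k → Ix k) * (4 ^ k * B ^ (2 * k)) :=
          Nat.mul_le_mul_right _ (card_le_univ _)
      _ = Fintype.card (Ix k → Ix k) * 4 ^ k * B ^ (2 * k) := by ring
  have key2 : ((((Bx k B).filter fun b => Deg k p b).card * (min p B) ^ k : ℕ) : ℝ) ≤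
      ((Fintype.card (Ix k → Ix k) * 4 ^ k * B ^ (2 * k) : ℕ) : ℝ) := by exact_mod_cast key
  push_cast at key2 ⊢
  exact key2

end Pool.Agent.Work.AV
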