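import Pool.Agent.Work.AV081200.Interface
import Pool.Agent.Work.LV.A3
import Pool.Agent.Work.LV.E

/-!
# Block DIL: Burgess's shift
-/

set_option autoImplicit false

namespace Pool.Agent.Work.AV

open Finset Pool.Agent.Work.LV

namespace DILaux

theorem TT_le {q : ℕ} (χ : DirichletCharacter ℂ q) (B : ℕ) (x : ZMod q) : TT χ B x ≤ B := by
  unfold TT
  refine (norm_sum_le _ _).trans ?_
  calc ∑ b ∈ Icc 1 B, ‖χ (x + (b : ZMod q))‖ ≤ ∑ _b ∈ Icc 1 B, (1 : ℝ) :=
        Finset.sum_le_sum fun n _ => DirichletCharacter.norm_le_one χ _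
    _ = B := by simp

/-- The combinatorial core. -/
theorem core {q : ℕ} [NeZero q] (χ : DirichletCharacter ℂ q) (M : ℤ) (N B Y : ℕ) (V θ E : ℝ)
    (hB : 1 ≤ B) (hV0 : 0 ≤ V) (hV : V ≤ ‖shortSum χ M N‖) (hYB : 2 * (Y : ℝ) * B ≤ V / 2)
    (hθ0 : 0 ≤ θ) (hθ : θ * N ≤ V / 4)
    (hE : ∑ x : ZMod q, (vv q (PP q Y) {M} N x : ℝ) ^ 2 ≤ E * ((PP q Y).card * N))
    (hP : 0 < (PP q Y).card) :
    ((PP q Y).card : ℝ) * V ^ 2 ≤ 16 * (E * N) *
      (((univ : Finset (ZMod q)).filter fun z => (B : ℝ) * θ ≤ TT χ B z).card : ℝ) := by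
  have hB0 : (0 : ℝ) < B := by exact_mod_cast hB
  have hcop : ∀ a ∈ PP q Y, a.Coprime q := fun a ha => (PP_mem ha).2.2
  have h1 := main_ineq χ (PP q Y) {M} N B Y V hcop (fun a ha => (PP_mem ha).2.1) (by
    intro M' hM'
    rw [mem_singleton] at hM'
    rw [hM']
    exact hV)
  have h0 := sum_vv_one (PP q Y) {M} N hcop
  rw [card_singleton, Nat.cast_one, mul_one] at h0 h1
  set P : ℝ := ((PP q Y).card : ℝ) with hPdef
  have hP0 : 0 < P := by rw [hPdef]; exact_mod_cast hP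
  set G := (univ : Finset (ZMod q)).filter fun z => (B : ℝ) * θ ≤ TT χ B z with hG
  -- split the sum
  have h2 : ∑ x : ZMod q, (vv q (PP q Y) {M} N x : ℝ) * TT χ B x ≤
      B * ∑ x ∈ G, (vv q (PP q Y) {M} N x : ℝ) + B * θ * (P * N) := by
    rw [← Finset.sum_filter_add_sum_filter_not univ (fun z : ZMod q => (B : ℝ) * θ ≤ TT χ B z)]
    refine add_le_add ?_ ?_
    · rw [Finset.mul_sum]
      refine Finset.sum_le_sum fun x _ => ?_
      rw [mul_comm]
      exact mul_le_mul_of_nonneg_right (TT_le χ B x) (Nat.cast_nonneg _)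
    · calc ∑ x ∈ univ.filter (fun z : ZMod q => ¬ (B : ℝ) * θ ≤ TT χ B z),
            (vv q (PP q Y) {M} N x : ℝ) * TT χ B x
          ≤ ∑ x ∈ univ.filter (fun z : ZMod q => ¬ (B : ℝ) * θ ≤ TT χ B z),
            (vv q (PP q Y) {M} N x : ℝ) * (B * θ) := by
            refine Finset.sum_le_sum fun x hx => ?_
            rw [mem_filter, not_le] at hx
            exact mul_le_mul_of_nonneg_left hx.2.le (Nat.cast_nonneg _)
        _ ≤ ∑ x : ZMod q, (vv q (PP q Y) {M} N x : ℝ) * (B * θ) := by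
            refine Finset.sum_le_sum_of_subset_of_nonneg (Finset.filter_subset _ _) ?_
            intro x _ _
            exact mul_nonneg (Nat.cast_nonneg _) (by positivity)
        _ = B * θ * (P * N) := by rw [← Finset.sum_mul, h0]; ring
  -- lower bound for the mass of the bad residues
  have h3 : P * (V / 4) ≤ ∑ x ∈ G, (vv q (PP q Y) {M} N x : ℝ) := by
    have h4 : P * (B * (V / 2)) ≤ P * (B * (V - 2 * Y * B)) := by
      refine mul_le_mul_of_nonneg_left (mul_le_mul_of_nonneg_left ?_ hB0.le) hP0.le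
      linarith
    have h5 : B * θ * (P * N) ≤ B * (P * (V / 4)) := by
      have := mul_le_mul_of_nonneg_left hθ (mul_nonneg hB0.le hP0.le)
      linarith
    have h6 : B * (P * (V / 4)) ≤ B * ∑ x ∈ G, (vv q (PP q Y) {M} N x : ℝ) := by
      have := (h4.trans h1).trans h2
      linarith
    exact le_of_mul_le_mul_left h6 hB0
  have h4 : (∑ x ∈ G, (vv q (PP q Y) {M} N x : ℝ)) ^ 2 ≤
      (G.card : ℝ) * ∑ x ∈ G, (vv q (PP q Y) {M} N x : ℝ) ^ 2 := by
    have := Finset.sum_mul_sq_le_sq_mul_sq G (fun _ => (1 : ℝ))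
      (fun x => (vv q (PP q Y) {M} N x : ℝ))
    simpa using this
  have h5 : ∑ x ∈ G, (vv q (PP q Y) {M} N x : ℝ) ^ 2 ≤ E * (P * N) :=
    (Finset.sum_le_sum_of_subset_of_nonneg (Finset.filter_subset _ _)
      fun x _ _ => sq_nonneg _).trans hE
  have h6 : (P * (V / 4)) ^ 2 ≤ (G.card : ℝ) * (E * (P * N)) :=
    (pow_le_pow_left₀ (by positivity) h3 2).trans
      (h4.trans (mul_le_mul_of_nonneg_left h5 (Nat.cast_nonneg _)))
  have h7 : P * (P * V ^ 2) ≤ P * (16 * (E * N) * (G.card : ℝ)) := by nlinarith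
  exact le_of_mul_le_mul_left h7 hP0

end DILaux

/-- Block DIL. -/
theorem stmt_DIL : Stmt_DIL := by
  intro n hn ε e hε he
  have hn0 : (3 : ℝ) ≤ n := by exact_mod_cast hn
  have hn1 : (0 : ℝ) < n := by linarith
  set ι : ℝ := 1 / (n : ℝ) with hι
  have hι0 : 0 < ι := by rw [hι]; positivity
  have hι3 : ι ≤ 1 / 3 := by
    rw [hι]
    exact one_div_le_one_div_of_le (by norm_num) hn0
  obtain ⟨η, hη⟩ : ∃ η : ℝ, η = min (min e ε) 1 / 12 := ⟨_, rfl⟩
  have hη0 : 0 < η := by rw [hη]; positivity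
  have hηe : 12 * η ≤ e := by
    rw [hη]
    have := (min_le_left (min e ε) 1).trans (min_le_left e ε)
    linarith
  have hηε : 12 * η ≤ ε := by
    rw [hη]
    have := (min_le_left (min e ε) 1).trans (min_le_right e ε)
    linarith
  have hη1 : 12 * η ≤ 1 := by
    rw [hη]
    have := min_le_right (min e ε) 1
    linarith
  obtain ⟨CE, hCE, hEn⟩ := stmt_E
  have hev : ∀ᶠ Q : ℝ in Filter.atTop, 64 ≤ Q ^ (ε / 2) ∧ 128 / η ≤ Q ^ η ∧
      4 / η ≤ Q ^ (η / 2) ∧ 32 * CE ≤ Q ^ (e / 2) ∧ 4 ≤ Q ^ (e / 2) ∧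
      8 ≤ Q ^ (1 / 12 : ℝ) ∧ 2 ≤ Q :=
    ((tendsto_rpow_atTop (by positivity : 0 < ε / 2)).eventually_ge_atTop 64).and
      (((tendsto_rpow_atTop hη0).eventually_ge_atTop (128 / η)).and
      (((tendsto_rpow_atTop (by positivity : 0 < η / 2)).eventually_ge_atTop (4 / η)).and
      (((tendsto_rpow_atTop (by positivity : 0 < e / 2)).eventually_ge_atTop (32 * CE)).and
      (((tendsto_rpow_atTop (by positivity : 0 < e / 2)).eventually_ge_atTop 4).and
      (((tendsto_rpow_atTop (by norm_num : (0 : ℝ) < 1 / 12)).eventually_ge_atTop 8).and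
      (Filter.eventually_ge_atTop 2))))))
  obtain ⟨Q0, hQ0⟩ := Filter.eventually_atTop.mp hev
  refine ⟨η, hη0, Q0, fun Q hQ q _ χ hqQ1 hqQ2 M N hN hS B hB1 hB2 => ?_⟩
  obtain ⟨q1, q2, q3, q4, q5, q6, q7⟩ := hQ0 Q hQ
  have hQ1 : 1 ≤ Q := by linarith
  have hQpos : 0 < Q := by linarith
  have hmono : ∀ a b : ℝ, a ≤ b → Q ^ a ≤ Q ^ b := fun a b h =>
    Real.rpow_le_rpow_of_exponent_le hQ1 h
  have hB0 : (0 : ℝ) < B := by exact_mod_cast hB1
  have hB1' : (1 : ℝ) ≤ B := by exact_mod_cast hB1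
  obtain ⟨V, hV⟩ : ∃ V : ℝ, V = Q ^ ((1 - η) * ι) := ⟨_, rfl⟩
  have hVexp : Q ^ ((1 - η) / n) = V := by rw [hV, hι]; congr 1; ring
  rw [hVexp] at hS
  have hVpos : 0 < V := by rw [hV]; positivity
  have hVN : V < N := hS.trans_le (norm_shortSum_le χ M N)
  have hN0 : (0 : ℝ) < N := hVpos.trans hVN
  have hN1 : 1 ≤ N := by
    have : 0 < N := by exact_mod_cast hN0
    omega
  have hq1 : 1 ≤ q := Nat.pos_of_ne_zero (NeZero.ne q)
  have hq0 : (0 : ℝ) < q := by exact_mod_cast hq1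
  have hηι : η * ι ≤ η := by
    calc η * ι ≤ η * 1 := mul_le_mul_of_nonneg_left (by linarith) hη0.le
      _ = η := mul_one _
  have hηι0 : 0 < η * ι := by positivity
  -- `κ` with `Q ^ κ = V / B`
  have hlogQ : 0 < Real.log Q := Real.log_pos (by linarith)
  obtain ⟨κ, hκ⟩ : ∃ κ : ℝ, κ = (1 - η) * ι - Real.log B / Real.log Q := ⟨_, rfl⟩
  have hQκ : Q ^ κ = V / B := by
    rw [hκ, Real.rpow_sub hQpos, ← hV]
    congr 1
    rw [Real.rpow_def_of_pos hQpos, mul_div_cancel₀ _ hlogQ.ne', Real.exp_log hB0]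
  have hκ1 : κ ≤ 1 := by
    have h1 : 0 ≤ Real.log B / Real.log Q := div_nonneg (Real.log_nonneg hB1') hlogQ.le
    have h2 : (1 - η) * ι = ι - η * ι := by ring
    rw [hκ]
    linarith
  have hκ0 : ε / 2 ≤ κ := by
    have h1 : Real.log B ≤ (ι - ε) * Real.log Q := by
      rw [← Real.log_rpow hQpos]
      exact Real.log_le_log hB0 hB2
    have h2 : Real.log B / Real.log Q ≤ ι - ε := by
      rw [div_le_iff₀ hlogQ]
      exact h1
    have h3 : (1 - η) * ι = ι - η * ι := by ring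
    rw [hκ]
    linarith
  have hVB : 64 ≤ V / B := by rw [← hQκ]; exact q1.trans (hmono _ _ hκ0)
  obtain ⟨Y, hY⟩ : ∃ Y : ℕ, Y = ⌊V / (4 * B)⌋₊ := ⟨_, rfl⟩
  have hY1 : (Y : ℝ) ≤ V / (4 * B) := by rw [hY]; exact Nat.floor_le (by positivity)
  have hY2 : V / (4 * B) - 1 < Y := by rw [hY]; exact Nat.sub_one_lt_floor _
  have e4 : V / (4 * B) = V / B / 4 := by field_simp
  have hYB : 2 * (Y : ℝ) * B ≤ V / 2 := by
    rw [le_div_iff₀ (by positivity)] at hY1
    linarith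
  have hYN' : (Y : ℝ) ≤ N := by
    refine hY1.trans (le_trans ?_ hVN.le)
    exact div_le_self hVpos.le (by linarith)
  have hYN : Y ≤ N := by exact_mod_cast hYN'
  have hY3 : Q ^ κ / 16 ≤ Y := by
    rw [hQκ]
    linarith
  have hY4 : 4 ≤ Y := by
    have : (4 : ℝ) ≤ Y := by linarith
    exact_mod_cast this
  -- D
  have hlogq : Real.log q ≤ Real.log Q := Real.log_le_log hq0 hqQ2
  have hD1 : (Nat.log 2 q : ℝ) ≤ Q ^ η := by
    have h1 := natlog_le q hq1
    have h2 := Real.log_le_rpow_div hQpos.le (by positivity : 0 < η / 2)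
    have e : Q ^ η = Q ^ (η / 2) * Q ^ (η / 2) := by
      rw [← Real.rpow_add hQpos]; congr 1; ring
    rw [e]
    have h3 : 0 < Q ^ (η / 2) := by positivity
    calc (Nat.log 2 q : ℝ) ≤ 2 * (Q ^ (η / 2) / (η / 2)) := by linarith
      _ = (4 / η) * Q ^ (η / 2) := by field_simp; norm_num
      _ ≤ _ := by gcongr
  have hP : Q ^ (κ - 2 * η) ≤ (PP q Y).card :=
    P_lower Q κ η hQ1 hη0 (by linarith) hκ1 (by linarith) q Y (NeZero.ne q) hY4 hY3 q2 hD1
  have hPpos : (0 : ℝ) < (PP q Y).card := lt_of_lt_of_le (by positivity) hP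
  have hPpos' : 0 < (PP q Y).card := by exact_mod_cast hPpos
  -- the energy
  have hι13 : Q ^ ι ≤ Q ^ (1 / 3 : ℝ) := hmono _ _ hι3
  have hNQ : (N : ℝ) ≤ Q ^ (1 / 3 : ℝ) := hN.trans hι13
  have hq8 : 8 * N ≤ q := by
    have h1 : 8 * (N : ℝ) ≤ q := by
      calc 8 * (N : ℝ) ≤ Q ^ (1 / 12 : ℝ) * Q ^ (1 / 3 : ℝ) :=
            mul_le_mul q6 hNQ hN0.le (by positivity)
        _ = Q ^ (5 / 12 : ℝ) := by rw [← Real.rpow_add hQpos]; norm_num
        _ ≤ Q ^ (3 / 4 : ℝ) := hmono _ _ (by norm_num)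
        _ ≤ q := hqQ1
    exact_mod_cast h1
  have hPY : ((PP q Y).card : ℝ) ≤ Y := by
    have : (PP q Y).card ≤ Y := by
      unfold PP
      refine (Finset.card_filter_le _ _).trans ?_
      rw [Nat.card_Icc]
      omega
    exact_mod_cast this
  have hE' := hEn q N Y (Nat.log 2 q) (PP q Y) {M} hN1 hq8 hYN (fun a ha => PP_mem ha)
    (fun m hm hmq => PP_div q Y m hm hmq) (by
      intro M1 hM1 M2 hM2 hne
      rw [mem_singleton] at hM1 hM2
      exact absurd (hM1.trans hM2.symm) hne)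
  rw [card_singleton, Nat.cast_one, mul_one] at hE'
  have hone : 1 ≤ Q ^ η := Real.one_le_rpow hQ1 hη0.le
  have hE2 : ∑ x : ZMod q, (vv q (PP q Y) {M} N x : ℝ) ^ 2 ≤
      (2 * CE * Q ^ η) * ((PP q Y).card * N) := by
    refine hE'.trans ?_
    have h1 : ((PP q Y).card * (N : ℝ)) ^ 2 / q ≤ (PP q Y).card * N := by
      rw [div_le_iff₀ hq0, sq]
      refine mul_le_mul_of_nonneg_left ?_ (by positivity)
      calc ((PP q Y).card : ℝ) * N ≤ Q ^ (1 / 3 : ℝ) * Q ^ (1 / 3 : ℝ) :=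
            mul_le_mul ((hPY.trans hYN').trans hNQ) hNQ hN0.le (by positivity)
        _ = Q ^ (2 / 3 : ℝ) := by rw [← Real.rpow_add hQpos]; norm_num
        _ ≤ Q ^ (3 / 4 : ℝ) := hmono _ _ (by norm_num)
        _ ≤ q := hqQ1
    have h2 : (Nat.log 2 q : ℝ) * ((PP q Y).card * N) ≤ Q ^ η * ((PP q Y).card * N) :=
      mul_le_mul_of_nonneg_right hD1 (by positivity)
    have h3 : ((PP q Y).card * (N : ℝ)) ≤ Q ^ η * ((PP q Y).card * N) :=
      le_mul_of_one_le_left (by positivity) hone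
    calc CE * ((Nat.log 2 q : ℝ) * ((PP q Y).card * N) + ((PP q Y).card * (N : ℝ)) ^ 2 / q)
        ≤ CE * (Q ^ η * ((PP q Y).card * N) + Q ^ η * ((PP q Y).card * N)) := by
          refine mul_le_mul_of_nonneg_left ?_ hCE
          linarith
      _ = _ := by ring
  have hθ : Q ^ (-e) * N ≤ V / 4 := by
    rw [le_div_iff₀ (by norm_num)]
    calc Q ^ (-e) * N * 4 ≤ Q ^ (-e) * Q ^ ι * Q ^ (e / 2) := by
          gcongr
      _ = Q ^ (-e + ι + e / 2) := by rw [← Real.rpow_add hQpos, ← Real.rpow_add hQpos]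
      _ ≤ V := by
          rw [hV]
          apply hmono
          have h3 : (1 - η) * ι = ι - η * ι := by ring
          linarith
  have hcore := DILaux.core χ M N B Y V (Q ^ (-e)) (2 * CE * Q ^ η) hB1 hVpos.le hS.le hYB
    (by positivity) hθ hE2 hPpos'
  set G : ℝ := (((univ : Finset (ZMod q)).filter fun z => (B : ℝ) * Q ^ (-e) ≤ TT χ B z).card : ℝ)
    with hG
  have hG0 : 0 ≤ G := Nat.cast_nonneg _
  -- conclusion
  rw [div_le_iff₀ hB0]
  have h1 : Q ^ (κ - 2 * η) * V ^ 2 ≤ 16 * (2 * CE * Q ^ η * N) * G :=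
    (mul_le_mul_of_nonneg_right hP (by positivity)).trans hcore
  have h2 : Q ^ (κ - 2 * η) * V ^ 2 * B = Q ^ (3 * ((1 - η) * ι) - 2 * η) := by
    rw [Real.rpow_sub hQpos, hQκ]
    have e5 : V / B / Q ^ (2 * η) * V ^ 2 * B = V ^ 3 / Q ^ (2 * η) := by field_simp
    rw [e5, hV, ← Real.rpow_natCast, ← Real.rpow_mul hQpos.le, ← Real.rpow_sub hQpos]
    congr 1
    push_cast
    ring
  have h3 : Q ^ (3 * ((1 - η) * ι) - 2 * η) ≤ Q ^ (e / 2 + η + ι) * (G * B) := by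
    rw [← h2]
    calc Q ^ (κ - 2 * η) * V ^ 2 * B ≤ 16 * (2 * CE * Q ^ η * N) * G * B :=
          mul_le_mul_of_nonneg_right h1 hB0.le
      _ = 32 * CE * Q ^ η * N * (G * B) := by ring
      _ ≤ Q ^ (e / 2) * Q ^ η * Q ^ ι * (G * B) := by
          have h5 : 32 * CE * Q ^ η ≤ Q ^ (e / 2) * Q ^ η :=
            mul_le_mul_of_nonneg_right q4 (by positivity)
          have h6 : 32 * CE * Q ^ η * N ≤ Q ^ (e / 2) * Q ^ η * Q ^ ι :=
            mul_le_mul h5 hN hN0.le (by positivity)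
          exact mul_le_mul_of_nonneg_right h6 (by positivity)
      _ = _ := by rw [← Real.rpow_add hQpos, ← Real.rpow_add hQpos]
  have h4 : Q ^ (3 * ((1 - η) * ι) - 2 * η - (e / 2 + η + ι)) ≤ G * B := by
    rw [Real.rpow_sub hQpos, div_le_iff₀ (by positivity), mul_comm (G * (B : ℝ))]
    exact h3
  refine le_trans ?_ h4
  have e6 : 2 / (n : ℝ) = 2 * ι := by rw [hι]; ring
  rw [e6]
  apply hmono
  have e7 : 3 * ((1 - η) * ι) = 3 * ι - 3 * (η * ι) := by ring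
  rw [e7]
  linarith

end Pool.Agent.Work.AV
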