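import Pool.Agent.Work.AV081200.Interface
import Pool.Agent.Work.SF081200.FinC

/-!
# Block FN: assembly
-/

set_option autoImplicit false

namespace Pool.Agent.Work.AV

open Finset Pool.Agent.Work.LV Pool.Agent.Work.LV.M Pool.Agent.Work.SC

namespace FNaux

theorem cubicChars_eq : CubicChars = SF.CubicChars := rfl

theorem exceptional_eq : Exceptional = SF.Exceptional := rfl

theorem finite (Q : ℝ) (hQ : 0 ≤ Q) : (CubicChars Q).Finite := SF.cubicChars_finite Q hQ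

/-- conductors of primitive cubic characters -/
theorem cond {f : ℕ} {ψ : DirichletCharacter ℂ f} (hf : 1 ≤ f) (h1 : ψ.IsPrimitive)
    (h2 : ψ ^ 3 = 1) (h3 : ψ ≠ 1) :
    (∀ p : ℕ, p.Prime → 5 ≤ p → ¬ p ^ 2 ∣ f) ∧ ¬ 27 ∣ f ∧ ¬ 4 ∣ f := by
  have hne : NeZero f := ⟨by omega⟩
  have h0 : SF.NPC f ≠ 0 := by
    unfold SF.NPC
    have : Nonempty {ψ : DirichletCharacter ℂ f // ψ.IsPrimitive ∧ ψ ^ 3 = 1 ∧ ψ ≠ 1} :=
      ⟨⟨ψ, h1, h2, h3⟩⟩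
    exact Nat.card_pos.ne'
  obtain ⟨-, h4⟩ := SF.stmt_CC.2.1 f hf h0
  have key : ∀ f' : ℕ, SF.Fam f' → (∀ p : ℕ, p.Prime → ¬ p ^ 2 ∣ f') ∧ ¬ 3 ∣ f' ∧ ¬ 2 ∣ f' := by
    intro f' ⟨hs, hp⟩
    refine ⟨fun p hp' hd => ?_, fun h => ?_, fun h => ?_⟩
    · have h5 := hs p (by rwa [← pow_two])
      exact hp'.one_lt.ne' (Nat.isUnit_iff.1 h5)
    · have := hp 3 Nat.prime_three h
      omega
    · have := hp 2 Nat.prime_two h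
      omega
  rcases h4 with h4 | ⟨f', h4, rfl⟩
  · obtain ⟨k1, k2, k3⟩ := key f h4
    refine ⟨fun p hp _ => k1 p hp, fun h => k2 ((by norm_num : 3 ∣ 27).trans h),
      fun h => k3 ((by norm_num : 2 ∣ 4).trans h)⟩
  · obtain ⟨k1, k2, k3⟩ := key f' h4
    refine ⟨fun p hp h5 hd => ?_, fun h => ?_, fun h => ?_⟩
    · have hc : (p ^ 2).Coprime 9 := by
        have h6 : p.Coprime 3 := by
          rw [Nat.coprime_primes hp Nat.prime_three]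
          omega
        have h7 : (p ^ 2).Coprime (3 ^ 2) := Nat.Coprime.pow 2 2 h6
        simpa using h7
      exact k1 p hp (hc.dvd_of_dvd_mul_left hd)
    · apply k2
      have : (9 * 3) ∣ 9 * f' := h
      exact Nat.dvd_of_mul_dvd_mul_left (by norm_num) this
    · apply k3
      have h5 : (2 : ℕ) ∣ 9 * f' := (by norm_num : 2 ∣ 4).trans h
      rcases (Nat.Prime.dvd_mul Nat.prime_two).1 h5 with h6 | h6
      · omega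
      · exact h6

/-- few characters of small conductor -/
theorem small_count : ∃ Q₀ : ℝ, 1 ≤ Q₀ ∧ ∀ Q : ℝ, Q₀ ≤ Q →
    (({x | x ∈ CubicChars Q ∧ (x.1 : ℝ) < Q ^ (3 / 4 : ℝ)} :
      Set ((f : ℕ) × DirichletCharacter ℂ f)).ncard : ℝ) ≤ Q ^ (7 / 8 : ℝ) := by
  classical
  obtain ⟨C, hC1, hC⟩ := omega_bound 2 (by norm_num) (1 / 16) (by norm_num)
  obtain ⟨Q₀, hQ₀1, hQ₀⟩ := ev C (1 / 16) (by norm_num)
  refine ⟨Q₀, hQ₀1, fun Q hQ => ?_⟩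
  have hQ1 : 1 ≤ Q := hQ₀1.trans hQ
  have hQ0 : 0 < Q := by linarith
  have h0 := SF.ncard_fib (Icc 1 ⌊Q ^ (3 / 4 : ℝ)⌋₊)
    (fun f hf => by rw [mem_Icc] at hf; omega)
  have hle : ({x | x ∈ CubicChars Q ∧ (x.1 : ℝ) < Q ^ (3 / 4 : ℝ)} :
      Set ((f : ℕ) × DirichletCharacter ℂ f)).ncard ≤
      ∑ f ∈ Icc 1 ⌊Q ^ (3 / 4 : ℝ)⌋₊, SF.NPC f := by
    rw [← h0.2]
    refine Set.ncard_le_ncard ?_ h0.1
    rintro x ⟨⟨h1, h2, h3, h4, h5⟩, h6⟩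
    refine ⟨?_, h3, h4, h5⟩
    rw [mem_Icc]
    exact ⟨h1, Nat.le_floor h6.le⟩
  have hb : ∀ f ∈ Icc 1 ⌊Q ^ (3 / 4 : ℝ)⌋₊, (SF.NPC f : ℝ) ≤ C * Q ^ (1 / 16 : ℝ) := by
    intro f hf
    rw [mem_Icc] at hf
    have h1 : (SF.NPC f : ℝ) ≤ (2 : ℝ) ^ f.primeFactors.card := by
      exact_mod_cast SF.stmt_CC.1 f hf.1
    have h2 := hC f (by omega)
    have h3 : (f : ℝ) ≤ Q := by
      calc (f : ℝ) ≤ Q ^ (3 / 4 : ℝ) := (Nat.le_floor_iff (by positivity)).1 hf.2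
        _ ≤ Q ^ (1 : ℝ) := Real.rpow_le_rpow_of_exponent_le hQ1 (by norm_num)
        _ = Q := Real.rpow_one Q
    have h4 : (f : ℝ) ^ (1 / 16 : ℝ) ≤ Q ^ (1 / 16 : ℝ) := by gcongr
    calc (SF.NPC f : ℝ) ≤ C * (f : ℝ) ^ (1 / 16 : ℝ) := h1.trans h2
      _ ≤ _ := by gcongr
  calc (({x | x ∈ CubicChars Q ∧ (x.1 : ℝ) < Q ^ (3 / 4 : ℝ)} :
      Set ((f : ℕ) × DirichletCharacter ℂ f)).ncard : ℝ) ≤
      ∑ f ∈ Icc 1 ⌊Q ^ (3 / 4 : ℝ)⌋₊, (SF.NPC f : ℝ) := by exact_mod_cast hle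
    _ ≤ ∑ f ∈ Icc 1 ⌊Q ^ (3 / 4 : ℝ)⌋₊, C * Q ^ (1 / 16 : ℝ) := sum_le_sum hb
    _ = (⌊Q ^ (3 / 4 : ℝ)⌋₊ : ℝ) * (C * Q ^ (1 / 16 : ℝ)) := by
        rw [sum_const, Nat.card_Icc, Nat.add_sub_cancel, nsmul_eq_mul]
    _ ≤ Q ^ (3 / 4 : ℝ) * (Q ^ (1 / 16 : ℝ) * Q ^ (1 / 16 : ℝ)) := by
        have h5 := hQ₀ Q hQ
        have h6 : (⌊Q ^ (3 / 4 : ℝ)⌋₊ : ℝ) ≤ Q ^ (3 / 4 : ℝ) := Nat.floor_le (by positivity)
        gcongr
    _ = Q ^ (7 / 8 : ℝ) := by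
        rw [← Real.rpow_add hQ0, ← Real.rpow_add hQ0]
        norm_num

/-- logarithmic factors are absorbed -/
theorem log_absorb (K : ℕ) (δ : ℝ) (hδ : 0 < δ) : ∃ Q₀ : ℝ, 1 ≤ Q₀ ∧ ∀ Q : ℝ, Q₀ ≤ Q →
    (K : ℝ) * ((Nat.log 2 ⌊Q⌋₊ : ℝ) + 1) ^ 4 ≤ Q ^ δ := by
  -- `log_2 Q + 1 ≤ C Q ^ (δ / 8)`
  obtain ⟨Q₀, hQ₀1, hQ₀⟩ := ev ((K : ℝ) * (2 * (8 / δ) + 1) ^ 4) (δ / 2) (by positivity)
  refine ⟨Q₀, hQ₀1, fun Q hQ => ?_⟩
  have hQ1 : 1 ≤ Q := hQ₀1.trans hQ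
  have hQ0 : 0 < Q := by linarith
  have h1 : (Nat.log 2 ⌊Q⌋₊ : ℝ) ≤ 2 * Real.log Q := by
    have h2 : 2 ^ Nat.log 2 ⌊Q⌋₊ ≤ ⌊Q⌋₊ := Nat.pow_log_le_self 2 (by
      have : 1 ≤ ⌊Q⌋₊ := Nat.le_floor (by simpa using hQ1)
      omega)
    have h3 : (2 : ℝ) ^ Nat.log 2 ⌊Q⌋₊ ≤ Q := by
      calc (2 : ℝ) ^ Nat.log 2 ⌊Q⌋₊ ≤ (⌊Q⌋₊ : ℝ) := by exact_mod_cast h2
        _ ≤ Q := Nat.floor_le hQ0.le
    have h4 := Real.log_le_log (by positivity) h3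
    rw [Real.log_pow] at h4
    have h5 : (1 / 2 : ℝ) ≤ Real.log 2 := by
      have := Real.log_two_gt_d9
      linarith
    have h6 : (0 : ℝ) ≤ (Nat.log 2 ⌊Q⌋₊ : ℝ) := Nat.cast_nonneg _
    nlinarith
  have h2 : Real.log Q ≤ 8 / δ * Q ^ (δ / 8) := by
    have h3 := Real.log_le_rpow_div hQ0.le (by positivity : 0 < δ / 8)
    calc Real.log Q ≤ Q ^ (δ / 8) / (δ / 8) := h3
      _ = 8 / δ * Q ^ (δ / 8) := by field_simp
  have h3 : 1 ≤ Q ^ (δ / 8) := Real.one_le_rpow hQ1 (by positivity)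
  have h4 : (Nat.log 2 ⌊Q⌋₊ : ℝ) + 1 ≤ (2 * (8 / δ) + 1) * Q ^ (δ / 8) := by
    calc (Nat.log 2 ⌊Q⌋₊ : ℝ) + 1 ≤ 2 * (8 / δ * Q ^ (δ / 8)) + Q ^ (δ / 8) := by linarith
      _ = _ := by ring
  calc (K : ℝ) * ((Nat.log 2 ⌊Q⌋₊ : ℝ) + 1) ^ 4 ≤
      K * ((2 * (8 / δ) + 1) * Q ^ (δ / 8)) ^ 4 := by gcongr
    _ = ((K : ℝ) * (2 * (8 / δ) + 1) ^ 4) * (Q ^ (δ / 8)) ^ 4 := by ring
    _ ≤ Q ^ (δ / 2) * (Q ^ (δ / 8)) ^ 4 := by
        have := hQ₀ Q hQ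
        gcongr
    _ = Q ^ δ := by
        rw [← Real.rpow_natCast (Q ^ (δ / 8)) 4, ← Real.rpow_mul hQ0.le, ← Real.rpow_add hQ0]
        congr 1
        push_cast
        ring

end FNaux

open FNaux

/-- Block FN. -/
theorem stmt_FN (hM : Stmt_MAIN) (hI : Stmt_IND) (hC : Stmt_CLS) : Stmt_FN := by
  classical
  intro n hn ε hε
  have hn1 : 1 ≤ n := by omega
  have hnr : (1 : ℝ) ≤ n := by exact_mod_cast hn1
  have hn0 : (0 : ℝ) < n := by linarith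
  obtain ⟨ε', hε'0, hε'1, K, Q1, hC1⟩ := hC n hn ε hε
  obtain ⟨δ1, hδ1, δ2, hδ2, Q2, hM1⟩ := hM n hn ε' hε'0 hε'1
  obtain ⟨δ3, hδ3, Q3, hI1⟩ := hI n hn1 δ1 hδ1
  obtain ⟨δA, hδA, hδA1, cA, hcA, hA⟩ := SF.thmA n hn1 ε' hε'0
  obtain ⟨Q4, hQ41, hQ4⟩ := small_count
  obtain ⟨Q5, hQ51, hQ5⟩ := log_absorb K (δ2 / 2) (by positivity)
  obtain ⟨δ, hδ⟩ : ∃ δ, δ = min δ3 δA := ⟨_, rfl⟩
  have hδ0 : 0 < δ := by rw [hδ]; exact lt_min hδ3 hδA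
  have hδ3' : δ ≤ δ3 := by rw [hδ]; exact min_le_left _ _
  have hδA' : δ ≤ δA := by rw [hδ]; exact min_le_right _ _
  obtain ⟨δ', hδ'⟩ : ∃ δ', δ' = min (δ2 / 2) (1 / 8) := ⟨_, rfl⟩
  have hδ'0 : 0 < δ' := by rw [hδ']; exact lt_min (by positivity) (by norm_num)
  have hδ'2 : δ' ≤ δ2 / 2 := by rw [hδ']; exact min_le_left _ _
  have hδ'8 : δ' ≤ 1 / 8 := by rw [hδ']; exact min_le_right _ _
  obtain ⟨Q6, hQ6⟩ : ∃ Q6, Q6 = max (max (max Q1 Q2) (max Q3 Q4)) (max Q5 3) := ⟨_, rfl⟩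
  have g1 : Q1 ≤ Q6 := by
    rw [hQ6]; exact (le_max_left _ _).trans ((le_max_left _ _).trans (le_max_left _ _))
  have g2 : Q2 ≤ Q6 := by
    rw [hQ6]; exact (le_max_right _ _).trans ((le_max_left _ _).trans (le_max_left _ _))
  have g3 : Q3 ≤ Q6 := by
    rw [hQ6]; exact (le_max_left _ _).trans ((le_max_right _ _).trans (le_max_left _ _))
  have g4 : Q4 ≤ Q6 := by
    rw [hQ6]; exact (le_max_right _ _).trans ((le_max_right _ _).trans (le_max_left _ _))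
  have g5 : Q5 ≤ Q6 := by rw [hQ6]; exact (le_max_left _ _).trans (le_max_right _ _)
  have g6 : 3 ≤ Q6 := by rw [hQ6]; exact (le_max_right _ _).trans (le_max_right _ _)
  refine ⟨δ, hδ0, δ', hδ'0, cA + Q6 + 2, ?_⟩
  intro Q hQ
  have hQ1 : 1 ≤ Q := by linarith
  have hQ0 : 0 < Q := by linarith
  have hfin := finite Q hQ0.le
  have hsub : {x | x ∈ Exceptional n δ (cA + Q6 + 2) Q ∧ Cls n ε Q x.1} ⊆ CubicChars Q :=
    fun x hx => hx.1.1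
  refine ⟨hfin.subset hsub, ?_⟩
  have hQδ' : 0 < Q ^ (1 - δ') := by positivity
  rcases le_or_gt Q Q6 with hsm | hbig
  · -- small `Q`
    have h0 : Exceptional n δ (cA + Q6 + 2) Q = ∅ :=
      SF.exceptional_small n hn1 δ (cA + Q6 + 2) Q Q6 (hδA'.trans hδA1) hQ1 hsm (by linarith)
    have h1 : {x | x ∈ Exceptional n δ (cA + Q6 + 2) Q ∧ Cls n ε Q x.1} =
        (∅ : Set ((f : ℕ) × DirichletCharacter ℂ f)) := by
      rw [h0]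
      ext x
      simp
    rw [h1, Set.ncard_empty]
    push_cast
    positivity
  -- large `Q`
  obtain ⟨𝓑, h𝓑K, h𝓑, hCl⟩ := hC1 Q (g1.trans hbig.le)
  obtain ⟨Lg, hLg⟩ : ∃ Lg, Lg = Nat.log 2 ⌊Q⌋₊ + 1 := ⟨_, rfl⟩
  let S0 : Set ((f : ℕ) × DirichletCharacter ℂ f) :=
    {x | x ∈ CubicChars Q ∧ (x.1 : ℝ) < Q ^ (3 / 4 : ℝ)}
  let S1 : ℕ → ℕ → ℕ → ℕ → ℕ → Set ((f : ℕ) × DirichletCharacter ℂ f) :=
    fun B i j k l => {x | x ∈ BadP n δ1 Q ∧ Q ^ (3 / 4 : ℝ) ≤ (x.1 : ℝ) ∧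
      Pat ε' B (2 ^ i) (2 ^ j) (2 ^ k) (2 ^ l) x.1}
  let I : Finset (ℕ × ℕ × ℕ × ℕ × ℕ) :=
    (𝓑 ×ˢ range Lg ×ˢ range Lg ×ˢ range Lg ×ˢ range Lg).filter fun t =>
      2 * ((2 ^ t.2.2.1 : ℕ) : ℝ) ≤ (t.1 : ℝ) ^ (2 - ε') ∧
      ((2 ^ t.2.1 : ℕ) : ℝ) * (2 ^ t.2.2.2.2 : ℕ) * t.1 ≤ Q ^ (4 / (n : ℝ) - ε')
  have hS0fin : S0.Finite := hfin.subset fun x hx => hx.1
  have hS1fin : ∀ B i j k l, (S1 B i j k l).Finite := fun B i j k l =>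
    hfin.subset fun x hx => hx.1.1
  have hcover : {x | x ∈ Exceptional n δ (cA + Q6 + 2) Q ∧ Cls n ε Q x.1} ⊆
      S0 ∪ ⋃ t ∈ I, S1 t.1 t.2.1 t.2.2.1 t.2.2.2.1 t.2.2.2.2 := by
    rintro x ⟨hxE, hxC⟩
    have hxc := hxE.1
    obtain ⟨hx1, hx2, hx3, hx4, hx5⟩ := hxc
    rcases lt_or_ge (x.1 : ℝ) (Q ^ (3 / 4 : ℝ)) with hlt | hge
    · exact Or.inl ⟨hxE.1, hlt⟩
    right
    -- the primitive character is bad
    have hE1 : x ∈ Exceptional n δ3 1 Q := by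
      obtain ⟨hc, q, hfq, hq1, hqQ, M, N, hN1, hN, hS⟩ := hxE
      refine ⟨hc, q, hfq, hq1, hqQ, M, N, hN1, hN, lt_of_le_of_lt ?_ hS⟩
      have h1 : Q ^ ((1 - δ3) / n) ≤ Q ^ ((1 - δ) / n) := by
        apply Real.rpow_le_rpow_of_exponent_le hQ1
        apply div_le_div_of_nonneg_right _ hn0.le
        linarith
      have h2 : 0 ≤ Q ^ ((1 - δ) / n) := by positivity
      nlinarith
    have hbad : x ∈ BadP n δ1 Q := hI1 Q (g3.trans hbig.le) hE1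
    obtain ⟨c1, c2, c3⟩ := cond hx1 hx3 hx4 hx5
    rcases hCl x.1 hx1 hx2 c1 c2 c3 hxC with hdet | ⟨B, hB, i, j, k, l, hpat, hj, hil⟩
    · -- the deterministic case
      exfalso
      obtain ⟨hc, q, hfq, hq1, hqQ, M, N, hN1, hN, hS⟩ := hxE
      obtain ⟨g, r, R, hf, hgr, hR1, hR, hp, hRg⟩ := hdet
      have : NeZero q := ⟨by omega⟩
      have hcond : (DirichletCharacter.changeLevel hfq x.2).conductor = x.1 := by
        rw [DirichletCharacter.conductor_changeLevel]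
        exact hx3
      have hg0 : 0 < g := by
        rcases Nat.eq_zero_or_pos g with h | h
        · rw [hf, h, zero_mul] at hx1
          omega
        · exact h
      have hdiv : x.1 / g = r := by
        rw [hf]
        exact Nat.mul_div_cancel_left _ hg0
      have h6 := hA Q hQ1 q hqQ (DirichletCharacter.changeLevel hfq x.2)
        (by rw [← map_pow, hx4, map_one])
        (by
          intro h
          exact hx5 ((DirichletCharacter.changeLevel_eq_one_iff hfq).1 h)) g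
        (by rw [hcond]; exact ⟨r, hf⟩) (by rw [hcond, hdiv]; exact hgr) R hR1 hR
        (by rw [hcond, hdiv]; exact hp) hRg M N hN
      unfold shortSum at h6
      have h1 : Q ^ ((1 - δA) / n) ≤ Q ^ ((1 - δ) / n) := by
        apply Real.rpow_le_rpow_of_exponent_le hQ1
        apply div_le_div_of_nonneg_right _ hn0.le
        linarith
      have h2 : 0 ≤ Q ^ ((1 - δ) / n) := by positivity
      have h3 : cA * Q ^ ((1 - δA) / n) ≤ cA * Q ^ ((1 - δ) / n) := by gcongr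
      have h4 : cA * Q ^ ((1 - δ) / n) ≤ (cA + Q6 + 2) * Q ^ ((1 - δ) / n) := by
        apply mul_le_mul_of_nonneg_right _ h2
        linarith
      linarith
    · -- the averaged case
      have hxfl : x.1 ≤ ⌊Q⌋₊ := Nat.le_floor hx2
      have hlt : ∀ m d : ℕ, 2 ^ m ≤ d → d ∣ x.1 → m < Lg := by
        intro m d hmd hdx
        have h1 : d ≤ x.1 := Nat.le_of_dvd (by omega) hdx
        have h2 : 2 ^ m ≤ ⌊Q⌋₊ := (hmd.trans h1).trans hxfl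
        rw [hLg, Nat.lt_succ_iff]
        exact Nat.le_log_of_pow_le (by norm_num) h2
      have hpat' := hpat
      obtain ⟨p, h, r, m, hf, _, _, _, ⟨hp1, _, _⟩, _, ⟨hh1, _, _⟩, ⟨hr1, _, _⟩, ⟨hm1, _, _⟩⟩ :=
        hpat'
      have hi := hlt i p hp1 ⟨h * r * m, by rw [hf]; ring⟩
      have hj' := hlt j h hh1 ⟨p * r * m, by rw [hf]; ring⟩
      have hk := hlt k r hr1 ⟨p * h * m, by rw [hf]; ring⟩
      have hl := hlt l m hm1 ⟨p * h * r, by rw [hf]; ring⟩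
      simp only [Set.mem_iUnion]
      refine ⟨(B, i, j, k, l), ?_, hbad, hge, hpat⟩
      rw [mem_filter]
      simp only [mem_product, mem_range]
      exact ⟨⟨hB, hi, hj', hk, hl⟩, hj, hil⟩
  have hcardI : (I.card : ℝ) ≤ K * ((Nat.log 2 ⌊Q⌋₊ : ℝ) + 1) ^ 4 := by
    have h1 : I.card ≤ (𝓑 ×ˢ range Lg ×ˢ range Lg ×ˢ range Lg ×ˢ range Lg).card :=
      card_filter_le _ _
    simp only [card_product, card_range] at h1
    have h2 : I.card ≤ K * (Lg * (Lg * (Lg * Lg))) := h1.trans (Nat.mul_le_mul_right _ h𝓑K)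
    have h3 : ((Lg : ℕ) : ℝ) = (Nat.log 2 ⌊Q⌋₊ : ℝ) + 1 := by rw [hLg]; push_cast; ring
    calc (I.card : ℝ) ≤ ((K * (Lg * (Lg * (Lg * Lg))) : ℕ) : ℝ) := by exact_mod_cast h2
      _ = K * ((Nat.log 2 ⌊Q⌋₊ : ℝ) + 1) ^ 4 := by
          push_cast
          rw [h3]
          ring
  have hS1 : ∀ t ∈ I, ((S1 t.1 t.2.1 t.2.2.1 t.2.2.2.1 t.2.2.2.2).ncard : ℝ) ≤ Q ^ (1 - δ2) := by
    intro t ht
    rw [mem_filter, mem_product] at ht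
    obtain ⟨⟨htB, _⟩, h1, h2⟩ := ht
    obtain ⟨b1, b2⟩ := h𝓑 t.1 htB
    exact hM1 Q (g2.trans hbig.le) t.1 _ _ _ _ b1 b2 h1 h2
  have hUfin : (⋃ t ∈ I, S1 t.1 t.2.1 t.2.2.1 t.2.2.2.1 t.2.2.2.2).Finite :=
    Set.Finite.biUnion I.finite_toSet fun t _ => hS1fin _ _ _ _ _
  have hU : ((⋃ t ∈ I, S1 t.1 t.2.1 t.2.2.1 t.2.2.2.1 t.2.2.2.2).ncard : ℝ) ≤
      I.card * Q ^ (1 - δ2) := by
    have h1 : (⋃ t ∈ I, S1 t.1 t.2.1 t.2.2.1 t.2.2.2.1 t.2.2.2.2).ncard ≤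
        ∑ t ∈ I, (S1 t.1 t.2.1 t.2.2.1 t.2.2.2.1 t.2.2.2.2).ncard := by
      clear hS1 hcardI hcover
      induction I using Finset.induction_on with
      | empty => simp
      | insert a s ha ih =>
        rw [sum_insert ha, Finset.set_biUnion_insert]
        refine (Set.ncard_union_le _ _).trans ?_
        exact Nat.add_le_add_left ih _
    calc ((⋃ t ∈ I, S1 t.1 t.2.1 t.2.2.1 t.2.2.2.1 t.2.2.2.2).ncard : ℝ) ≤
        ((∑ t ∈ I, (S1 t.1 t.2.1 t.2.2.1 t.2.2.2.1 t.2.2.2.2).ncard : ℕ) : ℝ) := by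
          exact_mod_cast h1
      _ = ∑ t ∈ I, ((S1 t.1 t.2.1 t.2.2.1 t.2.2.2.1 t.2.2.2.2).ncard : ℝ) := by push_cast; rfl
      _ ≤ ∑ t ∈ I, Q ^ (1 - δ2) := sum_le_sum hS1
      _ = I.card * Q ^ (1 - δ2) := by rw [sum_const, nsmul_eq_mul]
  have hS0 := hQ4 Q (g4.trans hbig.le)
  have hlog := hQ5 Q (g5.trans hbig.le)
  calc (({x | x ∈ Exceptional n δ (cA + Q6 + 2) Q ∧ Cls n ε Q x.1} :
      Set ((f : ℕ) × DirichletCharacter ℂ f)).ncard : ℝ) ≤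
      ((S0 ∪ ⋃ t ∈ I, S1 t.1 t.2.1 t.2.2.1 t.2.2.2.1 t.2.2.2.2).ncard : ℝ) := by
        exact_mod_cast Set.ncard_le_ncard hcover (hS0fin.union hUfin)
    _ ≤ (S0.ncard : ℝ) + ((⋃ t ∈ I, S1 t.1 t.2.1 t.2.2.1 t.2.2.2.1 t.2.2.2.2).ncard : ℝ) := by
        exact_mod_cast Set.ncard_union_le _ _
    _ ≤ Q ^ (7 / 8 : ℝ) + Q ^ (δ2 / 2) * Q ^ (1 - δ2) := by
        refine add_le_add hS0 (hU.trans ?_)
        apply mul_le_mul_of_nonneg_right (hcardI.trans hlog) (by positivity)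
    _ ≤ Q ^ (1 - δ') + Q ^ (1 - δ') := by
        refine add_le_add ?_ ?_
        · exact Real.rpow_le_rpow_of_exponent_le hQ1 (by linarith)
        · rw [← Real.rpow_add hQ0]
          exact Real.rpow_le_rpow_of_exponent_le hQ1 (by linarith)
    _ ≤ (cA + Q6 + 2) * Q ^ (1 - δ') := by nlinarith

end Pool.Agent.Work.AV
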