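import Pool.Agent.Work.AV081200.Interface
import Pool.Agent.Work.LV.A5

/-!
# Block IND: reduction to the primitive character
-/

set_option autoImplicit false

namespace Pool.Agent.Work.AV

open Finset Pool.Agent.Work.LV
open Pool.Agent.Work.MP_081200_nt (div_bound)

namespace INDaux

/-- The primitive character inducing `changeLevel h ψ`, `ψ` primitive, has the values of `ψ`. -/
theorem prim_eq {f q : ℕ} [NeZero q] (h : f ∣ q) (ψ : DirichletCharacter ℂ f)
    (hψ : ψ.IsPrimitive) (a : ℤ) :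
    (DirichletCharacter.changeLevel h ψ).primitiveCharacter
        (a : ZMod (DirichletCharacter.changeLevel h ψ).conductor) = ψ (a : ZMod f) := by
  have hc : (DirichletCharacter.changeLevel h ψ).conductor = f := by
    rw [DirichletCharacter.conductor_changeLevel]
    exact hψ
  have key : ∀ (g : ℕ) (φ : DirichletCharacter ℂ g) (hg : g ∣ q), g = f →
      DirichletCharacter.changeLevel hg φ = DirichletCharacter.changeLevel h ψ →
        φ (a : ZMod g) = ψ (a : ZMod f) := by
    intro g φ hg hgf he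
    subst hgf
    rw [DirichletCharacter.changeLevel_injective hg he]
  exact key _ _ (DirichletCharacter.changeLevel h ψ).conductor_dvd_level hc
    (DirichletCharacter.changeLevel_primitiveCharacter _)

end INDaux

/-- Block IND. -/
theorem stmt_IND : Stmt_IND := by
  intro n hn δ hδ
  have hn0 : (1 : ℝ) ≤ n := by exact_mod_cast hn
  have hn1 : (0 : ℝ) < n := by linarith
  obtain ⟨Cτ, hCτ, hτ⟩ := div_bound (δ / (4 * n)) (by positivity)
  have hev : ∀ᶠ Q : ℝ in Filter.atTop, Cτ ≤ Q ^ (δ / (4 * n)) :=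
    (tendsto_rpow_atTop (by positivity : 0 < δ / (4 * n))).eventually_ge_atTop Cτ
  obtain ⟨Q0, hQ0⟩ := Filter.eventually_atTop.mp hev
  refine ⟨δ / 2, by positivity, Q0, fun Q hQ x hx => ?_⟩
  obtain ⟨hx1, q, hfq, hq1, hqQ, M, N, hN1, hNQ, hS⟩ := hx
  refine ⟨hx1, ?_⟩
  haveI : NeZero q := ⟨by omega⟩
  have hQ1 : (1 : ℝ) ≤ Q := le_trans (by exact_mod_cast hq1) hqQ
  have hQpos : 0 < Q := by linarith
  by_contra hcon
  push Not at hcon
  have h1 := norm_le_sum (DirichletCharacter.changeLevel hfq x.2) M N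
  have h2 : ∀ d ∈ q.divisors, ‖shortSum (DirichletCharacter.changeLevel hfq x.2).primitiveCharacter
      (M / (d : ℤ)) (Nd d M N)‖ ≤ Q ^ ((1 - δ) / n) := by
    intro d hd
    have hd0 : 0 < d := Nat.pos_of_mem_divisors hd
    have e : shortSum (DirichletCharacter.changeLevel hfq x.2).primitiveCharacter
        (M / (d : ℤ)) (Nd d M N) = shortSum x.2 (M / (d : ℤ)) (Nd d M N) :=
      Finset.sum_congr rfl fun a _ => INDaux.prim_eq hfq x.2 hx1.2.2.1 a
    rw [e]
    exact hcon (M / (d : ℤ)) (Nd d M N) (le_trans (by exact_mod_cast Nd_le d hd0 M N) hNQ)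
  have h3 := h1.trans (Finset.sum_le_sum h2)
  rw [Finset.sum_const, nsmul_eq_mul] at h3
  have h4 : (q.divisors.card : ℝ) ≤ Cτ * Q ^ (δ / (4 * n)) := by
    refine (hτ q (NeZero.ne q)).trans ?_
    gcongr
  have h5 : (q.divisors.card : ℝ) * Q ^ ((1 - δ) / n) ≤ Q ^ ((1 - δ / 2) / n) := by
    calc (q.divisors.card : ℝ) * Q ^ ((1 - δ) / n)
        ≤ Q ^ (δ / (4 * n)) * Q ^ (δ / (4 * n)) * Q ^ ((1 - δ) / n) := by
          refine mul_le_mul_of_nonneg_right (h4.trans ?_) (by positivity)
          exact mul_le_mul_of_nonneg_right (hQ0 Q hQ) (by positivity)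
      _ = Q ^ ((1 - δ / 2) / n) := by
          rw [← Real.rpow_add hQpos, ← Real.rpow_add hQpos]
          congr 1
          field_simp
          ring
  rw [one_mul] at hS
  have h6 : ‖shortSum (DirichletCharacter.changeLevel hfq x.2) M N‖ ≤ Q ^ ((1 - δ / 2) / n) :=
    h3.trans h5
  exact absurd (hS.trans_le h6) (lt_irrefl _)

end Pool.Agent.Work.AV
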