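import Pool.Agent.Work.AV081200.Interface

/-!
# Averaged Burgess: elementary lemmas on the data and the moments
-/

set_option autoImplicit false

namespace Pool.Agent.Work.AV

open Finset

/-! ## data -/

theorem Nn_zero : Nn 0 = 1 := by simp [Nn]

theorem V_zero (a : ℤ) : V 0 a = 1 := by simp [V]

theorem Ok_zero : Ok 0 := by simp [Ok]

theorem LM.pos {p : ℕ} (h : LM p) : 0 < p := by
  rcases h with h | h
  · exact h.1.pos
  · omega

theorem LM.two_le {p : ℕ} (h : LM p) : 2 ≤ p := by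
  rcases h with h | h
  · exact h.1.two_le
  · omega

theorem Ok.pos {d : ℕ →₀ ℕ} (h : Ok d) : 0 < Nn d := by
  unfold Nn
  exact Finset.prod_pos fun p hp => (h p hp).1.pos

theorem dvd_Nn {d : ℕ →₀ ℕ} {p : ℕ} (hp : p ∈ d.support) : p ∣ Nn d := by
  unfold Nn
  exact Finset.dvd_prod_of_mem _ hp

theorem Ok.le_Nn {d : ℕ →₀ ℕ} (h : Ok d) {p : ℕ} (hp : p ∈ d.support) : p ≤ Nn d :=
  Nat.le_of_dvd h.pos (dvd_Nn hp)

theorem mem_Dt {K : ℕ} {C : ℕ → Prop} {d : ℕ →₀ ℕ} :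
    d ∈ Dt K C ↔ Ok d ∧ Nn d ≤ K ∧ C (Nn d) := by
  classical
  unfold Dt
  rw [mem_filter]
  refine ⟨fun h => h.2, fun h => ⟨?_, h⟩⟩
  rw [mem_finsupp_iff]
  refine ⟨fun p hp => ?_, fun p hp => ?_⟩
  · rw [mem_range]
    have := h.1.le_Nn hp
    omega
  · rw [mem_range]
    rcases eq_or_ne (d p) 0 with h0 | h0
    · omega
    · have hps : p ∈ d.support := Finsupp.mem_support_iff.2 h0
      have h1 := h.1.le_Nn hps
      have h2 := (h.1 p hps).2
      omega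

/-! ## disjoint sums -/

theorem V_add {d d' : ℕ →₀ ℕ} (h : Disjoint d.support d'.support) (a : ℤ) :
    V (d + d') a = V d a * V d' a := by
  classical
  unfold V
  rw [Finsupp.support_add_eq h, prod_union h]
  congr 1
  · apply prod_congr rfl
    intro p hp
    have : d' p = 0 := Finsupp.notMem_support_iff.1 (Finset.disjoint_left.1 h hp)
    rw [Finsupp.add_apply, this, add_zero]
  · apply prod_congr rfl
    intro p hp
    have : d p = 0 := Finsupp.notMem_support_iff.1 (Finset.disjoint_right.1 h hp)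
    rw [Finsupp.add_apply, this, zero_add]

theorem Nn_add {d d' : ℕ →₀ ℕ} (h : Disjoint d.support d'.support) :
    Nn (d + d') = Nn d * Nn d' := by
  classical
  unfold Nn
  rw [Finsupp.support_add_eq h, prod_union h]

theorem Ok_add {d d' : ℕ →₀ ℕ} (h : Disjoint d.support d'.support) (h1 : Ok d) (h2 : Ok d') :
    Ok (d + d') := by
  classical
  intro p hp
  rw [Finsupp.support_add_eq h, mem_union] at hp
  rcases hp with hp | hp
  · have : d' p = 0 := Finsupp.notMem_support_iff.1 (Finset.disjoint_left.1 h hp)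
    rw [Finsupp.add_apply, this, add_zero]
    exact h1 p hp
  · have : d p = 0 := Finsupp.notMem_support_iff.1 (Finset.disjoint_right.1 h hp)
    rw [Finsupp.add_apply, this, zero_add]
    exact h2 p hp

/-- admissible data whose conductors are coprime have disjoint supports -/
theorem Ok.disjoint {d d' : ℕ →₀ ℕ} (h : Ok d) (hc : (Nn d).Coprime (Nn d')) :
    Disjoint d.support d'.support := by
  rw [Finset.disjoint_left]
  intro p hp hp'
  have h1 := Nat.dvd_gcd (dvd_Nn hp) (dvd_Nn hp')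
  rw [Nat.Coprime] at hc
  rw [hc, Nat.dvd_one] at h1
  have := (h p hp).1.two_le
  omega

/-! ## norms -/

theorem norm_char_le {q : ℕ} (χ : DirichletCharacter ℂ q) (x : ZMod q) : ‖χ x‖ ≤ 1 :=
  DirichletCharacter.norm_le_one χ x

theorem norm_vl_le (p k : ℕ) (a : ℤ) : ‖vl p k a‖ ≤ 1 := by
  unfold vl
  split_ifs
  · simp
  · rw [norm_pow]
    exact pow_le_one₀ (norm_nonneg _) (norm_char_le _ _)

theorem norm_V_le (d : ℕ →₀ ℕ) (a : ℤ) : ‖V d a‖ ≤ 1 := by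
  unfold V
  rw [norm_prod]
  exact prod_le_one (fun _ _ => norm_nonneg _) fun p _ => norm_vl_le p _ a

theorem V_single (p k : ℕ) (a : ℤ) : V (Finsupp.single p k) a = vl p k a := by
  classical
  unfold V
  rcases eq_or_ne k 0 with rfl | hk
  · simp [vl]
  · rw [Finsupp.support_single p hk, prod_singleton, Finsupp.single_eq_same]

/-! ## mono -/

theorem mono_mul (k : ℕ) (v w : ℤ → ℂ) (b : Ix k → ℕ) :
    mono k (fun a => v a * w a) b = mono k v b * mono k w b := by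
  unfold mono
  simp only [map_mul, prod_mul_distrib]
  ring

theorem mono_conj (k : ℕ) (v : ℤ → ℂ) (b : Ix k → ℕ) :
    mono k (fun a => (starRingEnd ℂ) (v a)) b = (starRingEnd ℂ) (mono k v b) := by
  unfold mono
  simp only [map_mul, map_prod, Complex.conj_conj]

theorem mono_prod {ι : Type*} (k : ℕ) (s : Finset ι) (v : ι → ℤ → ℂ) (b : Ix k → ℕ) :
    mono k (fun a => ∏ i ∈ s, v i a) b = ∏ i ∈ s, mono k (v i) b := by
  classical
  induction s using Finset.induction_on with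
  | empty => simp [mono]
  | insert i s hi ih =>
    simp only [prod_insert hi]
    rw [mono_mul k (v i) (fun a => ∏ i ∈ s, v i a), ih]

theorem norm_mono_le (k : ℕ) (v : ℤ → ℂ) (hv : ∀ a, ‖v a‖ ≤ 1) (b : Ix k → ℕ) :
    ‖mono k v b‖ ≤ 1 := by
  unfold mono
  rw [norm_mul, norm_prod, norm_prod]
  have h1 : ∏ i : Fin k, ‖v (b (Sum.inl i))‖ ≤ 1 :=
    prod_le_one (fun _ _ => norm_nonneg _) fun i _ => hv _
  have h2 : ∏ i : Fin k, ‖(starRingEnd ℂ) (v (b (Sum.inr i)))‖ ≤ 1 :=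
    prod_le_one (fun _ _ => norm_nonneg _) fun i _ => by rw [RCLike.norm_conj]; exact hv _
  calc _ ≤ (1 : ℝ) * 1 := mul_le_mul h1 h2 (prod_nonneg fun _ _ => norm_nonneg _) zero_le_one
    _ = 1 := one_mul 1

theorem norm_SB_le (B : ℕ) (v : ℤ → ℂ) (hv : ∀ a, ‖v a‖ ≤ 1) : ‖SB B v‖ ≤ B := by
  unfold SB
  calc ‖∑ a ∈ Icc 1 B, v (a : ℤ)‖ ≤ ∑ a ∈ Icc 1 B, ‖v (a : ℤ)‖ := norm_sum_le _ _
    _ ≤ ∑ a ∈ Icc 1 B, (1 : ℝ) := sum_le_sum fun a _ => hv _
    _ = B := by simp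

/-- the key expansion -/
theorem SB_pow (k B : ℕ) (v : ℤ → ℂ) :
    ((‖SB B v‖ ^ (2 * k) : ℝ) : ℂ) = ∑ b ∈ Bx k B, mono k v b := by
  classical
  have h1 : ((‖SB B v‖ ^ (2 * k) : ℝ) : ℂ) = SB B v ^ k * (starRingEnd ℂ) (SB B v) ^ k := by
    rw [← mul_pow, Complex.mul_conj, Complex.normSq_eq_norm_sq, pow_mul]
    push_cast
    rfl
  have h2 : SB B v ^ k = ∏ _i : Fin k, ∑ a ∈ Icc 1 B, v (a : ℤ) := by
    rw [prod_const, card_univ, Fintype.card_fin]
    rfl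
  have h3 : (starRingEnd ℂ) (SB B v) ^ k =
      ∏ _i : Fin k, ∑ a ∈ Icc 1 B, (starRingEnd ℂ) (v (a : ℤ)) := by
    rw [prod_const, card_univ, Fintype.card_fin]
    unfold SB
    rw [map_sum]
  let g : Ix k → ℕ → ℂ := Sum.elim (fun _ a => v (a : ℤ)) (fun _ a => (starRingEnd ℂ) (v (a : ℤ)))
  have h4 : (∏ i : Ix k, ∑ a ∈ Icc 1 B, g i a) = ∑ b ∈ Bx k B, ∏ i : Ix k, g i (b i) := by
    unfold Bx
    exact Finset.prod_univ_sum _ _
  rw [h1, h2, h3]
  rw [Fintype.prod_sum_type] at h4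
  have h5 : ∀ b : Ix k → ℕ, ∏ i : Ix k, g i (b i) = mono k v b := by
    intro b
    rw [Fintype.prod_sum_type]
    rfl
  simp only [h5] at h4
  exact h4

theorem card_Bx (k B : ℕ) : (Bx k B).card = B ^ (2 * k) := by
  unfold Bx
  rw [Fintype.card_piFinset, prod_const, card_univ, Nat.card_Icc, Nat.add_sub_cancel,
    Fintype.card_sum, Fintype.card_fin]
  congr 1
  ring

/-! ## families -/

/-- second moment of a family sum -/
theorem sum_T_sq (k B : ℕ) (F : Finset (ℕ →₀ ℕ)) :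
    ∑ b ∈ Bx k B, ‖T k F b‖ ^ 2 =
      ∑ d ∈ F, ∑ d' ∈ F, ‖SB B fun a => V d a * (starRingEnd ℂ) (V d' a)‖ ^ (2 * k) := by
  have h : ((∑ b ∈ Bx k B, ‖T k F b‖ ^ 2 : ℝ) : ℂ) =
      ((∑ d ∈ F, ∑ d' ∈ F, ‖SB B fun a => V d a * (starRingEnd ℂ) (V d' a)‖ ^ (2 * k) : ℝ) :
        ℂ) := by
    rw [Complex.ofReal_sum, Complex.ofReal_sum]
    have h1 : ∀ b, ((‖T k F b‖ ^ 2 : ℝ) : ℂ) = ∑ d ∈ F, ∑ d' ∈ F,
        mono k (fun a => V d a * (starRingEnd ℂ) (V d' a)) b := by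
      intro b
      have e1 : ((‖T k F b‖ ^ 2 : ℝ) : ℂ) = T k F b * (starRingEnd ℂ) (T k F b) := by
        rw [Complex.mul_conj, Complex.normSq_eq_norm_sq]
      rw [e1]
      unfold T
      rw [map_sum, sum_mul_sum]
      apply sum_congr rfl
      intro d _
      apply sum_congr rfl
      intro d' _
      rw [mono_mul k (V d) (fun a => (starRingEnd ℂ) (V d' a)), mono_conj]
    rw [sum_congr rfl fun b _ => h1 b, sum_comm]
    apply sum_congr rfl
    intro d _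
    rw [Complex.ofReal_sum, sum_comm]
    apply sum_congr rfl
    intro d' _
    rw [SB_pow]
  exact_mod_cast h

/-- second moment for one local modulus, two different moduli allowed -/
theorem sum_ss (k B p p' : ℕ) :
    ∑ b ∈ Bx k B, ss k p b * (starRingEnd ℂ) (ss k p' b) =
      ((∑ x ∈ Icc 1 (2 * p), ∑ x' ∈ Icc 1 (2 * p'),
        ‖SB B fun a => vl p x a * (starRingEnd ℂ) (vl p' x' a)‖ ^ (2 * k) : ℝ) : ℂ) := by
  rw [Complex.ofReal_sum]
  have h1 : ∀ b, ss k p b * (starRingEnd ℂ) (ss k p' b) =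
      ∑ x ∈ Icc 1 (2 * p), ∑ x' ∈ Icc 1 (2 * p'),
        mono k (fun a => vl p x a * (starRingEnd ℂ) (vl p' x' a)) b := by
    intro b
    unfold ss
    rw [map_sum, sum_mul_sum]
    apply sum_congr rfl
    intro d _
    apply sum_congr rfl
    intro d' _
    rw [mono_mul k (vl p d) (fun a => (starRingEnd ℂ) (vl p' d' a)), mono_conj]
  rw [sum_congr rfl fun b _ => h1 b, sum_comm]
  apply sum_congr rfl
  intro d _
  rw [Complex.ofReal_sum, sum_comm]
  apply sum_congr rfl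
  intro d' _
  rw [SB_pow]

/-- `∑_b ‖ss‖ ^ 2` -/
theorem sum_ss_sq (k B p : ℕ) :
    ∑ b ∈ Bx k B, ‖ss k p b‖ ^ 2 =
      ∑ x ∈ Icc 1 (2 * p), ∑ x' ∈ Icc 1 (2 * p),
        ‖SB B fun a => vl p x a * (starRingEnd ℂ) (vl p x' a)‖ ^ (2 * k) := by
  have h := sum_ss k B p p
  have h1 : ∑ b ∈ Bx k B, ss k p b * (starRingEnd ℂ) (ss k p b) =
      ((∑ b ∈ Bx k B, ‖ss k p b‖ ^ 2 : ℝ) : ℂ) := by
    rw [Complex.ofReal_sum]
    apply sum_congr rfl
    intro b _
    rw [Complex.mul_conj, Complex.normSq_eq_norm_sq]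
  rw [h1] at h
  exact_mod_cast h

/-- product of four families -/
theorem sum_four (k B : ℕ) (F1 F2 F3 F4 : Finset (ℕ →₀ ℕ)) :
    ∑ d1 ∈ F1, ∑ d2 ∈ F2, ∑ d3 ∈ F3, ∑ d4 ∈ F4,
      ‖SB B fun a => V d1 a * V d2 a * V d3 a * V d4 a‖ ^ (2 * k) ≤
      ∑ b ∈ Bx k B, ‖T k F1 b‖ * ‖T k F2 b‖ * ‖T k F3 b‖ * ‖T k F4 b‖ := by
  have h : ((∑ d1 ∈ F1, ∑ d2 ∈ F2, ∑ d3 ∈ F3, ∑ d4 ∈ F4,
      ‖SB B fun a => V d1 a * V d2 a * V d3 a * V d4 a‖ ^ (2 * k) : ℝ) : ℂ) =
      ∑ b ∈ Bx k B, T k F1 b * T k F2 b * T k F3 b * T k F4 b := by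
    have h1 : ∀ b, T k F1 b * T k F2 b * T k F3 b * T k F4 b =
        ∑ d1 ∈ F1, ∑ d2 ∈ F2, ∑ d3 ∈ F3, ∑ d4 ∈ F4,
          mono k (fun a => V d1 a * V d2 a * V d3 a * V d4 a) b := by
      intro b
      have t1 : ∀ (F : Finset (ℕ →₀ ℕ)) (z : ℂ), T k F b * z = ∑ d ∈ F, mono k (V d) b * z := by
        intro F z
        unfold T
        rw [sum_mul]
      rw [mul_assoc, mul_assoc, t1]
      apply sum_congr rfl
      intro d1 _
      rw [t1, mul_sum]
      apply sum_congr rfl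
      intro d2 _
      rw [t1, mul_sum, mul_sum]
      apply sum_congr rfl
      intro d3 _
      unfold T
      rw [mul_sum, mul_sum, mul_sum]
      apply sum_congr rfl
      intro d4 _
      rw [← mul_assoc, ← mul_assoc, mono_mul k (fun a => V d1 a * V d2 a * V d3 a) (V d4),
        mono_mul k (fun a => V d1 a * V d2 a) (V d3), mono_mul k (V d1) (V d2)]
    rw [sum_congr rfl fun b _ => h1 b, Complex.ofReal_sum, sum_comm (s := Bx k B)]
    apply sum_congr rfl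
    intro d1 _
    rw [Complex.ofReal_sum, sum_comm (s := Bx k B)]
    apply sum_congr rfl
    intro d2 _
    rw [Complex.ofReal_sum, sum_comm (s := Bx k B)]
    apply sum_congr rfl
    intro d3 _
    rw [Complex.ofReal_sum, sum_comm (s := Bx k B)]
    apply sum_congr rfl
    intro d4 _
    rw [SB_pow]
  have h0 : 0 ≤ ∑ d1 ∈ F1, ∑ d2 ∈ F2, ∑ d3 ∈ F3, ∑ d4 ∈ F4,
      ‖SB B fun a => V d1 a * V d2 a * V d3 a * V d4 a‖ ^ (2 * k) := by positivity
  calc _ = ‖((∑ d1 ∈ F1, ∑ d2 ∈ F2, ∑ d3 ∈ F3, ∑ d4 ∈ F4,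
      ‖SB B fun a => V d1 a * V d2 a * V d3 a * V d4 a‖ ^ (2 * k) : ℝ) : ℂ)‖ := by
        rw [Complex.norm_real, Real.norm_of_nonneg h0]
    _ = ‖∑ b ∈ Bx k B, T k F1 b * T k F2 b * T k F3 b * T k F4 b‖ := by rw [h]
    _ ≤ ∑ b ∈ Bx k B, ‖T k F1 b * T k F2 b * T k F3 b * T k F4 b‖ := norm_sum_le _ _
    _ = _ := by simp only [norm_mul]

/-- the `2j`-th moment of a family sum -/
theorem sum_T_pow (j k B : ℕ) (F : Finset (ℕ →₀ ℕ)) :
    ∑ b ∈ Bx k B, ‖T k F b‖ ^ (2 * j) =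
      ∑ D ∈ Fintype.piFinset fun _ : Ix j => F, ‖SB B (W j D)‖ ^ (2 * k) := by
  classical
  have h : ((∑ b ∈ Bx k B, ‖T k F b‖ ^ (2 * j) : ℝ) : ℂ) =
      ((∑ D ∈ Fintype.piFinset fun _ : Ix j => F, ‖SB B (W j D)‖ ^ (2 * k) : ℝ) : ℂ) := by
    rw [Complex.ofReal_sum, Complex.ofReal_sum]
    have h1 : ∀ b, ((‖T k F b‖ ^ (2 * j) : ℝ) : ℂ) =
        ∑ D ∈ Fintype.piFinset fun _ : Ix j => F, mono k (W j D) b := by
      intro b
      have e1 : ((‖T k F b‖ ^ (2 * j) : ℝ) : ℂ) = T k F b ^ j * (starRingEnd ℂ) (T k F b) ^ j := by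
        rw [← mul_pow, Complex.mul_conj, Complex.normSq_eq_norm_sq, pow_mul]
        push_cast
        rfl
      let g : Ix j → (ℕ →₀ ℕ) → ℂ := Sum.elim (fun _ d => mono k (V d) b)
        (fun _ d => (starRingEnd ℂ) (mono k (V d) b))
      have h4 : (∏ i : Ix j, ∑ d ∈ F, g i d) =
          ∑ D ∈ Fintype.piFinset fun _ : Ix j => F, ∏ i : Ix j, g i (D i) :=
        Finset.prod_univ_sum _ _
      have h2 : T k F b ^ j = ∏ _i : Fin j, ∑ d ∈ F, mono k (V d) b := by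
        rw [prod_const, card_univ, Fintype.card_fin]
        rfl
      have h3 : (starRingEnd ℂ) (T k F b) ^ j =
          ∏ _i : Fin j, ∑ d ∈ F, (starRingEnd ℂ) (mono k (V d) b) := by
        rw [prod_const, card_univ, Fintype.card_fin]
        unfold T
        rw [map_sum]
      rw [e1, h2, h3]
      rw [Fintype.prod_sum_type] at h4
      refine Eq.trans h4 ?_
      apply sum_congr rfl
      intro D _
      rw [Fintype.prod_sum_type]
      have e2 : W j D = fun a => (∏ i : Fin j, V (D (Sum.inl i)) a) *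
          ∏ i : Fin j, (starRingEnd ℂ) (V (D (Sum.inr i)) a) := rfl
      rw [e2, mono_mul k (fun a => ∏ i : Fin j, V (D (Sum.inl i)) a)
        (fun a => ∏ i : Fin j, (starRingEnd ℂ) (V (D (Sum.inr i)) a)),
        mono_prod k univ (fun i => V (D (Sum.inl i))),
        mono_prod k univ (fun i a => (starRingEnd ℂ) (V (D (Sum.inr i)) a))]
      simp only [mono_conj]
      rfl
    rw [sum_congr rfl fun b _ => h1 b, sum_comm]
    apply sum_congr rfl
    intro D _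
    rw [SB_pow]
  exact_mod_cast h

theorem norm_W_le (j : ℕ) (D : Ix j → ℕ →₀ ℕ) (a : ℤ) : ‖W j D a‖ ≤ 1 := by
  unfold W
  rw [norm_mul, norm_prod, norm_prod]
  have h1 : ∏ i : Fin j, ‖V (D (Sum.inl i)) a‖ ≤ 1 :=
    prod_le_one (fun _ _ => norm_nonneg _) fun i _ => norm_V_le _ _
  have h2 : ∏ i : Fin j, ‖(starRingEnd ℂ) (V (D (Sum.inr i)) a)‖ ≤ 1 :=
    prod_le_one (fun _ _ => norm_nonneg _) fun i _ => by rw [RCLike.norm_conj]; exact norm_V_le _ _
  calc _ ≤ (1 : ℝ) * 1 := mul_le_mul h1 h2 (prod_nonneg fun _ _ => norm_nonneg _) zero_le_one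
    _ = 1 := one_mul 1

theorem norm_T_le (k : ℕ) (F : Finset (ℕ →₀ ℕ)) (b : Ix k → ℕ) : ‖T k F b‖ ≤ F.card := by
  unfold T
  calc ‖∑ d ∈ F, mono k (V d) b‖ ≤ ∑ d ∈ F, ‖mono k (V d) b‖ := norm_sum_le _ _
    _ ≤ ∑ d ∈ F, (1 : ℝ) := sum_le_sum fun d _ => norm_mono_le k _ (norm_V_le d) b
    _ = F.card := by simp

end Pool.Agent.Work.AV
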