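import Mathlib
import Pool.Agent.Work.AV081200.Mom

/-!
# MP_081200_nt: common part of the blocks L2H and L2G (second moments of the prime families)
-/

set_option autoImplicit false

namespace Pool.Agent.Work.AV.L2aux

open Finset Pool.Agent.Work.AV

theorem mono_conj_mul (k : ℕ) (v w : ℤ → ℂ) (b : Ix k → ℕ) :
    mono k v b * (starRingEnd ℂ) (mono k w b) =
      mono k (fun a => v a * (starRingEnd ℂ) (w a)) b := by
  simp only [mono, map_mul, map_prod, Finset.prod_mul_distrib, Complex.conj_conj]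
  ring

theorem sum_mono (k B : ℕ) (v : ℤ → ℂ) :
    ∑ b ∈ Bx k B, mono k v b = ((‖SB B v‖ ^ (2 * k) : ℝ) : ℂ) := by
  have h := Finset.prod_univ_sum (fun _ : Ix k => Icc 1 B)
    (fun (i : Ix k) (a : ℕ) => Sum.elim (fun _ => v (a : ℤ)) (fun _ => (starRingEnd ℂ) (v (a : ℤ))) i)
  have h1 : ∑ b ∈ Bx k B, mono k v b =
      ∑ b ∈ Fintype.piFinset (fun _ : Ix k => Icc 1 B), ∏ i : Ix k,
        Sum.elim (fun _ => v ((b i : ℕ) : ℤ)) (fun _ => (starRingEnd ℂ) (v ((b i : ℕ) : ℤ))) i := by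
    refine Finset.sum_congr rfl fun b _ => ?_
    simp only [mono, Fintype.prod_sum_type, Sum.elim_inl, Sum.elim_inr]
  rw [h1, ← h, Fintype.prod_sum_type]
  simp only [Sum.elim_inl, Sum.elim_inr, Finset.prod_const, Finset.card_univ, Fintype.card_fin]
  have h2 : ∑ a ∈ Icc 1 B, (starRingEnd ℂ) (v (a : ℤ)) = (starRingEnd ℂ) (SB B v) := by
    simp only [SB, map_sum]
  have h3 : ∑ a ∈ Icc 1 B, v (a : ℤ) = SB B v := rfl
  rw [h2, h3, ← mul_pow, Complex.mul_conj, Complex.normSq_eq_norm_sq]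
  push_cast
  rw [← pow_mul]

theorem sum_sq_eq {ι : Type*} (k B : ℕ) (S : Finset ι) (v : ι → ℤ → ℂ) :
    ∑ b ∈ Bx k B, ‖∑ i ∈ S, mono k (v i) b‖ ^ 2 =
      ∑ i ∈ S, ∑ j ∈ S, ‖SB B fun a => v i a * (starRingEnd ℂ) (v j a)‖ ^ (2 * k) := by
  have h : ((∑ b ∈ Bx k B, ‖∑ i ∈ S, mono k (v i) b‖ ^ 2 : ℝ) : ℂ) =
      ((∑ i ∈ S, ∑ j ∈ S, ‖SB B fun a => v i a * (starRingEnd ℂ) (v j a)‖ ^ (2 * k) : ℝ) : ℂ) := by
    push_cast
    have h1 : ∀ b ∈ Bx k B, ((‖∑ i ∈ S, mono k (v i) b‖ : ℂ)) ^ 2 =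
        ∑ i ∈ S, ∑ j ∈ S, mono k (fun a => v i a * (starRingEnd ℂ) (v j a)) b := by
      intro b _
      have h2 : ((‖∑ i ∈ S, mono k (v i) b‖ : ℂ)) ^ 2 =
          (∑ i ∈ S, mono k (v i) b) * (starRingEnd ℂ) (∑ i ∈ S, mono k (v i) b) := by
        rw [Complex.mul_conj, Complex.normSq_eq_norm_sq]
        push_cast
        rfl
      rw [h2, map_sum, Finset.sum_mul_sum]
      exact Finset.sum_congr rfl fun i _ => Finset.sum_congr rfl fun j _ =>
        mono_conj_mul k (v i) (v j) b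
    rw [Finset.sum_congr rfl h1, Finset.sum_comm]
    refine Finset.sum_congr rfl fun i _ => ?_
    rw [Finset.sum_comm]
    refine Finset.sum_congr rfl fun j _ => ?_
    rw [sum_mono]
    push_cast
    rfl
  exact_mod_cast h

theorem norm_SB2_le (B p x p' x' : ℕ) :
    ‖SB B fun a => vl p x a * (starRingEnd ℂ) (vl p' x' a)‖ ≤ B := by
  refine norm_SB_le B _ fun a => ?_
  rw [norm_mul, RCLike.norm_conj]
  exact mul_le_one₀ (norm_vl_le p x a) (norm_nonneg _) (norm_vl_le p' x' a)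

theorem eq_single {d : ℕ →₀ ℕ} (hd : Ok d) (hp : (Nn d).Prime) :
    Nn d % 3 = 1 ∧ ∃ x ∈ Icc 1 (2 * Nn d), d = Finsupp.single (Nn d) x := by
  have hall : ∀ p ∈ d.support, p = Nn d := by
    intro p hps
    have hdvd : p ∣ Nn d := Finset.dvd_prod_of_mem (fun p => p) hps
    rcases (Nat.dvd_prime hp).mp hdvd with h | h
    · have := (hd p hps).1.two_le
      omega
    · exact h
  have hne : d.support.Nonempty := by
    rw [Finset.nonempty_iff_ne_empty]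
    intro h0
    have : Nn d = 1 := by
      unfold Nn
      rw [h0, Finset.prod_empty]
    rw [this] at hp
    exact Nat.not_prime_one hp
  obtain ⟨p, hps⟩ := hne
  have hpN := hall p hps
  have hmem : Nn d ∈ d.support := hpN ▸ hps
  obtain ⟨hLM, hle⟩ := hd _ hmem
  refine ⟨?_, d (Nn d), ?_, ?_⟩
  · rcases hLM with h | h
    · exact h.2
    · exfalso
      rw [h] at hp
      exact absurd hp (by norm_num)
  · rw [Finset.mem_Icc]
    exact ⟨Nat.one_le_iff_ne_zero.mpr (Finsupp.mem_support_iff.mp hmem), hle⟩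
  · refine Finsupp.ext fun q => ?_
    by_cases hq : q ∈ d.support
    · rw [hall q hq, Finsupp.single_eq_same]
    · have hq0 : d q = 0 := Finsupp.notMem_support_iff.mp hq
      have hne' : q ≠ Nn d := fun h => hq (h ▸ hmem)
      rw [hq0, Finsupp.single_eq_of_ne hne']

/-- the second moment of a family of primes -/
theorem fam_le (k B : ℕ) (F : Finset (ℕ →₀ ℕ)) (PP : Finset ℕ)
    (hF : ∀ d ∈ F, ∃ p ∈ PP, ∃ x ∈ Icc 1 (2 * p), d = Finsupp.single p x) :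
    ∑ b ∈ Bx k B, ‖T k F b‖ ^ 2 ≤
      ∑ p ∈ PP, ∑ b ∈ Bx k B, ‖ss k p b‖ ^ 2 +
      ∑ p ∈ PP, ∑ p' ∈ PP.erase p, ∑ x ∈ Icc 1 (2 * p), ∑ x' ∈ Icc 1 (2 * p'),
        ‖SB B fun a => vl p x a * (starRingEnd ℂ) (vl p' x' a)‖ ^ (2 * k) := by
  classical
  have h0 : ∑ b ∈ Bx k B, ‖T k F b‖ ^ 2 = ∑ d ∈ F, ∑ d' ∈ F,
      ‖SB B fun a => V d a * (starRingEnd ℂ) (V d' a)‖ ^ (2 * k) := sum_sq_eq k B F V
  rw [h0]
  set S : Finset (Σ _ : ℕ, ℕ) := PP.sigma fun p => Icc 1 (2 * p) with hS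
  set φ : (Σ _ : ℕ, ℕ) → (ℕ →₀ ℕ) := fun y => Finsupp.single y.1 y.2 with hφ
  have hsub : F ⊆ S.image φ := by
    intro d hd
    obtain ⟨p, hp, x, hx, rfl⟩ := hF d hd
    exact Finset.mem_image.mpr ⟨⟨p, x⟩, Finset.mem_sigma.mpr ⟨hp, hx⟩, rfl⟩
  have hne : ∀ y ∈ S, y.2 ≠ 0 := by
    intro y hy
    have := (Finset.mem_Icc.mp (Finset.mem_sigma.mp hy).2).1
    omega
  have hinj : Set.InjOn φ S := by
    intro y hy z hz hyz
    have hy' := hne y hy
    have h := (Finsupp.single_eq_single_iff _ _ _ _).mp hyz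
    rcases h with ⟨h1, h2⟩ | ⟨h1, _⟩
    · exact Sigma.ext h1 (heq_of_eq h2)
    · exact absurd h1 hy'
  have hstep : ∑ d ∈ F, ∑ d' ∈ F,
      ‖SB B fun a => V d a * (starRingEnd ℂ) (V d' a)‖ ^ (2 * k) ≤
      ∑ y ∈ S, ∑ z ∈ S,
        ‖SB B fun a => V (φ y) a * (starRingEnd ℂ) (V (φ z) a)‖ ^ (2 * k) := by
    calc ∑ d ∈ F, ∑ d' ∈ F,
          ‖SB B fun a => V d a * (starRingEnd ℂ) (V d' a)‖ ^ (2 * k)
        ≤ ∑ d ∈ S.image φ, ∑ d' ∈ S.image φ,
          ‖SB B fun a => V d a * (starRingEnd ℂ) (V d' a)‖ ^ (2 * k) := by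
          refine (Finset.sum_le_sum fun d _ => Finset.sum_le_sum_of_subset_of_nonneg hsub
            fun d' _ _ => by positivity).trans ?_
          exact Finset.sum_le_sum_of_subset_of_nonneg hsub fun d _ _ =>
            Finset.sum_nonneg fun d' _ => by positivity
      _ = ∑ y ∈ S, ∑ z ∈ S,
          ‖SB B fun a => V (φ y) a * (starRingEnd ℂ) (V (φ z) a)‖ ^ (2 * k) := by
          rw [Finset.sum_image hinj]
          refine Finset.sum_congr rfl fun y _ => ?_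
          rw [Finset.sum_image hinj]
  refine hstep.trans (le_of_eq ?_)
  have hconv : ∀ y ∈ S, ∀ z ∈ S,
      ‖SB B fun a => V (φ y) a * (starRingEnd ℂ) (V (φ z) a)‖ ^ (2 * k) =
      ‖SB B fun a => vl y.1 y.2 a * (starRingEnd ℂ) (vl z.1 z.2 a)‖ ^ (2 * k) := by
    intro y hy z hz
    have : (fun a => V (φ y) a * (starRingEnd ℂ) (V (φ z) a)) =
        fun a => vl y.1 y.2 a * (starRingEnd ℂ) (vl z.1 z.2 a) := by
      funext a
      rw [hφ]
      simp only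
      rw [V_single, V_single]
    rw [this]
  rw [Finset.sum_congr rfl fun y hy => Finset.sum_congr rfl fun z hz => hconv y hy z hz]
  rw [hS, Finset.sum_sigma]
  rw [← Finset.sum_add_distrib]
  refine Finset.sum_congr rfl fun p hp => ?_
  simp only [Finset.sum_sigma]
  rw [Finset.sum_comm]
  rw [← Finset.add_sum_erase PP _ hp]
  congr 1
  · exact (sum_sq_eq k B (Icc 1 (2 * p)) (fun x => vl p x)).symm

end Pool.Agent.Work.AV.L2aux
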