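import Mathlib
import Pool.Agent.Work.AV081200.L2Com

/-!
# MP_081200_nt: block L2H (second moment of the family of primes below `B ^ (2 - ε)`)
-/

set_option autoImplicit false

namespace Pool.Agent.Work.AV.L2aux

open Finset Pool.Agent.Work.AV

/-- sum over pairs of different primes of a family in `[H, 2H)` of a bounded quantity -/
theorem pairs_le (PP : Finset ℕ) (H : ℕ) (hc : PP.card ≤ H) (G : ℕ → ℕ → ℝ) (c : ℝ)
    (hc0 : 0 ≤ c) (hG : ∀ p ∈ PP, ∀ p' ∈ PP, p ≠ p' → G p p' ≤ c) :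
    ∑ p ∈ PP, ∑ p' ∈ PP.erase p, G p p' ≤ (H : ℝ) ^ 2 * c := by
  have hcR : (PP.card : ℝ) ≤ H := by exact_mod_cast hc
  have h1 : ∀ p ∈ PP, ∑ p' ∈ PP.erase p, G p p' ≤ (H : ℝ) * c := by
    intro p hp
    calc ∑ p' ∈ PP.erase p, G p p' ≤ ∑ _p' ∈ PP.erase p, c := by
          refine Finset.sum_le_sum fun p' hp' => ?_
          rw [Finset.mem_erase] at hp'
          exact hG p hp p' hp'.2 (Ne.symm hp'.1)
      _ = ((PP.erase p).card : ℝ) * c := by rw [Finset.sum_const, nsmul_eq_mul]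
      _ ≤ (H : ℝ) * c := by
          refine mul_le_mul_of_nonneg_right ?_ hc0
          exact le_trans (by exact_mod_cast Finset.card_erase_le) hcR
  calc ∑ p ∈ PP, ∑ p' ∈ PP.erase p, G p p' ≤ ∑ _p ∈ PP, (H : ℝ) * c := Finset.sum_le_sum h1
    _ = (PP.card : ℝ) * ((H : ℝ) * c) := by rw [Finset.sum_const, nsmul_eq_mul]
    _ ≤ (H : ℝ) * ((H : ℝ) * c) :=
        mul_le_mul_of_nonneg_right hcR (mul_nonneg (Nat.cast_nonneg _) hc0)
    _ = (H : ℝ) ^ 2 * c := by ring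

theorem diag_le (k B H : ℕ) (C : ℝ) (hC : 0 ≤ C) (PP : Finset ℕ) (hc : PP.card ≤ H)
    (h2 : ∀ p ∈ PP, p < 2 * H)
    (hs : ∀ p ∈ PP, ∑ b ∈ Bx k B, ‖ss k p b‖ ^ 2 ≤ C * (B : ℝ) ^ (2 * k) * p) :
    ∑ p ∈ PP, ∑ b ∈ Bx k B, ‖ss k p b‖ ^ 2 ≤ 2 * C * (B : ℝ) ^ (2 * k) * (H : ℝ) ^ 2 := by
  have hcR : (PP.card : ℝ) ≤ H := by exact_mod_cast hc
  have hA : 0 ≤ C * (B : ℝ) ^ (2 * k) := by positivity
  calc ∑ p ∈ PP, ∑ b ∈ Bx k B, ‖ss k p b‖ ^ 2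
      ≤ ∑ _p ∈ PP, C * (B : ℝ) ^ (2 * k) * (2 * H) := by
        refine Finset.sum_le_sum fun p hp => (hs p hp).trans ?_
        refine mul_le_mul_of_nonneg_left ?_ hA
        have := (h2 p hp).le
        exact_mod_cast this
    _ = (PP.card : ℝ) * (C * (B : ℝ) ^ (2 * k) * (2 * H)) := by
        rw [Finset.sum_const, nsmul_eq_mul]
    _ ≤ (H : ℝ) * (C * (B : ℝ) ^ (2 * k) * (2 * H)) :=
        mul_le_mul_of_nonneg_right hcR (by positivity)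
    _ = 2 * C * (B : ℝ) ^ (2 * k) * (H : ℝ) ^ 2 := by ring

theorem card_fam_le (H : ℕ) :
    ((Ico H (2 * H)).filter fun p => p.Prime ∧ p % 3 = 1).card ≤ H := by
  refine (Finset.card_filter_le _ _).trans ?_
  rw [Nat.card_Ico]
  omega

theorem T_zero_fam (k B : ℕ) (F : Finset (ℕ →₀ ℕ)) (hF : ∀ d ∈ F, d = 0) :
    ∑ b ∈ Bx k B, ‖T k F b‖ ^ 2 ≤ (B : ℝ) ^ (2 * k) := by
  have h1 : ∀ b ∈ Bx k B, ‖T k F b‖ ^ 2 ≤ 1 := by
    intro b _
    have hsub : F ⊆ {0} := fun d hd => Finset.mem_singleton.mpr (hF d hd)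
    rcases Finset.subset_singleton_iff.mp hsub with h | h
    · rw [h]
      simp [T]
    · rw [h]
      have : T k {0} b = mono k (V 0) b := by
        unfold T
        rw [Finset.sum_singleton]
      rw [this]
      have hn : ‖mono k (V 0) b‖ ≤ 1 := norm_mono_le k (V 0) (norm_V_le 0) b
      exact pow_le_one₀ (norm_nonneg _) hn
  calc ∑ b ∈ Bx k B, ‖T k F b‖ ^ 2 ≤ ∑ _b ∈ Bx k B, (1 : ℝ) := Finset.sum_le_sum h1
    _ = (B : ℝ) ^ (2 * k) := by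
        rw [Finset.sum_const, card_Bx, nsmul_eq_mul, mul_one]
        push_cast
        rfl

theorem rpow_neg_pow_mul {Q : ℝ} (hQ : 1 ≤ Q) {δ : ℝ} {k m : ℕ} (h : (m : ℝ) ≤ δ * k) :
    (Q ^ (-δ)) ^ (2 * k) * Q ^ (2 * m) ≤ 1 := by
  have hQ0 : 0 < Q := by linarith
  rw [← Real.rpow_natCast, ← Real.rpow_mul hQ0.le, ← Real.rpow_natCast Q (2 * m),
    ← Real.rpow_add hQ0]
  have : -δ * ((2 * k : ℕ) : ℝ) + ((2 * m : ℕ) : ℝ) ≤ 0 := by
    push_cast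
    nlinarith
  calc Q ^ (-δ * ((2 * k : ℕ) : ℝ) + ((2 * m : ℕ) : ℝ)) ≤ Q ^ (0 : ℝ) :=
        Real.rpow_le_rpow_of_exponent_le hQ this
    _ = 1 := Real.rpow_zero Q

theorem exists_large (e A : ℝ) (he : 0 < e) : ∃ Q0 : ℝ, 1 ≤ Q0 ∧ ∀ Q : ℝ, Q0 ≤ Q → A ≤ Q ^ e := by
  refine ⟨max 1 ((max A 1) ^ (1 / e)), le_max_left _ _, fun Q hQ => ?_⟩
  have hA : (0 : ℝ) ≤ max A 1 := le_trans zero_le_one (le_max_right _ _)
  have h1 : (max A 1) ^ (1 / e) ≤ Q := le_trans (le_max_right _ _) hQ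
  calc A ≤ max A 1 := le_max_left _ _
    _ = ((max A 1) ^ (1 / e)) ^ e := by
        rw [← Real.rpow_mul hA, one_div, inv_mul_cancel₀ he.ne', Real.rpow_one]
    _ ≤ Q ^ e := Real.rpow_le_rpow (Real.rpow_nonneg hA _) h1 he.le

end Pool.Agent.Work.AV.L2aux

namespace Pool.Agent.Work.AV

open Finset L2aux

theorem stmt_L2H (hSP : Stmt_SP) (hPB : Stmt_PB) : Stmt_L2H := by
  intro ε e hε he
  obtain ⟨k0, hk0⟩ := hSP (1 / 2) (by norm_num)
  obtain ⟨δ, hδ, Q1, hQ1⟩ := hPB ε hε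
  obtain ⟨k1, hk1⟩ := exists_nat_ge (2 / δ)
  refine ⟨max k0 k1, fun k hk => ?_⟩
  obtain ⟨C, hC, hCs⟩ := hk0 k (le_trans (le_max_left _ _) hk)
  obtain ⟨Q2, hQ21, hQ2⟩ := exists_large e (2 * C + 16) he
  refine ⟨max Q1 Q2, fun Q hQ B H hB1 hB2 hH hHB => ?_⟩
  have hQa : Q1 ≤ Q := le_trans (le_max_left _ _) hQ
  have hQb : Q2 ≤ Q := le_trans (le_max_right _ _) hQ
  have hQone : 1 ≤ Q := hQ21.trans hQb
  have hQe : 2 * C + 16 ≤ Q ^ e := hQ2 Q hQb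
  have hBone : (1 : ℝ) ≤ B := le_trans (Real.one_le_rpow hQone hε.le) hB1
  have hB0 : (0 : ℝ) < B := by linarith
  have hBnat : 1 ≤ B := by exact_mod_cast hBone
  have hHR : (1 : ℝ) ≤ H := by exact_mod_cast hH
  have hkδ : (2 : ℝ) ≤ δ * k := by
    have h1 : (k1 : ℝ) ≤ k := by exact_mod_cast le_trans (le_max_right _ _) hk
    have h2 : 2 / δ ≤ (k : ℝ) := hk1.trans h1
    rw [div_le_iff₀ hδ] at h2
    linarith
  rcases Nat.lt_or_ge 1 H with hH2 | hH1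
  · -- `H ≥ 2`
    set PP : Finset ℕ := (Ico H (2 * H)).filter fun p => p.Prime ∧ p % 3 = 1 with hPP
    have hmem : ∀ p ∈ PP, H ≤ p ∧ p < 2 * H ∧ p.Prime ∧ p % 3 = 1 := by
      intro p hp
      rw [hPP, Finset.mem_filter, Finset.mem_Ico] at hp
      exact ⟨hp.1.1, hp.1.2, hp.2.1, hp.2.2⟩
    have hF : ∀ d ∈ Dt (2 * H) (CH H), ∃ p ∈ PP, ∃ x ∈ Icc 1 (2 * p), d = Finsupp.single p x := by
      intro d hd
      obtain ⟨hOk, _, hC1, hC2, hC3⟩ := mem_Dt.mp hd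
      have hpr : (Nn d).Prime := by
        rcases hC3 with h | h
        · omega
        · exact h
      obtain ⟨h3, x, hx, hdx⟩ := eq_single hOk hpr
      refine ⟨Nn d, ?_, x, hx, hdx⟩
      rw [hPP, Finset.mem_filter, Finset.mem_Ico]
      exact ⟨⟨hC1, hC2⟩, hpr, h3⟩
    refine (fam_le k B _ PP hF).trans ?_
    have hH2Q : (H : ℝ) ^ 2 ≤ Q ^ (2 * 2) := by
      have h1 : (B : ℝ) ^ (2 - ε) ≤ (B : ℝ) ^ (2 : ℝ) :=
        Real.rpow_le_rpow_of_exponent_le hBone (by linarith)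
      have h2 : (B : ℝ) ^ (2 : ℝ) = (B : ℝ) ^ 2 := by
        rw [← Real.rpow_natCast]; norm_num
      have h3 : (H : ℝ) ≤ Q ^ 2 := by
        have h4 : (B : ℝ) ^ 2 ≤ Q ^ 2 := pow_le_pow_left₀ hB0.le hB2 2
        rw [h2] at h1
        linarith
      calc (H : ℝ) ^ 2 ≤ (Q ^ 2) ^ 2 := pow_le_pow_left₀ (by positivity) h3 2
        _ = Q ^ (2 * 2) := by rw [← pow_mul]
    have hdiag : ∑ p ∈ PP, ∑ b ∈ Bx k B, ‖ss k p b‖ ^ 2 ≤
        2 * C * (B : ℝ) ^ (2 * k) * (H : ℝ) ^ 2 := by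
      refine diag_le k B H C hC PP (card_fam_le H) (fun p hp => (hmem p hp).2.1) ?_
      intro p hp
      obtain ⟨_, hp2, hpp, hp3⟩ := hmem p hp
      refine hCs p B hpp hp3 hBnat ?_
      have h1 : (p : ℝ) ≤ (B : ℝ) ^ (2 : ℝ) := by
        have h2 : (p : ℝ) ≤ 2 * H := by exact_mod_cast hp2.le
        exact h2.trans (hHB.trans (Real.rpow_le_rpow_of_exponent_le hBone (by linarith)))
      calc (p : ℝ) ^ (1 / 2 : ℝ) ≤ ((B : ℝ) ^ (2 : ℝ)) ^ (1 / 2 : ℝ) :=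
            Real.rpow_le_rpow (by positivity) h1 (by norm_num)
        _ = B := by
            rw [← Real.rpow_mul hB0.le]; norm_num
    have hoff : ∑ p ∈ PP, ∑ p' ∈ PP.erase p, ∑ x ∈ Icc 1 (2 * p), ∑ x' ∈ Icc 1 (2 * p'),
        ‖SB B fun a => vl p x a * (starRingEnd ℂ) (vl p' x' a)‖ ^ (2 * k) ≤
        (H : ℝ) ^ 2 * (16 * (B : ℝ) ^ (2 * k)) := by
      refine pairs_le PP H (card_fam_le H) _ _ (by positivity) ?_
      intro p hp p' hp' hne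
      obtain ⟨_, hp2, hpp, hp3⟩ := hmem p hp
      obtain ⟨_, hp2', hpp', hp3'⟩ := hmem p' hp'
      have hpH : (p : ℝ) ≤ 2 * H := by exact_mod_cast hp2.le
      have hpH' : (p' : ℝ) ≤ 2 * H := by exact_mod_cast hp2'.le
      have hprod : (p : ℝ) * p' ≤ (B : ℝ) ^ (4 - ε) := by
        calc (p : ℝ) * p' ≤ (2 * H) * (2 * H) :=
              mul_le_mul hpH hpH' (by positivity) (by positivity)
          _ ≤ (B : ℝ) ^ (2 - ε) * (B : ℝ) ^ (2 - ε) :=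
              mul_le_mul hHB hHB (by positivity) (by positivity)
          _ = (B : ℝ) ^ ((2 - ε) + (2 - ε)) := by rw [Real.rpow_add hB0]
          _ ≤ (B : ℝ) ^ (4 - ε) := Real.rpow_le_rpow_of_exponent_le hBone (by linarith)
      have hb : ∀ x ∈ Icc 1 (2 * p), ∀ x' ∈ Icc 1 (2 * p'),
          ‖SB B fun a => vl p x a * (starRingEnd ℂ) (vl p' x' a)‖ ^ (2 * k) ≤
            (B : ℝ) ^ (2 * k) * (Q ^ (-δ)) ^ (2 * k) := by
        intro x hx x' hx'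
        rw [← mul_pow]
        exact pow_le_pow_left₀ (norm_nonneg _)
          (hQ1 Q hQa B hB1 hB2 p p' hpp hp3 hpp' hp3' hne hprod x hx x' hx') _
      have hQpos : (0 : ℝ) ≤ Q ^ (-δ) := Real.rpow_nonneg (by linarith) _
      calc ∑ x ∈ Icc 1 (2 * p), ∑ x' ∈ Icc 1 (2 * p'),
            ‖SB B fun a => vl p x a * (starRingEnd ℂ) (vl p' x' a)‖ ^ (2 * k)
          ≤ ∑ _x ∈ Icc 1 (2 * p), ∑ _x' ∈ Icc 1 (2 * p'),
              (B : ℝ) ^ (2 * k) * (Q ^ (-δ)) ^ (2 * k) :=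
            Finset.sum_le_sum fun x hx => Finset.sum_le_sum fun x' hx' => hb x hx x' hx'
        _ = (2 * p) * ((2 * p') * ((B : ℝ) ^ (2 * k) * (Q ^ (-δ)) ^ (2 * k))) := by
            simp [Finset.sum_const, nsmul_eq_mul]
        _ ≤ (2 * (2 * H)) * ((2 * (2 * H)) * ((B : ℝ) ^ (2 * k) * (Q ^ (-δ)) ^ (2 * k))) := by
            refine mul_le_mul (by linarith) ?_ (by positivity) (by positivity)
            exact mul_le_mul_of_nonneg_right (by linarith) (by positivity)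
        _ = 16 * (B : ℝ) ^ (2 * k) * ((Q ^ (-δ)) ^ (2 * k) * (H : ℝ) ^ 2) := by ring
        _ ≤ 16 * (B : ℝ) ^ (2 * k) * ((Q ^ (-δ)) ^ (2 * k) * Q ^ (2 * 2)) := by
            refine mul_le_mul_of_nonneg_left ?_ (by positivity)
            exact mul_le_mul_of_nonneg_left hH2Q (by positivity)
        _ ≤ 16 * (B : ℝ) ^ (2 * k) * 1 := by
            refine mul_le_mul_of_nonneg_left ?_ (by positivity)
            exact rpow_neg_pow_mul hQone (m := 2) (by push_cast; exact hkδ)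
        _ = 16 * (B : ℝ) ^ (2 * k) := mul_one _
    calc _ ≤ 2 * C * (B : ℝ) ^ (2 * k) * (H : ℝ) ^ 2 + (H : ℝ) ^ 2 * (16 * (B : ℝ) ^ (2 * k)) :=
          add_le_add hdiag hoff
      _ = (B : ℝ) ^ (2 * k) * (H : ℝ) ^ 2 * (2 * C + 16) := by ring
      _ ≤ (B : ℝ) ^ (2 * k) * (H : ℝ) ^ 2 * Q ^ e :=
          mul_le_mul_of_nonneg_left hQe (by positivity)
  · -- `H = 1`
    have hH1' : H = 1 := le_antisymm hH1 hH
    subst hH1'
    have hF : ∀ d ∈ Dt (2 * 1) (CH 1), d = 0 := by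
      intro d hd
      obtain ⟨hOk, _, hC1, hC2, _⟩ := mem_Dt.mp hd
      have hN : Nn d = 1 := by omega
      rw [← Finsupp.support_eq_empty, Finset.eq_empty_iff_forall_notMem]
      intro p hp
      have h1 := hOk.le_Nn hp
      have h2 := (hOk p hp).1.two_le
      omega
    refine (T_zero_fam k B _ hF).trans ?_
    have h1 : (1 : ℝ) ≤ Q ^ e := Real.one_le_rpow hQone he.le
    have h2 : (0 : ℝ) ≤ (B : ℝ) ^ (2 * k) := by positivity
    push_cast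
    nlinarith

end Pool.Agent.Work.AV
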