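import Mathlib
import Pool.Agent.Work.AV081200.L2H

/-!
# MP_081200_nt: block L2G (second moment of a family of large primes)
-/

set_option autoImplicit false

namespace Pool.Agent.Work.AV

open Finset L2aux

open Classical in
theorem L2aux.pair_le (k B p p' : ℕ) (Q δ N : ℝ) (hQ : 0 ≤ Q)
    (hN : ((((Icc 1 (2 * p)) ×ˢ (Icc 1 (2 * p'))).filter fun x =>
        (B : ℝ) * Q ^ (-δ) < ‖SB B fun a => vl p x.1 a * (starRingEnd ℂ) (vl p' x.2 a)‖).card : ℝ) ≤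
        N) :
    ∑ x ∈ Icc 1 (2 * p), ∑ x' ∈ Icc 1 (2 * p'),
        ‖SB B fun a => vl p x a * (starRingEnd ℂ) (vl p' x' a)‖ ^ (2 * k) ≤
      N * (B : ℝ) ^ (2 * k) + (2 * p) * (2 * p') * ((B : ℝ) ^ (2 * k) * (Q ^ (-δ)) ^ (2 * k)) := by
  set R : Finset (ℕ × ℕ) := (Icc 1 (2 * p)) ×ˢ (Icc 1 (2 * p')) with hR
  set g : ℕ × ℕ → ℝ := fun x =>
    ‖SB B fun a => vl p x.1 a * (starRingEnd ℂ) (vl p' x.2 a)‖ with hg
  have hQpos : (0 : ℝ) ≤ Q ^ (-δ) := Real.rpow_nonneg hQ _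
  have h0 : ∑ x ∈ Icc 1 (2 * p), ∑ x' ∈ Icc 1 (2 * p'),
        ‖SB B fun a => vl p x a * (starRingEnd ℂ) (vl p' x' a)‖ ^ (2 * k) =
      ∑ x ∈ R, g x ^ (2 * k) := by
    rw [hR, Finset.sum_product]
  rw [h0, ← Finset.sum_filter_add_sum_filter_not R (fun x => (B : ℝ) * Q ^ (-δ) < g x)]
  refine add_le_add ?_ ?_
  · calc ∑ x ∈ R.filter (fun x => (B : ℝ) * Q ^ (-δ) < g x), g x ^ (2 * k)
        ≤ ∑ _x ∈ R.filter (fun x => (B : ℝ) * Q ^ (-δ) < g x), (B : ℝ) ^ (2 * k) :=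
          Finset.sum_le_sum fun x _ =>
            pow_le_pow_left₀ (norm_nonneg _) (norm_SB2_le B p x.1 p' x.2) _
      _ = ((R.filter (fun x => (B : ℝ) * Q ^ (-δ) < g x)).card : ℝ) * (B : ℝ) ^ (2 * k) := by
          rw [Finset.sum_const, nsmul_eq_mul]
      _ ≤ N * (B : ℝ) ^ (2 * k) := mul_le_mul_of_nonneg_right hN (by positivity)
  · calc ∑ x ∈ R.filter (fun x => ¬ (B : ℝ) * Q ^ (-δ) < g x), g x ^ (2 * k)
        ≤ ∑ _x ∈ R.filter (fun x => ¬ (B : ℝ) * Q ^ (-δ) < g x),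
            (B : ℝ) ^ (2 * k) * (Q ^ (-δ)) ^ (2 * k) := by
          refine Finset.sum_le_sum fun x hx => ?_
          have hx2 := (Finset.mem_filter.mp hx).2
          rw [← mul_pow]
          exact pow_le_pow_left₀ (norm_nonneg _) (not_lt.mp hx2) _
      _ = ((R.filter (fun x => ¬ (B : ℝ) * Q ^ (-δ) < g x)).card : ℝ) *
            ((B : ℝ) ^ (2 * k) * (Q ^ (-δ)) ^ (2 * k)) := by
          rw [Finset.sum_const, nsmul_eq_mul]
      _ ≤ (2 * p) * (2 * p') * ((B : ℝ) ^ (2 * k) * (Q ^ (-δ)) ^ (2 * k)) := by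
          refine mul_le_mul_of_nonneg_right ?_ (by positivity)
          have h1 : (R.filter (fun x => ¬ (B : ℝ) * Q ^ (-δ) < g x)).card ≤ (2 * p) * (2 * p') := by
            refine (Finset.card_filter_le _ _).trans ?_
            rw [hR, Finset.card_product]
            simp
          exact_mod_cast h1

theorem stmt_L2G (hSP : Stmt_SP) (hPL : Stmt_PL) : Stmt_L2G := by
  intro ε e hε he
  obtain ⟨k0, hk0⟩ := hSP (ε / 2) (by linarith)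
  obtain ⟨δ, hδ, Q1, hQ1⟩ := hPL ε (e / 2) hε (by linarith)
  obtain ⟨k1, hk1⟩ := exists_nat_ge (1 / δ)
  refine ⟨max k0 k1, fun k hk => ?_⟩
  obtain ⟨C, hC, hCs⟩ := hk0 k (le_trans (le_max_left _ _) hk)
  obtain ⟨Q2, hQ21, hQ2⟩ := exists_large e (2 * C + 16) he
  obtain ⟨Q3, hQ31, hQ3⟩ := exists_large (e / 2) 2 (by linarith)
  refine ⟨max (max Q1 Q2) (max Q3 2), fun Q hQ B P hB1 hB2 hP hPQ => ?_⟩
  have hQa : Q1 ≤ Q := le_trans (le_trans (le_max_left _ _) (le_max_left _ _)) hQ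
  have hQb : Q2 ≤ Q := le_trans (le_trans (le_max_right _ _) (le_max_left _ _)) hQ
  have hQc : Q3 ≤ Q := le_trans (le_trans (le_max_left _ _) (le_max_right _ _)) hQ
  have hQ2' : 2 ≤ Q := le_trans (le_trans (le_max_right _ _) (le_max_right _ _)) hQ
  have hQone : 1 ≤ Q := by linarith
  have hQ0 : 0 < Q := by linarith
  have hQe : 2 * C + 16 ≤ Q ^ e := hQ2 Q hQb
  have hQe2 : 2 ≤ Q ^ (e / 2) := hQ3 Q hQc
  have hBone : (1 : ℝ) ≤ B := le_trans (Real.one_le_rpow hQone hε.le) hB1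
  have hB0 : (0 : ℝ) < B := by linarith
  have hBnat : 1 ≤ B := by exact_mod_cast hBone
  have hPR : (1 : ℝ) ≤ P := by exact_mod_cast hP
  have hP0 : (0 : ℝ) < P := by linarith
  have hkδ : (1 : ℝ) ≤ δ * k := by
    have h1 : (k1 : ℝ) ≤ k := by exact_mod_cast le_trans (le_max_right _ _) hk
    have h2 : 1 / δ ≤ (k : ℝ) := hk1.trans h1
    rw [div_le_iff₀ hδ] at h2
    linarith
  set PP : Finset ℕ := (Ico P (2 * P)).filter fun p => p.Prime ∧ p % 3 = 1 with hPP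
  have hmem : ∀ p ∈ PP, P ≤ p ∧ p < 2 * P ∧ p.Prime ∧ p % 3 = 1 := by
    intro p hp
    rw [hPP, Finset.mem_filter, Finset.mem_Ico] at hp
    exact ⟨hp.1.1, hp.1.2, hp.2.1, hp.2.2⟩
  have hF : ∀ d ∈ Dt (2 * P) (CP P), ∃ p ∈ PP, ∃ x ∈ Icc 1 (2 * p), d = Finsupp.single p x := by
    intro d hd
    obtain ⟨hOk, _, hC1, hC2, hpr⟩ := mem_Dt.mp hd
    obtain ⟨h3, x, hx, hdx⟩ := eq_single hOk hpr
    refine ⟨Nn d, ?_, x, hx, hdx⟩
    rw [hPP, Finset.mem_filter, Finset.mem_Ico]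
    exact ⟨⟨hC1, hC2⟩, hpr, h3⟩
  refine (fam_le k B _ PP hF).trans ?_
  have hP2Q : (P : ℝ) ^ 2 ≤ Q ^ (2 * 1) := pow_le_pow_left₀ hP0.le hPQ 2
  have hdiag : ∑ p ∈ PP, ∑ b ∈ Bx k B, ‖ss k p b‖ ^ 2 ≤
      2 * C * (B : ℝ) ^ (2 * k) * (P : ℝ) ^ 2 := by
    refine diag_le k B P C hC PP (card_fam_le P) (fun p hp => (hmem p hp).2.1) ?_
    intro p hp
    obtain ⟨_, hp2, hpp, hp3⟩ := hmem p hp
    refine hCs p B hpp hp3 hBnat ?_
    have h1 : (p : ℝ) ≤ Q ^ (2 : ℝ) := by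
      have h2 : (p : ℝ) ≤ 2 * P := by exact_mod_cast hp2.le
      have h3 : Q ^ (2 : ℝ) = Q ^ 2 := by
        rw [← Real.rpow_natCast]; norm_num
      rw [h3]
      nlinarith
    calc (p : ℝ) ^ (ε / 2) ≤ (Q ^ (2 : ℝ)) ^ (ε / 2) :=
          Real.rpow_le_rpow (by positivity) h1 (by linarith)
      _ = Q ^ ε := by
          rw [← Real.rpow_mul hQ0.le]
          congr 1
          ring
      _ ≤ B := hB1
  have hoff : ∑ p ∈ PP, ∑ p' ∈ PP.erase p, ∑ x ∈ Icc 1 (2 * p), ∑ x' ∈ Icc 1 (2 * p'),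
      ‖SB B fun a => vl p x a * (starRingEnd ℂ) (vl p' x' a)‖ ^ (2 * k) ≤
      (P : ℝ) ^ 2 * (Q ^ (e / 2) * (2 * P) / B * (B : ℝ) ^ (2 * k) + 16 * (B : ℝ) ^ (2 * k)) := by
    refine pairs_le PP P (card_fam_le P) _ _ (by positivity) ?_
    intro p hp p' hp' hne
    obtain ⟨_, hp2, hpp, hp3⟩ := hmem p hp
    obtain ⟨_, hp2', hpp', hp3'⟩ := hmem p' hp'
    have hpH : (p : ℝ) ≤ 2 * P := by exact_mod_cast hp2.le
    have hpH' : (p' : ℝ) ≤ 2 * P := by exact_mod_cast hp2'.le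
    have hQpos : (0 : ℝ) ≤ Q ^ (-δ) := Real.rpow_nonneg (by linarith) _
    have hN := hQ1 Q hQa B hB1 hB2 p p' hpp hp3 hpp' hp3' hne (by linarith) (by linarith)
    have hsqrt : ((p : ℝ) * p') ^ (1 / 2 : ℝ) ≤ 2 * P := by
      have h1 : (p : ℝ) * p' ≤ (2 * P) ^ 2 := by
        have := mul_le_mul hpH hpH' (by positivity) (by positivity)
        nlinarith
      calc ((p : ℝ) * p') ^ (1 / 2 : ℝ) ≤ ((2 * (P : ℝ)) ^ 2) ^ (1 / 2 : ℝ) :=
            Real.rpow_le_rpow (by positivity) h1 (by norm_num)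
        _ = 2 * P := by
            rw [← Real.sqrt_eq_rpow, Real.sqrt_sq (by positivity)]
    have hN2 : Q ^ (e / 2) * ((p : ℝ) * p') ^ (1 / 2 : ℝ) / B ≤ Q ^ (e / 2) * (2 * P) / B := by
      refine div_le_div_of_nonneg_right ?_ hB0.le
      exact mul_le_mul_of_nonneg_left hsqrt (by positivity)
    refine (L2aux.pair_le k B p p' Q δ _ hQ0.le (hN.trans hN2)).trans ?_
    refine add_le_add le_rfl ?_
    calc (2 * (p : ℝ)) * (2 * p') * ((B : ℝ) ^ (2 * k) * (Q ^ (-δ)) ^ (2 * k))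
        ≤ (2 * (2 * P)) * (2 * (2 * P)) * ((B : ℝ) ^ (2 * k) * (Q ^ (-δ)) ^ (2 * k)) := by
          refine mul_le_mul_of_nonneg_right ?_ (by positivity)
          exact mul_le_mul (by linarith) (by linarith) (by positivity) (by positivity)
      _ = 16 * (B : ℝ) ^ (2 * k) * ((Q ^ (-δ)) ^ (2 * k) * (P : ℝ) ^ 2) := by ring
      _ ≤ 16 * (B : ℝ) ^ (2 * k) * ((Q ^ (-δ)) ^ (2 * k) * Q ^ (2 * 1)) := by
          refine mul_le_mul_of_nonneg_left ?_ (by positivity)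
          exact mul_le_mul_of_nonneg_left hP2Q (by positivity)
      _ ≤ 16 * (B : ℝ) ^ (2 * k) * 1 := by
          refine mul_le_mul_of_nonneg_left ?_ (by positivity)
          exact rpow_neg_pow_mul hQone (m := 1) (by push_cast; exact hkδ)
      _ = 16 * (B : ℝ) ^ (2 * k) := mul_one _
  have hQsplit : Q ^ e = Q ^ (e / 2) * Q ^ (e / 2) := by
    rw [← Real.rpow_add hQ0]
    congr 1
    ring
  have hb2 : 2 * Q ^ (e / 2) ≤ Q ^ e := by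
    rw [hQsplit]
    exact mul_le_mul_of_nonneg_right hQe2 (by positivity)
  have hX : (0 : ℝ) ≤ (B : ℝ) ^ (2 * k) * (P : ℝ) ^ 2 := by positivity
  have hY : (0 : ℝ) ≤ (B : ℝ) ^ (2 * k) * ((P : ℝ) ^ 3 / B) := by positivity
  calc _ ≤ 2 * C * (B : ℝ) ^ (2 * k) * (P : ℝ) ^ 2 +
        (P : ℝ) ^ 2 * (Q ^ (e / 2) * (2 * P) / B * (B : ℝ) ^ (2 * k) +
          16 * (B : ℝ) ^ (2 * k)) := add_le_add hdiag hoff
    _ = ((B : ℝ) ^ (2 * k) * (P : ℝ) ^ 2) * (2 * C + 16) +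
        ((B : ℝ) ^ (2 * k) * ((P : ℝ) ^ 3 / B)) * (2 * Q ^ (e / 2)) := by ring
    _ ≤ ((B : ℝ) ^ (2 * k) * (P : ℝ) ^ 2) * Q ^ e +
        ((B : ℝ) ^ (2 * k) * ((P : ℝ) ^ 3 / B)) * Q ^ e :=
        add_le_add (mul_le_mul_of_nonneg_left hQe hX) (mul_le_mul_of_nonneg_left hb2 hY)
    _ = (B : ℝ) ^ (2 * k) * ((P : ℝ) ^ 2 + (P : ℝ) ^ 3 / B) * Q ^ e := by ring

end Pool.Agent.Work.AV
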