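import Pool.Agent.Work.AV081200.Interface

/-!
# Block MAIN (helper38): few bad conductors of a given shape

`stmt_MAIN` from the blocks MI, DIL, L2H, L2G, SMOOTH, ROUGH.
-/

set_option autoImplicit false

namespace Pool.Agent.Work.AV

open Finset Pool.Agent.Work.LV Pool.Agent.Work.LV.M Pool.Agent.Work.SC

namespace MAINaux

/-! ## Trivial bounds -/

theorem LM.one_lt {p : ℕ} (h : LM p) : 1 < p := by
  rcases h with ⟨h, -⟩ | rfl
  · exact h.one_lt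
  · norm_num

theorem LM.cop {p q : ℕ} (hp : LM p) (hq : LM q) (h : p ≠ q) : p.Coprime q := by
  have key : ∀ r : ℕ, r.Prime → r % 3 = 1 → r.Coprime 9 := by
    intro r hr hr3
    have h3 : r ≠ 3 := by rintro rfl; omega
    have : r.Coprime 3 := (Nat.coprime_primes hr Nat.prime_three).2 h3
    exact Nat.Coprime.pow_right 2 this
  rcases hp with ⟨hp, hp3⟩ | rfl <;> rcases hq with ⟨hq, hq3⟩ | rfl
  · exact (Nat.coprime_primes hp hq).2 h
  · exact key p hp hp3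
  · exact (key q hq hq3).symm
  · exact absurd rfl h

theorem supp_sub {d d' : ℕ →₀ ℕ} (h : Ok d) (h' : Ok d') (hN : Nn d = Nn d') :
    d.support ⊆ d'.support := by
  intro p hp
  by_contra hc
  have h1 : p ∣ Nn d' := by
    rw [← hN]
    exact dvd_prod_of_mem _ hp
  have h2 : p.Coprime (Nn d') := Nat.Coprime.prod_right fun q hq =>
    LM.cop (h p hp).1 (h' q hq).1 (by rintro rfl; exact hc hq)
  have h3 := Nat.Coprime.eq_one_of_dvd h2 h1
  have h4 := LM.one_lt (h p hp).1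
  omega

theorem supp_eq {d d' : ℕ →₀ ℕ} (h : Ok d) (h' : Ok d') (hN : Nn d = Nn d') :
    d.support = d'.support :=
  Subset.antisymm (supp_sub h h' hN) (supp_sub h' h hN.symm)

/-- the number of data with conductor `N` -/
theorem fib_card (F : Finset (ℕ →₀ ℕ)) (N : ℕ) (hF : ∀ d ∈ F, Ok d ∧ Nn d = N) :
    F.card ≤ N ^ 2 := by
  classical
  rcases F.eq_empty_or_nonempty with rfl | ⟨d0, hd0⟩
  · simp
  obtain ⟨hok, hN⟩ := hF d0 hd0
  have hsub : F ⊆ d0.support.finsupp fun p => Icc 1 (2 * p) := by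
    intro d hd
    obtain ⟨hok', hN'⟩ := hF d hd
    have hs := supp_eq hok' hok (hN'.trans hN.symm)
    rw [mem_finsupp_iff]
    refine ⟨hs.le, fun p hp => ?_⟩
    rw [← hs] at hp
    rw [mem_Icc]
    exact ⟨Nat.one_le_iff_ne_zero.2 (Finsupp.mem_support_iff.1 hp), (hok' p hp).2⟩
  refine (card_le_card hsub).trans ?_
  rw [card_finsupp]
  have h1 : ∀ p ∈ d0.support, (Icc 1 (2 * p)).card ≤ p ^ 2 := by
    intro p hp
    have := LM.one_lt (hok p hp).1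
    rw [Nat.card_Icc, Nat.add_sub_cancel, pow_two]
    exact Nat.mul_le_mul_right p this
  refine (prod_le_prod' h1).trans ?_
  rw [prod_pow]
  exact (congrArg (· ^ 2) hN).le

theorem Nn_pos {d : ℕ →₀ ℕ} (h : Ok d) : 0 < Nn d :=
  prod_pos fun p hp => (LM.one_lt (h p hp).1).le.trans_lt' (by norm_num)

theorem card_Dt (K : ℕ) (C : ℕ → Prop) : (Dt K C).card ≤ (K + 1) ^ 3 := by
  classical
  have hmem : ∀ d ∈ Dt K C, Ok d ∧ Nn d ≤ K := by
    intro d hd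
    unfold Dt at hd
    rw [mem_filter] at hd
    exact ⟨hd.2.1, hd.2.2.1⟩
  have h1 : (Dt K C).card ≤ K ^ 2 * ((Dt K C).image Nn).card := by
    refine card_le_mul_card_image _ _ fun N hN => ?_
    rw [mem_image] at hN
    obtain ⟨d, hd, rfl⟩ := hN
    refine (fib_card _ (Nn d) fun d' hd' => ?_).trans (Nat.pow_le_pow_left (hmem d hd).2 2)
    rw [mem_filter] at hd'
    exact ⟨(hmem d' hd'.1).1, hd'.2⟩
  have h2 : ((Dt K C).image Nn).card ≤ K + 1 := by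
    refine (card_le_card (t := range (K + 1)) ?_).trans (card_range _).le
    intro N hN
    rw [mem_image] at hN
    obtain ⟨d, hd, rfl⟩ := hN
    exact mem_range.2 (Nat.lt_succ_of_le (hmem d hd).2)
  calc (Dt K C).card ≤ K ^ 2 * ((Dt K C).image Nn).card := h1
    _ ≤ (K + 1) ^ 2 * (K + 1) := Nat.mul_le_mul (Nat.pow_le_pow_left (Nat.le_succ K) 2) h2
    _ = (K + 1) ^ 3 := by ring

theorem norm_vl_le (p k : ℕ) (a : ℤ) : ‖vl p k a‖ ≤ 1 := by
  unfold vl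
  split_ifs
  · simp
  · rw [norm_pow]
    exact pow_le_one₀ (norm_nonneg _) (DirichletCharacter.norm_le_one _ _)

theorem norm_V_le (d : ℕ →₀ ℕ) (a : ℤ) : ‖V d a‖ ≤ 1 := by
  unfold V
  rw [norm_prod]
  exact prod_le_one (fun _ _ => norm_nonneg _) fun p _ => norm_vl_le _ _ _

theorem norm_mono_le' (k : ℕ) (d : ℕ →₀ ℕ) (b : Ix k → ℕ) : ‖mono k (V d) b‖ ≤ 1 := by
  unfold mono
  rw [norm_mul, norm_prod, norm_prod]
  refine mul_le_one₀ (prod_le_one (fun _ _ => norm_nonneg _) fun i _ => norm_V_le _ _)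
    (prod_nonneg fun _ _ => norm_nonneg _) (prod_le_one (fun _ _ => norm_nonneg _) fun i _ => ?_)
  rw [RCLike.norm_conj]
  exact norm_V_le _ _

theorem norm_T_le (k : ℕ) (F : Finset (ℕ →₀ ℕ)) (b : Ix k → ℕ) : ‖T k F b‖ ≤ F.card := by
  unfold T
  refine (norm_sum_le _ _).trans ?_
  calc ∑ d ∈ F, ‖mono k (V d) b‖ ≤ ∑ _d ∈ F, (1 : ℝ) := sum_le_sum fun d _ => norm_mono_le' k d b
    _ = F.card := by simp

theorem norm_T_Dt (k P : ℕ) (hP : 1 ≤ P) (C : ℕ → Prop) (b : Ix k → ℕ) :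
    ‖T k (Dt (2 * P) C) b‖ ≤ (3 * (P : ℝ)) ^ 3 := by
  refine (norm_T_le k _ b).trans ?_
  have h1 : ((Dt (2 * P) C).card : ℝ) ≤ (((2 * P + 1) ^ 3 : ℕ) : ℝ) := by
    exact_mod_cast card_Dt (2 * P) C
  refine h1.trans ?_
  push_cast
  have hP' : (1 : ℝ) ≤ P := by exact_mod_cast hP
  exact pow_le_pow_left₀ (by positivity) (by linarith) 3

/-! ## Arithmetic -/

theorem arith1 {ε B P : ℝ} (hε : 0 < ε) (hB1 : 1 ≤ B) (hP : 0 < P) (hPB : B ^ (1 - ε) ≤ 2 * P) :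
    P ^ 2 + P ^ 3 / B ≤ 3 * B ^ ε * (P ^ 3 / B) := by
  have hB0 : 0 < B := by linarith
  have h1 : (1 : ℝ) ≤ B ^ ε := Real.one_le_rpow hB1 hε.le
  have h2 : B = B ^ ε * B ^ (1 - ε) := by
    rw [← Real.rpow_add hB0, add_sub_cancel, Real.rpow_one]
  have h3 : B ≤ B ^ ε * (2 * P) := by
    calc B = B ^ ε * B ^ (1 - ε) := h2
      _ ≤ B ^ ε * (2 * P) := mul_le_mul_of_nonneg_left hPB (by positivity)
  have h4 : P ^ 2 ≤ 2 * B ^ ε * (P ^ 3 / B) := by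
    rw [← mul_div_assoc, le_div_iff₀ hB0]
    calc P ^ 2 * B ≤ P ^ 2 * (B ^ ε * (2 * P)) := mul_le_mul_of_nonneg_left h3 (by positivity)
      _ = 2 * B ^ ε * P ^ 3 := by ring
  have h5 : P ^ 3 / B ≤ B ^ ε * (P ^ 3 / B) := le_mul_of_one_le_left (by positivity) h1
  linarith

theorem arith_main {Q ε : ℝ} {n : ℕ} (hn : 3 ≤ n) (hε : 0 < ε) (hQ : 1 ≤ Q)
    {B P H X M : ℝ} (hB1 : 1 ≤ B) (hB : B ≤ Q ^ (1 / (n : ℝ) - ε)) (hP : 0 < P) (hH : 0 < H)
    (hX : 0 < X) (hM : 0 < M) (hPB : B ^ (1 - ε) ≤ 2 * P)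
    (hPMB : P * M * B ≤ Q ^ (4 / (n : ℝ) - ε)) (hprod : P * H * X * M ≤ Q) :
    X * M ^ (3 / 2 : ℝ) * H * Real.sqrt (P ^ 2 + P ^ 3 / B) * B ≤
      2 * Q ^ (1 + 2 / (n : ℝ) - ε / 3) := by
  have hB0 : 0 < B := by linarith
  have hQ0 : 0 < Q := by linarith
  have hn' : (3 : ℝ) ≤ n := by exact_mod_cast hn
  have hn0 : (0 : ℝ) < n := by linarith
  have h1n : 1 / (n : ℝ) ≤ 1 / 3 := one_div_le_one_div_of_le (by norm_num) hn'
  refine le_of_abs_le (abs_le_of_sq_le_sq (b := 2 * Q ^ (1 + 2 / (n : ℝ) - ε / 3)) ?_ (by positivity))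
  have hs : Real.sqrt (P ^ 2 + P ^ 3 / B) ^ 2 = P ^ 2 + P ^ 3 / B := Real.sq_sqrt (by positivity)
  have hM3 : (M ^ (3 / 2 : ℝ)) ^ 2 = M ^ 3 := by
    rw [← Real.rpow_natCast, ← Real.rpow_mul hM.le, ← Real.rpow_natCast]
    norm_num
  have hBε : B ^ ε ≤ Q ^ ((1 / (n : ℝ) - ε) * ε) := by
    rw [Real.rpow_mul hQ0.le]
    exact Real.rpow_le_rpow hB0.le hB hε.le
  have hq2 : (2 * Q ^ (1 + 2 / (n : ℝ) - ε / 3)) ^ 2 = 4 * Q ^ (2 * (1 + 2 / (n : ℝ) - ε / 3)) := by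
    rw [mul_pow, ← Real.rpow_natCast (Q ^ _), ← Real.rpow_mul hQ0.le]
    push_cast
    norm_num
    ring_nf
  rw [hq2]
  calc (X * M ^ (3 / 2 : ℝ) * H * Real.sqrt (P ^ 2 + P ^ 3 / B) * B) ^ 2
      = X ^ 2 * M ^ 3 * H ^ 2 * B ^ 2 * (P ^ 2 + P ^ 3 / B) := by
        rw [mul_pow, mul_pow, mul_pow, mul_pow, hM3, hs]; ring
    _ ≤ X ^ 2 * M ^ 3 * H ^ 2 * B ^ 2 * (3 * B ^ ε * (P ^ 3 / B)) :=
        mul_le_mul_of_nonneg_left (arith1 hε hB1 hP hPB) (by positivity)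
    _ = 3 * (P * H * X * M) ^ 2 * (P * M * B) * B ^ ε := by field_simp
    _ ≤ 3 * Q ^ 2 * Q ^ (4 / (n : ℝ) - ε) * Q ^ ((1 / (n : ℝ) - ε) * ε) := by
        refine mul_le_mul (mul_le_mul ?_ hPMB (by positivity) (by positivity)) hBε (by positivity)
          (by positivity)
        exact mul_le_mul_of_nonneg_left (pow_le_pow_left₀ (by positivity) hprod 2) (by norm_num)
    _ = 3 * Q ^ ((2 : ℝ) + (4 / (n : ℝ) - ε) + (1 / (n : ℝ) - ε) * ε) := by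
        rw [Real.rpow_add hQ0, Real.rpow_add hQ0, Real.rpow_two]; ring
    _ ≤ 3 * Q ^ (2 * (1 + 2 / (n : ℝ) - ε / 3)) := by
        refine mul_le_mul_of_nonneg_left (Real.rpow_le_rpow_of_exponent_le hQ ?_) (by norm_num)
        have : (1 / (n : ℝ) - ε) * ε ≤ 1 / 3 * ε :=
          mul_le_mul_of_nonneg_right (by linarith) hε.le
        have e4 : (4 : ℝ) / n = 2 * (2 / n) := by ring
        rw [e4]
        linarith
    _ ≤ 4 * Q ^ (2 * (1 + 2 / (n : ℝ) - ε / 3)) :=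
        mul_le_mul_of_nonneg_right (by norm_num) (by positivity)

/-! ## Splitting of the sum -/

theorem sum_split {ι : Type*} (U E3 E4 : Finset ι) (t1 t2 t3 t4 : ι → ℝ)
    (h1 : ∀ b, 0 ≤ t1 b) (h2 : ∀ b, 0 ≤ t2 b) (h4 : ∀ b, 0 ≤ t4 b)
    {x3 x4 C A1 A2 : ℝ} (hx3 : 0 ≤ x3) (hx4 : 0 ≤ x4)
    (hC : ∀ b, t1 b * t2 b * t3 b * t4 b ≤ C)
    (hE3 : ∀ b ∈ U, b ∉ E3 → t3 b ≤ x3) (hE4 : ∀ b ∈ U, b ∉ E4 → t4 b ≤ x4)
    (hA1 : ∑ b ∈ U, t1 b ^ 2 ≤ A1) (hA2 : ∑ b ∈ U, t2 b ^ 2 ≤ A2) (hC0 : 0 ≤ C) :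
    ∑ b ∈ U, t1 b * t2 b * t3 b * t4 b ≤
      Real.sqrt (A1 * A2) * (x3 * x4) + (E3.card + E4.card) * C := by
  classical
  have hpt : ∀ b ∈ U, t1 b * t2 b * t3 b * t4 b ≤ t1 b * t2 b * (x3 * x4) +
      ((if b ∈ E3 then C else 0) + (if b ∈ E4 then C else 0)) := by
    intro b hb
    by_cases hb3 : b ∈ E3
    · rw [if_pos hb3]
      have e1 : 0 ≤ t1 b * t2 b * (x3 * x4) :=
        mul_nonneg (mul_nonneg (h1 b) (h2 b)) (mul_nonneg hx3 hx4)
      have e2 : 0 ≤ (if b ∈ E4 then C else 0) := by split_ifs <;> linarith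
      linarith [hC b]
    · by_cases hb4 : b ∈ E4
      · rw [if_neg hb3, if_pos hb4]
        have e1 : 0 ≤ t1 b * t2 b * (x3 * x4) :=
          mul_nonneg (mul_nonneg (h1 b) (h2 b)) (mul_nonneg hx3 hx4)
        linarith [hC b]
      · rw [if_neg hb3, if_neg hb4, mul_assoc (t1 b * t2 b), add_zero, add_zero]
        refine mul_le_mul_of_nonneg_left ?_ (mul_nonneg (h1 b) (h2 b))
        exact mul_le_mul (hE3 b hb hb3) (hE4 b hb hb4) (h4 b) hx3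
  refine (sum_le_sum hpt).trans ?_
  rw [sum_add_distrib, sum_add_distrib, ← sum_mul]
  refine add_le_add (mul_le_mul_of_nonneg_right ?_ (mul_nonneg hx3 hx4)) ?_
  · have hcs := sum_mul_sq_le_sq_mul_sq U t1 t2
    refine Real.le_sqrt_of_sq_le (hcs.trans ?_)
    exact mul_le_mul hA1 hA2 (sum_nonneg fun b _ => sq_nonneg _)
      ((sum_nonneg fun b _ => sq_nonneg _).trans hA1)
  · rw [add_mul]
    have key : ∀ E : Finset ι, ∑ b ∈ U, (if b ∈ E then C else 0) ≤ E.card * C := by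
      intro E
      rw [← sum_filter, sum_const, nsmul_eq_mul]
      refine mul_le_mul_of_nonneg_right ?_ hC0
      have : (U.filter fun b => b ∈ E).card ≤ E.card :=
        card_le_card fun b hb => (mem_filter.1 hb).2
      exact_mod_cast this
    exact add_le_add (key E3) (key E4)

/-! ## Finiteness -/

theorem finite_chars (Q : ℝ) :
    ({x | 1 ≤ x.1 ∧ (x.1 : ℝ) ≤ Q} : Set ((f : ℕ) × DirichletCharacter ℂ f)).Finite := by
  have h : ({x | 1 ≤ x.1 ∧ (x.1 : ℝ) ≤ Q} : Set ((f : ℕ) × DirichletCharacter ℂ f)) ⊆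
      ⋃ f ∈ (Icc 1 ⌊Q⌋₊ : Finset ℕ),
        (Sigma.mk f) '' (Set.univ : Set (DirichletCharacter ℂ f)) := by
    rintro ⟨f, ψ⟩ ⟨h1, h2⟩
    simp only [Set.mem_iUnion]
    exact ⟨f, mem_Icc.2 ⟨h1, Nat.le_floor h2⟩, ψ, trivial, rfl⟩
  refine Set.Finite.subset (Set.Finite.biUnion (Finset.finite_toSet _) fun f hf => ?_) h
  have hf' : f ≠ 0 := by
    have := (mem_Icc.1 (Finset.mem_coe.1 hf)).1
    omega
  have : NeZero f := ⟨hf'⟩
  have : Finite (DirichletCharacter ℂ f) := inferInstance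
  exact Set.Finite.image _ Set.finite_univ

/-- the last step: from the moment inequality to the bound -/
theorem last_step {Q ε : ℝ} {n k : ℕ} (hn : 3 ≤ n) (hε : 0 < ε) (hε1 : ε < 1) (hQ : 1 ≤ Q)
    (hQb : 1062882 ≤ Q) (hQε : 3 ≤ Q ^ (ε / 12))
    {B P H X M s : ℝ} (hs0 : 0 ≤ s) (hB1 : 1 ≤ B) (hB : B ≤ Q ^ (1 / (n : ℝ) - ε)) (hP : 0 < P)
    (hH : 0 < H) (hX : 0 < X) (hM : 0 < M) (hPB : B ^ (1 - ε) ≤ 2 * P)
    (hPMB : P * M * B ≤ Q ^ (4 / (n : ℝ) - ε)) (hprod : P * H * X * M ≤ Q) {e eD : ℝ}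
    (he : e = ε / 24) (heD : eD = e / (2 * k + 2))
    (hmom : s * (Q ^ (2 / (n : ℝ) - eD) / B) * (B * Q ^ (-eD)) ^ (2 * k) ≤
      Real.sqrt (B ^ (2 * k) * (P ^ 2 + P ^ 3 / B) * Q ^ e * (B ^ (2 * k) * H ^ 2 * Q ^ e)) *
        (X * Q ^ e * (M ^ (3 / 2 : ℝ) * Q ^ e)) +
      (B ^ (2 * k) / Q ^ 20 + B ^ (2 * k) / Q ^ 20) * (531441 * Q ^ 3)) :
    s ≤ Q ^ (1 - ε / 12) := by
  have hB0 : 0 < B := by linarith
  have hQ0 : 0 < Q := by linarith
  have hn' : (3 : ℝ) ≤ n := by exact_mod_cast hn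
  have hn0 : (0 : ℝ) < n := by linarith
  have h1n : 1 / (n : ℝ) ≤ 1 / 3 := one_div_le_one_div_of_le (by norm_num) hn'
  have h2n : 0 < 2 / (n : ℝ) := by positivity
  have hk : (0 : ℝ) ≤ k := Nat.cast_nonneg k
  have he0 : 0 < e := by rw [he]; positivity
  have heD0 : 0 < eD := by rw [heD]; positivity
  -- the square root
  have hsq : Real.sqrt (B ^ (2 * k) * (P ^ 2 + P ^ 3 / B) * Q ^ e * (B ^ (2 * k) * H ^ 2 * Q ^ e)) =
      B ^ (2 * k) * H * Q ^ e * Real.sqrt (P ^ 2 + P ^ 3 / B) := by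
    have : B ^ (2 * k) * (P ^ 2 + P ^ 3 / B) * Q ^ e * (B ^ (2 * k) * H ^ 2 * Q ^ e) =
        (B ^ (2 * k) * H * Q ^ e) ^ 2 * (P ^ 2 + P ^ 3 / B) := by ring
    rw [this, Real.sqrt_mul (by positivity), Real.sqrt_sq (by positivity)]
  rw [hsq] at hmom
  have hmain := arith_main hn hε hQ hB1 hB hP hH hX hM hPB hPMB hprod
  have hBQ : B ≤ Q := by
    refine hB.trans ((Real.rpow_le_rpow_of_exponent_le hQ ?_).trans (Real.rpow_one Q).le)
    linarith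
  -- left side
  have hleft : s * B ^ (2 * k) * Q ^ (2 / (n : ℝ) - e) ≤
      s * (Q ^ (2 / (n : ℝ) - eD) / B) * (B * Q ^ (-eD)) ^ (2 * k) * B := by
    have h1 : (B * Q ^ (-eD)) ^ (2 * k) = B ^ (2 * k) * Q ^ (-eD * (2 * k)) := by
      rw [mul_pow, ← Real.rpow_natCast (Q ^ (-eD)), ← Real.rpow_mul hQ0.le]
      push_cast
      ring_nf
    have h2 : s * (Q ^ (2 / (n : ℝ) - eD) / B) * (B * Q ^ (-eD)) ^ (2 * k) * B =
        s * B ^ (2 * k) * Q ^ ((2 / (n : ℝ) - eD) + -eD * (2 * k)) := by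
      rw [h1, Real.rpow_add hQ0]
      field_simp
    rw [h2]
    refine mul_le_mul_of_nonneg_left (Real.rpow_le_rpow_of_exponent_le hQ ?_) (by positivity)
    have : eD * (2 * k + 2) = e := by rw [heD]; field_simp
    nlinarith
  -- right side
  have hright : (B ^ (2 * k) * H * Q ^ e * Real.sqrt (P ^ 2 + P ^ 3 / B) *
        (X * Q ^ e * (M ^ (3 / 2 : ℝ) * Q ^ e)) +
      (B ^ (2 * k) / Q ^ 20 + B ^ (2 * k) / Q ^ 20) * (531441 * Q ^ 3)) * B ≤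
      B ^ (2 * k) * (3 * Q ^ (1 + 2 / (n : ℝ) - ε / 3 + 3 * e)) := by
    have h3 : Q ^ e * Q ^ e * Q ^ e = Q ^ (3 * e) := by
      rw [← Real.rpow_add hQ0, ← Real.rpow_add hQ0]
      ring_nf
    have h4 : B ^ (2 * k) * H * Q ^ e * Real.sqrt (P ^ 2 + P ^ 3 / B) *
        (X * Q ^ e * (M ^ (3 / 2 : ℝ) * Q ^ e)) * B =
        B ^ (2 * k) * ((X * M ^ (3 / 2 : ℝ) * H * Real.sqrt (P ^ 2 + P ^ 3 / B) * B) *
          Q ^ (3 * e)) := by
      rw [← h3]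
      ring
    have h5 : (B ^ (2 * k) / Q ^ 20 + B ^ (2 * k) / Q ^ 20) * (531441 * Q ^ 3) * B =
        B ^ (2 * k) * (1062882 * B / Q ^ 17) := by
      field_simp
      ring
    rw [add_mul, h4, h5, ← mul_add]
    refine mul_le_mul_of_nonneg_left ?_ (by positivity)
    have h6 : (X * M ^ (3 / 2 : ℝ) * H * Real.sqrt (P ^ 2 + P ^ 3 / B) * B) * Q ^ (3 * e) ≤
        2 * Q ^ (1 + 2 / (n : ℝ) - ε / 3 + 3 * e) := by
      rw [Real.rpow_add hQ0, ← mul_assoc]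
      exact mul_le_mul_of_nonneg_right hmain (by positivity)
    have h7 : 1062882 * B / Q ^ 17 ≤ 1 := by
      rw [div_le_one (by positivity)]
      calc 1062882 * B ≤ Q * Q := mul_le_mul hQb hBQ hB0.le hQ0.le
        _ = Q ^ 2 := by ring
        _ ≤ Q ^ 17 := pow_le_pow_right₀ hQ (by norm_num)
    have h8 : 1 ≤ Q ^ (1 + 2 / (n : ℝ) - ε / 3 + 3 * e) := Real.one_le_rpow hQ (by linarith)
    linarith
  have hfin : s * B ^ (2 * k) * Q ^ (2 / (n : ℝ) - e) ≤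
      B ^ (2 * k) * (3 * Q ^ (1 + 2 / (n : ℝ) - ε / 3 + 3 * e)) :=
    hleft.trans ((mul_le_mul_of_nonneg_right hmom hB0.le).trans hright)
  have hfin2 : s * Q ^ (2 / (n : ℝ) - e) ≤ 3 * Q ^ (1 + 2 / (n : ℝ) - ε / 3 + 3 * e) := by
    have hb : 0 < B ^ (2 * k) := by positivity
    refine le_of_mul_le_mul_left ?_ hb
    calc B ^ (2 * k) * (s * Q ^ (2 / (n : ℝ) - e)) = s * B ^ (2 * k) * Q ^ (2 / (n : ℝ) - e) := by
          ring
      _ ≤ _ := hfin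
  have hQe : 0 < Q ^ (2 / (n : ℝ) - e) := by positivity
  refine le_of_mul_le_mul_right (hfin2.trans ?_) hQe
  rw [← Real.rpow_add hQ0]
  calc 3 * Q ^ (1 + 2 / (n : ℝ) - ε / 3 + 3 * e)
      ≤ Q ^ (ε / 12) * Q ^ (1 + 2 / (n : ℝ) - ε / 3 + 3 * e) :=
        mul_le_mul_of_nonneg_right hQε (by positivity)
    _ = Q ^ (ε / 12 + (1 + 2 / (n : ℝ) - ε / 3 + 3 * e)) := (Real.rpow_add hQ0 _ _).symm
    _ ≤ Q ^ (1 - ε / 12 + (2 / (n : ℝ) - e)) := by
        refine Real.rpow_le_rpow_of_exponent_le hQ ?_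
        rw [he]
        linarith

end MAINaux

open MAINaux in
/-- **Block MAIN** -/
theorem stmt_MAIN (hMI : Stmt_MI) (hDIL : Stmt_DIL) (hL2H : Stmt_L2H) (hL2G : Stmt_L2G)
    (hSM : Stmt_SMOOTH) (hRO : Stmt_ROUGH) : Stmt_MAIN := by
  intro n hn ε hε hε1
  set e : ℝ := ε / 24 with he
  have he0 : 0 < e := by positivity
  have hεR : 0 < ε * (1 - ε) := mul_pos hε (by linarith)
  obtain ⟨k1, hk1⟩ := hL2H ε e hε he0
  obtain ⟨k2, hk2⟩ := hL2G ε e hε he0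
  obtain ⟨k3, hk3⟩ := hSM ε e hε hε1 he0
  obtain ⟨k4, hk4⟩ := hRO (ε * (1 - ε)) e hεR he0
  set k : ℕ := k1 + k2 + k3 + k4 with hk
  obtain ⟨Q1, hQ1⟩ := hk1 k (by omega)
  obtain ⟨Q2, hQ2⟩ := hk2 k (by omega)
  obtain ⟨Q3, hQ3⟩ := hk3 k (by omega)
  obtain ⟨Q4, hQ4⟩ := hk4 k (by omega)
  set eD : ℝ := e / (2 * k + 2) with heD
  have heD0 : 0 < eD := by positivity
  obtain ⟨δ, hδ, Q5, hQ5⟩ := hDIL n hn ε eD hε heD0
  refine ⟨δ, hδ, ε / 12, by positivity, max (max (max Q1 Q2) (max Q3 Q4))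
    (max (max Q5 1062882) ((3 : ℝ) ^ (12 / ε))), ?_⟩
  intro Q hQ B P H X M hQB hBQ hHB hPMB
  have hQ1' : Q1 ≤ Q := by
    refine le_trans ?_ hQ
    exact (le_max_left _ _).trans ((le_max_left _ _).trans (le_max_left _ _))
  have hQ2' : Q2 ≤ Q := by
    refine le_trans ?_ hQ
    exact (le_max_right _ _).trans ((le_max_left _ _).trans (le_max_left _ _))
  have hQ3' : Q3 ≤ Q := by
    refine le_trans ?_ hQ
    exact (le_max_left _ _).trans ((le_max_right _ _).trans (le_max_left _ _))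
  have hQ4' : Q4 ≤ Q := by
    refine le_trans ?_ hQ
    exact (le_max_right _ _).trans ((le_max_right _ _).trans (le_max_left _ _))
  have hQ5' : Q5 ≤ Q := by
    refine le_trans ?_ hQ
    exact (le_max_left _ _).trans ((le_max_left _ _).trans (le_max_right _ _))
  have hQb : 1062882 ≤ Q := by
    refine le_trans ?_ hQ
    exact (le_max_right _ _).trans ((le_max_left _ _).trans (le_max_right _ _))
  have hQ3ε : (3 : ℝ) ^ (12 / ε) ≤ Q := by
    refine le_trans ?_ hQ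
    exact (le_max_right _ _).trans (le_max_right _ _)
  have hQ1r : 1 ≤ Q := by linarith
  have hQ0 : 0 < Q := by linarith
  have hQε : 3 ≤ Q ^ (ε / 12) := by
    calc (3 : ℝ) = ((3 : ℝ) ^ (12 / ε)) ^ (ε / 12) := by
          rw [← Real.rpow_mul (by norm_num)]
          have : 12 / ε * (ε / 12) = 1 := by field_simp
          rw [this, Real.rpow_one]
      _ ≤ Q ^ (ε / 12) := Real.rpow_le_rpow (by positivity) hQ3ε (by positivity)
  have hn' : (3 : ℝ) ≤ n := by exact_mod_cast hn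
  have h1n : 1 / (n : ℝ) ≤ 1 / 3 := one_div_le_one_div_of_le (by norm_num) hn'
  set 𝒮 : Set ((f : ℕ) × DirichletCharacter ℂ f) :=
    {x | x ∈ BadP n δ Q ∧ Q ^ (3 / 4 : ℝ) ≤ (x.1 : ℝ) ∧ Pat ε B P H X M x.1} with h𝒮
  have hfin : 𝒮.Finite := by
    refine (finite_chars Q).subset ?_
    rintro x ⟨⟨⟨h1, h2, -⟩, -⟩, -⟩
    exact ⟨h1, h2⟩
  rw [Set.ncard_eq_toFinset_card _ hfin]
  set S := hfin.toFinset with hS
  have hmemS : ∀ x ∈ S, x ∈ BadP n δ Q ∧ Q ^ (3 / 4 : ℝ) ≤ (x.1 : ℝ) ∧ Pat ε B P H X M x.1 := by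
    intro x hx
    exact (Set.Finite.mem_toFinset hfin).1 hx
  rcases S.eq_empty_or_nonempty with hem | ⟨x0, hx0⟩
  · rw [hem]
    simp only [card_empty, Nat.cast_zero]
    positivity
  -- the sizes
  have hB1 : (1 : ℝ) ≤ B := (Real.one_le_rpow hQ1r hε.le).trans hQB
  have hB1' : 1 ≤ B := by exact_mod_cast hB1
  have hB0 : (0 : ℝ) < B := by linarith
  have hBQ1 : (B : ℝ) ≤ Q := by
    refine hBQ.trans ((Real.rpow_le_rpow_of_exponent_le hQ1r ?_).trans (Real.rpow_one Q).le)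
    linarith
  obtain ⟨⟨⟨hf1, hfQ, -⟩, -⟩, -, p, h, r, m, hf, -, -, -, ⟨hP1, hP2, hP3⟩, hBp, ⟨hH1, hH2, -⟩,
    ⟨hX1, hX2, -⟩, ⟨hM1, hM2, -⟩⟩ := hmemS x0 hx0
  have hP1' : 1 ≤ P := by omega
  have hH1' : 1 ≤ H := by omega
  have hX1' : 1 ≤ X := by omega
  have hM1' : 1 ≤ M := by omega
  have hprodN : P * H * X * M ≤ p * h * r * m :=
    Nat.mul_le_mul (Nat.mul_le_mul (Nat.mul_le_mul hP1 hH1) hX1) hM1
  have hprod : (P : ℝ) * H * X * M ≤ Q := by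
    refine le_trans ?_ hfQ
    rw [hf]
    exact_mod_cast hprodN
  have cP : (1 : ℝ) ≤ P := by exact_mod_cast hP1'
  have cH : (1 : ℝ) ≤ H := by exact_mod_cast hH1'
  have cX : (1 : ℝ) ≤ X := by exact_mod_cast hX1'
  have cM : (1 : ℝ) ≤ M := by exact_mod_cast hM1'
  have hPQ : (P : ℝ) ≤ Q := by
    refine le_trans ?_ hprod
    have a1 : (P : ℝ) ≤ P * H := le_mul_of_one_le_right (by linarith) cH
    have a2 : (P : ℝ) * H ≤ P * H * X := le_mul_of_one_le_right (by positivity) cX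
    have a3 : (P : ℝ) * H * X ≤ P * H * X * M := le_mul_of_one_le_right (by positivity) cM
    linarith
  have hXQ : (X : ℝ) ≤ Q := by
    refine le_trans ?_ hprod
    have a1 : (1 : ℝ) ≤ P * H * M := by
      have := one_le_mul_of_one_le_of_one_le cP cH
      exact one_le_mul_of_one_le_of_one_le this cM
    have := le_mul_of_one_le_right (a := (X : ℝ)) (by linarith) a1
    linarith
  have hMQ : (M : ℝ) ≤ Q := by
    refine le_trans ?_ hprod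
    have a1 : (1 : ℝ) ≤ P * H * X := by
      have := one_le_mul_of_one_le_of_one_le cP cH
      exact one_le_mul_of_one_le_of_one_le this cX
    have := le_mul_of_one_le_right (a := (M : ℝ)) (by linarith) a1
    linarith
  have hPB : (B : ℝ) ^ (1 - ε) ≤ 2 * P := by
    refine hBp.le.trans ?_
    have : (p : ℝ) ≤ ((2 * P : ℕ) : ℝ) := by exact_mod_cast hP2.le
    push_cast at this
    exact this
  -- the moment inequality
  set θ : ℝ := (B : ℝ) * Q ^ (-eD) with hθ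
  set Y : ℝ := Q ^ (2 / (n : ℝ) - eD) / B with hY
  have hmi := hMI ε k B P H X M θ Y S (by positivity) (by positivity) (by
    intro x hx
    obtain ⟨⟨⟨g1, g2, g3, g4, g5⟩, M0, N0, g6, g7⟩, g8, g9⟩ := hmemS x hx
    have hx0 : x.1 ≠ 0 := by omega
    have : NeZero x.1 := ⟨hx0⟩
    refine ⟨hx0, g3, g4, g9, _, hQ5 Q hQ5' x.1 x.2 g8 g2 M0 N0 g6 g7 B hB1' hBQ, ?_⟩
    intro z hz
    exact (mem_filter.1 hz).2)
  -- the four families
  set t1 : (Ix k → ℕ) → ℝ := fun b => ‖T k (Dt (2 * P) (CP P)) b‖ with ht1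
  set t2 : (Ix k → ℕ) → ℝ := fun b => ‖T k (Dt (2 * H) (CH H)) b‖ with ht2
  set t3 : (Ix k → ℕ) → ℝ := fun b => ‖T k (Dt (2 * X) (CX ((B : ℝ) ^ (1 - ε)) X)) b‖ with ht3
  set t4 : (Ix k → ℕ) → ℝ := fun b => ‖T k (Dt (2 * M) (CM ((B : ℝ) ^ (1 - ε)) M)) b‖ with ht4
  classical
  have hA1 := hQ2 Q hQ2' B P hQB hBQ1 hP1' hPQ
  have hA2 := hQ1 Q hQ1' B H hQB hBQ1 hH1' hHB
  have hE3 := hQ3 Q hQ3' B X hQB hBQ1 hX1' hXQ
  have hE4 := hQ4 Q hQ4' B M ((B : ℝ) ^ (1 - ε))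
    ((Real.rpow_le_rpow_of_exponent_le hQ1r (by nlinarith)).trans hQB)
    (by
      rw [Real.rpow_mul hQ0.le]
      exact Real.rpow_le_rpow (by positivity) hQB (by linarith)) hM1' hMQ
  set E3 := (Bx k B).filter fun b => (X : ℝ) * Q ^ e < t3 b with hE3d
  set E4 := (Bx k B).filter fun b => (M : ℝ) ^ (3 / 2 : ℝ) * Q ^ e < t4 b with hE4d
  have hc3 : (E3.card : ℝ) ≤ (B : ℝ) ^ (2 * k) / Q ^ 20 := by
    rw [le_div_iff₀ (by positivity)]
    exact hE3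
  have hc4 : (E4.card : ℝ) ≤ (B : ℝ) ^ (2 * k) / Q ^ 20 := by
    rw [le_div_iff₀ (by positivity)]
    exact hE4
  have hsplit := sum_split (Bx k B) E3 E4 t1 t2 t3 t4 (fun _ => norm_nonneg _)
    (fun _ => norm_nonneg _) (fun _ => norm_nonneg _)
    (x3 := (X : ℝ) * Q ^ e) (x4 := (M : ℝ) ^ (3 / 2 : ℝ) * Q ^ e) (C := 531441 * Q ^ 3)
    (by positivity) (by positivity) (by
      intro b
      have b1 := norm_T_Dt k P hP1' (CP P) b
      have b2 := norm_T_Dt k H hH1' (CH H) b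
      have b3 := norm_T_Dt k X hX1' (CX ((B : ℝ) ^ (1 - ε)) X) b
      have b4 := norm_T_Dt k M hM1' (CM ((B : ℝ) ^ (1 - ε)) M) b
      calc t1 b * t2 b * t3 b * t4 b
          ≤ (3 * (P : ℝ)) ^ 3 * (3 * (H : ℝ)) ^ 3 * (3 * (X : ℝ)) ^ 3 * (3 * (M : ℝ)) ^ 3 := by
            gcongr
        _ = 531441 * ((P : ℝ) * H * X * M) ^ 3 := by ring
        _ ≤ 531441 * Q ^ 3 :=
            mul_le_mul_of_nonneg_left (pow_le_pow_left₀ (by positivity) hprod 3) (by norm_num))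
    (fun b hb hb' => by
      rw [hE3d, mem_filter, not_and] at hb'
      exact not_lt.1 (hb' hb))
    (fun b hb hb' => by
      rw [hE4d, mem_filter, not_and] at hb'
      exact not_lt.1 (hb' hb))
    hA1 hA2 (by positivity)
  refine last_step (k := k) hn hε hε1 hQ1r hQb hQε (Nat.cast_nonneg _) hB1 hBQ (by linarith)
    (by linarith) (by linarith) (by linarith) hPB hPMB hprod he heD (hmi.trans (hsplit.trans ?_))
  refine add_le_add le_rfl (mul_le_mul_of_nonneg_right (add_le_add hc3 hc4) (by positivity))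

end Pool.Agent.Work.AV
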