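import Pool.Agent.Work.AV081200.Mom

/-!
# Block MI: the moment inequality
-/

set_option autoImplicit false

namespace Pool.Agent.Work.AV

open Finset Pool.Agent.Work.LV

namespace MIaux

lemma LM_dvd_or {p u v : ℕ} (hp : LM p) (huv : u.Coprime v) (h : p ∣ u * v) : p ∣ u ∨ p ∣ v := by
  rcases hp with hp | rfl
  · exact (hp.1.dvd_mul).1 h
  · have h3 : Nat.Prime 3 := Nat.prime_three
    have e : (9 : ℕ) = 3 ^ 2 := by norm_num
    rw [e] at h ⊢
    by_cases h3u : 3 ∣ u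
    · left
      have hc : Nat.Coprime 3 v := Nat.Coprime.coprime_dvd_left h3u huv
      exact (Nat.Coprime.pow_left 2 hc).dvd_of_dvd_mul_right h
    · right
      have hc : Nat.Coprime 3 u := (Nat.Prime.coprime_iff_not_dvd h3).2 h3u
      exact (Nat.Coprime.pow_left 2 hc).dvd_of_dvd_mul_left h

lemma LM_coprime {p p' : ℕ} (hp : LM p) (hp' : LM p') (hne : p ≠ p') : Nat.Coprime p p' := by
  have key : ∀ r : ℕ, r.Prime → r % 3 = 1 → Nat.Coprime r 9 := by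
    intro r hr h1
    have h3 : Nat.Coprime r 3 := (Nat.coprime_primes hr Nat.prime_three).2 (by
      rintro rfl
      omega)
    have e : (9 : ℕ) = 3 ^ 2 := by norm_num
    rw [e]
    exact Nat.Coprime.pow_right 2 h3
  rcases hp with hp | rfl <;> rcases hp' with hp' | rfl
  · exact (Nat.coprime_primes hp.1 hp'.1).2 hne
  · exact key p hp.1 hp.2
  · exact (key p' hp'.1 hp'.2).symm
  · exact absurd rfl hne

lemma prod_dvd (s : Finset ℕ) (hs : ∀ p ∈ s, LM p) (u : ℕ) (h : ∀ p ∈ s, p ∣ u) :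
    ∏ p ∈ s, p ∣ u := by
  refine Finset.prod_dvd_of_isRelPrime (fun p hp p' hp' hne => ?_) h
  exact Nat.coprime_iff_isRelPrime.1 (LM_coprime (hs p hp) (hs p' hp') hne)

/-- Splitting of data. -/
lemma split {d : ℕ →₀ ℕ} (hd : Ok d) {u v : ℕ} (hN : Nn d = u * v) (huv : u.Coprime v) :
    ∃ d1 d2 : ℕ →₀ ℕ, d1 + d2 = d ∧ Ok d1 ∧ Ok d2 ∧ Nn d1 = u ∧ Nn d2 = v ∧
      ∀ a, V d a = V d1 a * V d2 a := by
  classical
  refine ⟨d.filter (fun p => p ∣ u), d.filter (fun p => ¬ p ∣ u),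
    Finsupp.filter_add_filter_not d _, ?_, ?_, ?_⟩
  · intro p hp
    rw [Finsupp.support_filter, mem_filter] at hp
    rw [Finsupp.filter_apply_pos (fun p => p ∣ u) d hp.2]
    exact hd p hp.1
  · intro p hp
    rw [Finsupp.support_filter, mem_filter] at hp
    rw [Finsupp.filter_apply_pos (fun p => ¬ p ∣ u) d hp.2]
    exact hd p hp.1
  have hdis : Disjoint (d.filter (fun p => p ∣ u)).support
      (d.filter (fun p => ¬ p ∣ u)).support := by
    rw [Finset.disjoint_left]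
    intro p hp hp'
    rw [Finsupp.support_filter, mem_filter] at hp hp'
    exact hp'.2 hp.2
  have hV := V_add hdis
  have hNN := Nn_add hdis
  rw [Finsupp.filter_add_filter_not] at hV hNN
  have hd1 : Nn (d.filter (fun p => p ∣ u)) ∣ u := by
    unfold Nn
    refine prod_dvd _ (fun p hp => ?_) u fun p hp => ?_
    · rw [Finsupp.support_filter, mem_filter] at hp
      exact (hd p hp.1).1
    · rw [Finsupp.support_filter, mem_filter] at hp
      exact hp.2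
  have hd2 : Nn (d.filter (fun p => ¬ p ∣ u)) ∣ v := by
    unfold Nn
    refine prod_dvd _ (fun p hp => ?_) v fun p hp => ?_
    · rw [Finsupp.support_filter, mem_filter] at hp
      exact (hd p hp.1).1
    · rw [Finsupp.support_filter, mem_filter] at hp
      have h1 : p ∣ u * v := hN ▸ dvd_Nn hp.1
      exact (LM_dvd_or (hd p hp.1).1 huv h1).resolve_left hp.2
  have hpos : 0 < Nn d := hd.pos
  obtain ⟨s, hs⟩ := hd1
  obtain ⟨t, ht⟩ := hd2
  have hst : Nn d * (s * t) = Nn d * 1 := by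
    calc Nn d * (s * t) = (Nn (d.filter (fun p => p ∣ u)) * s)
          * (Nn (d.filter (fun p => ¬ p ∣ u)) * t) := by rw [hNN]; ring
      _ = u * v := by rw [← hs, ← ht]
      _ = Nn d * 1 := by rw [hN, mul_one]
  have hst1 : s * t = 1 := Nat.eq_of_mul_eq_mul_left hpos hst
  have hs1 : s = 1 := Nat.eq_one_of_mul_eq_one_right hst1
  have ht1 : t = 1 := Nat.eq_one_of_mul_eq_one_left hst1
  refine ⟨?_, ?_, hV⟩
  · rw [hs1, mul_one] at hs
    exact hs.symm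
  · rw [ht1, mul_one] at ht
    exact ht.symm

lemma split4 {d : ℕ →₀ ℕ} (hd : Ok d) {p h r m : ℕ} (hN : Nn d = p * h * r * m)
    (h1 : p.Coprime h) (h2 : (p * h).Coprime r) (h3 : (p * h * r).Coprime m) :
    ∃ d1 d2 d3 d4 : ℕ →₀ ℕ, d1 + d2 + d3 + d4 = d ∧ (Ok d1 ∧ Nn d1 = p) ∧ (Ok d2 ∧ Nn d2 = h) ∧
      (Ok d3 ∧ Nn d3 = r) ∧ (Ok d4 ∧ Nn d4 = m) ∧
      ∀ a, V d a = V d1 a * V d2 a * V d3 a * V d4 a := by
  obtain ⟨e3, d4, s3, o3, o4, n3, n4, v3⟩ := split hd hN h3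
  obtain ⟨e2, d3, s2, o2, o3', n2, n3', v2⟩ := split o3 n3 h2
  obtain ⟨d1, d2, s1, o1, o2', n1, n2', v1⟩ := split o2 n2 h1
  refine ⟨d1, d2, d3, d4, ?_, ⟨o1, n1⟩, ⟨o2', n2'⟩, ⟨o3', n3'⟩, ⟨o4, n4⟩, fun a => ?_⟩
  · rw [s1, s2, s3]
  · rw [v3, v2, v1]

end MIaux

/-- Block MI. -/
theorem stmt_MI (hREP : Stmt_REP) : Stmt_MI := by
  classical
  intro ε k B P H X M θ Y S hθ hY hS
  choose Φ hinj hΦ using hREP
  choose! Z hZY hZ using fun x hx => (hS x hx).2.2.2.2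
  set F1 := Dt (2 * P) (CP P) with hF1
  set F2 := Dt (2 * H) (CH H) with hF2
  set F3 := Dt (2 * X) (CX ((B : ℝ) ^ (1 - ε)) X) with hF3
  set F4 := Dt (2 * M) (CM ((B : ℝ) ^ (1 - ε)) M) with hF4
  refine le_trans ?_ (sum_four k B F1 F2 F3 F4)
  -- the quadruples
  have key : ∀ y : (x : (f : ℕ) × DirichletCharacter ℂ f) × ZMod x.1, y ∈ S.sigma Z →
      ∃ t : (ℕ →₀ ℕ) × (ℕ →₀ ℕ) × (ℕ →₀ ℕ) × (ℕ →₀ ℕ), t ∈ F1 ×ˢ F2 ×ˢ F3 ×ˢ F4 ∧
        (∀ a : ℤ, y.1.2 (y.2 + (a : ZMod y.1.1)) = V t.1 a * V t.2.1 a * V t.2.2.1 a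
          * V t.2.2.2 a) ∧
        ∃ (h0 : NeZero y.1.1) (h1 : y.1.2.IsPrimitive ∧ y.1.2 ^ 3 = 1),
          t.1 + t.2.1 + t.2.2.1 + t.2.2.2 = Φ y.1.1 (⟨y.1.2, h1⟩, y.2) := by
    intro y hy
    rw [mem_sigma] at hy
    obtain ⟨hf0, hprim, hcub, ⟨p, h, r, m, hf, c1, c2, c3, hP, -, hH, hX, hM⟩, -⟩ := hS y.1 hy.1
    have inst : NeZero y.1.1 := ⟨hf0⟩
    obtain ⟨ok, hN, hv⟩ := hΦ y.1.1 (⟨y.1.2, hprim, hcub⟩, y.2)
    replace hN := hN.trans hf
    obtain ⟨d1, d2, d3, d4, hsum, ⟨o1, n1⟩, ⟨o2, n2⟩, ⟨o3, n3⟩, ⟨o4, n4⟩, hV⟩ :=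
      MIaux.split4 ok hN c1 c2 c3
    refine ⟨(d1, d2, d3, d4), ?_, fun a => ?_, ⟨hf0⟩, ⟨hprim, hcub⟩, hsum⟩
    · rw [mem_product, mem_product, mem_product]
      refine ⟨mem_Dt.2 ⟨o1, ?_, ?_⟩, mem_Dt.2 ⟨o2, ?_, ?_⟩, mem_Dt.2 ⟨o3, ?_, ?_⟩,
        mem_Dt.2 ⟨o4, ?_, ?_⟩⟩
      · rw [n1]
        exact hP.2.1.le
      · rw [n1]
        exact hP
      · rw [n2]
        exact hH.2.1.le
      · rw [n2]
        exact hH
      · rw [n3]
        exact hX.2.1.le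
      · rw [n3]
        exact hX
      · rw [n4]
        exact hM.2.1.le
      · rw [n4]
        exact hM
    · rw [← hV a]
      exact hv a
  choose! g hg1 hg2 hg3 using key
  have hginj : Set.InjOn g (S.sigma Z : Finset _) := by
    intro y hy y' hy' he
    obtain ⟨h0, h1, hs⟩ := hg3 y hy
    obtain ⟨h0', h1', hs'⟩ := hg3 y' hy'
    rw [← he, hs] at hs'
    obtain ⟨⟨f, χ⟩, z⟩ := y
    obtain ⟨⟨f', χ'⟩, z'⟩ := y'
    simp only at h0 h1 hs h0' h1' hs'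
    have e1 : f = f' := by
      have a1 := (hΦ f (⟨χ, h1⟩, z)).2.1
      have a2 := (hΦ f' (⟨χ', h1'⟩, z')).2.1
      rw [← a1, ← a2, hs']
    subst e1
    have e2 := hinj f hs'
    have e3 : χ = χ' := congrArg (fun w => w.1.1) e2
    have e4 : z = z' := congrArg (fun w => w.2) e2
    subst e3
    subst e4
    rfl
  set G : (ℕ →₀ ℕ) × (ℕ →₀ ℕ) × (ℕ →₀ ℕ) × (ℕ →₀ ℕ) → ℝ := fun t =>
    ‖SB B fun a => V t.1 a * V t.2.1 a * V t.2.2.1 a * V t.2.2.2 a‖ ^ (2 * k) with hG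
  have hG0 : ∀ t, 0 ≤ G t := fun t => by simp only [hG]; positivity
  have e1 : ∑ d1 ∈ F1, ∑ d2 ∈ F2, ∑ d3 ∈ F3, ∑ d4 ∈ F4,
      ‖SB B fun a => V d1 a * V d2 a * V d3 a * V d4 a‖ ^ (2 * k)
      = ∑ t ∈ F1 ×ˢ F2 ×ˢ F3 ×ˢ F4, G t := by
    rw [Finset.sum_product]
    refine sum_congr rfl fun d1 _ => ?_
    rw [Finset.sum_product]
    refine sum_congr rfl fun d2 _ => ?_
    rw [Finset.sum_product]
  rw [e1]
  calc (S.card : ℝ) * Y * θ ^ (2 * k) = ∑ x ∈ S, Y * θ ^ (2 * k) := by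
        rw [sum_const, nsmul_eq_mul]
        ring
    _ ≤ ∑ x ∈ S, ∑ z ∈ Z x, θ ^ (2 * k) := by
        refine sum_le_sum fun x hx => ?_
        rw [sum_const, nsmul_eq_mul]
        exact mul_le_mul_of_nonneg_right (hZY x hx) (by positivity)
    _ = ∑ y ∈ S.sigma Z, θ ^ (2 * k) := by rw [Finset.sum_sigma]
    _ ≤ ∑ y ∈ S.sigma Z, G (g y) := by
        refine sum_le_sum fun y hy => ?_
        have hy' := mem_sigma.1 hy
        have h1 := hZ y.1 hy'.1 y.2 hy'.2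
        have h2 : TT y.1.2 B y.2
            = ‖SB B fun a => V (g y).1 a * V (g y).2.1 a * V (g y).2.2.1 a * V (g y).2.2.2 a‖ := by
          unfold TT SB
          congr 1
          refine sum_congr rfl fun b _ => ?_
          show _ = V (g y).1 (b : ℤ) * V (g y).2.1 (b : ℤ) * V (g y).2.2.1 (b : ℤ)
            * V (g y).2.2.2 (b : ℤ)
          rw [← hg2 y hy (b : ℤ), Int.cast_natCast]
        rw [h2] at h1
        exact pow_le_pow_left₀ hθ h1 _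
    _ = ∑ t ∈ (S.sigma Z).image g, G t := by
        rw [sum_image hginj]
    _ ≤ _ := by
        refine sum_le_sum_of_subset_of_nonneg ?_ fun t _ _ => hG0 t
        intro t ht
        rw [mem_image] at ht
        obtain ⟨y, hy, rfl⟩ := ht
        exact hg1 y hy

end Pool.Agent.Work.AV
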