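import Pool.Agent.Work.AV081200.NGa

/-!
# MP_081200_nt: block NG (restricted form)
-/

set_option autoImplicit false

namespace Pool.Agent.Work.AV.NGaux

open Finset Pool.Agent.Work.LV Pool.Agent.Work.LV.M Pool.Agent.Work.SC Pool.Agent.Work.AV

lemma Icc_sum_eq (f : ℤ → ℂ) (B : ℕ) : SB B f = ∑ a ∈ Ioc (0 : ℤ) (0 + B), f a := by
  rw [sum_Ioc_shift f 0 B]
  unfold SB
  refine sum_congr rfl fun n _ => ?_
  rw [zero_add]

lemma len_le {M' : ℤ} {N' B : ℕ} (h : Ioc M' (M' + N') ⊆ Ioc (0 : ℤ) (0 + B)) : N' ≤ B := by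
  have := card_le_card h
  rw [Int.card_Ioc, Int.card_Ioc] at this
  have h1 : (M' + N' - M').toNat = N' := by
    rw [add_sub_cancel_left, Int.toNat_natCast]
  have h2 : ((0 : ℤ) + B - 0).toNat = B := by
    rw [zero_add, sub_zero, Int.toNat_natCast]
  omega

/-- the inner sum for one list of shifts -/
lemma inner {G : ℕ} [NeZero G] (F : ZMod G → ℂ) (hF : ∀ x, ‖F x‖ ≤ 1) (B : ℕ) (t : List ℤ) :
    ‖∑' a, DD t (fun a : ℤ => if a ∈ Ioc (0 : ℤ) (0 + B) then F (a : ZMod G) else 0) a‖ ≤ B ∧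
    ‖∑' a, DD t (fun a : ℤ => if a ∈ Ioc (0 : ℤ) (0 + B) then F (a : ZMod G) else 0) a‖ ≤
      (B / G : ℝ) * ‖∑ x, DZ (t.map (fun s : ℤ => (s : ZMod G))) F x‖ + G := by
  obtain ⟨M', N', h1, h2⟩ := DD_ind t 0 B
  have hN := len_le h1
  have hN' : (N' : ℝ) ≤ B := by exact_mod_cast hN
  have h3 : ∑' a, DD t (fun a : ℤ => if a ∈ Ioc (0 : ℤ) (0 + B) then F (a : ZMod G) else 0) a =
      ∑ a ∈ Ioc M' (M' + N'), DZ (t.map (fun s : ℤ => (s : ZMod G))) F (a : ZMod G) := by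
    rw [tsum_eq_sum (s := Ioc M' (M' + N'))]
    · refine sum_congr rfl fun a ha => ?_
      rw [h2, if_pos ha, DD_cast t F]
    · intro a ha
      rw [h2, if_neg ha]
  have hn : ∀ x, ‖DZ (t.map (fun s : ℤ => (s : ZMod G))) F x‖ ≤ 1 := DZ_norm _ F hF
  rw [h3]
  constructor
  · refine (norm_sum_le _ _).trans ((sum_le_card_nsmul _ _ 1 fun a _ => hn _).trans ?_)
    rw [Int.card_Ioc, nsmul_eq_mul, mul_one, add_sub_cancel_left, Int.toNat_natCast]
    exact hN'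
  · refine (per_sum _ hn M' N').trans ?_
    have hG : (0 : ℝ) < G := by exact_mod_cast Nat.pos_of_ne_zero (NeZero.ne G)
    gcongr

/-- the core inequality -/
theorem core (s L : ℕ) : ∃ C : ℝ, 1 ≤ C ∧ ∀ (G : ℕ) [NeZero G] (ω : DirichletCharacter ℂ G),
    LocPrim ω → ω ^ 3 = 1 → (∀ p : ℕ, p.Prime → p ∣ G → s < p ∧ p % 3 = 1) →
    ∀ (c h : Fin s → ℕ), (∀ i, c i ≤ 3) →
      (∀ p : ℕ, p.Prime → p ∣ G → ∃ t : ZMod p, Mu c h p t ≠ 0) →
      ∀ (l : List (ℕ × ℕ)) (B : ℕ) (A : ℤ → ℂ), l.length ≤ L →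
        (∀ p ∈ l, 1 ≤ p.1 ∧ 1 ≤ p.2 ∧ p.1 * p.2 ≤ B ∧ p.1.Coprime G) → Per l A →
        ‖SB B fun a => A a * ω (RR c h (a : ZMod G))‖ ^ (2 ^ l.length) ≤
          (2 * B : ℝ) ^ (2 ^ l.length - 1) *
            (B * (l.map fun p => 1 / (p.2 : ℝ)).sum +
              (B / G * (C ^ G.primeFactors.card * Real.sqrt G * (G.divisors.card : ℝ) ^ L) + G)) := by
  classical
  obtain ⟨C, hC, hcomp⟩ := complete s L
  refine ⟨C, hC, ?_⟩
  intro G _ ω hloc hcub hp c h hc hnd l B A hlL hl hA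
  have hG : G ≠ 0 := NeZero.ne G
  have hG0 : (0 : ℝ) < G := by exact_mod_cast Nat.pos_of_ne_zero hG
  have hC0 : 0 < C := by linarith
  set F : ZMod G → ℂ := fun x => ω (RR c h x) with hF
  have hF1 : ∀ x, ‖F x‖ ≤ 1 := fun x => DirichletCharacter.norm_le_one ω _
  have hHH : 0 < HH l := HH_pos l fun p hp => (hl p hp).2.1
  have h1 := vdC l B B 0 le_rfl (fun p hp => ⟨(hl p hp).2.1, (hl p hp).2.2.1⟩) A
    (fun a : ℤ => if a ∈ Ioc (0 : ℤ) (0 + B) then F (a : ZMod G) else 0) hA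
    (fun a ha => if_neg ha)
  have h2 : ∑' a : ℤ, A a * (if a ∈ Ioc (0 : ℤ) (0 + B) then F (a : ZMod G) else 0) =
      SB B fun a => A a * F (a : ZMod G) := by
    rw [Icc_sum_eq, tsum_eq_sum (s := Ioc (0 : ℤ) (0 + B))]
    · refine sum_congr rfl fun a ha => ?_
      rw [if_pos ha]
    · intro a ha
      rw [if_neg ha, mul_zero]
  rw [h2] at h1
  set D : ℝ := C ^ G.primeFactors.card * Real.sqrt G with hD
  have hD0 : 0 ≤ D := by positivity
  have hpt : ∀ t : List ℤ, t.length = l.length →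
      ‖∑' a, DD t (fun a : ℤ => if a ∈ Ioc (0 : ℤ) (0 + B) then F (a : ZMod G) else 0) a‖ ≤
        B * (if (0 : ℤ) ∈ t then 1 else 0) + ((B / G : ℝ) * D * (t.map (ga G)).prod + G) := by
    intro t ht
    obtain ⟨h3, h4⟩ := inner F hF1 B t
    have hprod : 0 ≤ (t.map (ga G)).prod := List.prod_nonneg fun a ha => by
      rw [List.mem_map] at ha
      obtain ⟨s, _, rfl⟩ := ha
      exact ga_nonneg G s
    by_cases h0 : (0 : ℤ) ∈ t
    · rw [if_pos h0, mul_one]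
      have : 0 ≤ (B / G : ℝ) * D * (t.map (ga G)).prod + G := by positivity
      linarith
    · rw [if_neg h0, mul_zero]
      refine h4.trans ?_
      have h5 := hcomp G ω hloc hcub hp c h hc hnd (t.map (fun s : ℤ => (s : ZMod G)))
        (by rw [List.length_map, ht]; exact hlL)
      have h6 : ‖∑ x, DZ (t.map (fun s : ℤ => (s : ZMod G))) F x‖ ≤ D * (t.map (ga G)).prod :=
        h5.trans (mul_le_mul_of_nonneg_left (gam_le t h0) hD0)
      have h7 := mul_le_mul_of_nonneg_left h6 (by positivity : (0 : ℝ) ≤ (B / G : ℝ))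
      linarith
  have hτ1 : (1 : ℝ) ≤ G.divisors.card := by
    exact_mod_cast Nat.one_le_iff_ne_zero.2 (card_pos.2 ⟨1, Nat.one_mem_divisors.2 hG⟩).ne'
  have hAv : Av l (fun t =>
      ‖∑' a, DD t (fun a : ℤ => if a ∈ Ioc (0 : ℤ) (0 + B) then F (a : ZMod G) else 0) a‖) ≤
      (B * (l.map fun p => 1 / (p.2 : ℝ)).sum +
        (B / G * (D * (G.divisors.card : ℝ) ^ L) + G)) * HH l := by
    refine (Av_mono l _ _ hpt).trans ?_
    rw [Av_add l (fun t => (B : ℝ) * (if (0 : ℤ) ∈ t then 1 else 0)),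
      Av_add l (fun t => (B / G : ℝ) * D * (t.map (ga G)).prod), Av_const,
      Av_mul l (B : ℝ) (fun t => if (0 : ℤ) ∈ t then 1 else 0),
      Av_mul l ((B / G : ℝ) * D) (fun t => (t.map (ga G)).prod)]
    have h3 := mul_le_mul_of_nonneg_left (Av_zero l fun p hp => ⟨(hl p hp).1, (hl p hp).2.1⟩)
      (Nat.cast_nonneg B : (0 : ℝ) ≤ (B : ℝ))
    have h4 : Av l (fun t => (t.map (ga G)).prod) ≤ (G.divisors.card : ℝ) ^ L * HH l := by
      refine (Av_prod l (ga G) (ga_nonneg G) _ (by positivity) fun p hp =>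
        ga_avg G p.1 p.2 hG (hl p hp).2.2.2).trans ?_
      apply mul_le_mul_of_nonneg_right _ hHH.le
      exact pow_le_pow_right₀ hτ1 hlL
    have h5 := mul_le_mul_of_nonneg_left h4 (by positivity : (0 : ℝ) ≤ (B / G : ℝ) * D)
    have e1 : (B * (l.map fun p => 1 / (p.2 : ℝ)).sum +
        (B / G * (D * (G.divisors.card : ℝ) ^ L) + G)) * HH l =
        B * (HH l * (l.map fun p => 1 / (p.2 : ℝ)).sum) +
          ((B / G : ℝ) * D * ((G.divisors.card : ℝ) ^ L * HH l) + G * HH l) := by ring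
    rw [e1]
    linarith
  have h3 := h1.trans (mul_le_mul_of_nonneg_left hAv (by positivity :
    (0 : ℝ) ≤ (2 * B : ℝ) ^ (2 ^ l.length - 1)))
  refine le_of_mul_le_mul_right ?_ hHH
  calc _ ≤ _ := h3
    _ = _ := by ring

lemma Per_map (f : ℕ → ℕ) (l : List ℕ) : ∀ A : ℤ → ℂ, Per (l.map fun n => (n, 1)) A →
    Per (l.map fun n => (n, f n)) A := by
  induction l with
  | nil => intro A h; exact h
  | cons n l ih =>
    rintro A ⟨A1, P', h1, h2, h3, h4⟩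
    exact ⟨A1, P', h1, h2, h3, ih P' h4⟩

/-- exponents may be reduced modulo 3 -/
def red (c : ℕ) : ℕ := if c = 0 then 0 else (c - 1) % 3 + 1

lemma red_le (c : ℕ) : red c ≤ 3 := by
  unfold red
  split_ifs
  · omega
  · have := Nat.mod_lt (c - 1) (by norm_num : 0 < 3)
    omega

lemma red_cast (c : ℕ) : ((red c : ℕ) : ZMod 3) = (c : ZMod 3) := by
  unfold red
  split_ifs with h
  · rw [h]
  · obtain ⟨d, rfl⟩ : ∃ d, c = d + 1 := ⟨c - 1, by omega⟩
    rw [Nat.add_sub_cancel]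
    push_cast
    rw [ZMod.natCast_mod]

lemma red_pow {G : ℕ} [NeZero G] (ω : DirichletCharacter ℂ G) (hω : ω ^ 3 = 1) (x : ZMod G)
    (c : ℕ) : ω x ^ red c = ω x ^ c := by
  unfold red
  split_ifs with h
  · rw [h]
  · obtain ⟨d, rfl⟩ : ∃ d, c = d + 1 := ⟨c - 1, by omega⟩
    rw [Nat.add_sub_cancel]
    by_cases hx : IsUnit x
    · have h3 : ω x ^ 3 = 1 := by
        rw [← MulChar.pow_apply' _ (by norm_num), hω, MulChar.one_apply hx]
      have h4 : ω x ^ d = ω x ^ (d % 3) := by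
        conv_lhs => rw [← Nat.div_add_mod d 3]
        rw [pow_add, pow_mul, h3, one_pow, one_mul]
      rw [pow_succ, pow_succ, h4]
    · rw [MulChar.map_nonunit _ hx, zero_pow (by omega), zero_pow (by omega)]

end Pool.Agent.Work.AV.NGaux

namespace Pool.Agent.Work.AV

open Finset Pool.Agent.Work.LV Pool.Agent.Work.LV.M Pool.Agent.Work.SC NGaux

theorem stmt_NGr : Stmt_NGr := by
  classical
  intro s L ε κ hε hκ
  obtain ⟨C, hC, hcore⟩ := NGaux.core s L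
  obtain ⟨C₁, hC₁, hom⟩ := omega_bound C hC (1 / 8) (by norm_num)
  obtain ⟨C₂, hC₂, hdiv⟩ := Pool.Agent.Work.MP_081200_nt.div_bound (1 / (8 * (L + 1))) (by positivity)
  set C₃ : ℝ := C₁ * C₂ ^ L with hC₃
  have hC₃1 : 1 ≤ C₃ := by
    have := one_le_pow₀ hC₂ (n := L)
    nlinarith
  set η : ℝ := min (ε ^ 2) (κ / 4) with hη
  have hη0 : 0 < η := lt_min (by positivity) (by positivity)
  set C₄ : ℝ := 2 ^ (2 ^ L) * (2 * L + C₃ + 1) with hC₄
  have hC₄1 : 1 ≤ C₄ := by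
    have h1 : (1 : ℝ) ≤ 2 ^ (2 ^ L) := one_le_pow₀ (by norm_num)
    have h2 : (1 : ℝ) ≤ 2 * L + C₃ + 1 := by
      have : (0 : ℝ) ≤ L := Nat.cast_nonneg L
      linarith
    nlinarith
  set δ : ℝ := η / 2 ^ (L + 1) with hδ
  have hδ0 : 0 < δ := by positivity
  refine ⟨δ, hδ0, max (max 1 ((2 : ℝ) ^ (1 / ε ^ 2))) (C₄ ^ (2 / η)), ?_⟩
  intro Q hQ B hQB hBQ G _ ω hloc hcub hκG hGB hp y c hnd l A hlL hl hA
  have hQ1 : 1 ≤ Q := (le_max_left _ _).trans ((le_max_left _ _).trans hQ)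
  have hQ2 : (2 : ℝ) ^ (1 / ε ^ 2) ≤ Q := (le_max_right _ _).trans ((le_max_left _ _).trans hQ)
  have hQ3 : C₄ ^ (2 / η) ≤ Q := (le_max_right _ _).trans hQ
  have hQ0 : 0 < Q := by linarith
  have hB1 : (1 : ℝ) ≤ B := (Real.one_le_rpow hQ1 hε.le).trans hQB
  have hB0 : (0 : ℝ) < B := by linarith
  have hBN : 1 ≤ B := by exact_mod_cast hB1
  have hG0 : (0 : ℝ) < G := by exact_mod_cast Nat.pos_of_ne_zero (NeZero.ne G)
  -- B ^ ε is large
  have hBε : Q ^ (ε ^ 2) ≤ (B : ℝ) ^ ε := by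
    calc Q ^ (ε ^ 2) = (Q ^ ε) ^ ε := by rw [← Real.rpow_mul hQ0.le]; ring_nf
      _ ≤ (B : ℝ) ^ ε := Real.rpow_le_rpow (by positivity) hQB hε.le
  have hBε2 : 2 ≤ (B : ℝ) ^ ε := by
    refine le_trans ?_ hBε
    calc (2 : ℝ) = ((2 : ℝ) ^ (1 / ε ^ 2)) ^ (ε ^ 2) := by
          rw [← Real.rpow_mul (by norm_num), one_div_mul_cancel (by positivity), Real.rpow_one]
      _ ≤ Q ^ (ε ^ 2) := Real.rpow_le_rpow (by positivity) hQ2 (by positivity)
  have hB1ε : (B : ℝ) ^ (1 - ε) * (B : ℝ) ^ ε = B := by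
    rw [← Real.rpow_add hB0]
    simp
  have hX0 : 0 < (B : ℝ) ^ (1 - ε) := by positivity
  -- the data
  set c' : Fin s → ℕ := fun i => red (c i) with hc'
  set h' : Fin s → ℕ := fun i => ((y i : ZMod G)).val with hh'
  have hfun : (fun a : ℤ => A a * ∏ i, ω (((y i : ℤ) : ZMod G) + (a : ZMod G)) ^ c i) =
      fun a : ℤ => A a * ω (RR c' h' (a : ZMod G)) := by
    funext a
    congr 1
    unfold RR
    rw [map_prod]
    refine prod_congr rfl fun i _ => ?_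
    rw [map_pow, hc', hh']
    simp only
    rw [red_pow ω hcub, ZMod.natCast_zmod_val, add_comm]
  rw [hfun]
  have hnd' : ∀ p : ℕ, p.Prime → p ∣ G → ∃ t : ZMod p, Mu c' h' p t ≠ 0 := by
    intro p hpp hpG
    obtain ⟨t, ht⟩ := hnd p hpp hpG
    refine ⟨t, ?_⟩
    intro h0
    apply ht
    refine Eq.trans ?_ h0
    unfold Mu
    refine sum_congr rfl fun i _ => ?_
    have h1 : ((h' i : ℕ) : ZMod p) = ((y i : ℤ) : ZMod p) := by
      have h2 : (G : ℤ) ∣ ((h' i : ℕ) : ℤ) - y i := by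
        rw [← ZMod.intCast_zmod_eq_zero_iff_dvd]
        push_cast
        rw [hh']
        simp only
        rw [ZMod.natCast_zmod_val, sub_self]
      have h3 : (p : ℤ) ∣ ((h' i : ℕ) : ℤ) - y i := (Int.natCast_dvd_natCast.2 hpG).trans h2
      have h4 := (ZMod.intCast_zmod_eq_zero_iff_dvd _ p).2 h3
      push_cast at h4
      exact sub_eq_zero.1 h4
    rw [h1, hc']
    simp only
    rw [red_cast]
  set l' : List (ℕ × ℕ) := l.map fun f => (f, B / f) with hl'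
  have hlen : l'.length = l.length := by rw [hl', List.length_map]
  have hfB : ∀ f ∈ l, 1 ≤ f ∧ 1 ≤ B / f ∧ (1 / ((B / f : ℕ) : ℝ)) ≤ 2 * Q ^ (-η) ∧ f.Coprime G := by
    intro f hf
    obtain ⟨h1, h2, h3⟩ := hl f hf
    have hf0 : (0 : ℝ) < f := by exact_mod_cast h1
    have h4 : (f : ℝ) * (B : ℝ) ^ ε ≤ B := by
      calc (f : ℝ) * (B : ℝ) ^ ε ≤ (B : ℝ) ^ (1 - ε) * (B : ℝ) ^ ε :=
            mul_le_mul_of_nonneg_right h2 (by positivity)
        _ = B := hB1ε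
    have h5 : (B : ℝ) ^ ε ≤ B / f := by
      rw [le_div_iff₀ hf0, mul_comm]; exact h4
    have h6 : (B : ℝ) / f < ((B / f : ℕ) : ℝ) + 1 := by
      rw [div_lt_iff₀ hf0]
      have h7 : B < (B / f + 1) * f := by
        have := Nat.lt_div_mul_add h1 (a := B)
        have h8 : (B / f + 1) * f = B / f * f + f := by ring
        omega
      exact_mod_cast h7
    have h7 : (B : ℝ) ^ ε / 2 ≤ ((B / f : ℕ) : ℝ) := by linarith
    have h8 : (0 : ℝ) < ((B / f : ℕ) : ℝ) := by linarith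
    refine ⟨h1, by exact_mod_cast (Nat.one_le_cast.1 (by
      have : (0 : ℝ) < ((B / f : ℕ) : ℝ) := h8
      exact_mod_cast this : (1 : ℝ) ≤ ((B / f : ℕ) : ℝ))), ?_, h3⟩
    have h9 : Q ^ η ≤ (B : ℝ) ^ ε :=
      (Real.rpow_le_rpow_of_exponent_le hQ1 (min_le_left _ _)).trans hBε
    have h10 : 0 < Q ^ η := by positivity
    rw [Real.rpow_neg hQ0.le, div_le_iff₀ h8]
    have h11 : 1 = 2 * (Q ^ η)⁻¹ * (Q ^ η / 2) := by field_simp
    calc (1 : ℝ) = 2 * (Q ^ η)⁻¹ * (Q ^ η / 2) := h11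
      _ ≤ _ := by
          apply mul_le_mul_of_nonneg_left _ (by positivity)
          linarith
  have hmain := hcore G ω hloc hcub hp c' h' (fun i => red_le _) hnd' l' B A (by rw [hlen]; exact hlL)
    (by
      intro p hp'
      rw [hl', List.mem_map] at hp'
      obtain ⟨f, hf, rfl⟩ := hp'
      obtain ⟨h1, h2, h3, h4⟩ := hfB f hf
      exact ⟨h1, h2, Nat.mul_div_le B f, h4⟩) (Per_map (fun f => B / f) l A hA)
  set V : ℝ := ‖SB B fun a => A a * ω (RR c' h' (a : ZMod G))‖ with hV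
  have hV0 : 0 ≤ V := norm_nonneg _
  rw [hlen] at hmain
  set K : ℕ := 2 ^ l.length with hK
  have hK1 : 1 ≤ K := Nat.one_le_two_pow
  have hKL : K ≤ 2 ^ L := Nat.pow_le_pow_right (by norm_num) hlL
  -- sizes
  have hsum : (l'.map fun p => 1 / (p.2 : ℝ)).sum ≤ L * (2 * Q ^ (-η)) := by
    have h1 : (l'.map fun p => 1 / (p.2 : ℝ)).sum ≤ (l'.map fun p => 1 / (p.2 : ℝ)).length • (2 * Q ^ (-η)) := by
      apply List.sum_le_card_nsmul
      intro x hx
      rw [List.mem_map] at hx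
      obtain ⟨p, hp', rfl⟩ := hx
      rw [hl', List.mem_map] at hp'
      obtain ⟨f, hf, rfl⟩ := hp'
      exact (hfB f hf).2.2.1
    refine h1.trans ?_
    rw [List.length_map, hlen, nsmul_eq_mul]
    apply mul_le_mul_of_nonneg_right _ (by positivity)
    exact_mod_cast hlL
  have hτ : C ^ G.primeFactors.card * Real.sqrt G * (G.divisors.card : ℝ) ^ L ≤
      C₃ * G * Q ^ (-η) := by
    have h1 := hom G (NeZero.ne G)
    have h2 := hdiv G (NeZero.ne G)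
    have h3 : (G.divisors.card : ℝ) ^ L ≤ C₂ ^ L * (G : ℝ) ^ (1 / 8 : ℝ) := by
      calc (G.divisors.card : ℝ) ^ L ≤ (C₂ * (G : ℝ) ^ (1 / (8 * ((L : ℝ) + 1)))) ^ L :=
            pow_le_pow_left₀ (Nat.cast_nonneg _) h2 _
        _ = C₂ ^ L * (G : ℝ) ^ (1 / (8 * ((L : ℝ) + 1)) * L) := by
            rw [mul_pow, ← Real.rpow_natCast ((G : ℝ) ^ _), ← Real.rpow_mul hG0.le]
        _ ≤ C₂ ^ L * (G : ℝ) ^ (1 / 8 : ℝ) := by
            apply mul_le_mul_of_nonneg_left _ (by positivity)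
            apply Real.rpow_le_rpow_of_exponent_le
            · exact_mod_cast Nat.one_le_iff_ne_zero.2 (NeZero.ne G)
            · rw [div_mul_eq_mul_div, div_le_div_iff₀ (by positivity) (by norm_num)]
              linarith
    have h4 : (G : ℝ) ^ (1 / 8 : ℝ) * Real.sqrt G * (G : ℝ) ^ (1 / 8 : ℝ) = G * (G : ℝ) ^ (-(1 / 4) : ℝ) := by
      rw [Real.sqrt_eq_rpow, ← Real.rpow_add hG0, ← Real.rpow_add hG0]
      nth_rewrite 2 [← Real.rpow_one (G : ℝ)]
      rw [← Real.rpow_add hG0]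
      norm_num
    have h5 : (G : ℝ) ^ (-(1 / 4) : ℝ) ≤ Q ^ (-η) := by
      calc (G : ℝ) ^ (-(1 / 4) : ℝ) ≤ (Q ^ κ) ^ (-(1 / 4) : ℝ) :=
            Real.rpow_le_rpow_of_nonpos (by positivity) hκG (by norm_num)
        _ = Q ^ (-(κ / 4)) := by rw [← Real.rpow_mul hQ0.le]; ring_nf
        _ ≤ Q ^ (-η) := Real.rpow_le_rpow_of_exponent_le hQ1 (by
            have : η ≤ κ / 4 := min_le_right _ _
            linarith)
    calc C ^ G.primeFactors.card * Real.sqrt G * (G.divisors.card : ℝ) ^ L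
        ≤ (C₁ * (G : ℝ) ^ (1 / 8 : ℝ)) * Real.sqrt G * (C₂ ^ L * (G : ℝ) ^ (1 / 8 : ℝ)) := by
          gcongr
      _ = C₃ * ((G : ℝ) ^ (1 / 8 : ℝ) * Real.sqrt G * (G : ℝ) ^ (1 / 8 : ℝ)) := by rw [hC₃]; ring
      _ = C₃ * G * (G : ℝ) ^ (-(1 / 4) : ℝ) := by rw [h4]; ring
      _ ≤ C₃ * G * Q ^ (-η) := mul_le_mul_of_nonneg_left h5 (by positivity)
  have hGs : (G : ℝ) ≤ B * Q ^ (-η) := by
    refine hGB.trans ?_
    have h9 : Q ^ η ≤ (B : ℝ) ^ ε :=
      (Real.rpow_le_rpow_of_exponent_le hQ1 (min_le_left _ _)).trans hBε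
    rw [Real.rpow_neg hQ0.le, ← div_eq_mul_inv, le_div_iff₀ (by positivity)]
    calc (B : ℝ) ^ (1 - ε) * Q ^ η ≤ (B : ℝ) ^ (1 - ε) * (B : ℝ) ^ ε :=
          mul_le_mul_of_nonneg_left h9 hX0.le
      _ = B := hB1ε
  have hbr : (B * (l'.map fun p => 1 / (p.2 : ℝ)).sum +
      (B / G * (C ^ G.primeFactors.card * Real.sqrt G * (G.divisors.card : ℝ) ^ L) + G)) ≤
      B * ((2 * L + C₃ + 1) * Q ^ (-η)) := by
    have h1 := mul_le_mul_of_nonneg_left hsum hB0.le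
    have h2 : (B / G : ℝ) * (C ^ G.primeFactors.card * Real.sqrt G * (G.divisors.card : ℝ) ^ L) ≤
        B * (C₃ * Q ^ (-η)) := by
      calc (B / G : ℝ) * (C ^ G.primeFactors.card * Real.sqrt G * (G.divisors.card : ℝ) ^ L)
          ≤ (B / G : ℝ) * (C₃ * G * Q ^ (-η)) := mul_le_mul_of_nonneg_left hτ (by positivity)
        _ = B * (C₃ * Q ^ (-η)) := by field_simp
    have h3 : (B : ℝ) * ((2 * L + C₃ + 1) * Q ^ (-η)) =
        B * (L * (2 * Q ^ (-η))) + (B * (C₃ * Q ^ (-η)) + B * Q ^ (-η)) := by ring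
    rw [h3]
    linarith
  have hfin : V ^ K ≤ (B : ℝ) ^ K * (C₄ * Q ^ (-η)) := by
    calc V ^ K ≤ (2 * B : ℝ) ^ (K - 1) * (B * ((2 * L + C₃ + 1) * Q ^ (-η))) :=
          hmain.trans (mul_le_mul_of_nonneg_left hbr (by positivity))
      _ = (B : ℝ) ^ K * (2 ^ (K - 1) * ((2 * L + C₃ + 1) * Q ^ (-η))) := by
          obtain ⟨m, hm⟩ : ∃ m, K = m + 1 := ⟨K - 1, by omega⟩
          rw [hm, Nat.add_sub_cancel, mul_pow, pow_succ (B : ℝ)]
          ring
      _ ≤ (B : ℝ) ^ K * (C₄ * Q ^ (-η)) := by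
          apply mul_le_mul_of_nonneg_left _ (by positivity)
          rw [hC₄, ← mul_assoc]
          apply mul_le_mul_of_nonneg_right _ (by positivity)
          apply mul_le_mul_of_nonneg_right
          · exact pow_le_pow_right₀ (by norm_num) (by omega)
          · have : (0 : ℝ) ≤ L := Nat.cast_nonneg L
            linarith
  -- conclusion
  by_contra hcon
  push Not at hcon
  have h1 : ((B : ℝ) * Q ^ (-δ)) ^ K < (B : ℝ) ^ K * (C₄ * Q ^ (-η)) :=
    (pow_lt_pow_left₀ hcon (by positivity) (by omega)).trans_le hfin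
  rw [mul_pow] at h1
  have h2 : (Q ^ (-δ)) ^ K < C₄ * Q ^ (-η) := lt_of_mul_lt_mul_left h1 (by positivity)
  have h3 : Q ^ (-(η / 2)) ≤ (Q ^ (-δ)) ^ K := by
    rw [← Real.rpow_natCast (Q ^ (-δ)), ← Real.rpow_mul hQ0.le]
    apply Real.rpow_le_rpow_of_exponent_le hQ1
    have h4 : (K : ℝ) ≤ 2 ^ L := by exact_mod_cast hKL
    have h5 : δ * K ≤ η / 2 := by
      calc δ * K ≤ δ * 2 ^ L := mul_le_mul_of_nonneg_left h4 hδ0.le
        _ = η / 2 := by
            rw [hδ, pow_succ]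
            field_simp
    linarith
  have h4 : Q ^ (-(η / 2)) < C₄ * Q ^ (-η) := h3.trans_lt h2
  have h5 : Q ^ (η / 2) < C₄ := by
    have h6 : Q ^ (-(η / 2)) = Q ^ (η / 2) * Q ^ (-η) := by
      rw [← Real.rpow_add hQ0]
      ring_nf
    rw [h6] at h4
    exact lt_of_mul_lt_mul_right h4 (by positivity)
  have h6 : C₄ ≤ Q ^ (η / 2) := by
    calc C₄ = (C₄ ^ (2 / η)) ^ (η / 2) := by
          rw [← Real.rpow_mul (by linarith), div_mul_div_cancel₀ hη0.ne']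
          norm_num
      _ ≤ Q ^ (η / 2) := Real.rpow_le_rpow (by positivity) hQ3 (by positivity)
  linarith

end Pool.Agent.Work.AV
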