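import Pool.Agent.Work.AV081200.Interface
import Pool.Agent.Work.SF081200.FinA

/-!
# MP_081200_nt, block PB: Burgess's bound for two primes
-/

set_option autoImplicit false

namespace Pool.Agent.Work.AV

open Finset Pool.Agent.Work.LV

namespace PBaux

theorem om_spec {p : ℕ} (hp : p.Prime) (h3 : p % 3 = 1) :
    (om p).IsPrimitive ∧ om p ^ 3 = 1 ∧ om p ≠ 1 := by
  classical
  have hex : ∃ χ : DirichletCharacter ℂ p, χ.IsPrimitive ∧ χ ^ 3 = 1 ∧ χ ≠ 1 := by
    haveI : Fact p.Prime := ⟨hp⟩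
    have hd : 3 ∣ Fintype.card (ZMod p) - 1 := by
      rw [ZMod.card]
      omega
    obtain ⟨χ, hχ⟩ := MulChar.exists_mulChar_orderOf (ZMod p) hd
      (Complex.isPrimitiveRoot_exp 3 (by norm_num))
    have hne : χ ≠ 1 := by
      rintro rfl
      simp at hχ
    refine ⟨χ, ?_, ?_, hne⟩
    · rw [DirichletCharacter.isPrimitive_def]
      rcases (Nat.dvd_prime hp).1 (DirichletCharacter.conductor_dvd_level χ) with h | h
      · exact absurd (DirichletCharacter.eq_one_iff_conductor_eq_one.2 h) hne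
      · exact h
    · rw [← hχ]
      exact pow_orderOf_eq_one χ
  unfold om
  rw [dif_pos hex]
  exact hex.choose_spec

/-- The product of two characters with coprime moduli. -/
noncomputable def pr {a b : ℕ} (hab : a.Coprime b) (χ : DirichletCharacter ℂ a)
    (ψ : DirichletCharacter ℂ b) : DirichletCharacter ℂ (a * b) where
  toFun u := χ (ZMod.chineseRemainder hab u).1 * ψ (ZMod.chineseRemainder hab u).2
  map_one' := by simp
  map_mul' u v := by
    rw [map_mul, Prod.fst_mul, Prod.snd_mul, map_mul, map_mul]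
    ring
  map_nonunit' u hu := by
    by_contra hcon
    apply hu
    rw [← MulEquiv.isUnit_map (ZMod.chineseRemainder hab), Prod.isUnit_iff]
    constructor
    · by_contra h
      exact hcon (by
        change χ (ZMod.chineseRemainder hab u).1 * ψ (ZMod.chineseRemainder hab u).2 = 0
        rw [χ.map_nonunit h, zero_mul])
    · by_contra h
      exact hcon (by
        change χ (ZMod.chineseRemainder hab u).1 * ψ (ZMod.chineseRemainder hab u).2 = 0
        rw [ψ.map_nonunit h, mul_zero])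

theorem pr_apply {a b : ℕ} (hab : a.Coprime b) (χ : DirichletCharacter ℂ a)
    (ψ : DirichletCharacter ℂ b) (u : ZMod (a * b)) :
    pr hab χ ψ u = χ (ZMod.chineseRemainder hab u).1 * ψ (ZMod.chineseRemainder hab u).2 := rfl

theorem pr_int {a b : ℕ} (hab : a.Coprime b) (χ : DirichletCharacter ℂ a)
    (ψ : DirichletCharacter ℂ b) (n : ℤ) :
    pr hab χ ψ (n : ZMod (a * b)) = χ (n : ZMod a) * ψ (n : ZMod b) := by
  rw [pr_apply, map_intCast, Prod.fst_intCast, Prod.snd_intCast]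

theorem pr_pow {a b : ℕ} (hab : a.Coprime b) (χ : DirichletCharacter ℂ a)
    (ψ : DirichletCharacter ℂ b) (h1 : χ ^ 3 = 1) (h2 : ψ ^ 3 = 1) : pr hab χ ψ ^ 3 = 1 := by
  ext u
  have hu := (MulEquiv.isUnit_map (ZMod.chineseRemainder hab)).2 u.isUnit
  rw [Prod.isUnit_iff] at hu
  rw [MulChar.pow_apply_coe, MulChar.one_apply_coe, pr_apply, mul_pow,
    ← MulChar.pow_apply' _ (by norm_num), ← MulChar.pow_apply' _ (by norm_num), h1, h2,
    MulChar.one_apply hu.1, MulChar.one_apply hu.2, mul_one]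

theorem pr_ne {a b : ℕ} (hab : a.Coprime b) (χ : DirichletCharacter ℂ a)
    (ψ : DirichletCharacter ℂ b) (h : χ ≠ 1) : pr hab χ ψ ≠ 1 := by
  intro hcon
  apply h
  ext v
  set w := (ZMod.chineseRemainder hab).symm ((v : ZMod a), 1) with hw
  have hwu : IsUnit w := by
    rw [hw, MulEquiv.isUnit_map, Prod.isUnit_iff]
    exact ⟨v.isUnit, isUnit_one⟩
  have h1 : pr hab χ ψ w = 1 := by rw [hcon, MulChar.one_apply hwu]
  rw [pr_apply, hw, RingEquiv.apply_symm_apply] at h1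
  rw [MulChar.one_apply_coe]
  simpa using h1

theorem cub_pow {p : ℕ} (χ : DirichletCharacter ℂ p) (h3 : χ ^ 3 = 1) (hne : χ ≠ 1) (e : ℕ)
    (he : e = 1 ∨ e = 2) : (χ ^ e) ^ 3 = 1 ∧ χ ^ e ≠ 1 := by
  refine ⟨by rw [← pow_mul, mul_comm, pow_mul, h3, one_pow], ?_⟩
  rcases he with rfl | rfl
  · rwa [pow_one]
  · intro h
    apply hne
    rw [pow_succ, h, one_mul] at h3
    exact h3

theorem sum_Icc_shift (B : ℕ) (M : ℤ) (f : ℤ → ℂ) :
    ∑ a ∈ Icc 1 B, f (M + (a : ℤ)) = ∑ a ∈ Ioc M (M + B), f a := by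
  apply Finset.sum_bij (fun (a : ℕ) _ => M + (a : ℤ))
  · intro a ha
    rw [mem_Icc] at ha
    rw [mem_Ioc]
    constructor
    · have : (1 : ℤ) ≤ a := by exact_mod_cast ha.1
      linarith
    · have : (a : ℤ) ≤ B := by exact_mod_cast ha.2
      linarith
  · intro a _ b _ h
    have : (a : ℤ) = b := by linarith
    exact_mod_cast this
  · intro b hb
    rw [mem_Ioc] at hb
    refine ⟨(b - M).toNat, ?_, ?_⟩
    · rw [mem_Icc]
      omega
    · have : ((b - M).toNat : ℤ) = b - M := Int.toNat_of_nonneg (by linarith)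
      rw [this]
      ring
  · intro a _
    rfl

end PBaux

open PBaux in
/-- Block PB. -/
theorem stmt_PB : Stmt_PB := by
  intro ε hε
  set ε' : ℝ := min (ε / 4) (1 / 8) with hε'
  have hε'0 : 0 < ε' := lt_min (by positivity) (by norm_num)
  have hε'1 : ε' ≤ ε / 4 := min_le_left _ _
  have hε'2 : ε' ≤ 1 / 8 := min_le_right _ _
  obtain ⟨δ, hδ, hδ1, c, hc, hA⟩ := SF.thmA 4 (by norm_num) ε' hε'0
  refine ⟨ε * δ / 2, by positivity, max 1 ((c + 1) ^ (2 / (ε * δ))), ?_⟩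
  intro Q hQ B hBlo hBhi p p' hp hp3 hp' hp3' hne hpp x hx x' hx'
  have hQ1 : 1 ≤ Q := (le_max_left _ _).trans hQ
  have hQ0 : 0 < Q := by linarith
  have hB1 : (1 : ℝ) ≤ B := (Real.one_le_rpow hQ1 hε.le).trans hBlo
  have hB0 : (0 : ℝ) < B := by linarith
  have hcop : p.Coprime p' := (Nat.coprime_primes hp hp').2 hne
  haveI : NeZero p := ⟨hp.ne_zero⟩
  haveI : NeZero p' := ⟨hp'.ne_zero⟩
  haveI : NeZero (p * p') := ⟨mul_ne_zero hp.ne_zero hp'.ne_zero⟩
  obtain ⟨-, ho3, hone⟩ := om_spec hp hp3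
  obtain ⟨-, ho3', hone'⟩ := om_spec hp' hp3'
  rw [mem_Icc] at hx hx'
  -- the exponents
  have he : (x - 1) / p + 1 = 1 ∨ (x - 1) / p + 1 = 2 := by
    have h1 : (x - 1) / p < 2 := by
      rw [Nat.div_lt_iff_lt_mul hp.pos]
      omega
    generalize (x - 1) / p = t at h1 ⊢
    omega
  have he' : (x' - 1) / p' + 1 = 1 ∨ (x' - 1) / p' + 1 = 2 := by
    have h1 : (x' - 1) / p' < 2 := by
      rw [Nat.div_lt_iff_lt_mul hp'.pos]
      omega
    generalize (x' - 1) / p' = t at h1 ⊢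
    omega
  set e := (x - 1) / p + 1
  set e' := (x' - 1) / p' + 1
  obtain ⟨h1a, h1b⟩ := cub_pow (om p) ho3 hone e he
  obtain ⟨h2a, -⟩ := cub_pow (om p') ho3' hone' e' he'
  set χ₁ : DirichletCharacter ℂ p := om p ^ e with hχ₁
  set χ₂ : DirichletCharacter ℂ p' := (om p' ^ e')⁻¹ with hχ₂
  have h2c : χ₂ ^ 3 = 1 := by rw [hχ₂, inv_pow, h2a, inv_one]
  set χ := pr hcop χ₁ χ₂ with hχ
  have hχ3 : χ ^ 3 = 1 := pr_pow hcop χ₁ χ₂ h1a h2c
  have hχne : χ ≠ 1 := pr_ne hcop χ₁ χ₂ h1b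
  -- the position
  obtain ⟨M, hM1, hM2⟩ : ∃ M : ℤ, (M : ZMod p) = (((x - 1) % p : ℕ) : ZMod p) ∧
      (M : ZMod p') = (((x' - 1) % p' : ℕ) : ZMod p') := by
    obtain ⟨M, hM⟩ := ZMod.intCast_surjective
      ((ZMod.chineseRemainder hcop).symm ((((x - 1) % p : ℕ) : ZMod p),
        (((x' - 1) % p' : ℕ) : ZMod p')))
    have h := congrArg (ZMod.chineseRemainder hcop) hM
    rw [RingEquiv.apply_symm_apply, map_intCast] at h
    have ha := congrArg Prod.fst h
    have hb := congrArg Prod.snd h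
    rw [Prod.fst_intCast] at ha
    rw [Prod.snd_intCast] at hb
    exact ⟨M, ha, hb⟩
  have hsum : SB B (fun a => vl p x a * (starRingEnd ℂ) (vl p' x' a)) = shortSum χ M B := by
    unfold SB shortSum
    rw [← sum_Icc_shift B M (fun a => χ (a : ZMod (p * p')))]
    apply Finset.sum_congr rfl
    intro a _
    have hx0 : x ≠ 0 := by omega
    have hx0' : x' ≠ 0 := by omega
    change vl p x a * (starRingEnd ℂ) (vl p' x' a) = χ ((M + (a : ℤ) : ℤ) : ZMod (p * p'))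
    unfold vl
    rw [if_neg hx0, if_neg hx0', hχ, pr_int]
    have e1 : ((M + (a : ℤ) : ℤ) : ZMod p) = (((x - 1) % p : ℕ) : ZMod p) + ((a : ℤ) : ZMod p) := by
      rw [Int.cast_add, hM1]
    have e2 : ((M + (a : ℤ) : ℤ) : ZMod p')
        = (((x' - 1) % p' : ℕ) : ZMod p') + ((a : ℤ) : ZMod p') := by
      rw [Int.cast_add, hM2]
    rw [e1, e2]
    have e3 : ∀ z : ZMod p, (om p) z ^ e = χ₁ z := by
      intro z
      rw [hχ₁, MulChar.pow_apply' _ (by omega)]
    have e4 : ∀ z : ZMod p', (starRingEnd ℂ) ((om p') z ^ e') = χ₂ z := by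
      intro z
      rw [hχ₂, ← MulChar.star_apply', MulChar.pow_apply' _ (by omega)]
      rfl
    rw [← e3, ← e4]
  rw [hsum]
  -- the bound
  have hQ' : (1 : ℝ) ≤ (B : ℝ) ^ (4 : ℝ) := Real.one_le_rpow hB1 (by norm_num)
  have hroot : ((B : ℝ) ^ (4 : ℝ)) ^ (1 / ((4 : ℕ) : ℝ)) = B := by
    rw [← Real.rpow_mul hB0.le]
    norm_num
  have hmono : ∀ a b : ℝ, a ≤ b → (B : ℝ) ^ a ≤ (B : ℝ) ^ b := fun a b h =>
    Real.rpow_le_rpow_of_exponent_le hB1 h
  have hcast : ((p * p' : ℕ) : ℝ) = (p : ℝ) * p' := by push_cast; rfl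
  have hcond : (χ.conductor : ℝ) ≤ (p : ℝ) * p' := by
    rw [← hcast]
    exact_mod_cast Nat.le_of_dvd (Nat.pos_of_ne_zero (NeZero.ne _))
      (DirichletCharacter.conductor_dvd_level χ)
  have hcpos : 0 < χ.conductor := Nat.pos_of_ne_zero χ.conductor_ne_zero
  have hmain := hA ((B : ℝ) ^ (4 : ℝ)) hQ' (p * p')
    (by rw [hcast]; exact hpp.trans (hmono _ _ (by linarith))) χ hχ3 hχne χ.conductor
    (dvd_refl _) (by rw [Nat.div_self hcpos]; exact Nat.coprime_one_right _) 1 le_rfl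
    (by
      rw [← Real.rpow_mul hB0.le]
      apply Real.one_le_rpow hB1
      norm_num
      linarith)
    (by
      intro r hr hdiv
      rw [Nat.div_self hcpos] at hdiv
      exact absurd (Nat.dvd_one.1 hdiv) hr.one_lt.ne')
    (by
      rw [one_pow, one_mul, ← Real.rpow_mul hB0.le]
      refine hcond.trans (hpp.trans (hmono _ _ ?_))
      norm_num
      linarith)
    M B (by rw [hroot])
  refine hmain.trans ?_
  rw [← Real.rpow_mul hB0.le]
  have e5 : (4 : ℝ) * ((1 - δ) / ((4 : ℕ) : ℝ)) = 1 + -δ := by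
    push_cast
    ring
  rw [e5, Real.rpow_add hB0, Real.rpow_one]
  have h6 : (B : ℝ) ^ (-δ) ≤ Q ^ (-(ε * δ)) := by
    rw [Real.rpow_neg hB0.le, Real.rpow_neg hQ0.le]
    apply inv_anti₀ (by positivity)
    calc Q ^ (ε * δ) = (Q ^ ε) ^ δ := Real.rpow_mul hQ0.le _ _
      _ ≤ (B : ℝ) ^ δ := Real.rpow_le_rpow (by positivity) hBlo hδ.le
  have h7 : c + 1 ≤ Q ^ (ε * δ / 2) := by
    have h8 : (c + 1) ^ (2 / (ε * δ)) ≤ Q := (le_max_right _ _).trans hQ
    have h9 : ((c + 1) ^ (2 / (ε * δ))) ^ (ε * δ / 2) ≤ Q ^ (ε * δ / 2) :=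
      Real.rpow_le_rpow (by positivity) h8 (by positivity)
    rw [← Real.rpow_mul (by positivity)] at h9
    have h10 : 2 / (ε * δ) * (ε * δ / 2) = 1 := by
      field_simp
    rwa [h10, Real.rpow_one] at h9
  have h11 : Q ^ (-(ε * δ)) = Q ^ (-(ε * δ / 2)) * Q ^ (-(ε * δ / 2)) := by
    rw [← Real.rpow_add hQ0]
    congr 1
    ring
  have h12 : (c + 1) * Q ^ (-(ε * δ / 2)) ≤ 1 := by
    rw [Real.rpow_neg hQ0.le, ← div_eq_mul_inv, div_le_one (by positivity)]
    exact h7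
  calc c * ((B : ℝ) * (B : ℝ) ^ (-δ)) ≤ c * ((B : ℝ) * Q ^ (-(ε * δ))) := by gcongr
    _ = (B : ℝ) * ((c * Q ^ (-(ε * δ / 2))) * Q ^ (-(ε * δ / 2))) := by rw [h11]; ring
    _ ≤ (B : ℝ) * (((c + 1) * Q ^ (-(ε * δ / 2))) * Q ^ (-(ε * δ / 2))) := by
        gcongr
        linarith
    _ ≤ (B : ℝ) * (1 * Q ^ (-(ε * δ / 2))) := by gcongr
    _ = (B : ℝ) * Q ^ (-(ε * δ / 2)) := by rw [one_mul]

end Pool.Agent.Work.AV
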