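import Pool.Agent.Work.AV081200.Interface
import Pool.Agent.Work.LV.A6

/-!
# Block PL: large values for two primes
-/

set_option autoImplicit false

namespace Pool.Agent.Work.AV

open Finset Pool.Agent.Work.LV

namespace PLaux

lemma om_spec {p : ℕ} (hp : p.Prime) (h : p % 3 = 1) :
    (om p).IsPrimitive ∧ om p ^ 3 = 1 ∧ om p ≠ 1 := by
  have hex : ∃ χ : DirichletCharacter ℂ p, χ.IsPrimitive ∧ χ ^ 3 = 1 ∧ χ ≠ 1 := by
    have : Fact p.Prime := ⟨hp⟩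
    have h3 : 3 ∣ Fintype.card (ZMod p) - 1 := by
      rw [ZMod.card]
      omega
    obtain ⟨χ, hχ⟩ := MulChar.exists_mulChar_orderOf (ZMod p) h3
      (Complex.isPrimitiveRoot_exp 3 (by norm_num))
    have hχ1 : χ ≠ 1 := by
      rintro rfl
      rw [orderOf_one] at hχ
      norm_num at hχ
    have hχ' : (show DirichletCharacter ℂ p from χ) ≠ 1 := hχ1
    refine ⟨χ, ?_, by rw [← hχ]; exact pow_orderOf_eq_one χ, hχ1⟩
    rw [DirichletCharacter.isPrimitive_def]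
    rcases (Nat.dvd_prime hp).1 (DirichletCharacter.conductor_dvd_level
      (show DirichletCharacter ℂ p from χ)) with h1 | h1
    · exact absurd (DirichletCharacter.eq_one_iff_conductor_eq_one.2 h1) hχ'
    · exact h1
  unfold om
  rw [dif_pos hex]
  exact hex.choose_spec

lemma sum_Ioc_eq (M : ℤ) (B : ℕ) (f : ℤ → ℂ) :
    ∑ a ∈ Ioc M (M + B), f a = ∑ a ∈ Icc 1 B, f (M + (a : ℕ)) := by
  symm
  apply Finset.sum_nbij (fun a : ℕ => M + (a : ℤ))
  · intro a ha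
    simp only [mem_Icc] at ha
    simp only [mem_Ioc]
    constructor <;> omega
  · intro a _ b _ h
    simp only at h
    omega
  · intro y hy
    simp only [coe_Ioc, Set.mem_Ioc] at hy
    refine ⟨(y - M).toNat, ?_, ?_⟩
    · simp only [coe_Icc, Set.mem_Icc]
      omega
    · simp only
      omega
  · intro a _
    rfl

/-- the product character -/
noncomputable def pc {a b : ℕ} (ψ : DirichletCharacter ℂ a) (φ : DirichletCharacter ℂ b) :
    DirichletCharacter ℂ (a * b) :=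
  DirichletCharacter.changeLevel (Nat.dvd_mul_right a b) ψ *
    DirichletCharacter.changeLevel (Nat.dvd_mul_left b a) φ

lemma pc_pow {a b : ℕ} {ψ : DirichletCharacter ℂ a} {φ : DirichletCharacter ℂ b}
    (h1 : ψ ^ 3 = 1) (h2 : φ ^ 3 = 1) : pc ψ φ ^ 3 = 1 := by
  unfold pc
  rw [mul_pow, ← map_pow, ← map_pow, h1, h2, map_one, map_one, mul_one]

lemma pc_apply {a b : ℕ} (ψ : DirichletCharacter ℂ a) (φ : DirichletCharacter ℂ b) (x : ℤ) :
    pc ψ φ (x : ZMod (a * b)) = ψ (x : ZMod a) * φ (x : ZMod b) := by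
  by_cases hu : IsUnit (x : ZMod (a * b))
  · obtain ⟨u, hu⟩ := hu
    have h1 := DirichletCharacter.changeLevel_eq_cast_of_dvd ψ (Nat.dvd_mul_right a b) u
    have h2 := DirichletCharacter.changeLevel_eq_cast_of_dvd φ (Nat.dvd_mul_left b a) u
    rw [← hu]
    unfold pc
    rw [MulChar.mul_apply, h1, h2, hu, ZMod.cast_intCast (Nat.dvd_mul_right a b),
      ZMod.cast_intCast (Nat.dvd_mul_left b a)]
  · rw [MulChar.map_nonunit _ hu]
    symm
    rw [mul_eq_zero]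
    by_contra hcon
    push Not at hcon
    apply hu
    rw [ZMod.coe_int_isUnit_iff_isCoprime]
    have h1 : IsUnit (x : ZMod a) := by
      by_contra h
      exact hcon.1 (MulChar.map_nonunit _ h)
    have h2 : IsUnit (x : ZMod b) := by
      by_contra h
      exact hcon.2 (MulChar.map_nonunit _ h)
    rw [ZMod.coe_int_isUnit_iff_isCoprime] at h1 h2
    push_cast
    exact h1.mul_left h2

open DirichletCharacter in
lemma ft_mul {n d : ℕ} {χ χ' : DirichletCharacter ℂ n} (h : χ.FactorsThrough d)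
    (h' : χ'.FactorsThrough d) : (χ * χ').FactorsThrough d := by
  obtain ⟨hd, ψ, rfl⟩ := h
  obtain ⟨_, ψ', rfl⟩ := h'
  exact ⟨hd, ψ * ψ', by rw [map_mul]⟩

open DirichletCharacter in
lemma ft_inv {n d : ℕ} {χ : DirichletCharacter ℂ n} (h : χ.FactorsThrough d) :
    (χ⁻¹).FactorsThrough d := by
  obtain ⟨hd, ψ, rfl⟩ := h
  exact ⟨hd, ψ⁻¹, by rw [map_inv]⟩

open DirichletCharacter in
lemma dvd_of {n a b : ℕ} [NeZero n] (hab : a.Coprime b) (hb : b ∣ n)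
    (χ₁ χ₂ : DirichletCharacter ℂ n) (h1 : χ₁.conductor = a) (h2 : χ₂.FactorsThrough b) :
    a ∣ (χ₁ * χ₂).conductor := by
  set c := (χ₁ * χ₂).conductor with hc
  have hcn : c ∣ n := conductor_dvd_level _
  have hl : c.lcm b ∣ n := Nat.lcm_dvd hcn hb
  have e1 : (χ₁ * χ₂).FactorsThrough (c.lcm b) :=
    (factorsThrough_conductor _).mono _ (Nat.dvd_lcm_left _ _) hl
  have e2 : χ₂.FactorsThrough (c.lcm b) := h2.mono _ (Nat.dvd_lcm_right _ _) hl
  have e3 : χ₁.FactorsThrough (c.lcm b) := by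
    have := ft_mul e1 (ft_inv e2)
    rwa [mul_assoc, mul_inv_cancel, mul_one] at this
  have e4 : χ₁.conductor ∣ c.lcm b :=
    conductor_dvd_of_mem_conductorSet χ₁ ((mem_conductorSet_iff χ₁).2 e3)
  rw [h1] at e4
  exact hab.dvd_of_dvd_mul_right (e4.trans (Nat.lcm_dvd_mul c b))

open DirichletCharacter in
lemma pc_cond {a b : ℕ} (ha : a ≠ 0) (hb : b ≠ 0) (hab : a.Coprime b)
    (ψ : DirichletCharacter ℂ a) (φ : DirichletCharacter ℂ b) (h1 : ψ.IsPrimitive)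
    (h2 : φ.IsPrimitive) : (pc ψ φ).conductor = a * b := by
  have : NeZero a := ⟨ha⟩
  have : NeZero b := ⟨hb⟩
  have : NeZero (a * b) := ⟨mul_ne_zero ha hb⟩
  have h1 : (changeLevel (Nat.dvd_mul_right a b) ψ).conductor = a := by
    rw [conductor_changeLevel]
    exact h1
  have h2 : (changeLevel (Nat.dvd_mul_left b a) φ).conductor = b := by
    rw [conductor_changeLevel]
    exact h2
  have e1 := dvd_of hab (Nat.dvd_mul_left b a) _ (changeLevel (Nat.dvd_mul_left b a) φ) h1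
    (changeLevel_factorsThrough _ _)
  have e2 := dvd_of hab.symm (Nat.dvd_mul_right a b) _
    (changeLevel (Nat.dvd_mul_right a b) ψ) h2 (changeLevel_factorsThrough _ _)
  rw [mul_comm (changeLevel (Nat.dvd_mul_left b a) φ)] at e2
  exact Nat.dvd_antisymm (conductor_dvd_level _) (hab.mul_dvd_of_dvd_of_dvd e1 e2)

lemma prim_of_ne_one {p : ℕ} (hp : p.Prime) (ψ : DirichletCharacter ℂ p) (h : ψ ≠ 1) :
    ψ.IsPrimitive := by
  have : Fact p.Prime := ⟨hp⟩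
  rw [DirichletCharacter.isPrimitive_def]
  rcases (Nat.dvd_prime hp).1 (DirichletCharacter.conductor_dvd_level ψ) with h1 | h1
  · exact absurd (DirichletCharacter.eq_one_iff_conductor_eq_one.2 h1) h
  · exact h1

/-- bad positions for one character -/
lemma count {n : ℕ} (hn : 1 ≤ n) {ε δ c c' : ℝ} (hc : c ≤ c') (hc' : 1 ≤ c')
    (hD : ∀ Q : ℝ, 1 ≤ Q → ∀ (q : ℕ) [NeZero q], (q : ℝ) ≤ Q →
      ∀ χ : DirichletCharacter ℂ q, χ ^ 3 = 1 → χ ≠ 1 →
        (∀ 𝓜 : Finset ℤ,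
          (∀ M ∈ 𝓜, ∀ M' ∈ 𝓜, M ≠ M' → ∀ k : ℤ,
            Q ^ (1 / (n : ℝ)) ≤ |(M : ℝ) - M' - k * χ.conductor|) →
          (∀ M ∈ 𝓜, ∃ N : ℕ, 1 ≤ N ∧ (N : ℝ) ≤ Q ^ (1 / (n : ℝ)) ∧
            c * Q ^ ((1 - δ) / n) < ‖∑ a ∈ Ioc M (M + N), χ (a : ZMod q)‖) →
          (𝓜.card : ℝ) ≤ c * ((χ.conductor : ℝ) ^ (1 / 2 : ℝ) * Q ^ (ε - 2 / n))))
    {a b : ℕ} (ha : a.Prime) (hb : b.Prime) (hab : a ≠ b)
    (ψ : DirichletCharacter ℂ a) (φ : DirichletCharacter ℂ b) (hψ3 : ψ ^ 3 = 1) (hφ3 : φ ^ 3 = 1)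
    (hψ : ψ ≠ 1) (hφ : φ ≠ 1) {B : ℕ} (hB : 1 ≤ B) (hq : (a : ℝ) * b ≤ (B : ℝ) ^ n) {θ : ℝ}
    (hθ : c' * (B : ℝ) ^ (1 - δ) ≤ θ) :
    (((range (a * b)).filter fun M : ℕ => θ < ‖∑ t ∈ Icc 1 B,
        ψ ((M : ZMod a) + ((t : ℕ) : ZMod a)) * φ ((M : ZMod b) + ((t : ℕ) : ZMod b))‖).card : ℝ) ≤
      4 * c' * (((a : ℝ) * b) ^ (1 / 2 : ℝ) * (B : ℝ) ^ (n * ε - 1)) := by
  classical
  have hn0 : (n : ℝ) ≠ 0 := by
    have : n ≠ 0 := by omega
    exact_mod_cast this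
  have hB1 : (1 : ℝ) ≤ B := by exact_mod_cast hB
  have hB0 : (0 : ℝ) < B := by linarith
  have hco : a.Coprime b := (Nat.coprime_primes ha hb).2 hab
  have : NeZero (a * b) := ⟨mul_ne_zero ha.ne_zero hb.ne_zero⟩
  have hcond := pc_cond ha.ne_zero hb.ne_zero hco ψ φ (prim_of_ne_one ha ψ hψ)
    (prim_of_ne_one hb φ hφ)
  have hne : pc ψ φ ≠ 1 := by
    intro h
    rw [h, DirichletCharacter.conductor_one] at hcond
    have h1 := ha.one_lt
    have h2 := hb.one_lt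
    nlinarith
  have hQn : ∀ y : ℝ, ((B : ℝ) ^ n) ^ (y / n) = (B : ℝ) ^ y := by
    intro y
    rw [← Real.rpow_natCast, ← Real.rpow_mul hB0.le]
    congr 1
    field_simp
  set S := (range (a * b)).filter fun M : ℕ => θ < ‖∑ t ∈ Icc 1 B,
        ψ ((M : ZMod a) + ((t : ℕ) : ZMod a)) * φ ((M : ZMod b) + ((t : ℕ) : ZMod b))‖ with hS
  set T : Finset ℤ := S.image (fun M : ℕ => (M : ℤ)) with hT
  have hcard : T.card = S.card := by
    rw [hT]
    exact card_image_of_injective _ Nat.cast_injective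
  have hsep : Sep (a * b) 1 T := by
    intro M hM M' hM' hMM k
    rw [hT, mem_image] at hM hM'
    obtain ⟨m, hm, rfl⟩ := hM
    obtain ⟨m', hm', rfl⟩ := hM'
    rw [hS, mem_filter, mem_range] at hm hm'
    have hnz : (m : ℤ) - m' - k * (a * b : ℕ) ≠ 0 := by
      intro h0
      have h1 : ((a * b : ℕ) : ℤ) ∣ (m : ℤ) - m' := ⟨k, by linarith⟩
      have h2 : |(m : ℤ) - m'| < ((a * b : ℕ) : ℤ) := by
        rw [abs_lt]
        constructor <;> omega
      have h3 := Int.eq_zero_of_abs_lt_dvd h1 h2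
      exact hMM (by linarith)
    have h4 : (1 : ℤ) ≤ |(m : ℤ) - m' - k * (a * b : ℕ)| := Int.one_le_abs hnz
    rw [← Int.cast_abs]
    exact_mod_cast h4
  obtain ⟨G, hG1, hG2, hG3⟩ := Sep.thin (L := (B : ℝ)) one_pos hsep hB0
  have h1 := hD ((B : ℝ) ^ n) (one_le_pow₀ hB1) (a * b) (by push_cast; exact hq) (pc ψ φ)
    (pc_pow hψ3 hφ3) hne G (by
      intro M hM M' hM' hMM k
      have h2 := hG2 M hM M' hM' hMM k
      rw [hQn, Real.rpow_one, hcond]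
      push_cast at h2 ⊢
      exact h2) (by
      intro M hM
      have h2 := hG1 hM
      rw [hT, mem_image] at h2
      obtain ⟨m, hm, rfl⟩ := h2
      rw [hS, mem_filter] at hm
      refine ⟨B, hB, by rw [hQn, Real.rpow_one], ?_⟩
      rw [hQn]
      have h3 : c * (B : ℝ) ^ (1 - δ) ≤ θ :=
        (mul_le_mul_of_nonneg_right hc (by positivity)).trans hθ
      refine h3.trans_lt ?_
      rw [sum_Ioc_eq]
      have h4 : ∑ t ∈ Icc 1 B, pc ψ φ (((m : ℤ) + (t : ℕ) : ℤ) : ZMod (a * b)) =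
          ∑ t ∈ Icc 1 B, ψ ((m : ZMod a) + ((t : ℕ) : ZMod a)) *
            φ ((m : ZMod b) + ((t : ℕ) : ZMod b)) := by
        apply sum_congr rfl
        intro t _
        rw [pc_apply]
        push_cast
        rfl
      rw [h4]
      exact hm.2)
  rw [hcond] at h1
  have h5 : ((B : ℝ) ^ n) ^ (ε - 2 / n) = (B : ℝ) ^ (n * ε - 2) := by
    have : ε - 2 / n = (n * ε - 2) / n := by field_simp
    rw [this, hQn]
  rw [h5] at h1
  have h6 : (S.card : ℝ) ≤ G.card * (2 * B / 1 + 2) := by rw [← hcard]; exact hG3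
  push_cast at h1
  have h7 : c * (((a : ℝ) * b) ^ (1 / 2 : ℝ) * (B : ℝ) ^ (n * ε - 2)) ≤
      c' * (((a : ℝ) * b) ^ (1 / 2 : ℝ) * (B : ℝ) ^ (n * ε - 2)) :=
    mul_le_mul_of_nonneg_right hc (by positivity)
  calc (S.card : ℝ) ≤ G.card * (2 * B / 1 + 2) := h6
    _ ≤ (c' * (((a : ℝ) * b) ^ (1 / 2 : ℝ) * (B : ℝ) ^ (n * ε - 2))) * (4 * B) := by
        apply mul_le_mul (h1.trans h7) _ (by positivity) (by positivity)
        linarith
    _ = 4 * c' * (((a : ℝ) * b) ^ (1 / 2 : ℝ) * ((B : ℝ) ^ (n * ε - 2) * B)) := by ring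
    _ = 4 * c' * (((a : ℝ) * b) ^ (1 / 2 : ℝ) * (B : ℝ) ^ (n * ε - 1)) := by
        rw [← Real.rpow_add_one hB0.ne']
        congr 3
        ring

lemma pow_ne_one {q : ℕ} {ψ : DirichletCharacter ℂ q} (h3 : ψ ^ 3 = 1) (h1 : ψ ≠ 1) {e : ℕ}
    (he : e < 2) : ψ ^ (e + 1) ≠ 1 := by
  interval_cases e
  · simpa using h1
  · intro h2
    apply h1
    calc ψ = ψ ^ 3 * (ψ ^ 2)⁻¹ := by group
      _ = 1 := by rw [h3, h2]; simp

end PLaux

open PLaux

theorem stmt_PL : Stmt_PL := by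
  classical
  intro ε e hε he
  obtain ⟨n, hn⟩ : ∃ n : ℕ, n = ⌈3 / ε⌉₊ := ⟨_, rfl⟩
  have hn1 : 1 ≤ n := by
    rw [hn]
    exact Nat.one_le_ceil_iff.2 (by positivity)
  have hn3 : 3 ≤ ε * n := by
    have h1 : 3 / ε ≤ n := by rw [hn]; exact Nat.le_ceil _
    rw [div_le_iff₀ hε] at h1
    linarith
  have hn0 : (0 : ℝ) < n := by exact_mod_cast hn1
  obtain ⟨δD, hδD, c, hD⟩ := thmD n hn1 (e / (2 * n)) (by positivity)
  obtain ⟨c', hc'⟩ : ∃ c' : ℝ, c' = max c 1 := ⟨_, rfl⟩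
  have hc1 : c ≤ c' := by rw [hc']; exact le_max_left _ _
  have hc2 : 1 ≤ c' := by rw [hc']; exact le_max_right _ _
  have hev1 : ∀ᶠ Q : ℝ in Filter.atTop, c' ≤ Q ^ (ε * δD / 2) :=
    (tendsto_rpow_atTop (by positivity)).eventually_ge_atTop _
  have hev2 : ∀ᶠ Q : ℝ in Filter.atTop, 16 * c' ≤ Q ^ (e / 2) :=
    (tendsto_rpow_atTop (by positivity)).eventually_ge_atTop _
  obtain ⟨Q1, hQ1⟩ := Filter.eventually_atTop.1 (hev1.and hev2)
  refine ⟨ε * δD / 2, by positivity, max Q1 4, ?_⟩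
  intro Q hQ B hB1 hB2 p p' hp hp3 hp' hp3' hne hpQ hpQ'
  have hQ4 : (4 : ℝ) ≤ Q := (le_max_right _ _).trans hQ
  obtain ⟨hE1, hE2⟩ := hQ1 Q ((le_max_left _ _).trans hQ)
  have hQ0 : 0 < Q := by linarith
  have hQ1' : 1 ≤ Q := by linarith
  have hB0 : (1 : ℝ) ≤ B := (Real.one_le_rpow hQ1' hε.le).trans hB1
  have hBn : 1 ≤ B := by exact_mod_cast hB0
  have hBpos : (0 : ℝ) < B := by linarith
  obtain ⟨o1, o2, o3⟩ := om_spec hp hp3
  obtain ⟨o1', o2', o3'⟩ := om_spec hp' hp3'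
  have hco : p.Coprime p' := (Nat.coprime_primes hp hp').2 hne
  -- the level
  have hq : (p : ℝ) * p' ≤ (B : ℝ) ^ n := by
    have h1 : (p : ℝ) * p' ≤ Q ^ 3 := by
      have h2 : (p : ℝ) * p' ≤ (2 * Q) * (2 * Q) :=
        mul_le_mul hpQ hpQ' (Nat.cast_nonneg _) (by linarith)
      nlinarith [mul_nonneg (mul_nonneg hQ0.le hQ0.le) (sub_nonneg.2 hQ4)]
    have h2 : Q ^ 3 ≤ (B : ℝ) ^ n := by
      calc Q ^ 3 = Q ^ (3 : ℝ) := by norm_cast
        _ ≤ Q ^ (ε * n) := Real.rpow_le_rpow_of_exponent_le hQ1' hn3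
        _ = (Q ^ ε) ^ n := by rw [Real.rpow_mul hQ0.le, Real.rpow_natCast]
        _ ≤ (B : ℝ) ^ n := pow_le_pow_left₀ (by positivity) hB1 n
    exact h1.trans h2
  -- the threshold
  have hθ : c' * (B : ℝ) ^ (1 - δD) ≤ (B : ℝ) * Q ^ (-(ε * δD / 2)) := by
    have h1 : (B : ℝ) ^ (1 - δD) = B * (B : ℝ) ^ (-δD) := by
      rw [sub_eq_add_neg, Real.rpow_add hBpos, Real.rpow_one]
    have h2 : (B : ℝ) ^ (-δD) ≤ Q ^ (-(ε * δD)) := by
      rw [Real.rpow_neg hBpos.le, Real.rpow_neg hQ0.le]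
      apply inv_anti₀ (by positivity)
      rw [Real.rpow_mul hQ0.le]
      exact Real.rpow_le_rpow (by positivity) hB1 hδD.le
    have h3 : c' * Q ^ (-(ε * δD)) ≤ Q ^ (-(ε * δD / 2)) := by
      calc c' * Q ^ (-(ε * δD)) ≤ Q ^ (ε * δD / 2) * Q ^ (-(ε * δD)) := by gcongr
        _ = Q ^ (-(ε * δD / 2)) := by
            rw [← Real.rpow_add hQ0]
            congr 1
            ring
    rw [h1]
    calc c' * (B * (B : ℝ) ^ (-δD)) = B * (c' * (B : ℝ) ^ (-δD)) := by ring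
      _ ≤ B * (c' * Q ^ (-(ε * δD))) := by gcongr
      _ ≤ B * Q ^ (-(ε * δD / 2)) := by gcongr
  obtain ⟨θ, hθe⟩ : ∃ θ : ℝ, θ = (B : ℝ) * Q ^ (-(ε * δD / 2)) := ⟨_, rfl⟩
  rw [← hθe] at hθ
  -- one pair of signs
  obtain ⟨Sg, hSg⟩ : ∃ Sg : ℕ × ℕ → Finset ℕ, Sg = fun s : ℕ × ℕ =>
      ((range (p * p')).filter fun M : ℕ => θ < ‖∑ t ∈ Icc 1 B,
        (om p ^ (s.1 + 1)) ((M : ZMod p) + ((t : ℕ) : ZMod p)) *
          ((om p' ^ (s.2 + 1))⁻¹) ((M : ZMod p') + ((t : ℕ) : ZMod p'))‖) := ⟨_, rfl⟩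
  have hone : ∀ s ∈ range 2 ×ˢ range 2, ((Sg s).card : ℝ) ≤
      4 * c' * (((p : ℝ) * p') ^ (1 / 2 : ℝ) * (B : ℝ) ^ (n * (e / (2 * n)) - 1)) := by
    intro s hs
    rw [mem_product, mem_range, mem_range] at hs
    rw [hSg]
    refine count hn1 hc1 hc2 (fun Q hQ q _ hq χ h3 h1 => (hD Q hQ q hq χ h3 h1).1) hp hp' hne
      (om p ^ (s.1 + 1)) ((om p' ^ (s.2 + 1))⁻¹) ?_ ?_ (pow_ne_one o2 o3 hs.1) ?_ hBn hq hθ
    · rw [← pow_mul, mul_comm, pow_mul, o2, one_pow]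
    · rw [inv_pow, ← pow_mul, mul_comm, pow_mul, o2', one_pow, inv_one]
    · rw [Ne, inv_eq_one]
      exact pow_ne_one o2' o3' hs.2
  -- the map
  have hmain : (((Icc 1 (2 * p)) ×ˢ (Icc 1 (2 * p'))).filter fun x =>
        (B : ℝ) * Q ^ (-(ε * δD / 2)) <
          ‖SB B fun a => vl p x.1 a * (starRingEnd ℂ) (vl p' x.2 a)‖).card ≤
      ((range 2 ×ˢ range 2).sigma Sg).card := by
    apply Finset.card_le_card_of_injOn
      (fun x => ⟨((x.1 - 1) / p, (x.2 - 1) / p'), (Nat.chineseRemainder hco (x.1 - 1) (x.2 - 1)).1⟩)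
    · intro x hx
      simp only [coe_filter, Set.mem_ofPred_eq, mem_product, mem_Icc] at hx
      obtain ⟨⟨⟨a1, a2⟩, a3, a4⟩, hx2⟩ := hx
      have b1 : (x.1 - 1) / p < 2 := by
        rw [Nat.div_lt_iff_lt_mul hp.pos]
        omega
      have b2 : (x.2 - 1) / p' < 2 := by
        rw [Nat.div_lt_iff_lt_mul hp'.pos]
        omega
      simp only [coe_sigma, Set.mem_sigma_iff, coe_product, Set.mem_prod, mem_coe, mem_range]
      refine ⟨⟨b1, b2⟩, ?_⟩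
      rw [hSg]
      simp only [mem_filter, mem_range]
      refine ⟨Nat.chineseRemainder_lt_mul hco _ _ hp.ne_zero hp'.ne_zero, ?_⟩
      rw [hθe]
      obtain ⟨r1, r2⟩ := (Nat.chineseRemainder hco (x.1 - 1) (x.2 - 1)).2
      have c1 : (((Nat.chineseRemainder hco (x.1 - 1) (x.2 - 1)).1 : ℕ) : ZMod p) =
          (((x.1 - 1) % p : ℕ) : ZMod p) := by
        rw [ZMod.natCast_mod]
        exact (ZMod.natCast_eq_natCast_iff _ _ _).2 r1
      have c2 : (((Nat.chineseRemainder hco (x.1 - 1) (x.2 - 1)).1 : ℕ) : ZMod p') =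
          (((x.2 - 1) % p' : ℕ) : ZMod p') := by
        rw [ZMod.natCast_mod]
        exact (ZMod.natCast_eq_natCast_iff _ _ _).2 r2
      refine hx2.trans_eq ?_
      unfold SB
      congr 1
      apply sum_congr rfl
      intro t _
      rw [c1, c2]
      have d1 : vl p x.1 (t : ℤ) = (om p ^ ((x.1 - 1) / p + 1))
          ((((x.1 - 1) % p : ℕ) : ZMod p) + ((t : ℕ) : ZMod p)) := by
        unfold vl
        rw [if_neg (by omega), MulChar.pow_apply' _ (Nat.succ_ne_zero _)]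
        push_cast
        rfl
      have d2 : (starRingEnd ℂ) (vl p' x.2 (t : ℤ)) = ((om p' ^ ((x.2 - 1) / p' + 1))⁻¹)
          ((((x.2 - 1) % p' : ℕ) : ZMod p') + ((t : ℕ) : ZMod p')) := by
        unfold vl
        rw [if_neg (by omega), ← MulChar.star_eq_inv, MulChar.star_apply,
          MulChar.pow_apply' _ (Nat.succ_ne_zero _), starRingEnd_apply]
        push_cast
        rfl
      show vl p x.1 (t : ℤ) * (starRingEnd ℂ) (vl p' x.2 (t : ℤ)) = _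
      rw [d1, d2]
    · intro x hx y hy hxy
      simp only [coe_filter, Set.mem_ofPred_eq, mem_product, mem_Icc] at hx hy
      obtain ⟨⟨⟨a1, a2⟩, a3, a4⟩, -⟩ := hx
      obtain ⟨⟨⟨b1, b2⟩, b3, b4⟩, -⟩ := hy
      simp only [Sigma.mk.injEq, Prod.mk.injEq, heq_eq_eq] at hxy
      obtain ⟨⟨e1, e2⟩, e3⟩ := hxy
      obtain ⟨r1, r2⟩ := (Nat.chineseRemainder hco (x.1 - 1) (x.2 - 1)).2
      obtain ⟨s1, s2⟩ := (Nat.chineseRemainder hco (y.1 - 1) (y.2 - 1)).2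
      have f1 : (x.1 - 1) % p = (y.1 - 1) % p := by
        have g1 : (x.1 - 1) ≡ (y.1 - 1) [MOD p] := r1.symm.trans ((by rw [e3] : _ ≡ _ [MOD p]).trans s1)
        exact g1
      have f2 : (x.2 - 1) % p' = (y.2 - 1) % p' := by
        have g1 : (x.2 - 1) ≡ (y.2 - 1) [MOD p'] := r2.symm.trans ((by rw [e3] : _ ≡ _ [MOD p']).trans s2)
        exact g1
      have h1 : x.1 - 1 = y.1 - 1 := by
        rw [← Nat.div_add_mod (x.1 - 1) p, ← Nat.div_add_mod (y.1 - 1) p, e1, f1]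
      have h2 : x.2 - 1 = y.2 - 1 := by
        rw [← Nat.div_add_mod (x.2 - 1) p', ← Nat.div_add_mod (y.2 - 1) p', e2, f2]
      apply Prod.ext
      · omega
      · omega
  have hfin : (((range 2 ×ˢ range 2).sigma Sg).card : ℝ) ≤
      16 * c' * (((p : ℝ) * p') ^ (1 / 2 : ℝ) * (B : ℝ) ^ (n * (e / (2 * n)) - 1)) := by
    rw [card_sigma]
    push_cast
    refine (Finset.sum_le_sum hone).trans (le_of_eq ?_)
    rw [sum_const, card_product, card_range, nsmul_eq_mul]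
    push_cast
    ring
  have hBe : (B : ℝ) ^ (n * (e / (2 * n)) - 1) ≤ Q ^ (e / 2) / B := by
    have h1 : (n : ℝ) * (e / (2 * n)) = e / 2 := by field_simp
    rw [h1, Real.rpow_sub_one hBpos.ne']
    apply div_le_div_of_nonneg_right _ hBpos.le
    exact Real.rpow_le_rpow hBpos.le hB2 (by positivity)
  calc _ ≤ (((range 2 ×ˢ range 2).sigma Sg).card : ℝ) := by exact_mod_cast hmain
    _ ≤ 16 * c' * (((p : ℝ) * p') ^ (1 / 2 : ℝ) * (B : ℝ) ^ (n * (e / (2 * n)) - 1)) := hfin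
    _ ≤ Q ^ (e / 2) * (((p : ℝ) * p') ^ (1 / 2 : ℝ) * (Q ^ (e / 2) / B)) := by gcongr
    _ = (Q ^ (e / 2) * Q ^ (e / 2)) * ((p : ℝ) * p') ^ (1 / 2 : ℝ) / B := by ring
    _ = Q ^ e * ((p : ℝ) * p') ^ (1 / 2 : ℝ) / B := by
        rw [← Real.rpow_add hQ0]
        congr 3
        ring

end Pool.Agent.Work.AV
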