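import Pool.Agent.Work.AV081200.Mom
import Pool.Agent.Work.SF081200.CC

/-!
# Block REP (helper79): a primitive cubic character with a position is given by its data
-/

set_option autoImplicit false

namespace Pool.Agent.Work.AV

open Finset Pool.Agent.Work.LV.M

namespace REPaux

lemma isPrimitive_of_locPrim {q : ℕ} [NeZero q] (χ : DirichletCharacter ℂ q) (h : LocPrim χ) :
    χ.IsPrimitive := by
  rw [DirichletCharacter.isPrimitive_def]
  by_contra hne
  obtain ⟨t, ht⟩ := χ.conductor_dvd_level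
  have ht1 : t ≠ 1 := by
    rintro rfl
    rw [mul_one] at ht
    exact hne ht.symm
  obtain ⟨p, hp, s, hs⟩ := Nat.exists_prime_and_dvd ht1
  have hq : q = p * (χ.conductor * s) := by
    calc q = χ.conductor * t := ht
      _ = χ.conductor * (p * s) := by rw [hs]
      _ = p * (χ.conductor * s) := by ring
  have hpq : p ∣ q := ⟨_, hq⟩
  have hcd : χ.conductor ∣ q / p := by
    refine ⟨s, ?_⟩
    have h1 : q / p = χ.conductor * s := Nat.div_eq_of_eq_mul_right hp.pos hq
    exact h1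
  obtain ⟨u, hu1, hu2⟩ := h p hp hpq
  apply hu2
  have hf := (DirichletCharacter.factorsThrough_iff_ker_unitsMap χ.conductor_dvd_level).1
    χ.factorsThrough_conductor
  have hk : u ∈ (ZMod.unitsMap χ.conductor_dvd_level).ker := by
    rw [MonoidHom.mem_ker]
    ext
    rw [ZMod.unitsMap_def]
    have e : (ZMod.castHom χ.conductor_dvd_level (ZMod χ.conductor))
        = (ZMod.castHom hcd (ZMod χ.conductor)).comp
          (ZMod.castHom (Nat.div_dvd_of_dvd hpq) (ZMod (q / p))) := Subsingleton.elim _ _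
    have e2 := congrArg (fun g : ZMod q →+* ZMod χ.conductor => g (u : ZMod q)) e
    simp only [RingHom.comp_apply, hu1, map_one] at e2
    simpa using e2
  have h2 := hf hk
  rw [MonoidHom.mem_ker] at h2
  have h3 := congrArg Units.val h2
  simpa using h3

lemma gen_ext {q : ℕ} {g : (ZMod q)ˣ} (hg : ∀ u : (ZMod q)ˣ, u ∈ Subgroup.zpowers g)
    (ψ ψ' : DirichletCharacter ℂ q) (h : ψ (g : ZMod q) = ψ' (g : ZMod q)) : ψ = ψ' := by
  ext u
  obtain ⟨n, hn⟩ := Subgroup.mem_zpowers_iff.1 (hg u)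
  have h4 : ψ.toUnitHom g = ψ'.toUnitHom g := by
    ext
    simpa using h
  have h5 : ψ.toUnitHom (g ^ n) = ψ'.toUnitHom (g ^ n) := by
    rw [map_zpow, map_zpow, h4]
  rw [hn] at h5
  have := congrArg Units.val h5
  simpa using this

lemma roots {x y : ℂ} (hx : x ^ 3 = 1) (hx1 : x ≠ 1) (hy : y ^ 3 = 1) (hy1 : y ≠ 1) :
    x = y ∨ x = y ^ 2 := by
  have h1 : x ^ 2 + x + 1 = 0 := by
    have : (x - 1) * (x ^ 2 + x + 1) = 0 := by linear_combination hx
    exact (mul_eq_zero.1 this).resolve_left (sub_ne_zero.2 hx1)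
  have h2 : y ^ 2 + y + 1 = 0 := by
    have : (y - 1) * (y ^ 2 + y + 1) = 0 := by linear_combination hy
    exact (mul_eq_zero.1 this).resolve_left (sub_ne_zero.2 hy1)
  have h3 : (x - y) * (x - y ^ 2) = 0 := by
    linear_combination h1 - x * h2 + hy
  rcases mul_eq_zero.1 h3 with h | h
  · exact Or.inl (sub_eq_zero.1 h)
  · exact Or.inr (sub_eq_zero.1 h)

lemma om_spec {q : ℕ} (h : ∃ χ : DirichletCharacter ℂ q, χ.IsPrimitive ∧ χ ^ 3 = 1 ∧ χ ≠ 1) :
    (om q).IsPrimitive ∧ om q ^ 3 = 1 ∧ om q ≠ 1 := by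
  unfold om
  rw [dif_pos h]
  exact h.choose_spec

lemma eq_om {q : ℕ} [NeZero q] (hq : q ≠ 1) (hc : IsCyclic (ZMod q)ˣ)
    (χ : DirichletCharacter ℂ q) (hl : LocPrim χ) (h3 : χ ^ 3 = 1) :
    ∃ e : ℕ, e ≤ 1 ∧ χ = om q ^ (e + 1) := by
  have hχ1 : χ ≠ 1 := SF.CC_.locPrim_ne_one hq hl
  obtain ⟨ho1, ho2, ho3⟩ := om_spec ⟨χ, isPrimitive_of_locPrim χ hl, h3, hχ1⟩
  obtain ⟨g, hg⟩ := hc.exists_generator
  have hone : ∀ ψ : DirichletCharacter ℂ q, ψ ≠ 1 → ψ (g : ZMod q) ≠ 1 := by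
    intro ψ hψ h
    apply hψ
    apply gen_ext hg
    rw [h, MulChar.one_apply_coe]
  rcases roots (SF.CC_.cube_eq h3 g) (hone χ hχ1) (SF.CC_.cube_eq ho2 g) (hone _ ho3) with h | h
  · refine ⟨0, by norm_num, gen_ext hg _ _ ?_⟩
    rw [h, zero_add, pow_one]
  · refine ⟨1, le_rfl, gen_ext hg _ _ ?_⟩
    rw [h, MulChar.pow_apply_coe]

lemma pp {p k : ℕ} (hp : p.Prime) (hk : 0 < k) (χ : DirichletCharacter ℂ (p ^ k))
    (hl : LocPrim χ) (h3 : χ ^ 3 = 1) : LM (p ^ k) ∧ IsCyclic (ZMod (p ^ k))ˣ := by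
  rcases Nat.lt_or_ge k 2 with h | h
  · have hk1 : k = 1 := by omega
    subst hk1
    have hp1 : p % 3 = 1 := by
      by_contra hcon
      exact SF.CC_.no_loc hp hcon χ h3 hl
    refine ⟨Or.inl ?_, ?_⟩
    · rw [pow_one]
      exact ⟨hp, hp1⟩
    · rw [pow_one]
      have : Fact p.Prime := ⟨hp⟩
      infer_instance
  · by_cases hp3 : p = 3
    · subst hp3
      refine ⟨?_, ZMod.isCyclic_units_of_prime_pow 3 Nat.prime_three (by norm_num) k⟩
      rcases Nat.lt_or_ge k 3 with h' | h'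
      · have hk2 : k = 2 := by omega
        subst hk2
        exact Or.inr (by norm_num)
      · exact absurd hl (not_locPrim_three h' χ h3)
    · exact absurd hl (not_locPrim_of_ne_three hp hp3 h χ h3)

/-- the data of a pair -/
def Good (q : ℕ) (χ : DirichletCharacter ℂ q) (z : ℤ) (d : ℕ →₀ ℕ) : Prop :=
  Ok d ∧ Nn d = q ∧ (∀ a : ℤ, χ (((z + a : ℤ)) : ZMod q) = V d a) ∧
    ∀ p ∈ d.support, (((d p - 1) % p : ℕ) : ZMod p) = (z : ZMod p)

lemma good_pp {q : ℕ} [NeZero q] (hLM : LM q) (hc : IsCyclic (ZMod q)ˣ)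
    (χ : DirichletCharacter ℂ q) (hl : LocPrim χ) (h3 : χ ^ 3 = 1) (z : ℤ) :
    ∃ d, Good q χ z d := by
  have hq2 := hLM.two_le
  obtain ⟨e, he, hχ⟩ := eq_om (by omega) hc χ hl h3
  set x : ℕ := ((z : ZMod q)).val with hx
  have hxq : x < q := ZMod.val_lt _
  have hxz : ((x : ℕ) : ZMod q) = (z : ZMod q) := by rw [hx, ZMod.natCast_val, ZMod.cast_id]
  set k : ℕ := 1 + x + q * e with hk
  have hk0 : k ≠ 0 := by omega
  have hsub : k - 1 = x + q * e := by omega
  have hmod : (k - 1) % q = x := by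
    rw [hsub, Nat.add_mul_mod_self_left, Nat.mod_eq_of_lt hxq]
  have hdiv : (k - 1) / q = e := by
    rw [hsub, Nat.add_mul_div_left _ _ (by omega), Nat.div_eq_of_lt hxq, zero_add]
  refine ⟨Finsupp.single q k, ?_, ?_, ?_, ?_⟩
  · intro p hp
    rw [Finsupp.support_single q hk0, mem_singleton] at hp
    subst hp
    refine ⟨hLM, ?_⟩
    rw [Finsupp.single_eq_same]
    have : p * e ≤ p * 1 := Nat.mul_le_mul_left _ he
    omega
  · unfold Nn
    rw [Finsupp.support_single q hk0, prod_singleton]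
  · intro a
    rw [V_single]
    unfold vl
    rw [if_neg hk0, hmod, hdiv, hxz, hχ, MulChar.pow_apply' _ (Nat.succ_ne_zero e)]
    push_cast
    rfl
  · intro p hp
    rw [Finsupp.support_single q hk0, mem_singleton] at hp
    subst hp
    rw [Finsupp.single_eq_same, hmod, hxz]

lemma good_mul {a b : ℕ} [NeZero a] [NeZero b] (hab : a.Coprime b)
    (χ : DirichletCharacter ℂ (a * b)) (z : ℤ) (d d' : ℕ →₀ ℕ)
    (h : Good a (chiL hab χ) z d) (h' : Good b (chiR hab χ) z d') :
    Good (a * b) χ z (d + d') := by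
  obtain ⟨h1, h2, h3, h4⟩ := h
  obtain ⟨h1', h2', h3', h4'⟩ := h'
  have hdis : Disjoint d.support d'.support := h1.disjoint (by rw [h2, h2']; exact hab)
  refine ⟨Ok_add hdis h1 h1', by rw [Nn_add hdis, h2, h2'], ?_, ?_⟩
  · intro c
    rw [V_add hdis, ← h3 c, ← h3' c, chiL_mul_chiR]
    congr 1
    have e : (ZMod.chineseRemainder hab) (((z + c : ℤ)) : ZMod (a * b))
        = ((((z + c : ℤ)) : ZMod a), (((z + c : ℤ)) : ZMod b)) := by
      rw [map_intCast]
      rfl
    rw [← e, RingEquiv.symm_apply_apply]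
  · intro p hp
    rw [Finsupp.support_add_eq hdis, mem_union] at hp
    rcases hp with hp | hp
    · have : d' p = 0 := Finsupp.notMem_support_iff.1 (Finset.disjoint_left.1 hdis hp)
      rw [Finsupp.add_apply, this, add_zero]
      exact h4 p hp
    · have : d p = 0 := Finsupp.notMem_support_iff.1 (Finset.disjoint_right.1 hdis hp)
      rw [Finsupp.add_apply, this, zero_add]
      exact h4' p hp

lemma exists_good (q : ℕ) : ∀ (_ : NeZero q) (χ : DirichletCharacter ℂ q), LocPrim χ →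
    χ ^ 3 = 1 → ∀ z : ℤ, ∃ d, Good q χ z d := by
  induction q using Nat.recOnPosPrimePosCoprime with
  | prime_pow p n hp hn =>
    intro hne χ hl h3 z
    obtain ⟨hLM, hc⟩ := pp hp hn χ hl h3
    exact good_pp hLM hc χ hl h3 z
  | zero => exact fun hne => absurd rfl hne.out
  | one =>
    intro hne χ hl h3 z
    refine ⟨0, Ok_zero, Nn_zero, ?_, by simp⟩
    intro a
    rw [V_zero, Subsingleton.elim (((z + a : ℤ)) : ZMod 1) 1, map_one]
  | coprime a b ha hb hab iha ihb =>
    intro hne χ hl h3 z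
    have hna : NeZero a := ⟨by omega⟩
    have hnb : NeZero b := ⟨by omega⟩
    obtain ⟨d, hd⟩ := iha hna (chiL hab χ) (locPrim_chiL hab χ hl) (chiL_pow hab χ h3) z
    obtain ⟨d', hd'⟩ := ihb hnb (chiR hab χ) (locPrim_chiR hab χ hl) (chiR_pow hab χ h3) z
    exact ⟨d + d', good_mul hab χ z d d' hd hd'⟩

lemma coprime_LM {p p' : ℕ} (h : LM p) (h' : LM p') (hne : p ≠ p') : p.Coprime p' := by
  rcases h with h | h
  · rcases h' with h' | h'
    · exact (Nat.coprime_primes h.1 h'.1).2 hne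
    · subst h'
      rw [show (9 : ℕ) = 3 ^ 2 by norm_num]
      apply Nat.Coprime.pow_right
      rw [Nat.coprime_primes h.1 Nat.prime_three]
      rintro rfl
      have := h.2
      omega
  · rcases h' with h' | h'
    · subst h
      rw [show (9 : ℕ) = 3 ^ 2 by norm_num]
      apply Nat.Coprime.pow_left
      rw [Nat.coprime_primes Nat.prime_three h'.1]
      rintro rfl
      have := h'.2
      omega
    · omega

end REPaux

open REPaux in
theorem stmt_REP : Stmt_REP := by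
  intro q hq
  have hex : ∀ y : {χ : DirichletCharacter ℂ q // χ.IsPrimitive ∧ χ ^ 3 = 1} × ZMod q,
      ∃ d, Good q y.1.1 (y.2.val : ℤ) d := fun y =>
    exists_good q hq y.1.1 (locPrim_of_isPrimitive y.1.1 y.1.2.1) y.1.2.2 _
  choose Φ hΦ using hex
  have hval : ∀ z : ZMod q, (((z.val : ℕ) : ℤ) : ZMod q) = z := by
    intro z
    rw [Int.cast_natCast, ZMod.natCast_val, ZMod.cast_id]
  refine ⟨Φ, ?_, ?_⟩
  · intro y y' h
    have h1 := hΦ y
    have h2 := hΦ y'
    rw [← h] at h2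
    have hz : y.2 = y'.2 := by
      have hdvd : ((∏ p ∈ (Φ y).support, (p : ℤ)) : ℤ) ∣ (y.2.val : ℤ) - (y'.2.val : ℤ) := by
        apply Finset.prod_dvd_of_coprime
        · intro p hp p' hp' hne
          have := coprime_LM (h1.1 p hp).1 (h1.1 p' hp').1 hne
          exact Nat.isCoprime_iff_coprime.2 this
        · intro p hp
          have e1 := h1.2.2.2 p hp
          have e2 := h2.2.2.2 p hp
          exact (ZMod.intCast_eq_intCast_iff_dvd_sub _ _ p).1 (e2.symm.trans e1)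
      have hN : ((∏ p ∈ (Φ y).support, (p : ℤ)) : ℤ) = q := by
        calc ((∏ p ∈ (Φ y).support, (p : ℤ)) : ℤ) = ((Nn (Φ y) : ℕ) : ℤ) := by
              unfold Nn
              push_cast
              rfl
          _ = q := by rw [h1.2.1]
      rw [hN] at hdvd
      have e3 := (ZMod.intCast_eq_intCast_iff_dvd_sub _ _ q).2 hdvd
      rw [hval, hval] at e3
      exact e3.symm
    have hχ : y.1.1 = y'.1.1 := by
      ext u
      have e1 := h1.2.2.1 (((u : ZMod q).val : ℤ) - (y.2.val : ℤ))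
      have e2 := h2.2.2.1 (((u : ZMod q).val : ℤ) - (y.2.val : ℤ))
      rw [← hz] at e2
      rw [add_sub_cancel] at e1 e2
      rw [hval] at e1 e2
      rw [e1, e2]
    exact Prod.ext (Subtype.ext hχ) hz
  · intro y
    refine ⟨(hΦ y).1, (hΦ y).2.1, ?_⟩
    intro a
    rw [← (hΦ y).2.2.1 a, Int.cast_add, hval]

end Pool.Agent.Work.AV
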