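import Pool.Agent.Work.AV081200.Interface

/-!
# MP_081200_nt, block ROUGH: sup bound for a rough family
-/

set_option autoImplicit false

namespace Pool.Agent.Work.AV

open Finset Pool.Agent.Work.LV Pool.Agent.Work.LV.M Pool.Agent.Work.SC

namespace ROUGHaux

lemma mono_V (k : ℕ) (d : ℕ →₀ ℕ) (b : Ix k → ℕ) :
    mono k (V d) b = ∏ p ∈ d.support, mono k (vl p (d p)) b := by
  unfold mono V
  rw [Finset.prod_comm, Finset.prod_mul_distrib]
  congr 1
  rw [Finset.prod_comm]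
  refine Finset.prod_congr rfl (fun i _ => ?_)
  rw [map_prod]

open Classical in
lemma mem_Dt' (K : ℕ) (C : ℕ → Prop) (d : ℕ →₀ ℕ) : d ∈ Dt K C ↔
    (d.support ⊆ range (K + 1) ∧ ∀ i ∈ range (K + 1), d i ∈ range (2 * K + 1)) ∧
      Ok d ∧ Nn d ≤ K ∧ C (Nn d) := by
  unfold Dt
  rw [Finset.mem_filter, Finset.mem_finsupp_iff]

open Classical in
lemma fiber_eq (K : ℕ) (C : ℕ → Prop) (d0 : ℕ →₀ ℕ) (h0 : d0 ∈ Dt K C) :
    (Dt K C).filter (fun d => d.support = d0.support) =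
      d0.support.finsupp (fun p => Icc 1 (2 * p)) := by
  have h0' := (mem_Dt' K C d0).1 h0
  ext d
  rw [Finset.mem_filter, Finset.mem_finsupp_iff, mem_Dt']
  constructor
  · rintro ⟨⟨-, hok, -, -⟩, hs⟩
    refine ⟨hs.le, fun p hp => ?_⟩
    have hp' : p ∈ d.support := by rw [hs]; exact hp
    rw [Finset.mem_Icc]
    exact ⟨Nat.one_le_iff_ne_zero.2 (Finsupp.mem_support_iff.1 hp'), (hok p hp').2⟩
  · rintro ⟨hsub, hval⟩
    have hs : d.support = d0.support := by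
      refine le_antisymm hsub (fun p hp => ?_)
      have := hval p hp
      rw [Finset.mem_Icc] at this
      rw [Finsupp.mem_support_iff]
      omega
    have hNn : Nn d = Nn d0 := by unfold Nn; rw [hs]
    refine ⟨⟨⟨?_, ?_⟩, ?_, ?_, ?_⟩, hs⟩
    · rw [hs]; exact h0'.1.1
    · intro i hi
      by_cases hp : i ∈ d0.support
      · have h1 := hval i hp
        rw [Finset.mem_Icc] at h1
        rw [Finset.mem_range] at hi ⊢
        omega
      · have h1 : d i = 0 := by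
          by_contra hne
          exact hp (hsub (Finsupp.mem_support_iff.2 hne))
        rw [h1, Finset.mem_range]
        omega
    · intro p hp
      rw [hs] at hp
      have h1 := hval p hp
      rw [Finset.mem_Icc] at h1
      exact ⟨(h0'.2.1 p hp).1, h1.2⟩
    · rw [hNn]; exact h0'.2.2.1
    · rw [hNn]; exact h0'.2.2.2

open Classical in
lemma T_eq (k K : ℕ) (C : ℕ → Prop) (b : Ix k → ℕ) :
    T k (Dt K C) b = ∑ s ∈ (Dt K C).image (fun d => d.support), ∏ p ∈ s, ss k p b := by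
  unfold T
  rw [← Finset.sum_fiberwise_of_maps_to (g := fun d : ℕ →₀ ℕ => d.support)
    (t := (Dt K C).image (fun d => d.support)) (fun d hd => Finset.mem_image_of_mem _ hd)]
  refine Finset.sum_congr rfl (fun s hs => ?_)
  obtain ⟨d0, hd0, rfl⟩ := Finset.mem_image.1 hs
  rw [fiber_eq K C d0 hd0]
  have h1 : ∏ p ∈ d0.support, ss k p b =
      ∏ p ∈ d0.support, ∑ x ∈ Icc 1 (2 * p), mono k (vl p x) b := rfl
  rw [h1, Finset.prod_sum]
  unfold Finset.finsupp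
  rw [Finset.sum_map]
  refine Finset.sum_congr (by ext q; simp only [Finset.mem_pi]) (fun q hq => ?_)
  rw [mono_V]
  have hsupp : (Finsupp.indicator d0.support q).support = d0.support := by
    ext p
    constructor
    · intro hp
      exact Finsupp.support_indicator_subset _ _ hp
    · intro hp
      rw [Finsupp.mem_support_iff, Finsupp.indicator_of_mem hp]
      have := Finset.mem_pi.1 hq p hp
      rw [Finset.mem_Icc] at this
      omega
  show ∏ p ∈ (Finsupp.indicator d0.support q).support,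
      mono k (vl p ((Finsupp.indicator d0.support q) p)) b = _
  rw [hsupp, ← Finset.prod_attach]
  refine Finset.prod_congr rfl (fun p _ => ?_)
  rw [Finsupp.indicator_of_mem p.2]

lemma data_props (M : ℕ) (Y : ℝ) (hY : 3 ≤ Y) (d : ℕ →₀ ℕ) (hd : d ∈ Dt (2 * M) (CM Y M)) :
    (∀ p ∈ d.support, p.Prime ∧ p % 3 = 1 ∧ Y < (p : ℝ) ∧ p < 2 * M) ∧
      ∏ p ∈ d.support, p < 2 * M := by
  obtain ⟨-, hok, -, hM, hM2, hpr⟩ := (mem_Dt' _ _ _).1 hd
  have hprod : ∏ p ∈ d.support, p < 2 * M := hM2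
  have hpos : 0 < Nn d := by
    unfold Nn
    refine Finset.prod_pos (fun p hp => ?_)
    rcases (hok p hp).1 with h | h
    · exact h.1.pos
    · omega
  refine ⟨fun p hp => ?_, hprod⟩
  have hdvd : p ∣ Nn d := Finset.dvd_prod_of_mem (fun p => p) hp
  rcases (hok p hp).1 with h | h
  · exact ⟨h.1, h.2, hpr p h.1 hdvd, lt_of_le_of_lt (Nat.le_of_dvd hpos hdvd) hM2⟩
  · exfalso
    subst h
    have h3 : (3 : ℕ) ∣ Nn d := dvd_trans (by norm_num) hdvd
    have h4 := hpr 3 Nat.prime_three h3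
    push_cast at h4
    linarith

lemma card_image_le (M : ℕ) (Y : ℝ) (hY : 3 ≤ Y) :
    ((Dt (2 * M) (CM Y M)).image (fun d => d.support)).card ≤ 2 * M := by
  classical
  have h1 : ((Dt (2 * M) (CM Y M)).image (fun d => d.support)).card ≤ (range (2 * M)).card := by
    refine Finset.card_le_card_of_injOn (fun s => ∏ p ∈ s, p) ?_ ?_
    · intro s hs
      obtain ⟨d, hd, rfl⟩ := Finset.mem_image.1 hs
      exact Finset.mem_coe.2 (Finset.mem_range.2 (data_props M Y hY d hd).2)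
    · intro s hs t ht hst
      obtain ⟨d, hd, rfl⟩ := Finset.mem_image.1 hs
      obtain ⟨d', hd', rfl⟩ := Finset.mem_image.1 ht
      have e1 := Nat.primeFactors_prod (s := d.support)
        (fun p hp => ((data_props M Y hY d hd).1 p hp).1)
      have e2 := Nat.primeFactors_prod (s := d'.support)
        (fun p hp => ((data_props M Y hY d' hd').1 p hp).1)
      have hst' : ∏ p ∈ d.support, p = ∏ p ∈ d'.support, p := hst
      rw [← e1, ← e2, hst']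
  rwa [Finset.card_range] at h1

lemma term_bound (k M n0 : ℕ) (Y C1 : ℝ) (hY : 3 ≤ Y) (hC1 : 1 ≤ C1)
    (hn0 : ∀ n : ℕ, Y ^ n ≤ 2 * (M : ℝ) → n ≤ n0) (b : Ix k → ℕ)
    (hb : ∀ p : ℕ, p.Prime → p % 3 = 1 → Y < (p : ℝ) → p < 2 * M →
      ‖ss k p b‖ ≤ C1 * Real.sqrt p)
    (d : ℕ →₀ ℕ) (hd : d ∈ Dt (2 * M) (CM Y M)) :
    ‖∏ p ∈ d.support, ss k p b‖ ≤ C1 ^ n0 * Real.sqrt (2 * M) := by
  obtain ⟨hp, hprod⟩ := data_props M Y hY d hd
  have hprodR : ∏ p ∈ d.support, (p : ℝ) ≤ 2 * (M : ℝ) := by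
    have h1 : ((∏ p ∈ d.support, p : ℕ) : ℝ) ≤ ((2 * M : ℕ) : ℝ) := by
      exact_mod_cast hprod.le
    push_cast at h1
    exact h1
  have hcard : d.support.card ≤ n0 := by
    refine hn0 _ (le_trans ?_ hprodR)
    rw [← Finset.prod_const]
    exact Finset.prod_le_prod (fun p _ => by linarith) (fun p h => (hp p h).2.2.1.le)
  rw [norm_prod]
  calc ∏ p ∈ d.support, ‖ss k p b‖ ≤ ∏ p ∈ d.support, (C1 * Real.sqrt p) :=
        Finset.prod_le_prod (fun p _ => norm_nonneg _)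
          (fun p h => hb p (hp p h).1 (hp p h).2.1 (hp p h).2.2.1 (hp p h).2.2.2)
    _ = C1 ^ d.support.card * Real.sqrt (∏ p ∈ d.support, (p : ℝ)) := by
        rw [Finset.prod_mul_distrib, Finset.prod_const]
        congr 1
        induction d.support using Finset.induction_on with
        | empty => simp
        | insert a s ha ih =>
          rw [Finset.prod_insert ha, Finset.prod_insert ha, ih,
            Real.sqrt_mul (Nat.cast_nonneg a)]
    _ ≤ C1 ^ n0 * Real.sqrt (2 * M) := by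
        refine mul_le_mul (pow_le_pow_right₀ hC1 hcard) (Real.sqrt_le_sqrt hprodR)
          (Real.sqrt_nonneg _) (by positivity)

lemma T_bound (k M n0 : ℕ) (Y C1 : ℝ) (hY : 3 ≤ Y) (hC1 : 1 ≤ C1)
    (hn0 : ∀ n : ℕ, Y ^ n ≤ 2 * (M : ℝ) → n ≤ n0) (b : Ix k → ℕ)
    (hb : ∀ p : ℕ, p.Prime → p % 3 = 1 → Y < (p : ℝ) → p < 2 * M →
      ‖ss k p b‖ ≤ C1 * Real.sqrt p) :
    ‖T k (Dt (2 * M) (CM Y M)) b‖ ≤ 2 * M * (C1 ^ n0 * Real.sqrt (2 * M)) := by
  classical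
  rw [T_eq]
  have h2 : ∀ s ∈ (Dt (2 * M) (CM Y M)).image (fun d => d.support),
      ‖∏ p ∈ s, ss k p b‖ ≤ C1 ^ n0 * Real.sqrt (2 * M) := by
    intro s hs
    obtain ⟨d, hd, rfl⟩ := Finset.mem_image.1 hs
    exact term_bound k M n0 Y C1 hY hC1 hn0 b hb d hd
  have h3 := Finset.sum_le_card_nsmul _ (fun s => ‖∏ p ∈ s, ss k p b‖) _ h2
  rw [nsmul_eq_mul] at h3
  have h4 : ((((Dt (2 * M) (CM Y M)).image (fun d => d.support)).card : ℕ) : ℝ) ≤
      2 * (M : ℝ) := by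
    have := card_image_le M Y hY
    exact_mod_cast this
  refine le_trans (norm_sum_le _ _) (le_trans ?_
    (mul_le_mul_of_nonneg_right h4 (by positivity : (0:ℝ) ≤ C1 ^ n0 * Real.sqrt (2 * M))))
  convert h3 using 1

open Classical in
lemma bad_card (k M B : ℕ) (Q ε C' : ℝ) (hQ : 1 ≤ Q) (hC'0 : 0 ≤ C') (hC'Q : 2 * C' ≤ Q)
    (hk : 22 ≤ ε * k) (hB : Q ^ ε ≤ (B : ℝ)) (hB1 : 1 ≤ B) (Y : ℝ) (hY : Q ^ ε ≤ Y)
    (hMQ : (M : ℝ) ≤ Q)
    (hDG : ∀ p : ℕ, 1 ≤ p → (((Bx k B).filter fun b => Deg k p b).card : ℝ) *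
      (min p B : ℕ) ^ k ≤ C' * (B : ℝ) ^ (2 * k))
    (S : Finset (Ix k → ℕ))
    (hS : ∀ b ∈ S, b ∈ Bx k B ∧ ∃ p : ℕ, p.Prime ∧ Y < (p : ℝ) ∧ p < 2 * M ∧ Deg k p b) :
    (S.card : ℝ) * Q ^ 20 ≤ (B : ℝ) ^ (2 * k) := by
  have hQ0 : 0 < Q := by linarith
  have hQε : 0 ≤ Q ^ ε := Real.rpow_nonneg hQ0.le _
  have hsub : S ⊆ ((range (2 * M)).filter (fun p : ℕ => p.Prime ∧ Y < (p : ℝ))).biUnion
      (fun p => (Bx k B).filter fun b => Deg k p b) := by
    intro b hb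
    obtain ⟨hbB, p, hp, hYp, hpM, hdeg⟩ := hS b hb
    rw [Finset.mem_biUnion]
    exact ⟨p, Finset.mem_filter.2 ⟨Finset.mem_range.2 hpM, hp, hYp⟩,
      Finset.mem_filter.2 ⟨hbB, hdeg⟩⟩
  have h1 : (S.card : ℝ) ≤ ∑ p ∈ (range (2 * M)).filter (fun p : ℕ => p.Prime ∧ Y < (p : ℝ)),
      (((Bx k B).filter fun b => Deg k p b).card : ℝ) := by
    have h := le_trans (Finset.card_le_card hsub) Finset.card_biUnion_le
    exact_mod_cast h
  have h2 : ∀ p ∈ (range (2 * M)).filter (fun p : ℕ => p.Prime ∧ Y < (p : ℝ)),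
      (((Bx k B).filter fun b => Deg k p b).card : ℝ) * (Q ^ ε) ^ k ≤
        C' * (B : ℝ) ^ (2 * k) := by
    intro p hp
    obtain ⟨-, hpp, hYp⟩ := Finset.mem_filter.1 hp
    refine le_trans (mul_le_mul_of_nonneg_left ?_ (Nat.cast_nonneg _)) (hDG p hpp.one_le)
    refine pow_le_pow_left₀ hQε ?_ k
    rw [Nat.cast_min]
    exact le_min (by linarith) hB
  have h3 : (S.card : ℝ) * (Q ^ ε) ^ k ≤ (2 * M : ℝ) * (C' * (B : ℝ) ^ (2 * k)) := by
    refine le_trans (mul_le_mul_of_nonneg_right h1 (pow_nonneg hQε k)) ?_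
    rw [Finset.sum_mul]
    refine le_trans (Finset.sum_le_card_nsmul _ _ _ h2) ?_
    rw [nsmul_eq_mul]
    refine mul_le_mul_of_nonneg_right ?_ (by positivity)
    have h4 : ((range (2 * M)).filter (fun p : ℕ => p.Prime ∧ Y < (p : ℝ))).card ≤ 2 * M := by
      refine le_trans (Finset.card_filter_le _ _) ?_
      rw [Finset.card_range]
    exact_mod_cast h4
  have h5 : Q ^ 22 ≤ (Q ^ ε) ^ k := by
    rw [← Real.rpow_natCast (Q ^ ε) k, ← Real.rpow_mul hQ0.le, ← Real.rpow_natCast Q 22]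
    refine Real.rpow_le_rpow_of_exponent_le hQ ?_
    push_cast
    exact hk
  have h6 : (S.card : ℝ) * Q ^ 22 ≤ (2 * M : ℝ) * (C' * (B : ℝ) ^ (2 * k)) :=
    le_trans (mul_le_mul_of_nonneg_left h5 (Nat.cast_nonneg _)) h3
  have hBk : (0:ℝ) ≤ (B : ℝ) ^ (2 * k) := by positivity
  have h7 : (2 * M : ℝ) * (C' * (B : ℝ) ^ (2 * k)) ≤ Q ^ 2 * (B : ℝ) ^ (2 * k) := by
    calc (2 * M : ℝ) * (C' * (B : ℝ) ^ (2 * k)) = (M : ℝ) * (2 * C') * (B : ℝ) ^ (2 * k) := by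
          ring
      _ ≤ Q * Q * (B : ℝ) ^ (2 * k) := by
          refine mul_le_mul_of_nonneg_right ?_ hBk
          exact mul_le_mul hMQ hC'Q (by positivity) hQ0.le
      _ = Q ^ 2 * (B : ℝ) ^ (2 * k) := by ring
  have h8 : Q ^ 2 * ((S.card : ℝ) * Q ^ 20) ≤ Q ^ 2 * (B : ℝ) ^ (2 * k) := by
    calc Q ^ 2 * ((S.card : ℝ) * Q ^ 20) = (S.card : ℝ) * Q ^ 22 := by ring
      _ ≤ _ := le_trans h6 h7
  exact le_of_mul_le_mul_left h8 (by positivity)

end ROUGHaux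

open ROUGHaux in
theorem stmt_ROUGH (hWL : Stmt_WL) (hDG : Stmt_DG) : Stmt_ROUGH := by
  classical
  intro ε e hε he
  refine ⟨⌈22 / ε⌉₊, fun k hk => ?_⟩
  obtain ⟨C, hC0, hC⟩ := hWL k
  obtain ⟨C', hC'0, hC'⟩ := hDG k
  have hk' : 22 ≤ ε * k := by
    have h1 : 22 / ε ≤ (k : ℝ) := le_trans (Nat.le_ceil _) (by exact_mod_cast hk)
    rw [div_le_iff₀ hε] at h1
    linarith
  set C1 : ℝ := max C 1 with hC1def
  have hC1 : 1 ≤ C1 := le_max_right _ _
  set n0 : ℕ := ⌊2 / ε⌋₊ with hn0def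
  have hA1 : ∀ᶠ Q : ℝ in Filter.atTop, 3 ≤ Q ^ ε :=
    (tendsto_rpow_atTop hε).eventually_ge_atTop 3
  have hA2 : ∀ᶠ Q : ℝ in Filter.atTop, 3 * C1 ^ n0 ≤ Q ^ e :=
    (tendsto_rpow_atTop he).eventually_ge_atTop _
  have hA3 : ∀ᶠ Q : ℝ in Filter.atTop, 2 * C' ≤ Q := Filter.eventually_ge_atTop _
  have hA4 : ∀ᶠ Q : ℝ in Filter.atTop, (2 : ℝ) < Q := Filter.eventually_gt_atTop _
  obtain ⟨Q0, hQ0⟩ := Filter.eventually_atTop.1 (hA1.and (hA2.and (hA3.and hA4)))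
  refine ⟨Q0, fun Q hQ B M Y hB hY hM hMQ => ?_⟩
  obtain ⟨h1, h2, h3, h4⟩ := hQ0 Q hQ
  have hQpos : 0 < Q := by linarith
  have hQ1 : 1 ≤ Q := by linarith
  have hY3 : 3 ≤ Y := le_trans h1 hY
  have hB1 : 1 ≤ B := by
    have : (1 : ℝ) ≤ (B : ℝ) := by linarith
    exact_mod_cast this
  have hn0 : ∀ n : ℕ, Y ^ n ≤ 2 * (M : ℝ) → n ≤ n0 := by
    intro n hn
    have h5 : (Q ^ ε) ^ n ≤ Q ^ (2:ℝ) := by
      have hq : Q ^ (2:ℝ) = Q * Q := by
        rw [Real.rpow_two]; ring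
      rw [hq]
      calc (Q ^ ε) ^ n ≤ Y ^ n := pow_le_pow_left₀ (Real.rpow_nonneg hQpos.le _) hY n
        _ ≤ 2 * (M : ℝ) := hn
        _ ≤ Q * Q := by
          have : (0:ℝ) ≤ (M:ℝ) := Nat.cast_nonneg _
          exact mul_le_mul h4.le hMQ this hQpos.le
    rw [← Real.rpow_natCast (Q ^ ε) n, ← Real.rpow_mul hQpos.le] at h5
    have h6 : ε * n ≤ 2 := (Real.rpow_le_rpow_left_iff (by linarith : 1 < Q)).1 h5
    rw [hn0def]
    refine Nat.le_floor ?_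
    rw [le_div_iff₀ hε]
    linarith
  refine bad_card k M B Q ε C' hQ1 hC'0 h3 hk' hB hB1 Y hY hMQ
    (fun p hp => hC' p B hp hB1) _ (fun b hb => ?_)
  obtain ⟨hbB, hbT⟩ := Finset.mem_filter.1 hb
  refine ⟨hbB, ?_⟩
  by_contra hcon
  push Not at hcon
  have hT := T_bound k M n0 Y C1 hY3 hC1 hn0 b (fun p hp hp3 hYp hpM => by
    have hnd := hcon p hp hYp hpM
    refine le_trans (hC p hp hp3 b hnd) ?_
    exact mul_le_mul_of_nonneg_right (le_max_left _ _) (Real.sqrt_nonneg _))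
  have hMpos : (0:ℝ) < (M:ℝ) := by exact_mod_cast hM
  have h7 : 2 * (M:ℝ) * (C1 ^ n0 * Real.sqrt (2 * M)) ≤ (M : ℝ) ^ (3 / 2 : ℝ) * Q ^ e := by
    have h8 : (M : ℝ) ^ (3 / 2 : ℝ) = (M:ℝ) * Real.sqrt M := by
      rw [Real.sqrt_eq_rpow, ← Real.rpow_one_add' hMpos.le (by norm_num)]
      norm_num
    have h9 : Real.sqrt (2 * M) ≤ (3 / 2) * Real.sqrt M := by
      rw [Real.sqrt_mul (by norm_num : (0:ℝ) ≤ 2)]
      refine mul_le_mul_of_nonneg_right ?_ (Real.sqrt_nonneg _)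
      rw [Real.sqrt_le_left (by norm_num)]
      norm_num
    have hCp : (0:ℝ) ≤ C1 ^ n0 := by positivity
    rw [h8]
    calc 2 * (M:ℝ) * (C1 ^ n0 * Real.sqrt (2 * M))
        ≤ 2 * (M:ℝ) * (C1 ^ n0 * ((3 / 2) * Real.sqrt M)) := by
          refine mul_le_mul_of_nonneg_left ?_ (by positivity)
          exact mul_le_mul_of_nonneg_left h9 hCp
      _ = (M:ℝ) * Real.sqrt M * (3 * C1 ^ n0) := by ring
      _ ≤ (M:ℝ) * Real.sqrt M * Q ^ e :=
          mul_le_mul_of_nonneg_left h2 (by positivity)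
  linarith

end Pool.Agent.Work.AV
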