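import Pool.Agent.Work.AV081200.Mom

/-!
# Averaged Burgess: the smooth family (block SMOOTH)
-/

set_option autoImplicit false

namespace Pool.Agent.Work.AV

open Finset

namespace SMOOTHaux

theorem sum_split {α : Type*} (s t : Finset α) (f : α → ℝ) (a b : ℝ) (hb : 0 ≤ b)
    (hts : t ⊆ s) (h1 : ∀ x ∈ t, f x ≤ a) (h2 : ∀ x ∈ s, x ∉ t → f x ≤ b) :
    ∑ x ∈ s, f x ≤ t.card * a + s.card * b := by
  classical
  rw [← sum_sdiff hts, add_comm]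
  have e1 : ∑ x ∈ t, f x ≤ t.card * a := by
    rw [← nsmul_eq_mul]
    exact sum_le_card_nsmul _ _ _ h1
  have e2 : ∑ x ∈ s \ t, f x ≤ (s \ t).card * b := by
    rw [← nsmul_eq_mul]
    exact sum_le_card_nsmul _ _ _ fun x hx => h2 x (mem_sdiff.1 hx).1 (mem_sdiff.1 hx).2
  have e3 : ((s \ t).card : ℝ) * b ≤ s.card * b := by
    refine mul_le_mul_of_nonneg_right ?_ hb
    exact_mod_cast card_le_card sdiff_subset
  linarith

theorem Dn_diag (d : ℕ →₀ ℕ) : Dn 1 (fun _ => d) = 1 := by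
  classical
  unfold Dn
  rw [filter_false_of_mem, prod_empty]
  rintro p - ⟨-, t, ht⟩
  apply ht
  unfold mu
  simp

/-- the number of data is polynomially bounded -/
theorem card_Dt (hC : Stmt_COUNT) : ∃ Q0 : ℝ, ∀ Q : ℝ, Q0 ≤ Q → 2 ≤ Q →
    ∀ (X : ℕ) (C : ℕ → Prop), 1 ≤ X → (X : ℝ) ≤ Q → ((Dt (2 * X) C).card : ℝ) ≤ Q ^ 3 := by
  classical
  obtain ⟨κ, hκ, Q0, h⟩ := hC 1 1 one_pos
  refine ⟨Q0, fun Q hQ hQ2 X C hX1 hX2 => ?_⟩
  have h1 := h Q hQ X C hX1 hX2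
  refine le_trans ?_ (h1.trans ?_)
  · rw [Nat.cast_le]
    refine card_le_card_of_injOn (fun d => (fun _ : Ix 1 => d)) ?_ ?_
    · intro d hd
      have hd' : d ∈ Dt (2 * X) C := hd
      rw [mem_coe, mem_filter, Fintype.mem_piFinset]
      refine ⟨fun _ => hd', ?_⟩
      rw [Dn_diag]
      push_cast
      exact Real.one_lt_rpow (by linarith) hκ
    · intro d _ d' _ hdd
      exact congrFun hdd (Sum.inl 0)
  · rw [Real.rpow_one]
    have h2 : (X : ℝ) ^ (2 * 1) ≤ Q ^ 2 := by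
      rw [mul_one]
      exact pow_le_pow_left₀ (Nat.cast_nonneg _) hX2 2
    calc (X : ℝ) ^ (2 * 1) * Q ≤ Q ^ 2 * Q := mul_le_mul_of_nonneg_right h2 (by linarith)
      _ = Q ^ 3 := by ring

end SMOOTHaux

open SMOOTHaux

theorem stmt_SMOOTH (hN : Stmt_NEAR) (hC : Stmt_COUNT) : Stmt_SMOOTH := by
  classical
  intro ε e hε hε1 he
  obtain ⟨j, hj⟩ : ∃ j : ℕ, 11 / e ≤ j := exists_nat_ge _
  obtain ⟨κ, hκ, Q1, h1⟩ := hC j 1 one_pos
  obtain ⟨Q1', h1'⟩ := card_Dt hC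
  obtain ⟨δ, hδ, Q2, h2⟩ := hN j ε κ hε hε1 hκ
  obtain ⟨k0, hk0⟩ : ∃ k0 : ℕ, 3 * j / δ ≤ k0 := exists_nat_ge _
  refine ⟨k0, fun k hk => ?_⟩
  refine ⟨max (max Q1 Q1') (max Q2 (max 2 ((9 : ℝ) ^ (1 / (ε * (1 - ε)))))),
    fun Q hQ B X hB1 hB2 hX1 hX2 => ?_⟩
  have hQ1 : Q1 ≤ Q := ((le_max_left _ _).trans (le_max_left _ _)).trans hQ
  have hQ1' : Q1' ≤ Q := ((le_max_right _ _).trans (le_max_left _ _)).trans hQ
  have hQ2 : Q2 ≤ Q := ((le_max_left _ _).trans (le_max_right _ _)).trans hQ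
  have hQ3 : 2 ≤ Q :=
    (((le_max_left _ _).trans (le_max_right _ _)).trans (le_max_right _ _)).trans hQ
  have hQ4 : (9 : ℝ) ^ (1 / (ε * (1 - ε))) ≤ Q :=
    (((le_max_right _ _).trans (le_max_right _ _)).trans (le_max_right _ _)).trans hQ
  have hQ0 : 0 < Q := by linarith
  have hQ1r : 1 ≤ Q := by linarith
  have hee : 0 < ε * (1 - ε) := mul_pos hε (by linarith)
  -- 9 is admissible
  have h9 : (9 : ℝ) ≤ (B : ℝ) ^ (1 - ε) := by
    calc (9 : ℝ) = ((9 : ℝ) ^ (1 / (ε * (1 - ε)))) ^ (ε * (1 - ε)) := by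
          rw [← Real.rpow_mul (by norm_num), one_div, inv_mul_cancel₀ hee.ne', Real.rpow_one]
      _ ≤ Q ^ (ε * (1 - ε)) := Real.rpow_le_rpow (by positivity) hQ4 hee.le
      _ = (Q ^ ε) ^ (1 - ε) := by rw [Real.rpow_mul hQ0.le]
      _ ≤ (B : ℝ) ^ (1 - ε) := Real.rpow_le_rpow (by positivity) hB1 (by linarith)
  set F := Dt (2 * X) (CX ((B : ℝ) ^ (1 - ε)) X) with hF
  have hFc : (F.card : ℝ) ≤ Q ^ 3 := h1' Q hQ1' hQ3 X _ hX1 hX2
  have hcnt := h1 Q hQ1 X (CX ((B : ℝ) ^ (1 - ε)) X) hX1 hX2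
  rw [← hF] at hcnt
  -- the moment
  have hmom : ∑ b ∈ Bx k B, ‖T k F b‖ ^ (2 * j) ≤
      (X : ℝ) ^ (2 * j) * Q ^ (1 : ℝ) * (B : ℝ) ^ (2 * k)
        + ((Fintype.piFinset fun _ : Ix j => F).card : ℝ) * (B * Q ^ (-δ)) ^ (2 * k) := by
    rw [sum_T_pow]
    refine (sum_split _ ((Fintype.piFinset fun _ : Ix j => F).filter fun D =>
      (Dn j D : ℝ) < Q ^ κ) _ ((B : ℝ) ^ (2 * k)) ((B * Q ^ (-δ)) ^ (2 * k)) (by positivity)
      (filter_subset _ _) ?_ ?_).trans ?_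
    · intro D _
      exact pow_le_pow_left₀ (norm_nonneg _) (norm_SB_le B _ (norm_W_le j D)) _
    · intro D hD hD'
      have hD'' : Q ^ κ ≤ (Dn j D : ℝ) := by
        by_contra hcon
        exact hD' (mem_filter.2 ⟨hD, not_le.1 hcon⟩)
      refine pow_le_pow_left₀ (norm_nonneg _) (h2 Q hQ2 B hB1 hB2 D (fun i => ?_) hD'') _
      have hDi : D i ∈ F := Fintype.mem_piFinset.1 hD i
      rw [hF, mem_Dt] at hDi
      obtain ⟨hok, hle, -, -, hpr⟩ := hDi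
      refine ⟨hok, ?_, fun p hp => ?_⟩
      · have h3 : (Nn (D i) : ℝ) ≤ ((2 * X : ℕ) : ℝ) := by exact_mod_cast hle
        push_cast at h3
        linarith
      · rcases (hok p hp).1 with h | h
        · exact hpr p h.1 (dvd_Nn hp)
        · rw [h]
          exact_mod_cast h9
    · gcongr
  -- Chebyshev
  set G := (Bx k B).filter fun b => (X : ℝ) * Q ^ e < ‖T k F b‖ with hG
  have hX0 : (0 : ℝ) < X := by exact_mod_cast hX1
  have hche : (G.card : ℝ) * ((X : ℝ) * Q ^ e) ^ (2 * j) ≤ ∑ b ∈ Bx k B, ‖T k F b‖ ^ (2 * j) := by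
    calc (G.card : ℝ) * ((X : ℝ) * Q ^ e) ^ (2 * j)
        = ∑ _b ∈ G, ((X : ℝ) * Q ^ e) ^ (2 * j) := by rw [sum_const, nsmul_eq_mul]
      _ ≤ ∑ b ∈ G, ‖T k F b‖ ^ (2 * j) := by
          refine sum_le_sum fun b hb => ?_
          exact pow_le_pow_left₀ (by positivity) (mem_filter.1 hb).2.le _
      _ ≤ ∑ b ∈ Bx k B, ‖T k F b‖ ^ (2 * j) :=
          sum_le_sum_of_subset_of_nonneg (filter_subset _ _) fun _ _ _ => by positivity
  -- the second part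
  have hsec : ((Fintype.piFinset fun _ : Ix j => F).card : ℝ) * (B * Q ^ (-δ)) ^ (2 * k)
      ≤ (B : ℝ) ^ (2 * k) := by
    have e1 : ((Fintype.piFinset fun _ : Ix j => F).card : ℝ) ≤ Q ^ (6 * (j : ℝ)) := by
      rw [Fintype.card_piFinset, prod_const, card_univ, Fintype.card_sum, Fintype.card_fin]
      push_cast
      calc (F.card : ℝ) ^ (j + j) ≤ (Q ^ 3) ^ (j + j) :=
            pow_le_pow_left₀ (Nat.cast_nonneg _) hFc _
        _ = Q ^ (6 * (j : ℝ)) := by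
            rw [← pow_mul, ← Real.rpow_natCast]
            congr 1
            push_cast
            ring
    have e2 : (B * Q ^ (-δ)) ^ (2 * k) = (B : ℝ) ^ (2 * k) * Q ^ (-(2 * k * δ)) := by
      rw [mul_pow, ← Real.rpow_natCast (Q ^ (-δ)), ← Real.rpow_mul hQ0.le]
      congr 2
      push_cast
      ring
    have e3 : 3 * (j : ℝ) ≤ k * δ := by
      have := hk0.trans (Nat.cast_le.2 hk : (k0 : ℝ) ≤ k)
      rwa [div_le_iff₀ hδ] at this
    have e4 : Q ^ (6 * (j : ℝ)) * Q ^ (-(2 * k * δ)) ≤ 1 := by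
      rw [← Real.rpow_add hQ0]
      exact Real.rpow_le_one_of_one_le_of_nonpos hQ1r (by linarith)
    rw [e2]
    calc ((Fintype.piFinset fun _ : Ix j => F).card : ℝ)
          * ((B : ℝ) ^ (2 * k) * Q ^ (-(2 * k * δ)))
        ≤ Q ^ (6 * (j : ℝ)) * ((B : ℝ) ^ (2 * k) * Q ^ (-(2 * k * δ))) :=
          mul_le_mul_of_nonneg_right e1 (by positivity)
      _ = (Q ^ (6 * (j : ℝ)) * Q ^ (-(2 * k * δ))) * (B : ℝ) ^ (2 * k) := by ring
      _ ≤ 1 * (B : ℝ) ^ (2 * k) := mul_le_mul_of_nonneg_right e4 (by positivity)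
      _ = (B : ℝ) ^ (2 * k) := one_mul _
  -- combine
  have hXj : (1 : ℝ) ≤ (X : ℝ) ^ (2 * j) := one_le_pow₀ (by exact_mod_cast hX1)
  have hej : 22 ≤ e * (2 * j) := by
    rw [div_le_iff₀ he] at hj
    linarith
  have hQe : Q ^ 20 * Q ^ 2 ≤ (Q ^ e) ^ (2 * j) := by
    have e1 : (Q ^ e) ^ (2 * j) = Q ^ (e * (2 * j)) := by
      rw [← Real.rpow_natCast (Q ^ e), ← Real.rpow_mul hQ0.le]
      congr 2
      push_cast
      ring
    rw [e1, ← pow_add, ← Real.rpow_natCast]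
    refine Real.rpow_le_rpow_of_exponent_le hQ1r ?_
    push_cast
    linarith
  have hBk : (0 : ℝ) ≤ (B : ℝ) ^ (2 * k) := by positivity
  have htot : (G.card : ℝ) * ((X : ℝ) * Q ^ e) ^ (2 * j)
      ≤ (X : ℝ) ^ (2 * j) * (2 * Q * (B : ℝ) ^ (2 * k)) := by
    refine (hche.trans hmom).trans ?_
    rw [Real.rpow_one]
    have e5 : (B : ℝ) ^ (2 * k) ≤ (X : ℝ) ^ (2 * j) * (Q * (B : ℝ) ^ (2 * k)) := by
      have e6 : (B : ℝ) ^ (2 * k) ≤ Q * (B : ℝ) ^ (2 * k) := le_mul_of_one_le_left hBk hQ1r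
      exact e6.trans (le_mul_of_one_le_left (by positivity) hXj)
    linarith [hsec]
  rw [mul_pow] at htot
  have hfin : (G.card : ℝ) * (Q ^ 20 * Q ^ 2) ≤ 2 * Q * (B : ℝ) ^ (2 * k) := by
    have e7 : (X : ℝ) ^ (2 * j) * ((G.card : ℝ) * (Q ^ e) ^ (2 * j))
        ≤ (X : ℝ) ^ (2 * j) * (2 * Q * (B : ℝ) ^ (2 * k)) := by
      refine le_trans (le_of_eq ?_) htot
      ring
    have e8 := le_of_mul_le_mul_left e7 (by positivity)
    exact (mul_le_mul_of_nonneg_left hQe (Nat.cast_nonneg _)).trans e8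
  have hQ2' : 2 * Q ≤ Q ^ 2 := by nlinarith
  have e9 : ((G.card : ℝ) * Q ^ 20) * Q ^ 2 ≤ (B : ℝ) ^ (2 * k) * Q ^ 2 := by
    calc ((G.card : ℝ) * Q ^ 20) * Q ^ 2 = (G.card : ℝ) * (Q ^ 20 * Q ^ 2) := by ring
      _ ≤ 2 * Q * (B : ℝ) ^ (2 * k) := hfin
      _ ≤ Q ^ 2 * (B : ℝ) ^ (2 * k) := mul_le_mul_of_nonneg_right hQ2' hBk
      _ = (B : ℝ) ^ (2 * k) * Q ^ 2 := by ring
  exact le_of_mul_le_mul_right e9 (by positivity)

end Pool.Agent.Work.AV
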