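import Pool.Agent.Work.AV081200.Interface
import Pool.Agent.Work.AV081200.Mom

set_option autoImplicit false

namespace Pool.Agent.Work.AV

open Finset

namespace SPaux

theorem norm_ss_le (k p : ℕ) (b : Ix k → ℕ) : ‖ss k p b‖ ≤ 2 * p := by
  unfold ss
  refine (norm_sum_le _ _).trans ?_
  refine (Finset.sum_le_sum fun x _ => norm_mono_le k (vl p x) (norm_vl_le p x) b).trans ?_
  rw [Finset.sum_const, Nat.card_Icc]
  simp

theorem p_le (ε : ℝ) (hε : 0 < ε) (k : ℕ) (hk : 1 / ε ≤ k) (hk1 : 1 ≤ k) (p B : ℕ) (hp : 1 ≤ p)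
    (hB : (p : ℝ) ^ ε ≤ B) : (p : ℝ) ≤ ((min p B : ℕ) : ℝ) ^ k := by
  have hp1 : (1 : ℝ) ≤ p := by exact_mod_cast hp
  rcases le_total p B with h | h
  · rw [min_eq_left h]
    exact le_self_pow₀ hp1 (by omega)
  · rw [min_eq_right h]
    have h1 : (p : ℝ) ≤ (p : ℝ) ^ (ε * k) := by
      have h2 : 1 ≤ ε * k := by
        rw [div_le_iff₀ hε] at hk
        linarith
      calc (p : ℝ) = (p : ℝ) ^ (1 : ℝ) := (Real.rpow_one _).symm
        _ ≤ _ := Real.rpow_le_rpow_of_exponent_le hp1 h2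
    rw [Real.rpow_mul (by positivity), Real.rpow_natCast] at h1
    exact h1.trans (pow_le_pow_left₀ (by positivity) hB k)

end SPaux

open SPaux in
theorem stmt_SP (hWL : Stmt_WL) (hDG : Stmt_DG) : Stmt_SP := by
  classical
  intro ε hε
  refine ⟨⌈1 / ε⌉₊ + 1, fun k hk => ?_⟩
  obtain ⟨C1, hC1, h1⟩ := hWL k
  obtain ⟨C2, hC2, h2⟩ := hDG k
  refine ⟨C1 ^ 2 + 4 * C2, by positivity, fun p B hp hp3 hB hpB => ?_⟩
  have hk1 : 1 / ε ≤ k := (Nat.le_ceil _).trans (by exact_mod_cast (show ⌈1 / ε⌉₊ ≤ k by omega))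
  have hpk := p_le ε hε k hk1 (by omega) p B hp.one_lt.le hpB
  have hp0 : (0 : ℝ) ≤ p := by positivity
  rw [← Finset.sum_filter_add_sum_filter_not (Bx k B) (fun b => Deg k p b)]
  have e1 : ∑ b ∈ (Bx k B).filter (fun b => Deg k p b), ‖ss k p b‖ ^ 2
      ≤ 4 * C2 * (B : ℝ) ^ (2 * k) * p := by
    have h3 := h2 p B hp.one_lt.le hB
    have h4 : ∑ b ∈ (Bx k B).filter (fun b => Deg k p b), ‖ss k p b‖ ^ 2
        ≤ (((Bx k B).filter fun b => Deg k p b).card : ℝ) * (2 * p) ^ 2 := by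
      rw [← nsmul_eq_mul]
      exact Finset.sum_le_card_nsmul _ _ _ fun b _ =>
        pow_le_pow_left₀ (norm_nonneg _) (norm_ss_le k p b) 2
    refine h4.trans ?_
    calc (((Bx k B).filter fun b => Deg k p b).card : ℝ) * (2 * p) ^ 2
        = ((((Bx k B).filter fun b => Deg k p b).card : ℝ) * p) * (4 * p) := by ring
      _ ≤ ((((Bx k B).filter fun b => Deg k p b).card : ℝ) * ((min p B : ℕ) : ℝ) ^ k) * (4 * p) := by
          gcongr
      _ ≤ (C2 * (B : ℝ) ^ (2 * k)) * (4 * p) := by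
          gcongr
      _ = _ := by ring
  have e2 : ∑ b ∈ (Bx k B).filter (fun b => ¬ Deg k p b), ‖ss k p b‖ ^ 2
      ≤ C1 ^ 2 * (B : ℝ) ^ (2 * k) * p := by
    have h4 : ∑ b ∈ (Bx k B).filter (fun b => ¬ Deg k p b), ‖ss k p b‖ ^ 2
        ≤ (((Bx k B).filter fun b => ¬ Deg k p b).card : ℝ) * (C1 ^ 2 * p) := by
      rw [← nsmul_eq_mul]
      refine Finset.sum_le_card_nsmul _ _ _ fun b hb => ?_
      have h5 := h1 p hp hp3 b (Finset.mem_filter.1 hb).2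
      calc ‖ss k p b‖ ^ 2 ≤ (C1 * Real.sqrt p) ^ 2 := pow_le_pow_left₀ (norm_nonneg _) h5 2
        _ = C1 ^ 2 * p := by rw [mul_pow, Real.sq_sqrt hp0]
    refine h4.trans ?_
    have h6 : (((Bx k B).filter fun b => ¬ Deg k p b).card : ℝ) ≤ (B : ℝ) ^ (2 * k) := by
      have h7 := Finset.card_filter_le (Bx k B) (fun b => ¬ Deg k p b)
      rw [card_Bx] at h7
      exact_mod_cast h7
    calc (((Bx k B).filter fun b => ¬ Deg k p b).card : ℝ) * (C1 ^ 2 * p)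
        ≤ (B : ℝ) ^ (2 * k) * (C1 ^ 2 * p) := by gcongr
      _ = _ := by ring
  calc _ ≤ 4 * C2 * (B : ℝ) ^ (2 * k) * p + C1 ^ 2 * (B : ℝ) ^ (2 * k) * p := add_le_add e1 e2
    _ = _ := by ring

end Pool.Agent.Work.AV
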