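import Pool.Agent.Work.AV081200.Interface
import Pool.Agent.Work.LV.W
import Pool.Agent.Work.LV.MLoc

set_option autoImplicit false

namespace Pool.Agent.Work.AV

open Finset Polynomial Pool.Agent.Work.LV Pool.Agent.Work.LV.M

namespace WLaux

theorem exists_cubic (p : ℕ) (hp : p.Prime) (h3 : p % 3 = 1) :
    ∃ χ : DirichletCharacter ℂ p, χ.IsPrimitive ∧ χ ^ 3 = 1 ∧ χ ≠ 1 := by
  have : Fact p.Prime := ⟨hp⟩
  have hd : 3 ∣ Fintype.card (ZMod p) - 1 := by
    rw [ZMod.card]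
    omega
  obtain ⟨χ, hχ⟩ := MulChar.exists_mulChar_orderOf (ZMod p) hd (Complex.isPrimitiveRoot_exp 3 (by norm_num))
  have h1 : χ ≠ 1 := by
    rintro rfl
    rw [orderOf_one] at hχ
    norm_num at hχ
  refine ⟨χ, ?_, ?_, h1⟩
  · have h2 : DirichletCharacter.conductor χ ∣ p := DirichletCharacter.conductor_dvd_level χ
    rcases (Nat.dvd_prime hp).1 h2 with h | h
    · exact absurd (DirichletCharacter.eq_one_iff_conductor_eq_one.2 h) h1
    · exact h
  · rw [← hχ]
    exact pow_orderOf_eq_one χ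

theorem om_spec (p : ℕ) (hp : p.Prime) (h3 : p % 3 = 1) : om p ^ 3 = 1 ∧ om p ≠ 1 := by
  have h := exists_cubic p hp h3
  unfold om
  rw [dif_pos h]
  exact ⟨h.choose_spec.2.1, h.choose_spec.2.2⟩

theorem sum_range_zmod (p : ℕ) [NeZero p] (f : ZMod p → ℂ) :
    ∑ y ∈ range p, f (y : ZMod p) = ∑ y : ZMod p, f y := by
  refine Finset.sum_nbij' (fun y => (y : ZMod p)) (fun y => y.val) ?_ ?_ ?_ ?_ ?_
  · intro y _
    exact mem_univ _
  · intro y _
    exact mem_range.2 (ZMod.val_lt y)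
  · intro y hy
    exact ZMod.val_cast_of_lt (mem_range.1 hy)
  · intro y _
    exact ZMod.natCast_zmod_val y
  · intro y _
    rfl

theorem conj_val {p : ℕ} (χ : DirichletCharacter ℂ p) (hχ : χ ^ 3 = 1) (z : ZMod p) :
    (starRingEnd ℂ) (χ z) = χ z ^ 2 := by
  by_cases hz : IsUnit z
  · have h1 : χ z ^ 3 = 1 := by
      obtain ⟨u, rfl⟩ := hz
      rw [← MulChar.pow_apply_coe, hχ, MulChar.one_apply_coe]
    have h2 : ‖χ z‖ = 1 := by
      have : ‖χ z‖ ^ 3 = 1 := by rw [← norm_pow, h1, norm_one]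
      exact (pow_eq_one_iff_of_nonneg (norm_nonneg _) (by norm_num)).1 this
    have h3 : χ z * (starRingEnd ℂ) (χ z) = 1 := by
      rw [Complex.mul_conj, Complex.normSq_eq_norm_sq, h2]
      norm_num
    have h4 : χ z ≠ 0 := by
      intro h
      rw [h, norm_zero] at h2
      exact zero_ne_one h2
    apply mul_left_cancel₀ h4
    rw [h3, ← h1]
    ring
  · rw [MulChar.map_nonunit χ hz]
    simp

/-- exponents `1` and `2` -/
def ex (k : ℕ) : Ix k → ℕ := Sum.elim (fun _ => 1) fun _ => 2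

theorem sum_ex (k : ℕ) : ∑ i, ex k i = 3 * k := by
  rw [Fintype.sum_sum_type]
  simp [ex]
  ring

theorem main (k : ℕ) (C : ℝ) (hW : WB (3 * k) C) (p : ℕ) [Fact p.Prime]
    (χ : DirichletCharacter ℂ p) (hχ : χ ^ 3 = 1) (hχ1 : χ ≠ 1) (b : Ix k → ℕ)
    (hb : ¬ Deg k p b) :
    ‖∑ y : ZMod p, (∏ i : Fin k, χ (y + (b (Sum.inl i) : ZMod p)))
      * ∏ i : Fin k, (starRingEnd ℂ) (χ (y + (b (Sum.inr i) : ZMod p)))‖ ≤ C * Real.sqrt p := by
  classical
  set F : (ZMod p)[X] := ∏ i, (X - Polynomial.C (-(b i : ZMod p))) ^ ex k i with hF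
  have h1 := hW p χ hχ hχ1 F ?_ ?_
  · refine le_trans (le_of_eq ?_) h1
    congr 1
    refine sum_congr rfl fun y _ => ?_
    have h2 : F.eval y = ∏ i, (y + (b i : ZMod p)) ^ ex k i := by
      rw [hF, eval_prod]
      refine prod_congr rfl fun i _ => ?_
      rw [eval_pow, eval_sub, eval_X, eval_C, sub_neg_eq_add]
    rw [h2, Fintype.prod_sum_type, map_mul, map_prod, map_prod]
    congr 1
    · refine prod_congr rfl fun i _ => ?_
      simp [ex]
    · refine prod_congr rfl fun i _ => ?_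
      rw [conj_val χ hχ]
      simp [ex]
  · rw [hF, ← sum_ex k]
    refine (natDegree_prod_le _ _).trans (sum_le_sum fun i _ => ?_)
    refine natDegree_pow_le.trans ?_
    rw [natDegree_X_sub_C, mul_one]
  · unfold Deg at hb
    push Not at hb
    obtain ⟨t, ht⟩ := hb
    refine ⟨-t, ?_⟩
    rw [hF, rootMultiplicity_prod_aux, Fintype.sum_sum_type]
    simp only [neg_inj, ex, Sum.elim_inl, Sum.elim_inr]
    rw [← sum_filter, ← sum_filter, sum_const, sum_const, smul_eq_mul, smul_eq_mul, mul_one]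
    intro h3
    apply ht
    rw [← ZMod.natCast_eq_zero_iff] at h3
    push_cast at h3
    have h4 : (2 : ZMod 3) = -1 := by decide
    rw [h4] at h3
    linear_combination h3

theorem sum_Icc_shift (g : ℕ → ℂ) (n : ℕ) : ∑ x ∈ Icc 1 n, g x = ∑ x ∈ range n, g (x + 1) := by
  induction n with
  | zero => simp
  | succ n ih => rw [sum_Icc_succ_top (by omega), sum_range_succ, ih]

end WLaux

open WLaux in
theorem stmt_WL : Stmt_WL := by
  intro k
  obtain ⟨C, hC, hW⟩ := stmt_W (3 * k)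
  refine ⟨2 * C, by positivity, fun p hp h3 b hb => ?_⟩
  have : Fact p.Prime := ⟨hp⟩
  obtain ⟨ho, ho1⟩ := om_spec p hp h3
  have hp0 : 0 < p := hp.pos
  have h1 : ss k p b = ∑ y ∈ range p, mono k (vl p (y + 1)) b
      + ∑ y ∈ range p, mono k (vl p (p + y + 1)) b := by
    unfold ss
    rw [sum_Icc_shift, two_mul, sum_range_add]
  have h2 : ∀ y ∈ range p, ∀ a : ℤ, vl p (y + 1) a = (om p ^ 1) ((y : ZMod p) + (a : ZMod p)) := by
    intro y hy a
    rw [mem_range] at hy
    unfold vl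
    rw [if_neg (by omega), Nat.add_sub_cancel, Nat.mod_eq_of_lt hy, Nat.div_eq_of_lt hy, pow_one,
      pow_one]
  have h3 : ∀ y ∈ range p, ∀ a : ℤ,
      vl p (p + y + 1) a = (om p ^ 2) ((y : ZMod p) + (a : ZMod p)) := by
    intro y hy a
    rw [mem_range] at hy
    unfold vl
    rw [if_neg (by omega), Nat.add_sub_cancel, Nat.add_mod_left, Nat.mod_eq_of_lt hy,
      Nat.add_div_left y hp0, Nat.div_eq_of_lt hy, MulChar.pow_apply' _ (by norm_num)]
  have hc2 : (om p ^ 2) ^ 3 = 1 := by rw [← pow_mul, mul_comm, pow_mul, ho, one_pow]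
  have hc3 : om p ^ 2 ≠ 1 := by
    intro h
    apply ho1
    calc om p = om p ^ 3 := by rw [pow_succ, h, one_mul]
      _ = 1 := ho
  have h4 : ∀ (χ : DirichletCharacter ℂ p) (g : ℕ → ℤ → ℂ),
      (∀ y ∈ range p, ∀ a : ℤ, g y a = χ ((y : ZMod p) + (a : ZMod p))) →
      ∑ y ∈ range p, mono k (g y) b
        = ∑ y : ZMod p, (∏ i : Fin k, χ (y + (b (Sum.inl i) : ZMod p)))
          * ∏ i : Fin k, (starRingEnd ℂ) (χ (y + (b (Sum.inr i) : ZMod p))) := by
    intro χ g hg
    rw [← sum_range_zmod]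
    refine sum_congr rfl fun y hy => ?_
    unfold mono
    congr 1
    · refine prod_congr rfl fun i _ => ?_
      rw [hg y hy, Int.cast_natCast]
    · refine prod_congr rfl fun i _ => ?_
      rw [hg y hy, Int.cast_natCast]
  rw [h1, h4 (om p ^ 1) _ h2, h4 (om p ^ 2) _ h3]
  have h5 := main k C hW p (om p ^ 1) (by rw [pow_one]; exact ho) (by rw [pow_one]; exact ho1) b hb
  have h6 := main k C hW p (om p ^ 2) hc2 hc3 b hb
  refine (norm_add_le _ _).trans ?_
  linarith

end Pool.Agent.Work.AV
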