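import Pool.Agent.Work.AV081200.FN
import Pool.Agent.Work.AV081200.MAIN
import Pool.Agent.Work.AV081200.MI
import Pool.Agent.Work.AV081200.DIL
import Pool.Agent.Work.AV081200.L2H
import Pool.Agent.Work.AV081200.L2G
import Pool.Agent.Work.AV081200.SMOOTH
import Pool.Agent.Work.AV081200.ROUGH
import Pool.Agent.Work.AV081200.REP
import Pool.Agent.Work.AV081200.SP
import Pool.Agent.Work.AV081200.WL
import Pool.Agent.Work.AV081200.DG
import Pool.Agent.Work.AV081200.PB
import Pool.Agent.Work.AV081200.PL
import Pool.Agent.Work.AV081200.NEAR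
import Pool.Agent.Work.AV081200.NG
import Pool.Agent.Work.AV081200.COUNT
import Pool.Agent.Work.AV081200.IND
import Pool.Agent.Work.AV081200.CLS

/-!
# Assembly of the blocks
-/

set_option autoImplicit false

namespace Pool.Agent.Work.AV

/-- Burgess's method on average over a factor of the conductor. -/
theorem final : Stmt_FN :=
  stmt_FN
    (stmt_MAIN (stmt_MI stmt_REP) stmt_DIL
      (stmt_L2H (stmt_SP stmt_WL stmt_DG) stmt_PB)
      (stmt_L2G (stmt_SP stmt_WL stmt_DG) stmt_PL)
      (stmt_SMOOTH (stmt_NEAR stmt_NGr) stmt_COUNT)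
      (stmt_ROUGH stmt_WL stmt_DG))
    stmt_IND stmt_CLS

end Pool.Agent.Work.AV
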