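import Pool.Agent.Work.AV081200.NGdef
import Pool.Agent.Work.AV081200.MI
import Pool.Agent.Work.AV081200.WL
import Pool.Agent.Work.SC081200.Fac

/-!
# Block NEAR (helper23): tuples with a large non-trivial part have small sums
-/

set_option autoImplicit false

namespace Pool.Agent.Work.AV

open Finset Pool.Agent.Work.LV Pool.Agent.Work.LV.M Pool.Agent.Work.SC

namespace NEARaux

/-! ## the product character -/

/-- product of the cubic characters modulo the primes of `S` -/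
noncomputable def oS (S : Finset ℕ) : DirichletCharacter ℂ (∏ p ∈ S, p) :=
  ∏ p ∈ S.attach,
    DirichletCharacter.changeLevel (Finset.dvd_prod_of_mem (fun p => p) p.2) (om p.1)

lemma prod_apply_coe {ι : Type*} {n : ℕ} (s : Finset ι) (f : ι → DirichletCharacter ℂ n)
    (x : ZMod n) (hx : IsUnit x) : (∏ i ∈ s, f i) x = ∏ i ∈ s, f i x := by
  classical
  induction s using Finset.induction_on with
  | empty => rw [prod_empty, prod_empty, MulChar.one_apply hx]
  | insert i s hi ih => rw [prod_insert hi, prod_insert hi, MulChar.mul_apply, ih]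

lemma oS_apply (S : Finset ℕ) (a : ℤ) :
    oS S (a : ZMod (∏ p ∈ S, p)) = ∏ p ∈ S, om p (a : ZMod p) := by
  classical
  by_cases hu : IsUnit (a : ZMod (∏ p ∈ S, p))
  · unfold oS
    rw [prod_apply_coe _ _ _ hu, ← prod_attach S (fun p => om p (a : ZMod p))]
    refine prod_congr rfl fun p _ => ?_
    obtain ⟨u, hu⟩ := hu
    rw [← hu, DirichletCharacter.changeLevel_eq_cast_of_dvd, hu,
      ZMod.cast_intCast (dvd_prod_of_mem (fun p => p) p.2)]
  · rw [MulChar.map_nonunit _ hu]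
    symm
    by_contra hcon
    apply hu
    rw [ZMod.coe_int_isUnit_iff_isCoprime]
    rw [← ne_eq, prod_ne_zero_iff] at hcon
    push_cast
    apply IsCoprime.prod_left
    intro p hp
    have h1 : IsUnit (a : ZMod p) := by
      by_contra h
      exact hcon p hp (MulChar.map_nonunit _ h)
    rwa [ZMod.coe_int_isUnit_iff_isCoprime] at h1

lemma oS_pow (S : Finset ℕ) (hS : ∀ p ∈ S, om p ^ 3 = 1) : oS S ^ 3 = 1 := by
  unfold oS
  rw [← prod_pow]
  refine prod_eq_one fun p _ => ?_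
  rw [← map_pow, hS p.1 p.2, map_one]

lemma oS_loc (S : Finset ℕ) (hS : ∀ p ∈ S, p.Prime) (h1 : ∀ p ∈ S, om p ≠ 1) :
    LocPrim (oS S) := by
  classical
  intro p hp hpd
  have hpS : p ∈ S := by
    obtain ⟨q, hq, hpq⟩ := (Prime.dvd_finsetProd_iff hp.prime _).1 hpd
    rwa [(Nat.prime_dvd_prime_iff_eq hp (hS q hq)).1 hpq]
  obtain ⟨m, hm⟩ : ∃ m, m = ∏ q ∈ S.erase p, q := ⟨_, rfl⟩
  have hpm : p * m = ∏ q ∈ S, q := by rw [hm]; exact mul_prod_erase S (fun q => q) hpS
  have hdiv : (∏ q ∈ S, q) / p = m := by rw [← hpm, Nat.mul_div_cancel_left _ hp.pos]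
  have hcop : p.Coprime m := by
    rw [hm]
    apply Nat.Coprime.prod_right
    intro q hq
    rw [mem_erase] at hq
    exact (Nat.coprime_primes hp (hS q hq.2)).2 (Ne.symm hq.1)
  obtain ⟨v, hv⟩ := MulChar.ne_one_iff.1 (h1 p hpS)
  have hne : NeZero p := ⟨hp.ne_zero⟩
  obtain ⟨k, hk1, hk2⟩ := Nat.chineseRemainder hcop (v : ZMod p).val 1
  have hkp : ((k : ℕ) : ZMod p) = (v : ZMod p) := by
    rw [(ZMod.natCast_eq_natCast_iff k _ p).2 hk1, ZMod.natCast_zmod_val]
  have hkm : ((k : ℕ) : ZMod m) = 1 := by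
    rw [(ZMod.natCast_eq_natCast_iff k 1 m).2 hk2, Nat.cast_one]
  have hkc : k.Coprime (∏ q ∈ S, q) := by
    rw [← hpm]
    apply Nat.Coprime.mul_right
    · rw [← ZMod.isUnit_iff_coprime, hkp]
      exact v.isUnit
    · rw [← ZMod.isUnit_iff_coprime, hkm]
      exact isUnit_one
  refine ⟨ZMod.unitOfCoprime k hkc, ?_, ?_⟩
  · rw [ZMod.coe_unitOfCoprime, map_natCast]
    rw [hdiv]
    exact hkm
  · rw [ZMod.coe_unitOfCoprime]
    have e := oS_apply S (k : ℤ)
    rw [Int.cast_natCast] at e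
    rw [e, ← mul_prod_erase S _ hpS, prod_eq_one, mul_one, Int.cast_natCast, hkp]
    · exact hv
    · intro q hq
      have hqm : q ∣ m := by
        rw [hm]
        exact dvd_prod_of_mem (fun q => q) hq
      have h2 : ((k : ℕ) : ZMod q) = 1 := by
        have h3 := congrArg (ZMod.castHom hqm (ZMod q)) hkm
        rwa [map_natCast, map_one] at h3
      rw [Int.cast_natCast, h2, map_one]

/-! ## local factors -/

/-- the local factor of a tuple -/
noncomputable def ww (j : ℕ) (D : Ix j → ℕ →₀ ℕ) (p : ℕ) (a : ℤ) : ℂ :=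
  (∏ i : Fin j, vl p (D (Sum.inl i) p) a) *
    ∏ i : Fin j, (starRingEnd ℂ) (vl p (D (Sum.inr i) p) a)

lemma V_eq (d : ℕ →₀ ℕ) (U : Finset ℕ) (hU : d.support ⊆ U) (a : ℤ) :
    V d a = ∏ p ∈ U, vl p (d p) a := by
  unfold V
  refine prod_subset hU fun p _ hp => ?_
  rw [Finsupp.notMem_support_iff.1 hp]
  simp [vl]

lemma W_eq (j : ℕ) (D : Ix j → ℕ →₀ ℕ) (U : Finset ℕ) (hU : ∀ i, (D i).support ⊆ U) (a : ℤ) :
    W j D a = ∏ p ∈ U, ww j D p a := by
  unfold W ww
  have e1 : ∏ i : Fin j, V (D (Sum.inl i)) a =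
      ∏ p ∈ U, ∏ i : Fin j, vl p (D (Sum.inl i) p) a := by
    rw [prod_comm]
    exact prod_congr rfl fun i _ => V_eq _ U (hU _) a
  have e2 : ∏ i : Fin j, (starRingEnd ℂ) (V (D (Sum.inr i)) a) =
      ∏ p ∈ U, ∏ i : Fin j, (starRingEnd ℂ) (vl p (D (Sum.inr i) p) a) := by
    rw [prod_comm]
    refine prod_congr rfl fun i _ => ?_
    rw [V_eq _ U (hU _) a, map_prod]
  rw [e1, e2, prod_mul_distrib]

lemma vl_per (p k : ℕ) (a : ℤ) : vl p k (a + (p : ℤ)) = vl p k a := by
  unfold vl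
  have h : (((a + (p : ℤ)) : ℤ) : ZMod p) = (a : ZMod p) := by
    push_cast
    rw [ZMod.natCast_self, add_zero]
  rw [h]

lemma ww_per (j : ℕ) (D : Ix j → ℕ →₀ ℕ) (p : ℕ) (a : ℤ) :
    ww j D p (a + (p : ℤ)) = ww j D p a := by
  unfold ww
  simp only [vl_per]

lemma ww_norm (j : ℕ) (D : Ix j → ℕ →₀ ℕ) (p : ℕ) (a : ℤ) : ‖ww j D p a‖ ≤ 1 := by
  unfold ww
  rw [norm_mul, norm_prod, norm_prod]
  have h1 : ∏ i : Fin j, ‖vl p (D (Sum.inl i) p) a‖ ≤ 1 :=
    prod_le_one (fun _ _ => norm_nonneg _) fun i _ => norm_vl_le _ _ _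
  have h2 : ∏ i : Fin j, ‖(starRingEnd ℂ) (vl p (D (Sum.inr i) p) a)‖ ≤ 1 :=
    prod_le_one (fun _ _ => norm_nonneg _) fun i _ => by
      rw [RCLike.norm_conj]
      exact norm_vl_le _ _ _
  calc _ ≤ (1 : ℝ) * 1 := mul_le_mul h1 h2 (prod_nonneg fun _ _ => norm_nonneg _) zero_le_one
    _ = 1 := one_mul 1

/-- exponents of the local factor -/
def cc (j : ℕ) (D : Ix j → ℕ →₀ ℕ) (p : ℕ) : Ix j → ℕ :=
  Sum.elim (fun i => if D (Sum.inl i) p = 0 then 0 else (D (Sum.inl i) p - 1) / p + 1)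
    fun i => if D (Sum.inr i) p = 0 then 0 else 2 * ((D (Sum.inr i) p - 1) / p + 1)

lemma cc_lt (j : ℕ) (D : Ix j → ℕ →₀ ℕ) (p : ℕ) (hp : 0 < p) (h : ∀ i, D i p ≤ 2 * p)
    (i : Ix j) : cc j D p i < 5 := by
  have key : ∀ k, k ≤ 2 * p → k ≠ 0 → (k - 1) / p ≤ 1 := by
    intro k hk hk0
    have h1 : (k - 1) / p < 2 := by
      rw [Nat.div_lt_iff_lt_mul hp]
      omega
    omega
  rcases i with i | i
  · simp only [cc, Sum.elim_inl]
    split_ifs with h0
    · norm_num
    · have h1 := key _ (h _) h0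
      omega
  · simp only [cc, Sum.elim_inr]
    split_ifs with h0
    · norm_num
    · have h1 := key _ (h _) h0
      omega

lemma ww_eq (j : ℕ) (D : Ix j → ℕ →₀ ℕ) (p : ℕ) (h3 : om p ^ 3 = 1) (a : ℤ) :
    ww j D p a =
      ∏ i : Ix j, om p ((((D i p - 1) % p : ℕ) : ZMod p) + (a : ZMod p)) ^ cc j D p i := by
  rw [Fintype.prod_sum_type]
  unfold ww
  congr 1
  · refine prod_congr rfl fun i _ => ?_
    simp only [cc, Sum.elim_inl, vl]
    split_ifs with h0
    · rw [pow_zero]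
    · rfl
  · refine prod_congr rfl fun i _ => ?_
    simp only [cc, Sum.elim_inr, vl]
    split_ifs with h0
    · rw [pow_zero, map_one]
    · rw [map_pow, WLaux.conj_val _ h3, ← pow_mul]

lemma mu_eq (j : ℕ) (D : Ix j → ℕ →₀ ℕ) (p : ℕ) (t : ZMod p) :
    mu j p D t = ∑ i : Ix j, if (((D i p - 1) % p : ℕ) : ZMod p) = t then
      ((cc j D p i : ℕ) : ZMod 3) else 0 := by
  rw [Fintype.sum_sum_type]
  unfold mu
  rw [sub_eq_add_neg, ← sum_neg_distrib]
  congr 1
  · refine sum_congr rfl fun i _ => ?_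
    simp only [cc, Sum.elim_inl, mk, ex]
    by_cases h0 : D (Sum.inl i) p = 0
    · simp [h0]
    · simp [h0]
  · refine sum_congr rfl fun i _ => ?_
    simp only [cc, Sum.elim_inr, mk, ex]
    have h2 : (2 : ZMod 3) = -1 := by decide
    by_cases h0 : D (Sum.inr i) p = 0
    · simp [h0]
    · by_cases ht : (((D (Sum.inr i) p - 1) % p : ℕ) : ZMod p) = t
      · rw [if_pos ⟨h0, ht⟩, if_pos ht, if_neg h0]
        push_cast
        rw [h2]
        ring
      · rw [if_neg (fun h => ht h.2), if_neg ht, neg_zero]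

/-! ## choosing the modulus -/

lemma greedy (S : Finset ℕ) (x : ℝ) (hx : 1 < x) (h : x ≤ ∏ p ∈ S, (p : ℝ)) :
    ∃ S' ⊆ S, x ≤ ∏ p ∈ S', (p : ℝ) ∧ ∃ q ∈ S', ∏ p ∈ S', (p : ℝ) ≤ x * q := by
  classical
  induction S using Finset.induction_on with
  | empty =>
    rw [prod_empty] at h
    linarith
  | insert a S ha ih =>
    by_cases hS : x ≤ ∏ p ∈ S, (p : ℝ)
    · obtain ⟨S', h1, h2, h3⟩ := ih hS
      exact ⟨S', h1.trans (subset_insert _ _), h2, h3⟩
    · push Not at hS
      refine ⟨insert a S, Subset.rfl, h, a, mem_insert_self _ _, ?_⟩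
      rw [prod_insert ha, mul_comm]
      exact mul_le_mul_of_nonneg_right hS.le (Nat.cast_nonneg _)

lemma pig {κ : Type*} [DecidableEq κ] (T : Finset ℕ) (K : Finset κ) (f : ℕ → κ)
    (hf : ∀ p ∈ T, f p ∈ K) (hT : ∀ p ∈ T, 1 ≤ p) (hK : K.Nonempty) (x : ℝ)
    (h : x ^ K.card ≤ ∏ p ∈ T, (p : ℝ)) :
    ∃ c ∈ K, x ≤ ∏ p ∈ T.filter (fun p => f p = c), (p : ℝ) := by
  by_contra hcon
  push Not at hcon
  rw [← prod_fiberwise_of_maps_to hf] at h
  have h1 : ∏ c ∈ K, ∏ p ∈ T.filter (fun p => f p = c), (p : ℝ) < ∏ _c ∈ K, x := by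
    refine prod_lt_prod_of_nonempty (fun c _ => ?_) (fun c hc => hcon c hc) hK
    refine prod_pos fun p hp => ?_
    exact_mod_cast hT p (mem_filter.1 hp).1
  rw [prod_const] at h1
  linarith

/-! ## packing -/

lemma per_mul {f : ℤ → ℂ} {n : ℤ} (h : ∀ x, f (x + n) = f x) (m : ℕ) (x : ℤ) :
    f (x + (m : ℤ) * n) = f x := by
  induction m with
  | zero => simp
  | succ m ih =>
    have e : x + ((m + 1 : ℕ) : ℤ) * n = (x + (m : ℤ) * n) + n := by
      push_cast
      ring
    rw [e, h, ih]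

lemma packP (z g : ℕ) (w : ℕ → ℤ → ℂ) (hw : ∀ p a, w p (a + (p : ℤ)) = w p a)
    (hw1 : ∀ p a, ‖w p a‖ ≤ 1) :
    ∀ l : List ℕ, (∀ a ∈ l, 1 ≤ a ∧ a ≤ z ∧ a.Coprime g) →
    ∃ l' : List ℕ, l'.prod = l.prod ∧ (∀ a ∈ l', 1 ≤ a ∧ a ≤ z ∧ a.Coprime g) ∧
      l'.IsChain (fun a b => z < a * b) ∧
      Per (l'.map fun f => (f, 1)) (fun a => (l.map fun p => w p a).prod) := by
  intro l
  induction l with
  | nil => intro _; exact ⟨[], rfl, by simp, List.isChain_nil, fun a => by simp⟩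
  | cons a l ih =>
    intro hl
    obtain ⟨l', e1, e2, e4, e5⟩ := ih (fun b hb => hl b (by simp [hb]))
    have ha := hl a (by simp)
    rcases l' with _ | ⟨b, l''⟩
    · refine ⟨[a], by rw [List.prod_cons, List.prod_cons, e1], ?_, List.isChain_singleton _, ?_⟩
      · intro c hc
        rw [List.mem_singleton] at hc
        subst hc
        exact ha
      · exact ⟨w a, fun b => (l.map fun p => w p b).prod, fun b => by simp, hw a, hw1 a, e5⟩
    · have hb := e2 b (by simp)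
      by_cases hab : a * b ≤ z
      · rw [List.map_cons] at e5
        obtain ⟨A, P', f1, f2, f3, f4⟩ := e5
        refine ⟨(a * b) :: l'', ?_, ?_, ?_, ?_⟩
        · rw [List.prod_cons, List.prod_cons, ← e1, List.prod_cons, mul_assoc]
        · intro c hc
          rw [List.mem_cons] at hc
          rcases hc with rfl | hc
          · exact ⟨Nat.mul_pos ha.1 hb.1, hab, Nat.Coprime.mul_left ha.2.2 hb.2.2⟩
          · exact e2 c (by simp [hc])
        · rcases l'' with _ | ⟨c, l3⟩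
          · exact List.isChain_singleton _
          · rw [List.isChain_cons_cons] at e4 ⊢
            refine ⟨?_, e4.2⟩
            calc z < b * c := e4.1
              _ ≤ a * b * c := by
                  rw [mul_assoc]
                  exact Nat.le_mul_of_pos_left _ ha.1
        · rw [List.map_cons]
          refine ⟨fun x => w a x * A x, P', ?_, ?_, ?_, f4⟩
          · intro x
            have h1 : (l.map fun p => w p x).prod = A x * P' x := f1 x
            show ((a :: l).map fun p => w p x).prod = w a x * A x * P' x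
            rw [List.map_cons, List.prod_cons, h1, mul_assoc]
          · intro x
            show w a (x + ((a * b : ℕ) : ℤ)) * A (x + ((a * b : ℕ) : ℤ)) = w a x * A x
            have h1 : w a (x + ((a * b : ℕ) : ℤ)) = w a x := by
              have e : ((a * b : ℕ) : ℤ) = (b : ℤ) * (a : ℤ) := by
                push_cast
                ring
              rw [e]
              exact per_mul (hw a) b x
            have h2 : A (x + ((a * b : ℕ) : ℤ)) = A x := by
              have e : ((a * b : ℕ) : ℤ) = (a : ℤ) * (b : ℤ) := by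
                push_cast
                ring
              rw [e]
              exact per_mul f2 a x
            rw [h1, h2]
          · intro x
            rw [norm_mul]
            calc ‖w a x‖ * ‖A x‖ ≤ 1 * 1 :=
                  mul_le_mul (hw1 a x) (f3 x) (norm_nonneg _) zero_le_one
              _ = 1 := one_mul 1
      · push Not at hab
        refine ⟨a :: b :: l'', ?_, ?_, ?_, ?_⟩
        · rw [List.prod_cons, e1, List.prod_cons]
        · intro c hc
          rw [List.mem_cons] at hc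
          rcases hc with rfl | hc
          · exact ha
          · exact e2 c hc
        · rw [List.isChain_cons_cons]
          exact ⟨hab, e4⟩
        · rw [List.map_cons]
          exact ⟨w a, fun b => (l.map fun p => w p b).prod, fun b => by simp, hw a, hw1 a, e5⟩

end NEARaux

open NEARaux MIaux in
theorem stmt_NEAR (hNG : Stmt_NGr) : Stmt_NEAR := by
  classical
  intro j ε κ hε hε1 hκ
  -- patterns
  obtain ⟨K, hKdef⟩ : ∃ K : Finset (Ix j → ℕ), K = Fintype.piFinset fun _ => range 5 := ⟨_, rfl⟩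
  have hKne : K.Nonempty := by
    rw [hKdef]
    exact Fintype.piFinset_nonempty.2 fun _ => ⟨0, by simp⟩
  have hKc : (0 : ℝ) < K.card := by exact_mod_cast card_pos.2 hKne
  obtain ⟨κ', hκ'⟩ : ∃ κ' : ℝ, κ' = min (κ / (2 * K.card)) (ε ^ 2 / 2) := ⟨_, rfl⟩
  have hκ'0 : 0 < κ' := by
    rw [hκ']
    exact lt_min (by positivity) (by positivity)
  have hκ'1 : κ' ≤ κ / (2 * K.card) := by rw [hκ']; exact min_le_left _ _
  have hκ'2 : κ' ≤ ε ^ 2 / 2 := by rw [hκ']; exact min_le_right _ _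
  -- number of blocks
  obtain ⟨m, hm⟩ : ∃ m : ℕ, 8 * (j : ℝ) / ε < m := exists_nat_gt _
  obtain ⟨δ, hδ, Q1, hQ1⟩ := hNG (j + j) (2 * m) (ε / 2) κ' (by positivity) hκ'0
  refine ⟨δ, hδ, max (max Q1 2) (((j + j).factorial : ℝ) ^ (2 / κ)), ?_⟩
  intro Q hQ B hB1 hB2 D hD hDn
  have hQa : Q1 ≤ Q := ((le_max_left _ _).trans (le_max_left _ _)).trans hQ
  have hQ2 : 2 ≤ Q := ((le_max_right _ _).trans (le_max_left _ _)).trans hQ
  have hQf : ((j + j).factorial : ℝ) ^ (2 / κ) ≤ Q := (le_max_right _ _).trans hQ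
  have hQ0 : 0 < Q := by linarith
  have hQ1' : 1 ≤ Q := by linarith
  have hB0 : (1 : ℝ) ≤ B := (Real.one_le_rpow hQ1' hε.le).trans hB1
  have hBpos : (0 : ℝ) < B := by linarith
  -- the local moduli
  obtain ⟨U, hU⟩ : ∃ U : Finset ℕ, U = (univ : Finset (Ix j)).biUnion fun i => (D i).support :=
    ⟨_, rfl⟩
  have hUi : ∀ p ∈ U, ∃ i, p ∈ (D i).support := by
    intro p hp
    rw [hU, mem_biUnion] at hp
    obtain ⟨i, -, hi⟩ := hp
    exact ⟨i, hi⟩
  have hUsub : ∀ i, (D i).support ⊆ U := by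
    intro i p hp
    rw [hU, mem_biUnion]
    exact ⟨i, mem_univ _, hp⟩
  have hULM : ∀ p ∈ U, LM p := by
    intro p hp
    obtain ⟨i, hi⟩ := hUi p hp
    exact ((hD i).1 p hi).1
  have hUle : ∀ p ∈ U, (p : ℝ) ≤ (B : ℝ) ^ (1 - ε) := by
    intro p hp
    obtain ⟨i, hi⟩ := hUi p hp
    exact (hD i).2.2 p hi
  -- the non-trivial primes larger than the number of factors
  obtain ⟨T, hT⟩ : ∃ T : Finset ℕ, T = (U.filter fun p => NT j p D).filter fun p => j + j < p :=
    ⟨_, rfl⟩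
  have hDnT : Dn j D ≤ (∏ p ∈ T, p) * (j + j).factorial := by
    have e0 : Dn j D = ∏ p ∈ U.filter fun p => NT j p D, p := by
      rw [hU]
      rfl
    rw [e0, ← prod_filter_mul_prod_filter_not _ (fun p => j + j < p), ← hT]
    refine Nat.mul_le_mul_left _ ?_
    rw [← prod_Ico_id_eq_factorial]
    refine prod_le_prod_of_subset_of_one_le' ?_ ?_
    · intro p hp
      rw [mem_filter, mem_filter] at hp
      rw [mem_Ico]
      have h1 := hp.1.2.1.pos
      omega
    · intro p hp _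
      exact (mem_Ico.1 hp).1
  have hTx : Q ^ (κ / 2) ≤ ∏ p ∈ T, (p : ℝ) := by
    have h1 : Q ^ κ ≤ (∏ p ∈ T, (p : ℝ)) * (j + j).factorial := by
      refine hDn.trans ?_
      have h2 : ((Dn j D : ℕ) : ℝ) ≤ (((∏ p ∈ T, p) * (j + j).factorial : ℕ) : ℝ) :=
        Nat.cast_le.2 hDnT
      rwa [Nat.cast_mul, Nat.cast_prod] at h2
    have h3 : ((j + j).factorial : ℝ) ≤ Q ^ (κ / 2) := by
      have h4 : (0 : ℝ) ≤ (j + j).factorial := Nat.cast_nonneg _
      calc ((j + j).factorial : ℝ) = (((j + j).factorial : ℝ) ^ (2 / κ)) ^ (κ / 2) := by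
            rw [← Real.rpow_mul h4]
            have e : 2 / κ * (κ / 2) = 1 := by
              field_simp
            rw [e, Real.rpow_one]
        _ ≤ Q ^ (κ / 2) := Real.rpow_le_rpow (by positivity) hQf (by positivity)
    have h5 : Q ^ (κ / 2) * Q ^ (κ / 2) ≤ (∏ p ∈ T, (p : ℝ)) * Q ^ (κ / 2) := by
      rw [← Real.rpow_add hQ0, add_halves]
      exact h1.trans (mul_le_mul_of_nonneg_left h3 (prod_nonneg fun _ _ => Nat.cast_nonneg _))
    exact le_of_mul_le_mul_right h5 (by positivity)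
  have hTU : ∀ p ∈ T, p ∈ U ∧ NT j p D ∧ j + j < p := by
    intro p hp
    rw [hT, mem_filter, mem_filter] at hp
    exact ⟨hp.1.1, hp.1.2, hp.2⟩
  -- one pattern
  obtain ⟨c, -, hc⟩ := pig T K (fun p => cc j D p)
    (by
      intro p hp
      rw [hKdef, Fintype.mem_piFinset]
      intro i
      rw [mem_range]
      have hpp := (hTU p hp).2.1.1.pos
      refine cc_lt j D p hpp (fun i => ?_) i
      by_cases h0 : p ∈ (D i).support
      · exact ((hD i).1 p h0).2
      · rw [Finsupp.notMem_support_iff.1 h0]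
        exact Nat.zero_le _)
    (fun p hp => (hTU p hp).2.1.1.pos) hKne (Q ^ (κ / (2 * K.card)))
    (by
      refine le_trans (le_of_eq ?_) hTx
      rw [← Real.rpow_natCast, ← Real.rpow_mul hQ0.le]
      congr 1
      field_simp)
  -- the modulus
  have hx1 : 1 < Q ^ κ' := Real.one_lt_rpow (by linarith) hκ'0
  obtain ⟨S, hST, hS1, q0, hq0, hS2⟩ := greedy (T.filter fun p => cc j D p = c) (Q ^ κ') hx1
    ((Real.rpow_le_rpow_of_exponent_le hQ1' hκ'1).trans hc)
  have hSf : ∀ p ∈ S, p ∈ U ∧ NT j p D ∧ j + j < p ∧ cc j D p = c := by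
    intro p hp
    have h1 := mem_filter.1 (hST hp)
    have h2 := hTU p h1.1
    exact ⟨h2.1, h2.2.1, h2.2.2, h1.2⟩
  have hSp : ∀ p ∈ S, p.Prime := fun p hp => (hSf p hp).2.1.1
  have hS3 : ∀ p ∈ S, p % 3 = 1 := by
    intro p hp
    rcases hULM p (hSf p hp).1 with h | h
    · exact h.2
    · have h1 := hSp p hp
      rw [h] at h1
      exact absurd h1 (by norm_num)
  have hSU : S ⊆ U := fun p hp => (hSf p hp).1
  have hGne : NeZero (∏ p ∈ S, p) := ⟨prod_ne_zero_iff.2 fun p hp => (hSp p hp).ne_zero⟩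
  have hGcast : (((∏ p ∈ S, p : ℕ)) : ℝ) = ∏ p ∈ S, (p : ℝ) := by rw [Nat.cast_prod]
  have hGle : (((∏ p ∈ S, p : ℕ)) : ℝ) ≤ (B : ℝ) ^ (1 - ε / 2) := by
    rw [hGcast]
    refine hS2.trans ?_
    have h1 : Q ^ κ' ≤ (B : ℝ) ^ (ε / 2) := by
      calc Q ^ κ' ≤ Q ^ (ε ^ 2 / 2) := Real.rpow_le_rpow_of_exponent_le hQ1' hκ'2
        _ = (Q ^ ε) ^ (ε / 2) := by
            rw [← Real.rpow_mul hQ0.le]
            congr 1
            ring
        _ ≤ (B : ℝ) ^ (ε / 2) := Real.rpow_le_rpow (by positivity) hB1 (by positivity)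
    calc Q ^ κ' * (q0 : ℝ) ≤ (B : ℝ) ^ (ε / 2) * (B : ℝ) ^ (1 - ε) :=
          mul_le_mul h1 (hUle q0 (hSU hq0)) (Nat.cast_nonneg _) (by positivity)
      _ = (B : ℝ) ^ (1 - ε / 2) := by
          rw [← Real.rpow_add hBpos]
          congr 1
          ring
  -- positions
  have hpos : ∀ i : Ix j, ∃ y : ℤ, ∀ p ∈ S, (y : ZMod p) = (((D i p - 1) % p : ℕ) : ZMod p) := by
    intro i
    obtain ⟨y, hy⟩ := Nat.chineseRemainderOfFinset (fun p => (D i p - 1) % p) (fun p => p) S
      (fun p hp => (hSp p hp).ne_zero)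
      (by
        intro p hp p' hp' hne
        exact (Nat.coprime_primes (hSp p hp) (hSp p' hp')).2 hne)
    refine ⟨(y : ℤ), fun p hp => ?_⟩
    rw [Int.cast_natCast]
    exact (ZMod.natCast_eq_natCast_iff _ _ _).2 (hy p hp)
  choose Y hY using hpos
  -- the rest
  obtain ⟨R, hR⟩ : ∃ R : Finset ℕ, R = U \ S := ⟨_, rfl⟩
  have hRU : ∀ p ∈ R, p ∈ U ∧ p ∉ S := fun p hp => by
    rw [hR, mem_sdiff] at hp
    exact hp
  obtain ⟨z, hz⟩ : ∃ z : ℕ, z = ⌊(B : ℝ) ^ (1 - ε / 2)⌋₊ := ⟨_, rfl⟩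
  obtain ⟨l', e1, e2, e3, e4⟩ := packP z (∏ p ∈ S, p) (ww j D) (ww_per j D) (ww_norm j D)
    R.toList (by
      intro a ha
      rw [mem_toList] at ha
      have h1 := hULM a (hRU a ha).1
      refine ⟨h1.pos, ?_, ?_⟩
      · rw [hz]
        apply Nat.le_floor
        refine (hUle a (hRU a ha).1).trans ?_
        exact Real.rpow_le_rpow_of_exponent_le hB0 (by linarith)
      · apply Nat.Coprime.prod_right
        intro p hp
        refine LM_coprime h1 (hULM p (hSU hp)) ?_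
        rintro rfl
        exact (hRU a ha).2 hp)
  -- the number of blocks
  have hlen : l'.length ≤ 2 * m := by
    by_contra hcon
    push Not at hcon
    have h1 := chain_len z m l' (fun a ha => (e2 a ha).1) e3 hcon.le
    rw [e1] at h1
    have h2 : R.toList.prod = ∏ p ∈ R, p := by
      rw [← prod_map_toList, List.map_id']
    rw [h2] at h1
    have hNpos : 0 < ∏ i : Ix j, Nn (D i) := prod_pos fun i _ => (hD i).1.pos
    have h3 : ∏ p ∈ R, p ≤ ∏ i : Ix j, Nn (D i) := by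
      refine Nat.le_of_dvd hNpos (prod_dvd R (fun p hp => hULM p (hRU p hp).1) _ ?_)
      intro p hp
      obtain ⟨i, hi⟩ := hUi p (hRU p hp).1
      exact (dvd_Nn hi).trans (dvd_prod_of_mem (fun i => Nn (D i)) (mem_univ i))
    have h4 : (((z + 1) ^ m : ℕ) : ℝ) ≤ Q ^ (4 * (j : ℝ)) := by
      calc (((z + 1) ^ m : ℕ) : ℝ) ≤ ((∏ i : Ix j, Nn (D i) : ℕ) : ℝ) :=
            Nat.cast_le.2 (h1.trans h3)
        _ = ∏ i : Ix j, (Nn (D i) : ℝ) := by rw [Nat.cast_prod]
        _ ≤ ∏ _i : Ix j, (Q ^ (2 : ℝ)) := by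
            refine prod_le_prod (fun _ _ => Nat.cast_nonneg _) fun i _ => ?_
            refine (hD i).2.1.trans ?_
            rw [Real.rpow_two]
            nlinarith
        _ = Q ^ (4 * (j : ℝ)) := by
            rw [prod_const, card_univ, Fintype.card_sum, Fintype.card_fin, ← Real.rpow_natCast,
              ← Real.rpow_mul hQ0.le]
            congr 1
            push_cast
            ring
    have h5 : Q ^ (ε / 2) ≤ (z : ℝ) + 1 := by
      calc Q ^ (ε / 2) ≤ Q ^ (ε * (1 - ε / 2)) := by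
            refine Real.rpow_le_rpow_of_exponent_le hQ1' ?_
            nlinarith
        _ = (Q ^ ε) ^ (1 - ε / 2) := by rw [Real.rpow_mul hQ0.le]
        _ ≤ (B : ℝ) ^ (1 - ε / 2) := Real.rpow_le_rpow (by positivity) hB1 (by linarith)
        _ ≤ (z : ℝ) + 1 := by
            rw [hz]
            exact (Nat.lt_floor_add_one _).le
    have h6 : Q ^ (ε / 2 * m) ≤ Q ^ (4 * (j : ℝ)) := by
      calc Q ^ (ε / 2 * m) = (Q ^ (ε / 2)) ^ m := by
            rw [Real.rpow_mul hQ0.le, Real.rpow_natCast]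
        _ ≤ ((z : ℝ) + 1) ^ m := pow_le_pow_left₀ (by positivity) h5 m
        _ = (((z + 1) ^ m : ℕ) : ℝ) := by push_cast; rfl
        _ ≤ Q ^ (4 * (j : ℝ)) := h4
    have h7 : 4 * (j : ℝ) < ε / 2 * m := by
      rw [div_lt_iff₀ hε] at hm
      linarith
    exact absurd h6 (not_le.2 (Real.rpow_lt_rpow_of_exponent_lt (by linarith) h7))
  -- apply NG
  have hkey := hQ1 Q hQa B
    ((Real.rpow_le_rpow_of_exponent_le hQ1' (by linarith)).trans hB1) hB2
    (∏ p ∈ S, p) (oS S)
    (oS_loc S hSp fun p hp => (WLaux.om_spec p (hSp p hp) (hS3 p hp)).2)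
    (oS_pow S fun p hp => (WLaux.om_spec p (hSp p hp) (hS3 p hp)).1)
    (by rw [hGcast]; exact hS1) hGle
    (by
      intro p hp hpd
      obtain ⟨q, hq, hpq⟩ := (Prime.dvd_finsetProd_iff hp.prime _).1 hpd
      rw [(Nat.prime_dvd_prime_iff_eq hp (hSp q hq)).1 hpq]
      exact ⟨(hSf q hq).2.2.1, hS3 q hq⟩)
    (fun i => Y (finSumFinEquiv.symm i)) (fun i => c (finSumFinEquiv.symm i))
    (by
      intro p hp hpd
      obtain ⟨q, hq, hpq⟩ := (Prime.dvd_finsetProd_iff hp.prime _).1 hpd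
      have hpS : p ∈ S := by rwa [(Nat.prime_dvd_prime_iff_eq hp (hSp q hq)).1 hpq]
      obtain ⟨t, ht⟩ := (hSf p hpS).2.1.2
      refine ⟨t, ?_⟩
      rw [mu_eq] at ht
      intro h0
      apply ht
      rw [← Equiv.sum_comp finSumFinEquiv.symm]
      refine Eq.trans (sum_congr rfl fun i _ => ?_) h0
      rw [hY _ p hpS, (hSf p hpS).2.2.2])
    l' (fun a => (R.toList.map fun p => ww j D p a).prod) hlen
    (by
      intro f hf
      obtain ⟨h1, h2, h3⟩ := e2 f hf
      refine ⟨h1, ?_, h3⟩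
      rw [hz] at h2
      exact (Nat.le_floor_iff (by positivity)).1 h2)
    e4
  refine le_trans (le_of_eq ?_) hkey
  congr 1
  unfold SB
  refine sum_congr rfl fun a _ => ?_
  rw [W_eq j D U hUsub, ← prod_sdiff hSU, ← hR]
  congr 1
  · rw [prod_map_toList]
  · have h1 : ∀ p ∈ S, ww j D p (a : ℤ) =
        ∏ i : Ix j, om p (((Y i + (a : ℤ) : ℤ)) : ZMod p) ^ c i := by
      intro p hp
      rw [ww_eq j D p (WLaux.om_spec p (hSp p hp) (hS3 p hp)).1, (hSf p hp).2.2.2]
      refine prod_congr rfl fun i _ => ?_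
      rw [Int.cast_add, hY i p hp]
    rw [prod_congr rfl h1, prod_comm, ← Equiv.prod_comp finSumFinEquiv.symm]
    refine prod_congr rfl fun i _ => ?_
    rw [prod_pow, ← oS_apply, Int.cast_add]

end Pool.Agent.Work.AV
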