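import Pool.Agent.Work.AV081200.NGdef
import Pool.Agent.Work.SC081200.Core

/-!
# MP_081200_nt: block NG, part 1: complete sums and periodic sums
-/

set_option autoImplicit false

namespace Pool.Agent.Work.AV.NGaux

open Finset Polynomial Pool.Agent.Work.LV Pool.Agent.Work.LV.M Pool.Agent.Work.SC Pool.Agent.Work.AV

/-! ### periodic sums -/

lemma sum_full {G : ℕ} [NeZero G] (F : ZMod G → ℂ) (z : ZMod G) :
    ∑ n ∈ range G, F (z + (n : ZMod G)) = ∑ x, F x := by
  rw [← Equiv.sum_comp (Equiv.addLeft z) F]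
  refine Finset.sum_bij' (fun n _ => (n : ZMod G)) (fun x _ => x.val) ?_ ?_ ?_ ?_ ?_
  · intro n _; exact mem_univ _
  · intro x _; rw [mem_range]; exact ZMod.val_lt x
  · intro n hn; rw [mem_range] at hn; exact ZMod.val_cast_of_lt hn
  · intro x _; exact ZMod.natCast_zmod_val x
  · intro n _; rfl

lemma per_range {G : ℕ} [NeZero G] (F : ZMod G → ℂ) (hF : ∀ x, ‖F x‖ ≤ 1) (N : ℕ) :
    ∀ z : ZMod G, ‖∑ n ∈ range N, F (z + (n : ZMod G))‖ ≤ (N / G : ℝ) * ‖∑ x, F x‖ + G := by
  have hG : 0 < G := Nat.pos_of_ne_zero (NeZero.ne G)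
  have hG' : (0 : ℝ) < G := by exact_mod_cast hG
  induction N using Nat.strong_induction_on with
  | _ N ih =>
    intro z
    rcases Nat.lt_or_ge N G with h | h
    · have h1 : ‖∑ n ∈ range N, F (z + (n : ZMod G))‖ ≤ N := by
        refine (norm_sum_le _ _).trans ((sum_le_card_nsmul _ _ 1 fun n _ => hF _).trans ?_)
        simp
      have h2 : (N : ℝ) ≤ G := by exact_mod_cast h.le
      have h3 : 0 ≤ (N / G : ℝ) * ‖∑ x, F x‖ := by positivity
      linarith
    · obtain ⟨m, rfl⟩ := Nat.exists_eq_add_of_le h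
      rw [Finset.sum_range_add, sum_full]
      have h1 := ih m (by omega) (z + (G : ZMod G))
      have h2 : ∑ n ∈ range m, F (z + ((G + n : ℕ) : ZMod G)) =
          ∑ n ∈ range m, F (z + (G : ZMod G) + (n : ZMod G)) := by
        refine sum_congr rfl fun n _ => ?_
        congr 1
        push_cast
        ring
      rw [h2]
      refine (norm_add_le _ _).trans ?_
      have h3 : (((G + m : ℕ) : ℝ) / G) * ‖∑ x, F x‖ = ‖∑ x, F x‖ + (m / G : ℝ) * ‖∑ x, F x‖ := by
        push_cast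
        field_simp
      rw [h3]
      linarith

lemma per_sum {G : ℕ} [NeZero G] (F : ZMod G → ℂ) (hF : ∀ x, ‖F x‖ ≤ 1) (M : ℤ) (N : ℕ) :
    ‖∑ a ∈ Ioc M (M + N), F (a : ZMod G)‖ ≤ (N / G : ℝ) * ‖∑ x, F x‖ + G := by
  have h1 : ∑ a ∈ Ioc M (M + N), F (a : ZMod G) =
      ∑ n ∈ range N, F ((M : ZMod G) + 1 + (n : ZMod G)) := by
    rw [sum_Ioc_shift (fun a : ℤ => F (a : ZMod G)) M N]
    refine Finset.sum_bij' (fun n _ => n - 1) (fun n _ => n + 1) ?_ ?_ ?_ ?_ ?_
    · intro n hn; rw [mem_Icc] at hn; rw [mem_range]; omega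
    · intro n hn; rw [mem_range] at hn; rw [mem_Icc]; omega
    · intro n hn; rw [mem_Icc] at hn; show n - 1 + 1 = n; omega
    · intro n hn; show n + 1 - 1 = n; omega
    · intro n hn
      rw [mem_Icc] at hn
      obtain ⟨k, rfl⟩ : ∃ k, n = k + 1 := ⟨n - 1, by omega⟩
      show F (((M + ((k + 1 : ℕ) : ℤ) : ℤ)) : ZMod G) = F ((M : ZMod G) + 1 + ((k + 1 - 1 : ℕ) : ZMod G))
      congr 1
      rw [Nat.add_sub_cancel]
      push_cast
      ring
  rw [h1]
  exact per_range F hF N _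

/-! ### the first difference -/

lemma nondeg_first {p : ℕ} [Fact p.Prime] (D : ZMod p → ZMod 3) (s : ZMod p)
    (hs : s ≠ 0) (h0 : ∃ t, D t = 0) (hD : ∃ t, D t ≠ 0) : ∃ t, D (t - s) - D t ≠ 0 := by
  by_contra hcon
  push Not at hcon
  have h1 : ∀ (k : ℕ) (t : ZMod p), D (t - k * s) = D t := by
    intro k
    induction k with
    | zero => intro t; simp
    | succ k ih =>
      intro t
      have := hcon (t - k * s)
      rw [ih] at this
      have h2 := sub_eq_zero.mp this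
      rw [← h2]
      congr 1
      push_cast; ring
  have h2 : ∀ t, D t = D 0 := by
    intro t
    have h3 := h1 ((-t * s⁻¹ : ZMod p)).val 0
    rw [ZMod.natCast_zmod_val, mul_assoc, inv_mul_cancel₀ hs] at h3
    simpa using h3
  obtain ⟨t0, ht0⟩ := h0
  obtain ⟨t, ht⟩ := hD
  exact ht (by rw [h2, ← h2 t0, ht0])

lemma Mu_zero {s p : ℕ} [NeZero p] (hsp : s < p) (c h : Fin s → ℕ) : ∃ t : ZMod p, Mu c h p t = 0 := by
  classical
  have h1 : ¬ Function.Surjective (fun i : Fin s => ((h i : ℕ) : ZMod p)) := by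
    intro hsur
    have := Fintype.card_le_of_surjective _ hsur
    rw [ZMod.card, Fintype.card_fin] at this
    omega
  unfold Function.Surjective at h1
  push Not at h1
  obtain ⟨t, ht⟩ := h1
  refine ⟨t, ?_⟩
  unfold Mu
  exact sum_eq_zero fun i _ => if_neg (ht i)

/-- the shape of the differenced function -/
lemma diff_RR (s L : ℕ) {q : ℕ} [NeZero q] (χ : DirichletCharacter ℂ q) (hχ : χ ^ 3 = 1)
    (c h : Fin s → ℕ) (hc : ∀ i, c i ≤ 3) (l : List (ZMod q)) (hl : l.length ≤ L) :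
    ∃ (I' : Type) (_ : Fintype I') (_ : DecidableEq I') (e' h' : I' → ℕ),
      (∀ x : ZMod q, DZ l (fun x => χ (RR c h x)) x = χ (RR e' h' x)) ∧
      ∑ i, e' i ≤ 3 ^ L * (3 * s) ∧
      ∀ p : ℕ, p.Prime → p ≠ 3 → s < p → (∀ s ∈ l, ¬ p ∣ s.val) →
        (∃ t : ZMod p, Mu c h p t ≠ 0) → ∃ t : ZMod p, Mu e' h' p t ≠ 0 := by
  have hsum : ∑ i, c i ≤ 3 * s := by
    refine (sum_le_card_nsmul _ _ 3 fun i _ => hc i).trans ?_
    rw [card_univ, Fintype.card_fin, smul_eq_mul, mul_comm]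
  rcases l with _ | ⟨s0, l⟩
  · refine ⟨Fin s, inferInstance, inferInstance, c, h, fun x => rfl, ?_, fun p _ _ _ _ h => h⟩
    exact hsum.trans (Nat.le_mul_of_pos_left _ (by positivity))
  · set e1 : Fin s ⊕ Fin s → ℕ := Sum.elim c (fun i => 2 * c i) with he1
    set h1 : Fin s ⊕ Fin s → ℕ := Sum.elim (fun i => h i + s0.val) h with hh1
    obtain ⟨I', f1, f2, e', h', ha, hb, hcc⟩ := DZ_RR χ hχ l (Fin s ⊕ Fin s) inferInstance
      inferInstance e1 h1
    have hsum1 : ∑ i, e1 i = 3 * ∑ i, c i := by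
      rw [Fintype.sum_sum_type]
      simp only [he1, Sum.elim_inl, Sum.elim_inr]
      rw [← mul_sum]
      ring
    refine ⟨I', f1, f2, e', h', ?_, ?_, ?_⟩
    · intro x
      rw [← ha x]
      simp only [DZ]
      congr 1
      funext y
      rw [conj_cubic' χ hχ, ← map_pow, ← map_mul]
      congr 1
      unfold RR
      rw [Fintype.prod_sum_type]
      simp only [he1, hh1, Sum.elim_inl, Sum.elim_inr]
      congr 1
      · refine prod_congr rfl fun i _ => ?_
        push_cast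
        rw [ZMod.natCast_zmod_val]
        ring
      · rw [← prod_pow]
        refine prod_congr rfl fun i _ => ?_
        rw [← pow_mul, mul_comm]
    · rw [hb, hsum1]
      rw [List.length_cons] at hl
      calc 3 ^ l.length * (3 * ∑ i, c i) = 3 ^ (l.length + 1) * ∑ i, c i := by ring
        _ ≤ 3 ^ L * (3 * s) := Nat.mul_le_mul (Nat.pow_le_pow_right (by norm_num) hl) hsum
    · intro p hp hp3 hsp hs hnd
      have : Fact p.Prime := ⟨hp⟩
      apply hcc p hp hp3 (fun s' hs' => hs s' (by simp [hs']))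
      · rw [← Nat.cast_sum, hsum1]
        push_cast
        have : (3 : ZMod 3) = 0 := by decide
        rw [this, zero_mul]
      · have hMu : ∀ t : ZMod p, Mu e1 h1 p t = Mu c h p (t - (s0.val : ZMod p)) - Mu c h p t := by
          intro t
          unfold Mu
          rw [Fintype.sum_sum_type]
          simp only [he1, hh1, Sum.elim_inl, Sum.elim_inr]
          have e1 : ∀ i, (if ((h i + s0.val : ℕ) : ZMod p) = t then (c i : ZMod 3) else 0) =
              if (h i : ZMod p) = t - (s0.val : ZMod p) then (c i : ZMod 3) else 0 := by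
            intro i
            have : ((h i + s0.val : ℕ) : ZMod p) = t ↔ (h i : ZMod p) = t - (s0.val : ZMod p) := by
              push_cast
              exact eq_sub_iff_add_eq.symm
            simp only [this]
          rw [sum_congr rfl (fun i _ => e1 i), sub_eq_add_neg (∑ i, _) (∑ i, _)]
          congr 1
          rw [← sum_neg_distrib]
          refine sum_congr rfl fun i _ => ?_
          split_ifs
          · push_cast
            have h2 : (2 : ZMod 3) = -1 := by decide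
            rw [h2]; ring
          · simp
        have hs0 : (s0.val : ZMod p) ≠ 0 := by
          rw [Ne, ZMod.natCast_eq_zero_iff]
          exact hs s0 (by simp)
        obtain ⟨t, ht⟩ := nondeg_first (Mu c h p) _ hs0 (Mu_zero hsp c h) hnd
        exact ⟨t, by rw [hMu]; exact ht⟩

/-- complete sums of the differenced function -/
theorem complete (s L : ℕ) : ∃ C : ℝ, 1 ≤ C ∧ ∀ (G : ℕ) [NeZero G] (ω : DirichletCharacter ℂ G),
    LocPrim ω → ω ^ 3 = 1 → (∀ p : ℕ, p.Prime → p ∣ G → s < p ∧ p % 3 = 1) →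
    ∀ (c h : Fin s → ℕ), (∀ i, c i ≤ 3) →
      (∀ p : ℕ, p.Prime → p ∣ G → ∃ t : ZMod p, Mu c h p t ≠ 0) →
      ∀ l : List (ZMod G), l.length ≤ L →
        ‖∑ x, DZ l (fun x => ω (RR c h x)) x‖ ≤
          C ^ G.primeFactors.card * Real.sqrt G * gam l := by
  classical
  obtain ⟨C₀, hC₀, hWC⟩ := stmt_W (3 ^ L * (3 * s))
  set C₁ : ℝ := max C₀ 1 with hC₁
  have hC₁1 : 1 ≤ C₁ := le_max_right _ _
  have hWB : WB (3 ^ L * (3 * s)) C₁ := by
    intro p _ χ h3 h1 F hF hα
    exact (hWC p χ h3 h1 F hF hα).trans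
      (mul_le_mul_of_nonneg_right (le_max_left _ _) (Real.sqrt_nonneg _))
  refine ⟨C₁, hC₁1, ?_⟩
  intro G _ ω hloc hcub hp c h hc hnd l hl
  have hG : G ≠ 0 := NeZero.ne G
  obtain ⟨I', f1, f2, e', h', ha, hb, hcc⟩ := diff_RR s L ω hcub c h hc l hl
  obtain ⟨BP, hBP⟩ : ∃ BP : ℕ → Prop, ∀ p, BP p ↔ (¬ p ∣ G ∨ ∃ s ∈ l, p ∣ s.val) :=
    ⟨_, fun p => Iff.rfl⟩
  have h2 := G_bound2 e' h' C₁ hC₁1 (WB.mono hb hWB) BP (by
    intro p hpp hp3 hnb
    rw [hBP] at hnb
    push Not at hnb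
    exact hcc p hpp hp3 (hp p hpp hnb.1).1 hnb.2 (hnd p hpp hnb.1)) G inferInstance ω hloc hcub
  have h3 : ∑ x, DZ l (fun x => ω (RR c h x)) x = ∑ x : ZMod G, ω (RR e' h' x) :=
    sum_congr rfl fun x _ => ha x
  rw [h3]
  refine h2.trans ?_
  have h4 : ∏ p ∈ G.primeFactors, loc2 BP C₁ p =
      C₁ ^ G.primeFactors.card * (∏ p ∈ G.primeFactors, Real.sqrt p) * gam l := by
    unfold gam
    rw [← prod_const, ← prod_mul_distrib, ← prod_mul_distrib]
    refine prod_congr rfl fun p hpG => ?_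
    have hpp := Nat.prime_of_mem_primeFactors hpG
    have hpd := Nat.dvd_of_mem_primeFactors hpG
    have hp3 : p ≠ 3 := by
      intro h3
      have := (hp p hpp hpd).2
      rw [h3] at this
      omega
    unfold loc2
    rw [if_neg hp3, one_mul]
    by_cases hB : ∃ s ∈ l, p ∣ s.val
    · rw [if_pos ((hBP p).2 (Or.inr hB)), if_pos hB]
    · rw [if_neg (fun h => not_or.2 ⟨not_not.2 hpd, hB⟩ ((hBP p).1 h)), if_neg hB]
  rw [h4]
  have h5 : ∏ p ∈ G.primeFactors, Real.sqrt p ≤ Real.sqrt G := by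
    rw [← Real.sqrt_prod _ (fun p _ => Nat.cast_nonneg p)]
    apply Real.sqrt_le_sqrt
    rw [← Nat.cast_prod]
    exact_mod_cast Nat.le_of_dvd (Nat.pos_of_ne_zero hG) (Nat.prod_primeFactors_dvd G)
  have hg : 0 ≤ gam l := by linarith [one_le_gam l]
  have hCp : 0 ≤ C₁ ^ G.primeFactors.card := by positivity
  gcongr

end Pool.Agent.Work.AV.NGaux
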