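import Pool.Agent.Work.AV081200.Interface

/-!
# MP_081200_nt: block NG, restricted form (moduli `G ≤ B ^ (1 - ε)`)
-/

set_option autoImplicit false

namespace Pool.Agent.Work.AV

open Finset Pool.Agent.Work.LV Pool.Agent.Work.LV.M Pool.Agent.Work.SC

/-- Block NG, restricted form. Short sums of a character with several shifts times a smooth
periodic function. -/
def Stmt_NGr : Prop :=
  ∀ (s L : ℕ) (ε κ : ℝ), 0 < ε → 0 < κ → ∃ δ : ℝ, 0 < δ ∧ ∃ Q0 : ℝ, ∀ Q : ℝ, Q0 ≤ Q →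
    ∀ B : ℕ, Q ^ ε ≤ (B : ℝ) → (B : ℝ) ≤ Q →
    ∀ (G : ℕ) [NeZero G] (ω : DirichletCharacter ℂ G), LocPrim ω → ω ^ 3 = 1 →
      Q ^ κ ≤ (G : ℝ) → (G : ℝ) ≤ (B : ℝ) ^ (1 - ε) →
      (∀ p : ℕ, p.Prime → p ∣ G → s < p ∧ p % 3 = 1) →
      ∀ (y : Fin s → ℤ) (c : Fin s → ℕ),
        (∀ p : ℕ, p.Prime → p ∣ G → ∃ t : ZMod p,
          ∑ i, (if ((y i : ℤ) : ZMod p) = t then (c i : ZMod 3) else 0) ≠ 0) →
        ∀ (l : List ℕ) (A : ℤ → ℂ), l.length ≤ L →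
          (∀ f ∈ l, 1 ≤ f ∧ (f : ℝ) ≤ (B : ℝ) ^ (1 - ε) ∧ f.Coprime G) →
          Per (l.map fun f => (f, 1)) A →
            ‖SB B fun a => A a * ∏ i, ω (((y i : ℤ) : ZMod G) + (a : ZMod G)) ^ c i‖ ≤
              B * Q ^ (-δ)

end Pool.Agent.Work.AV
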